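import Mathlib

set_option autoImplicit false
set_option linter.unusedVariables false
set_option linter.unusedSectionVars false

namespace Pool.Agent.Helper16

open MvPolynomial Module

section general

variable {n : ℕ}

theorem isHomogeneous_of_eval {p : MvPolynomial (Fin n) ℂ} {d : ℕ}
    (h : ∀ (a : ℂ) (z : Fin n → ℂ), eval (a • z) p = a ^ d * eval z p) : p.IsHomogeneous d := by
  have hcomp : ∀ (i : ℕ) (a : ℂ) (z : Fin n → ℂ), eval (a • z) (homogeneousComponent i p) =
      a ^ i * eval z (homogeneousComponent i p) := by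
    intro i a z
    have hi := homogeneousComponent_isHomogeneous i p
    rw [eval_eq, eval_eq, Finset.mul_sum]
    refine Finset.sum_congr rfl fun m hm => ?_
    have hn := hi.degree_eq_sum_deg_support hm
    simp only [Pi.smul_apply, smul_eq_mul, mul_pow]
    rw [Finset.prod_mul_distrib, Finset.prod_pow_eq_pow_sum, ← hn]
    ring
  have key : ∀ k, k ≠ d → homogeneousComponent k p = 0 := by
    intro k hk
    apply MvPolynomial.funext
    intro z
    let Q : Polynomial ℂ := ∑ i ∈ Finset.range (p.totalDegree + 1),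
      Polynomial.C (eval z (homogeneousComponent i p)) * Polynomial.X ^ i -
      Polynomial.C (eval z p) * Polynomial.X ^ d
    have hQ : Q = 0 := by
      apply Polynomial.funext
      intro a
      simp only [Q, Polynomial.eval_sub, Polynomial.eval_finsetSum, Polynomial.eval_mul,
        Polynomial.eval_C, Polynomial.eval_pow, Polynomial.eval_X, Polynomial.eval_zero]
      have h1 : eval (a • z) p = ∑ i ∈ Finset.range (p.totalDegree + 1),
          eval (a • z) (homogeneousComponent i p) := by
        rw [← map_sum, sum_homogeneousComponent]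
      rw [h] at h1
      simp only [hcomp] at h1
      rw [mul_comm (eval z p), h1, sub_eq_zero]
      refine Finset.sum_congr rfl fun i _ => ?_
      ring
    have h2 := congrArg (fun q => Polynomial.coeff q k) hQ
    simp only [Q, Polynomial.coeff_sub, Polynomial.finsetSum_coeff, Polynomial.coeff_C_mul,
      Polynomial.coeff_X_pow, Polynomial.coeff_zero, hk, if_false, mul_zero, sub_zero] at h2
    by_cases hk2 : k ∈ Finset.range (p.totalDegree + 1)
    · rw [Finset.sum_eq_single k] at h2
      · simpa using h2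
      · intro i _ hi; simp [hi.symm]
      · intro h; exact absurd hk2 h
    · rw [homogeneousComponent_eq_zero]
      simp only [Finset.mem_range, not_lt] at hk2; omega
  rw [← sum_homogeneousComponent p]
  apply IsHomogeneous.sum
  intro i _
  by_cases hi : i = d
  · subst hi; exact homogeneousComponent_isHomogeneous _ _
  · rw [key i hi]; exact isHomogeneous_zero _ _ _

theorem eval_smul_of_hom {p : MvPolynomial (Fin n) ℂ} {d : ℕ} (hp : p.IsHomogeneous d)
    (a : ℂ) (z : Fin n → ℂ) : eval (a • z) p = a ^ d * eval z p := by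
  rw [eval_eq, eval_eq, Finset.mul_sum]
  refine Finset.sum_congr rfl fun m hm => ?_
  have hn := hp.degree_eq_sum_deg_support hm
  simp only [Pi.smul_apply, smul_eq_mul, mul_pow]
  rw [Finset.prod_mul_distrib, Finset.prod_pow_eq_pow_sum, ← hn]
  ring

/-- generic scaling -/
noncomputable def scal : MvPolynomial (Fin n) ℂ →ₐ[ℂ] Polynomial (MvPolynomial (Fin n) ℂ) :=
  aeval (fun i => Polynomial.X * Polynomial.C (X i))

theorem eval_scal (a : ℂ) (z : Fin n → ℂ) (p : MvPolynomial (Fin n) ℂ) :
    (scal p).eval₂ (eval z) a = eval (a • z) p := by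
  have : (Polynomial.eval₂RingHom (eval z) a).comp
      (scal (n := n) : MvPolynomial (Fin n) ℂ →+* Polynomial (MvPolynomial (Fin n) ℂ)) =
      eval (a • z) := by
    apply MvPolynomial.ringHom_ext
    · intro r
      simp [scal]
    · intro i
      simp [scal]
      ring
  exact DFunLike.congr_fun this p

theorem scal_hom {p : MvPolynomial (Fin n) ℂ} {d : ℕ} (hp : p.IsHomogeneous d) :
    scal p = Polynomial.X ^ d * Polynomial.C p := by
  rw [scal, aeval_def, eval₂_eq]
  have h1 : (Polynomial.C p : Polynomial (MvPolynomial (Fin n) ℂ)) = ∑ m ∈ p.support,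
      Polynomial.C (C (coeff m p) * ∏ i ∈ m.support, X i ^ m i) := by
    rw [← map_sum]
    congr 1
    conv_lhs => rw [← eval₂_eta p, eval₂_eq]
  rw [h1, Finset.mul_sum]
  refine Finset.sum_congr rfl fun m hm => ?_
  have hn := hp.degree_eq_sum_deg_support hm
  simp only [mul_pow]
  rw [Finset.prod_mul_distrib, Finset.prod_pow_eq_pow_sum, ← hn, map_mul, map_prod]
  simp only [map_pow]
  have : (algebraMap ℂ (Polynomial (MvPolynomial (Fin n) ℂ))) (coeff m p) =
    Polynomial.C (C (coeff m p)) := rfl
  rw [this]; ring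

/-- factors of homogeneous polynomials are homogeneous -/
theorem hom_factor {p q : MvPolynomial (Fin n) ℂ} {d : ℕ} (h : (p * q).IsHomogeneous d)
    (h0 : p * q ≠ 0) : ∃ a b, p.IsHomogeneous a ∧ q.IsHomogeneous b ∧ a + b = d := by
  have hp0 : p ≠ 0 := left_ne_zero_of_mul h0
  have hq0 : q ≠ 0 := right_ne_zero_of_mul h0
  have hinj : ∀ r : MvPolynomial (Fin n) ℂ, r ≠ 0 → scal r ≠ 0 := by
    intro r hr hs
    apply hr
    apply MvPolynomial.funext
    intro z
    have := eval_scal 1 z r
    rw [hs, one_smul] at this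
    simpa using this.symm
  have hs : scal p * scal q = Polynomial.X ^ d * Polynomial.C (p * q) := by
    rw [← map_mul, scal_hom h]
  have hnd : (scal p * scal q).natDegree = d := by
    rw [hs, mul_comm, Polynomial.natDegree_C_mul_X_pow _ _ h0]
  have hntd : (scal p * scal q).natTrailingDegree = d := by
    rw [hs, mul_comm, Polynomial.C_mul_X_pow_eq_monomial, Polynomial.natTrailingDegree_monomial h0]
  rw [Polynomial.natDegree_mul (hinj p hp0) (hinj q hq0)] at hnd
  rw [Polynomial.natTrailingDegree_mul (hinj p hp0) (hinj q hq0)] at hntd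
  have hmono : ∀ r : MvPolynomial (Fin n) ℂ, (scal r).natTrailingDegree = (scal r).natDegree →
      r.IsHomogeneous (scal r).natDegree := by
    intro r hr
    have h1 : scal r = Polynomial.C ((scal r).coeff (scal r).natDegree) *
        Polynomial.X ^ (scal r).natDegree := by
      ext1 k
      rw [Polynomial.coeff_C_mul, Polynomial.coeff_X_pow]
      rcases lt_trichotomy k (scal r).natDegree with hk | hk | hk
      · rw [Polynomial.coeff_eq_zero_of_lt_natTrailingDegree (by omega)]
        simp [hk.ne]
      · simp [hk]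
      · rw [Polynomial.coeff_eq_zero_of_natDegree_lt hk]
        simp [hk.ne']
    have h2 : ∀ (a : ℂ) (z : Fin n → ℂ), eval (a • z) r =
        a ^ (scal r).natDegree * eval z ((scal r).coeff (scal r).natDegree) := by
      intro a z
      rw [← eval_scal]
      conv_lhs => rw [h1]
      rw [Polynomial.eval₂_mul, Polynomial.eval₂_C, Polynomial.eval₂_X_pow]; ring
    apply isHomogeneous_of_eval
    intro a z
    rw [h2 a z]
    have := h2 1 z
    rw [one_smul, one_pow, one_mul] at this
    rw [this]
  have hle1 := Polynomial.natTrailingDegree_le_natDegree (scal p)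
  have hle2 := Polynomial.natTrailingDegree_le_natDegree (scal q)
  exact ⟨_, _, hmono p (by omega), hmono q (by omega), hnd⟩

theorem null_lite {π g : MvPolynomial (Fin n) ℂ} (hπ : Irreducible π)
    (h : ∀ z, eval z π = 0 → eval z g = 0) : π ∣ g := by
  have hp : (Ideal.span {π}).IsPrime := (Ideal.span_singleton_prime hπ.ne_zero).mpr hπ.prime
  have h1 : g ∈ vanishingIdeal ℂ (zeroLocus ℂ (Ideal.span {π})) := by
    rw [mem_vanishingIdeal_iff]
    intro x hx
    rw [mem_zeroLocus_iff] at hx
    have h2 := hx π (Ideal.mem_span_singleton_self π)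
    rw [aeval_eq_eval] at h2 ⊢
    exact h x h2
  rw [IsPrime.vanishingIdeal_zeroLocus] at h1
  exact Ideal.mem_span_singleton.mp h1

end general

/-- linear form as a polynomial -/
noncomputable def linp {n : ℕ} (l : (Fin n → ℂ) →ₗ[ℂ] ℂ) : MvPolynomial (Fin n) ℂ :=
  ∑ k, C (l (Pi.single k 1)) * X k

theorem eval_linp {n : ℕ} (l : (Fin n → ℂ) →ₗ[ℂ] ℂ) (z : Fin n → ℂ) : eval z (linp l) = l z := by
  have hz : z = ∑ k, z k • (Pi.single k 1 : Fin n → ℂ) := by
    funext i
    simp only [Finset.sum_apply, Pi.smul_apply, smul_eq_mul, Pi.single_apply]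
    simp
  conv_rhs => rw [hz]
  simp only [linp, map_sum, map_mul, eval_C, eval_X, map_smul, smul_eq_mul]
  refine Finset.sum_congr rfl fun i _ => ?_
  ring

theorem linp_hom {n : ℕ} (l : (Fin n → ℂ) →ₗ[ℂ] ℂ) : (linp l).IsHomogeneous 1 := by
  apply IsHomogeneous.sum
  intro i _
  exact (isHomogeneous_X _ _).C_mul _

theorem linp_ne_zero {n : ℕ} {l : (Fin n → ℂ) →ₗ[ℂ] ℂ} (hl : l ≠ 0) : linp l ≠ 0 := by
  intro h
  apply hl
  refine LinearMap.ext fun x => ?_
  rw [← eval_linp, h]; simp

theorem linp_irreducible {n : ℕ} {l : (Fin n → ℂ) →ₗ[ℂ] ℂ} (hl : l ≠ 0) :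
    Irreducible (linp l) := by
  apply irreducible_of_totalDegree_eq_one
  · exact (linp_hom l).totalDegree (linp_ne_zero hl)
  · intro x hx
    rw [isUnit_iff_ne_zero]
    rintro rfl
    apply linp_ne_zero hl
    ext1 m
    have := hx m
    rw [zero_dvd_iff] at this
    simpa using this

theorem X_irreducible {n : ℕ} (i : Fin n) : Irreducible (X i : MvPolynomial (Fin n) ℂ) := by
  have h : linp (LinearMap.proj i : (Fin n → ℂ) →ₗ[ℂ] ℂ) = X i := by
    apply MvPolynomial.funext
    intro z
    rw [eval_linp]; simp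
  rw [← h]
  apply linp_irreducible
  intro h0
  have := LinearMap.congr_fun h0 (Pi.single i 1)
  simp at this

theorem exists_ne_zero_root {n : ℕ} {π : MvPolynomial (Fin (n + 2)) ℂ} (hπ : Irreducible π) :
    ∃ z, z ≠ 0 ∧ eval z π = 0 := by
  by_contra hcon
  push Not at hcon
  have h : ∀ i, π ∣ X i := by
    intro i
    apply null_lite hπ
    intro z hz
    have : z = 0 := by
      by_contra hne
      exact hcon z hne hz
    rw [this]; simp
  have hX : ∀ i : Fin (n + 2), Irreducible (X i : MvPolynomial (Fin (n + 2)) ℂ) := fun i =>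
    X_irreducible i
  have h01 : (X 0 : MvPolynomial (Fin (n + 2)) ℂ) ∣ X 1 :=
    ((hπ.dvd_irreducible_iff_associated (hX 0)).mp (h 0)).symm.dvd.trans (h 1)
  rw [X_dvd_X] at h01
  simp at h01

/-- a nonunit has a nonzero zero -/
theorem exists_root_of_not_unit {n : ℕ} {d : MvPolynomial (Fin (n + 2)) ℂ} (hd : ¬ IsUnit d) :
    ∃ z, z ≠ 0 ∧ eval z d = 0 := by
  by_cases h0 : d = 0
  · refine ⟨Pi.single 0 1, ?_, by rw [h0]; simp⟩
    intro h
    have := congrFun h 0
    simp at this
  · obtain ⟨π, hπ, hdvd⟩ := WfDvdMonoid.exists_irreducible_factor hd h0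
    obtain ⟨z, hz, hz0⟩ := exists_ne_zero_root hπ
    refine ⟨z, hz, ?_⟩
    obtain ⟨e, rfl⟩ := hdvd
    rw [map_mul, hz0, zero_mul]

end Pool.Agent.Helper16
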