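import Pool.Agent.Helper16.CubicHom
import Pool.Agent.Helper16.CubicPoly

set_option autoImplicit false
set_option linter.unusedVariables false
set_option linter.unusedSectionVars false

/-!
A smooth cubic fourfold whose function field is generated by four elements is rational.
-/

namespace Pool.Agent.Helper16

open MvPolynomial Module

variable {F : MvPolynomial (Fin 6) ℂ}

/-- a field generated by four elements containing four algebraically independent ones -/
theorem equiv_of_gen {K : Type} [Field K] [Algebra ℂ K] (x r : Fin 4 → K)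
    (hx : AlgebraicIndependent ℂ x) (hr : IntermediateField.adjoin ℂ (Set.range r) = ⊤) :
    Nonempty (K ≃ₐ[ℂ] FractionRing (MvPolynomial (Fin 4) ℂ)) := by
  have halg : Algebra.IsAlgebraic (Algebra.adjoin ℂ (Set.range r)) K := by
    constructor
    intro y
    have hy : y ∈ IntermediateField.adjoin ℂ (Set.range r) := by rw [hr]; trivial
    obtain ⟨a, ha, b, hb, hab⟩ := IntermediateField.mem_adjoin_iff_div.mp hy
    by_cases hb0 : b = 0
    · have hy0 : y = 0 := by rw [hab, hb0, div_zero]
      rw [hy0]; exact isAlgebraic_zero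
    · refine ⟨Polynomial.C ⟨b, hb⟩ * Polynomial.X - Polynomial.C ⟨a, ha⟩, ?_, ?_⟩
      · intro h0
        have h1 := congrArg (fun p => Polynomial.coeff p 1) h0
        simp [Polynomial.coeff_C] at h1
        exact hb0 (congrArg Subtype.val h1)
      · simp only [map_sub, map_mul, Polynomial.aeval_C, Polynomial.aeval_X]
        change b * y - a = 0
        rw [hab]; field_simp; ring
  have hle : Cardinal.lift.{0} (Cardinal.mk (Fin 4)) ≤ Cardinal.lift.{0} (Algebra.trdeg ℂ K) :=
    hx.lift_cardinalMk_le_trdeg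
  have hb : IsTranscendenceBasis ℂ r :=
    Algebra.IsAlgebraic.isTranscendenceBasis_of_lift_le_trdeg_of_finite ℂ r hle
  have e1 := hb.1.aevalEquivField
  have e2 : (IntermediateField.adjoin ℂ (Set.range r)) ≃ₐ[ℂ] K :=
    (IntermediateField.equivOfEq hr).trans IntermediateField.topEquiv
  exact ⟨(e1.trans e2).symm⟩

/-- four coordinates on the hypersurface are algebraically independent -/
theorem exists_indep (hF : F.IsHomogeneous 3) (hs : Smooth F) {K : Type} [Field K] [Algebra ℂ K]
    (θ : MvPolynomial (Fin 5) ℂ →ₐ[ℂ] K) (hθ : ∀ q, θ q = 0 → dh F ∣ q) :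
    ∃ x : Fin 4 → K, AlgebraicIndependent ℂ x := by
  classical
  have h3 := totalDegree_dh hF hs
  have hne : dh F ≠ 0 := by
    intro h; rw [h] at h3; simp at h3
  obtain ⟨i, hi⟩ : ∃ i, degreeOf i (dh F) ≠ 0 := by
    by_contra hcon
    push Not at hcon
    have h4 : (dh F).totalDegree = 0 := by
      rw [totalDegree_eq_zero_iff]
      intro m hm j
      have h5 := hcon j
      rw [degreeOf_eq_sup] at h5
      have h6 := Finset.le_sup (f := fun m : Fin 5 →₀ ℕ => m j) hm
      rw [h5] at h6
      exact Nat.le_zero.mp h6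
    omega
  refine ⟨fun j => θ (X (i.succAbove j)), ?_⟩
  rw [algebraicIndependent_iff]
  intro p hp
  have e1 : θ (rename i.succAbove p) = 0 := by
    have : θ.comp (rename i.succAbove) = aeval (fun j => θ (X (i.succAbove j))) := by
      apply MvPolynomial.algHom_ext
      intro j
      simp
    have h2 := DFunLike.congr_fun this p
    rw [AlgHom.comp_apply] at h2
    rw [h2]; exact hp
  obtain ⟨q, hq⟩ := hθ _ e1
  by_contra hp0
  have hr0 : rename i.succAbove p ≠ 0 := by
    intro h
    exact hp0 (rename_injective _ (Fin.succAbove_right_injective) (by rw [h, map_zero]))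
  have hq0 : q ≠ 0 := by
    rintro rfl
    rw [mul_zero] at hq
    exact hr0 hq
  have h5 := degreeOf_mul_eq (n := i) hne hq0
  rw [← hq] at h5
  have h6 : degreeOf i (rename i.succAbove p) = 0 := by
    rw [degreeOf_eq_sup]
    refine Nat.le_zero.mp (Finset.sup_le fun m hm => ?_)
    by_contra hmi
    have hmi : m i ≠ 0 := by
      intro h; apply hmi; rw [h]
    have h7 : i ∈ (rename i.succAbove p).vars := by
      rw [mem_vars_iff_mem_support]
      exact ⟨m, hm, Finsupp.mem_support_iff.mpr hmi⟩
    have h8 := vars_rename i.succAbove p h7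
    obtain ⟨j, _, hj⟩ := Finset.mem_image.mp h8
    exact Fin.succAbove_ne i j hj
  omega

/-- rationality from four generators of the function field: `w` is a basis, `y` the coordinates
of the generic point -/
theorem rational_of_generators (hF : F.IsHomogeneous 3) (hs : Smooth F)
    (H : ∀ (K : Type) [Field K] [Algebra ℂ K] (x : Fin 6 → K), aeval x F = 0 →
      (∀ (G : MvPolynomial (Fin 6) ℂ) (n : ℕ), G.IsHomogeneous n → aeval x G = 0 → F ∣ G) →
      ∃ (r : Fin 4 → K) (τ : K), τ ≠ 0 ∧
        ∀ m, τ * x m ∈ IntermediateField.adjoin ℂ (Set.range r)) :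
    Nonempty (FractionRing (MvPolynomial (Fin 5) ℂ ⧸ Ideal.span {dh F}) ≃ₐ[ℂ]
      FractionRing (MvPolynomial (Fin 4) ℂ)) := by
  have hirr := irreducible_dh hF hs
  have hprime : (Ideal.span {dh F}).IsPrime :=
    (Ideal.span_singleton_prime hirr.ne_zero).mpr hirr.prime
  have : IsDomain (MvPolynomial (Fin 5) ℂ ⧸ Ideal.span {dh F}) := Ideal.Quotient.isDomain _
  let A := MvPolynomial (Fin 5) ℂ ⧸ Ideal.span {dh F}
  let K := FractionRing A
  let π : MvPolynomial (Fin 5) ℂ →ₐ[ℂ] A := Ideal.Quotient.mkₐ ℂ _
  let ιA : A →ₐ[ℂ] K := IsScalarTower.toAlgHom ℂ A K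
  have hιA : Function.Injective ιA := IsFractionRing.injective A K
  let θ : MvPolynomial (Fin 5) ℂ →ₐ[ℂ] K := ιA.comp π
  have hθ : ∀ q, θ q = 0 → dh F ∣ q := by
    intro q hq
    have : π q = 0 := hιA (by rw [map_zero]; exact hq)
    exact Ideal.mem_span_singleton.mp (Ideal.Quotient.eq_zero_iff_mem.mp this)
  have hθF : θ (dh F) = 0 := by
    have : π (dh F) = 0 := Ideal.Quotient.eq_zero_iff_mem.mpr (Ideal.mem_span_singleton_self _)
    change ιA (π (dh F)) = 0
    rw [this, map_zero]
  let xh : Fin 6 → K := fun m => θ ((Fin.cons 1 X : Fin 6 → MvPolynomial (Fin 5) ℂ) m)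
  have hxh : ∀ G : MvPolynomial (Fin 6) ℂ, aeval xh G = θ (dh G) := by
    intro G
    have : (aeval xh : MvPolynomial (Fin 6) ℂ →ₐ[ℂ] K) = θ.comp dh := by
      apply MvPolynomial.algHom_ext
      intro i
      rw [aeval_X, AlgHom.comp_apply]
      change _ = θ (aeval _ (X i))
      rw [aeval_X]
    rw [this]; rfl
  -- irreducibility of the form itself
  have hF0 : F ≠ 0 := by
    rintro rfl
    apply hirr.ne_zero
    rw [map_zero]
  have hFirr : Irreducible F := by
    constructor
    · intro hu
      have h1 := MvPolynomial.isUnit_iff_totalDegree_of_isReduced.mp hu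
      have h2 := hF.totalDegree hF0
      omega
    · intro a b hab
      obtain ⟨m, e, ha, hb, hme⟩ := hom_factor (by rw [← hab]; exact hF) (by rw [← hab]; exact hF0)
      have ha0 : a ≠ 0 := by rintro rfl; apply hF0; rw [hab, zero_mul]
      have hb0 : b ≠ 0 := by rintro rfl; apply hF0; rw [hab, mul_zero]
      have hunit : ∀ g : MvPolynomial (Fin 6) ℂ, g ≠ 0 → g.IsHomogeneous 0 → IsUnit g := by
        intro g hg hd
        rw [← totalDegree_zero_iff_isHomogeneous, totalDegree_eq_zero_iff_eq_C] at hd
        rw [hd]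
        apply IsUnit.map
        rw [isUnit_iff_ne_zero]
        intro h0; apply hg; rw [hd, h0, map_zero]
      have hcases : m = 0 ∨ m = 1 ∨ m = 2 ∨ m = 3 := by omega
      rcases hcases with rfl | rfl | rfl | rfl
      · exact Or.inl (hunit a ha0 ha)
      · exact (not_factor hF hs ha hab).elim
      · have he : e = 1 := by omega
        subst he
        exact (not_factor hF hs hb (by rw [hab, mul_comm])).elim
      · have he : e = 0 := by omega
        subst he
        exact Or.inr (hunit b hb0 hb)
  have hdvd : ∀ (G : MvPolynomial (Fin 6) ℂ) (n : ℕ), G.IsHomogeneous n → dh F ∣ dh G → F ∣ G := by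
    rintro G n hG ⟨q, hq⟩
    set d := q.totalDegree with hd
    have h1 : (F * hmg d q).IsHomogeneous (3 + d) := hF.mul (hmg_hom d q)
    have h2 : dh (F * hmg d q) = dh G := by rw [map_mul, dh_hmg le_rfl, hq]
    have hX : dh (X 0) = 1 := by simp [dh]
    rcases le_total (3 + d) n with h | h
    · have h3 : (X 0 ^ (n - (3 + d)) * (F * hmg d q)).IsHomogeneous n := by
        have := (isHomogeneous_X_pow (R := ℂ) (0 : Fin 6) (n - (3 + d))).mul h1
        rwa [Nat.sub_add_cancel h] at this
      have h4 : dh (G - X 0 ^ (n - (3 + d)) * (F * hmg d q)) = 0 := by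
        rw [map_sub, map_mul, map_pow, hX, one_pow, one_mul, h2, sub_self]
      have h5 := sub_eq_zero.mp (dh_inj (hG.sub h3) h4)
      rw [h5]
      exact ⟨X 0 ^ (n - (3 + d)) * hmg d q, by ring⟩
    · have h3 : (X 0 ^ (3 + d - n) * G).IsHomogeneous (3 + d) := by
        have := (isHomogeneous_X_pow (R := ℂ) (0 : Fin 6) (3 + d - n)).mul hG
        rwa [Nat.sub_add_cancel h] at this
      have h4 : dh (X 0 ^ (3 + d - n) * G - F * hmg d q) = 0 := by
        rw [map_sub, map_mul, map_pow, hX, one_pow, one_mul, h2, sub_self]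
      have h5 := sub_eq_zero.mp (dh_inj (h3.sub h1) h4)
      have hp := hFirr.prime
      rcases hp.dvd_or_dvd ⟨hmg d q, h5⟩ with h6 | h6
      · exfalso
        have h7 := hp.dvd_of_dvd_pow h6
        obtain ⟨k, hk⟩ := h7
        have hk0 : k ≠ 0 := by
          rintro rfl
          rw [mul_zero] at hk
          exact X_ne_zero _ hk
        have h8 := totalDegree_mul_of_isDomain hF0 hk0
        rw [← hk, totalDegree_X, hF.totalDegree hF0] at h8
        omega
      · exact h6
  obtain ⟨r, τ, hτ, hr⟩ := H K xh (by rw [hxh, hθF]) (by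
    intro G n hG h0
    rw [hxh] at h0
    exact hdvd G n hG (hθ _ h0))
  obtain ⟨x, hx⟩ := exists_indep hF hs θ hθ
  refine equiv_of_gen x r hx ?_
  set L := IntermediateField.adjoin ℂ (Set.range r) with hL
  have hτL : τ ∈ L := by
    have h1 := hr 0
    have h2 : xh 0 = 1 := by
      change θ ((Fin.cons 1 X : Fin 6 → MvPolynomial (Fin 5) ℂ) 0) = 1
      simp
    rwa [h2, mul_one] at h1
  have hxL : ∀ j : Fin 5, θ (X j) ∈ L := by
    intro j
    have h1 := hr j.succ
    have h2 : xh j.succ = θ (X j) := by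
      change θ ((Fin.cons 1 X : Fin 6 → MvPolynomial (Fin 5) ℂ) j.succ) = _
      simp
    rw [h2] at h1
    have h3 : θ (X j) = τ⁻¹ * (τ * θ (X j)) := by
      rw [← mul_assoc, inv_mul_cancel₀ hτ, one_mul]
    rw [h3]
    exact L.mul_mem (L.inv_mem hτL) h1
  have hpL : ∀ p, θ p ∈ L := by
    intro p
    induction p using MvPolynomial.induction_on with
    | C a =>
      have : θ (C a) = algebraMap ℂ K a := θ.commutes a
      rw [this]; exact L.algebraMap_mem a
    | add p q hp hq => rw [map_add]; exact L.add_mem hp hq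
    | mul_X p j hp => rw [map_mul]; exact L.mul_mem hp (hxL j)
  rw [eq_top_iff]
  intro y _
  obtain ⟨a, b, hb, rfl⟩ := IsFractionRing.div_surjective (A := A) y
  obtain ⟨a', ha'⟩ := Ideal.Quotient.mkₐ_surjective ℂ (Ideal.span {dh F}) a
  obtain ⟨b', hb'⟩ := Ideal.Quotient.mkₐ_surjective ℂ (Ideal.span {dh F}) b
  have e1 : algebraMap A K a = θ a' := by rw [← ha']; rfl
  have e2 : algebraMap A K b = θ b' := by rw [← hb']; rfl
  rw [e1, e2]
  exact L.div_mem (hpL a') (hpL b')

end Pool.Agent.Helper16
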