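import Pool.Agent.Helper16.CubicData

set_option autoImplicit false
set_option linter.unusedVariables false
set_option linter.unusedSectionVars false

namespace Pool.Agent.Helper16

open MvPolynomial Module

namespace Cub

variable {c : Cub (I6 → ℂ)}

theorem nf_YY (z x y : Fin 3 → ℂ) :
    c.nf z (mk4 x 0) (mk4 y 0) = c.T (iY ℂ x) (iY ℂ y) (iZ ℂ z) := by
  rw [nf_complex, vY_mk4, vY_mk4]; simp

theorem nf_iso {W : Submodule ℂ (I6 → ℂ)} (hP : c.Iso P0) (hW : c.Iso W) {z : Fin 3 → ℂ}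
    {v : Fin 4 → ℂ} (hv : pt z v ∈ W) (h3 : v 3 ≠ 0) : c.nf z v v = 0 := by
  have h := T_pt hP z v
  rw [hW _ hv] at h
  have h2 : 3 * v 3 ≠ 0 := mul_ne_zero (by norm_num) h3
  exact (mul_eq_zero.mp h.symm).resolve_left h2

theorem nf_iso_Y {W : Submodule ℂ (I6 → ℂ)} (hP : c.Iso P0) (hW : c.Iso W) {z : Fin 3 → ℂ}
    {v : Fin 4 → ℂ} (hv : pt z v ∈ W) (h3 : v 3 ≠ 0) {y : Fin 3 → ℂ} (hy : iY ℂ y ∈ W) :
    c.nf z v (mk4 y 0) = 0 := by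
  have h := T_pt_Y hP z v (mk4 y 0) rfl
  rw [vY_mk4, hW.two hv hy] at h
  have h2 : 2 * v 3 ≠ 0 := mul_ne_zero (by norm_num) h3
  exact (mul_eq_zero.mp h.symm).resolve_left h2

/-- the section polynomial -/
noncomputable def sp (c : Cub (I6 → ℂ)) (x f1 f2 : Fin 3 → ℂ)
    (φ : (Fin 3 → ℂ) →ₗ[ℂ] (Fin 3 → ℂ)) : R3 :=
  c.nf (X : Fin 3 → R3) (mk4 (fun a => C (x a)) 0) (mk4 (fun a => C (f1 a)) 0) *
    c.nf (X : Fin 3 → R3) (mk4 (fun a => linp ((LinearMap.proj a).comp φ)) 1)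
      (mk4 (fun a => C (f2 a)) 0) -
  c.nf (X : Fin 3 → R3) (mk4 (fun a => C (x a)) 0) (mk4 (fun a => C (f2 a)) 0) *
    c.nf (X : Fin 3 → R3) (mk4 (fun a => linp ((LinearMap.proj a).comp φ)) 1)
      (mk4 (fun a => C (f1 a)) 0)

/-- value of the section polynomial -/
noncomputable def svv (c : Cub (I6 → ℂ)) (x f1 f2 : Fin 3 → ℂ)
    (φ : (Fin 3 → ℂ) →ₗ[ℂ] (Fin 3 → ℂ)) (z : Fin 3 → ℂ) : ℂ :=
  c.sv z (mk4 x 0) (mk4 (φ z) 1) (mk4 f1 0) (mk4 f2 0)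

theorem eval_sp (x f1 f2 : Fin 3 → ℂ) (φ : (Fin 3 → ℂ) →ₗ[ℂ] (Fin 3 → ℂ)) (z : Fin 3 → ℂ) :
    eval z (c.sp x f1 f2 φ) = c.svv x f1 f2 φ z := by
  have e1 : ∀ x : Fin 3 → ℂ, (fun i => aeval z (mk4 (fun a => (C (x a) : R3)) 0 i)) =
      mk4 x 0 := by
    intro x; funext i; fin_cases i <;> simp [mk4]
  have e2 : (fun i => aeval z (mk4 (fun a => (linp ((LinearMap.proj a).comp φ) : R3)) 1 i)) =
      mk4 (φ z) 1 := by
    funext i; fin_cases i <;> simp [mk4, aeval_eq_eval, eval_linp]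
  rw [sp, svv, sv, ← aeval_eq_eval]
  simp only [map_sub, map_mul, map_nf, aeval_X]
  rw [e1, e1, e1, e2]

theorem svv_scale (x f1 f2 : Fin 3 → ℂ) (φ : (Fin 3 → ℂ) →ₗ[ℂ] (Fin 3 → ℂ)) (a : ℂ)
    (z : Fin 3 → ℂ) : c.svv x f1 f2 φ (a • z) = a ^ 3 * c.svv x f1 f2 φ z := by
  have e1 : ∀ x : Fin 3 → ℂ, mk4 (fun i : Fin 3 => mk4 x (0 : ℂ) i.castSucc)
      (a * mk4 x (0 : ℂ) 3) = mk4 x 0 := by
    intro x; funext i; fin_cases i <;> simp [mk4]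
  have e2 : mk4 (fun i : Fin 3 => mk4 (φ (a • z)) (1 : ℂ) i.castSucc)
      (a * mk4 (φ (a • z)) (1 : ℂ) 3) = a • mk4 (φ z) 1 := by
    rw [map_smul]; funext i; fin_cases i <;> simp [mk4]
  rw [svv, svv, sv, sv]
  simp only [nf_scale a z, e1, e2]
  simp only [map_smul, LinearMap.smul_apply, smul_eq_mul]
  ring

theorem sp_hom (x f1 f2 : Fin 3 → ℂ) (φ : (Fin 3 → ℂ) →ₗ[ℂ] (Fin 3 → ℂ)) :
    (c.sp x f1 f2 φ).IsHomogeneous 3 := by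
  apply isHomogeneous_of_eval
  intro a z
  rw [eval_sp, eval_sp, svv_scale]

theorem det_std {x f1 f2 y : Fin 3 → ℂ} (h : d3 x f1 f2 = 1) :
    Matrix.det (Matrix.of ![mk4 x 0, mk4 f1 0, mk4 f2 0, mk4 y 1]) = 1 := by
  rw [det_rows, h]; ring

namespace AD

variable {W : Submodule ℂ (I6 → ℂ)} {x : Fin 3 → ℂ} {φ : (Fin 3 → ℂ) →ₗ[ℂ] (Fin 3 → ℂ)}

theorem h11 (h : c.AD W x φ) {z : Fin 3 → ℂ} (hz : c.tl x z = 0) :
    c.nf z (mk4 x 0) (mk4 x 0) = 0 := by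
  rw [nf_YY]; exact hz

theorem pt_mem (h : c.AD W x φ) {z : Fin 3 → ℂ} (hz : c.tl x z = 0) :
    pt z (mk4 (φ z) 1) ∈ W := by
  rw [pt_mk4, one_smul]; exact h.pW z hz

theorem h22 (hP : c.Iso P0) (hW : c.Pl W) (h : c.AD W x φ) {z : Fin 3 → ℂ}
    (hz : c.tl x z = 0) : c.nf z (mk4 (φ z) 1) (mk4 (φ z) 1) = 0 :=
  nf_iso hP hW.iso (h.pt_mem hz) one_ne_zero

theorem h12 (hP : c.Iso P0) (hW : c.Pl W) (h : c.AD W x φ) {z : Fin 3 → ℂ}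
    (hz : c.tl x z = 0) : c.nf z (mk4 x 0) (mk4 (φ z) 1) = 0 := by
  rw [nf_symm]
  exact nf_iso_Y hP hW.iso (h.pt_mem hz) one_ne_zero h.xW

theorem disc_eq (hP : c.Iso P0) (hW : c.Pl W) (h : c.AD W x φ) {f1 f2 : Fin 3 → ℂ}
    (hf : d3 x f1 f2 = 1) {z : Fin 3 → ℂ} (hz : c.tl x z = 0) :
    (c.Nm z).det = c.svv x f1 f2 φ z ^ 2 :=
  det_eq_sq z (h.h11 hz) (h.h12 hP hW hz) (h.h22 hP hW hz) (det_std hf)

theorem exists_t (hP : c.Iso P0) (hW : c.Pl W) (h : c.AD W x φ) {f1 f2 : Fin 3 → ℂ}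
    (hf : d3 x f1 f2 = 1) : ∃ t : R3, t.IsHomogeneous 5 ∧
      c.disc = c.sp x f1 f2 φ ^ 2 + linp (c.tl x) * t := by
  have hl := tl_ne_zero hP h.x0
  have hdvd : linp (c.tl x) ∣ c.disc - c.sp x f1 f2 φ ^ 2 := by
    apply null_lite (linp_irreducible hl)
    intro z hz
    rw [eval_linp] at hz
    rw [map_sub, map_pow, eval_disc, eval_sp, h.disc_eq hP hW hf hz, sub_self]
  obtain ⟨t, ht⟩ := hdvd
  have hhom : (linp (c.tl x) * t).IsHomogeneous 6 := by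
    rw [← ht]
    apply disc_hom.sub
    have := (sp_hom (c := c) x f1 f2 φ).pow 2
    exact this
  by_cases h0 : linp (c.tl x) * t = 0
  · refine ⟨0, isHomogeneous_zero _ _ _, ?_⟩
    rw [h0] at ht
    rw [mul_zero, add_zero]; exact sub_eq_zero.mp ht
  · obtain ⟨a, b, ha, hb, hab⟩ := hom_factor hhom h0
    have ha1 : a = 1 := ha.inj_right (linp_hom _) (linp_ne_zero hl)
    have hb5 : b = 5 := by omega
    subst hb5
    exact ⟨t, hb, by rw [← ht]; ring⟩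

end AD

end Cub

end Pool.Agent.Helper16
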