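import Pool.Agent.Helper16.CubicGeom

set_option autoImplicit false

namespace Pool.Agent.Helper16

open Module Submodule

variable {V : Type*} [AddCommGroup V] [Module ℂ V]

theorem finrank_inf_ker [FiniteDimensional ℂ V] (S : Submodule ℂ V) (f : Dual ℂ V)
    (h : ∃ x ∈ S, f x ≠ 0) : finrank ℂ (S ⊓ LinearMap.ker f : Submodule ℂ V) + 1 = finrank ℂ S := by
  obtain ⟨x, hxS, hx⟩ := h
  have h1 := LinearMap.finrank_range_add_finrank_ker (f.domRestrict S)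
  have h2 : finrank ℂ (LinearMap.range (f.domRestrict S)) = 1 := by
    have : LinearMap.range (f.domRestrict S) = ⊤ := by
      rw [LinearMap.range_eq_top]
      intro a
      refine ⟨(a / f x) • ⟨x, hxS⟩, ?_⟩
      simp [LinearMap.domRestrict_apply, div_mul_cancel₀ _ hx]
    rw [this, finrank_top]; simp
  have h3 : finrank ℂ (LinearMap.ker (f.domRestrict S)) =
      finrank ℂ (S ⊓ LinearMap.ker f : Submodule ℂ V) := by
    have : (S ⊓ LinearMap.ker f : Submodule ℂ V) =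
        (LinearMap.ker (f.domRestrict S)).map S.subtype := by
      ext y
      simp only [Submodule.mem_inf, LinearMap.mem_ker, Submodule.mem_map, Submodule.subtype_apply]
      constructor
      · rintro ⟨hy, hfy⟩
        exact ⟨⟨y, hy⟩, hfy, rfl⟩
      · rintro ⟨z, hz, rfl⟩
        exact ⟨z.2, hz⟩
    rw [this, Submodule.finrank_map_subtype_eq]
  omega

theorem exists_dual_one (S : Submodule ℂ V) {x : V} (hx : x ∉ S) :
    ∃ f : Dual ℂ V, f x = 1 ∧ ∀ y ∈ S, f y = 0 := by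
  obtain ⟨f, hfx, hf⟩ := Submodule.exists_le_ker_of_notMem hx
  refine ⟨(f x)⁻¹ • f, ?_, ?_⟩
  · simp [inv_mul_cancel₀ hfx]
  · intro y hy
    have := LinearMap.mem_ker.mp (hf hy)
    simp [this]

/-- planes of the cubic -/
structure Cub.Pl (c : Cub V) (W : Submodule ℂ V) : Prop where
  rank : finrank ℂ W = 3
  iso : c.Iso W

variable {c : Cub V} [FiniteDimensional ℂ V]

theorem Cub.Pl.exists_mem_notMem {W W' : Submodule ℂ V} (h : c.Pl W) (h' : c.Pl W')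
    (hne : W ≠ W') : ∃ r ∈ W, r ∉ W' := by
  by_contra hcon
  push Not at hcon
  apply hne
  exact Submodule.eq_of_le_of_finrank_eq hcon (by rw [h.rank, h'.rank])

/-- structure of the span of two collinear planes -/
theorem Cub.third (hV : finrank ℂ V = 6) {W₁ W₂ : Submodule ℂ V} (h₁ : c.Pl W₁) (h₂ : c.Pl W₂)
    (hne : W₁ ≠ W₂) (h12 : finrank ℂ (W₁ ⊓ W₂ : Submodule ℂ V) = 2) :
    ∃ W₃ : Submodule ℂ V, c.Pl W₃ ∧ W₃ ≠ W₁ ∧ W₃ ≠ W₂ ∧ W₃ ≤ W₁ ⊔ W₂ ∧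
      finrank ℂ (W₁ ⊓ W₃ : Submodule ℂ V) = 2 ∧ finrank ℂ (W₂ ⊓ W₃ : Submodule ℂ V) = 2 ∧
      ∀ S : Submodule ℂ V, c.Iso S → S ≤ W₁ ⊔ W₂ → S ≤ W₁ ∨ S ≤ W₂ ∨ S ≤ W₃ := by
  obtain ⟨r₁, hr₁, hr₁'⟩ := h₁.exists_mem_notMem h₂ hne
  obtain ⟨r₂, hr₂, hr₂'⟩ := h₂.exists_mem_notMem h₁ hne.symm
  obtain ⟨γ, hγ1, hγ⟩ := exists_dual_one W₂ hr₁'
  obtain ⟨δ, hδ1, hδ⟩ := exists_dual_one W₁ hr₂'
  have hU : finrank ℂ (W₁ ⊔ W₂ : Submodule ℂ V) = 4 := by
    have := Submodule.finrank_sup_add_finrank_inf_eq W₁ W₂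
    rw [h₁.rank, h₂.rank, h12] at this; omega
  -- the part of `W₁` killed by `γ` is the intersection
  have hk1 : W₁ ⊓ LinearMap.ker γ = W₁ ⊓ W₂ := by
    symm
    apply Submodule.eq_of_le_of_finrank_eq
    · exact le_inf inf_le_left (fun x hx => LinearMap.mem_ker.mpr (hγ x hx.2))
    · have := finrank_inf_ker W₁ γ ⟨r₁, hr₁, by rw [hγ1]; exact one_ne_zero⟩
      rw [h₁.rank] at this; omega
  have hk2 : W₂ ⊓ LinearMap.ker δ = W₁ ⊓ W₂ := by
    symm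
    apply Submodule.eq_of_le_of_finrank_eq
    · exact le_inf inf_le_right (fun x hx => LinearMap.mem_ker.mpr (hδ x hx.1))
    · have := finrank_inf_ker W₂ δ ⟨r₂, hr₂, by rw [hδ1]; exact one_ne_zero⟩
      rw [h₂.rank] at this; omega
  -- decomposition of elements
  have hdec : ∀ u ∈ W₁ ⊔ W₂, u - γ u • r₁ - δ u • r₂ ∈ W₁ ⊓ W₂ := by
    intro u hu
    obtain ⟨a, ha, b, hb, rfl⟩ := Submodule.mem_sup.mp hu
    have e1 : a - γ a • r₁ ∈ W₁ ⊓ W₂ := by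
      rw [← hk1]
      refine ⟨W₁.sub_mem ha (W₁.smul_mem _ hr₁), ?_⟩
      change γ (a - γ a • r₁) = 0
      rw [map_sub, map_smul, hγ1]; simp
    have e2 : b - δ b • r₂ ∈ W₁ ⊓ W₂ := by
      rw [← hk2]
      refine ⟨W₂.sub_mem hb (W₂.smul_mem _ hr₂), ?_⟩
      change δ (b - δ b • r₂) = 0
      rw [map_sub, map_smul, hδ1]; simp
    have e3 : a + b - γ (a + b) • r₁ - δ (a + b) • r₂ = (a - γ a • r₁) + (b - δ b • r₂) := by
      rw [map_add, map_add, hγ b hb, hδ a ha]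
      simp only [add_zero, zero_add]; abel
    rw [e3]
    exact Submodule.add_mem _ e1 e2
  set κ : Dual ℂ V := 2 • c.T r₁ r₂ - (c.T r₁ r₁ r₂) • γ - (c.T r₁ r₂ r₂) • δ with hκ
  have hκapp : ∀ u, κ u = 2 * c.T r₁ r₂ u - c.T r₁ r₁ r₂ * γ u - c.T r₁ r₂ r₂ * δ u := by
    intro u; simp [hκ]
  have hF : ∀ u ∈ W₁ ⊔ W₂, c.T u u u = 3 * γ u * δ u * κ u := by
    intro u hu
    have hm := hdec u hu
    set m := u - γ u • r₁ - δ u • r₂ with hmdef
    have hum : u = m + γ u • r₁ + δ u • r₂ := by rw [hmdef]; abel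
    have hA : m + γ u • r₁ ∈ W₁ := W₁.add_mem hm.1 (W₁.smul_mem _ hr₁)
    have hB : δ u • r₂ ∈ W₂ := W₂.smul_mem _ hr₂
    have hKm : κ u = 2 * c.T r₁ r₂ m + c.T r₁ r₁ r₂ * γ u + c.T r₁ r₂ r₂ * δ u := by
      rw [hκapp]
      have : c.T r₁ r₂ u = c.T r₁ r₂ m + γ u * c.T r₁ r₂ r₁ + δ u * c.T r₁ r₂ r₂ := by
        conv_lhs => rw [hum]
        simp only [map_add, map_smul, smul_eq_mul]
      rw [this, c.s23 r₁ r₂ r₁]; ring
    rw [hKm]
    conv_lhs => rw [hum]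
    rw [c.cube_add, h₁.iso _ hA, h₂.iso _ hB]
    have e1 : c.T (m + γ u • r₁) (m + γ u • r₁) (δ u • r₂) =
        δ u * (2 * γ u * c.T m r₁ r₂ + γ u ^ 2 * c.T r₁ r₁ r₂) := by
      simp only [map_add, LinearMap.add_apply, map_smul, LinearMap.smul_apply, smul_eq_mul]
      rw [h₂.iso.two hm.2 hr₂, c.s12 r₁ m r₂]; ring
    have e2 : c.T (m + γ u • r₁) (δ u • r₂) (δ u • r₂) = δ u ^ 2 * (γ u * c.T r₁ r₂ r₂) := by
      simp only [map_add, LinearMap.add_apply, map_smul, LinearMap.smul_apply, smul_eq_mul]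
      rw [h₂.iso.three hm.2 hr₂ hr₂]; ring
    rw [e1, e2, c.rot r₁ r₂ m, c.rot r₂ m r₁]; ring
  -- `κ` is nonzero on `W₁` and on `W₂`
  have hκ1 : ∃ x ∈ W₁, κ x ≠ 0 := by
    by_contra hcon
    push Not at hcon
    refine c.ns2 (W := W₁) (U := W₁ ⊔ W₂) (by omega) (by rw [h₁.rank]) ?_
    intro x hx u hu
    obtain ⟨a, ha, b, hb, rfl⟩ := Submodule.mem_sup.mp hu
    rw [map_add, h₁.iso.two hx ha, zero_add]
    have hbm : b - δ b • r₂ ∈ W₁ ⊓ W₂ := by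
      rw [← hk2]
      refine ⟨W₂.sub_mem hb (W₂.smul_mem _ hr₂), ?_⟩
      change δ (b - δ b • r₂) = 0
      rw [map_sub, map_smul, hδ1]; simp
    have hb2 : c.T x x b = δ b * c.T x x r₂ := by
      have : b = (b - δ b • r₂) + δ b • r₂ := by abel
      conv_lhs => rw [this]
      rw [map_add, h₁.iso.two hx hbm.1, map_smul, smul_eq_mul, zero_add]
    rw [hb2]
    -- T x x r₂ = γ x * κ x
    have hxm : x - γ x • r₁ ∈ W₁ ⊓ W₂ := by
      rw [← hk1]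
      refine ⟨W₁.sub_mem hx (W₁.smul_mem _ hr₁), ?_⟩
      change γ (x - γ x • r₁) = 0
      rw [map_sub, map_smul, hγ1]; simp
    have hk := hcon x hx
    rw [hκapp, hδ x hx, mul_zero, sub_zero] at hk
    set m := x - γ x • r₁ with hm
    have hxm' : x = m + γ x • r₁ := by rw [hm]; abel
    have e1 : c.T x x r₂ = γ x * (2 * c.T r₁ r₂ x - c.T r₁ r₁ r₂ * γ x) := by
      have e2 : c.T r₁ r₂ x = c.T m r₁ r₂ + γ x * c.T r₁ r₁ r₂ := by
        conv_lhs => rw [hxm']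
        rw [map_add, map_smul, smul_eq_mul, c.rot r₁ r₂ m, c.rot r₂ m r₁, c.s23 r₁ r₂ r₁]
      rw [e2]
      conv_lhs => rw [hxm']
      simp only [map_add, LinearMap.add_apply, map_smul, LinearMap.smul_apply, smul_eq_mul]
      rw [h₂.iso.two hxm.2 hr₂, c.s12 r₁ m r₂]; ring
    rw [e1, hk]; ring
  have hκ2 : ∃ x ∈ W₂, κ x ≠ 0 := by
    by_contra hcon
    push Not at hcon
    refine c.ns2 (W := W₂) (U := W₁ ⊔ W₂) (by omega) (by rw [h₂.rank]) ?_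
    intro x hx u hu
    obtain ⟨a, ha, b, hb, rfl⟩ := Submodule.mem_sup.mp hu
    rw [map_add, h₂.iso.two hx hb, add_zero]
    have ham : a - γ a • r₁ ∈ W₁ ⊓ W₂ := by
      rw [← hk1]
      refine ⟨W₁.sub_mem ha (W₁.smul_mem _ hr₁), ?_⟩
      change γ (a - γ a • r₁) = 0
      rw [map_sub, map_smul, hγ1]; simp
    have hb2 : c.T x x a = γ a * c.T x x r₁ := by
      have : a = (a - γ a • r₁) + γ a • r₁ := by abel
      conv_lhs => rw [this]
      rw [map_add, h₂.iso.two hx ham.2, map_smul, smul_eq_mul, zero_add]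
    rw [hb2]
    have hxm : x - δ x • r₂ ∈ W₁ ⊓ W₂ := by
      rw [← hk2]
      refine ⟨W₂.sub_mem hx (W₂.smul_mem _ hr₂), ?_⟩
      change δ (x - δ x • r₂) = 0
      rw [map_sub, map_smul, hδ1]; simp
    have hk := hcon x hx
    rw [hκapp, hγ x hx, mul_zero, sub_zero] at hk
    set m := x - δ x • r₂ with hm
    have hxm' : x = m + δ x • r₂ := by rw [hm]; abel
    have e1 : c.T x x r₁ = δ x * (2 * c.T r₁ r₂ x - c.T r₁ r₂ r₂ * δ x) := by
      have e2 : c.T r₁ r₂ x = c.T m r₁ r₂ + δ x * c.T r₁ r₂ r₂ := by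
        conv_lhs => rw [hxm']
        rw [map_add, map_smul, smul_eq_mul, c.rot r₁ r₂ m, c.rot r₂ m r₁]
      rw [e2]
      conv_lhs => rw [hxm']
      simp only [map_add, LinearMap.add_apply, map_smul, LinearMap.smul_apply, smul_eq_mul]
      rw [h₁.iso.two hxm.1 hr₁, c.s12 r₂ m r₁, c.s23 m r₂ r₁, c.s13 r₂ r₂ r₁]; ring
    rw [e1, hk]; ring
  have hκU : ∃ x ∈ W₁ ⊔ W₂, κ x ≠ 0 := by
    obtain ⟨x, hx, hx'⟩ := hκ1
    exact ⟨x, Submodule.mem_sup_left hx, hx'⟩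
  have hr3 := finrank_inf_ker _ κ hκU
  have hr13 := finrank_inf_ker _ κ hκ1
  have hr23 := finrank_inf_ker _ κ hκ2
  have i1 : W₁ ⊓ ((W₁ ⊔ W₂) ⊓ LinearMap.ker κ) = W₁ ⊓ LinearMap.ker κ := by
    rw [← inf_assoc, inf_eq_left.mpr (le_sup_left : W₁ ≤ W₁ ⊔ W₂)]
  have i2 : W₂ ⊓ ((W₁ ⊔ W₂) ⊓ LinearMap.ker κ) = W₂ ⊓ LinearMap.ker κ := by
    rw [← inf_assoc, inf_eq_left.mpr (le_sup_right : W₂ ≤ W₁ ⊔ W₂)]
  refine ⟨(W₁ ⊔ W₂) ⊓ LinearMap.ker κ, ⟨by omega, ?_⟩, ?_, ?_, inf_le_left, ?_, ?_, ?_⟩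
  · intro x hx
    rw [hF x hx.1, LinearMap.mem_ker.mp hx.2, mul_zero]
  · intro he
    have : finrank ℂ (W₁ ⊓ ((W₁ ⊔ W₂) ⊓ LinearMap.ker κ) : Submodule ℂ V) = 3 := by
      rw [he, inf_idem, h₁.rank]
    rw [i1] at this
    have := h₁.rank; omega
  · intro he
    have : finrank ℂ (W₂ ⊓ ((W₁ ⊔ W₂) ⊓ LinearMap.ker κ) : Submodule ℂ V) = 3 := by
      rw [he, inf_idem, h₂.rank]
    rw [i2] at this
    have := h₂.rank; omega
  · rw [i1]; have := h₁.rank; omega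
  · rw [i2]; have := h₂.rank; omega
  · intro S hS hSU
    by_contra hcon
    push Not at hcon
    obtain ⟨n1, n2, n3⟩ := hcon
    have key : ∀ i : Fin 3, ∃ x ∈ S, (![γ, δ, κ] i) x ≠ 0 := by
      intro i
      fin_cases i
      · obtain ⟨x, hx, hx'⟩ := SetLike.not_le_iff_exists.mp n2
        refine ⟨x, hx, ?_⟩
        change γ x ≠ 0
        intro h0
        apply hx'
        have := hdec x (hSU hx)
        rw [h0, zero_smul, sub_zero] at this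
        have h3 := W₂.add_mem this.2 (W₂.smul_mem (δ x) hr₂)
        rwa [sub_add_cancel] at h3
      · obtain ⟨x, hx, hx'⟩ := SetLike.not_le_iff_exists.mp n1
        refine ⟨x, hx, ?_⟩
        change δ x ≠ 0
        intro h0
        apply hx'
        have := hdec x (hSU hx)
        rw [h0, zero_smul, sub_zero] at this
        have h3 := W₁.add_mem this.1 (W₁.smul_mem (γ x) hr₁)
        rwa [sub_add_cancel] at h3
      · obtain ⟨x, hx, hx'⟩ := SetLike.not_le_iff_exists.mp n3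
        refine ⟨x, hx, ?_⟩
        change κ x ≠ 0
        intro h0
        exact hx' ⟨hSU hx, h0⟩
    obtain ⟨x, hxS, hx⟩ := Module.Dual.exists_forall_mem_ne_zero_of_forall_exists S ![γ, δ, κ] key
    have hx0 : γ x ≠ 0 := hx 0
    have hx1 : δ x ≠ 0 := hx 1
    have hx2 : κ x ≠ 0 := hx 2
    have h1 := hF x (hSU hxS)
    rw [hS x hxS] at h1
    have : (3 : ℂ) * γ x * δ x * κ x ≠ 0 := by
      refine mul_ne_zero (mul_ne_zero (mul_ne_zero ?_ hx0) hx1) hx2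
      norm_num
    exact this h1.symm

/-- exactly one of the three planes in the span is collinear with a given plane meeting all -/
theorem Cub.exactly_one (hV : finrank ℂ V = 6) {W₁ W₂ W₃ S : Submodule ℂ V} (h₁ : c.Pl W₁)
    (h₂ : c.Pl W₂) (h₃ : c.Pl W₃) (hS : c.Pl S)
    (h12 : finrank ℂ (W₁ ⊓ W₂ : Submodule ℂ V) = 2)
    (h13 : finrank ℂ (W₁ ⊓ W₃ : Submodule ℂ V) = 2)
    (h23 : finrank ℂ (W₂ ⊓ W₃ : Submodule ℂ V) = 2)
    (h3U : W₃ ≤ W₁ ⊔ W₂)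
    (hthree : ∀ S : Submodule ℂ V, c.Iso S → S ≤ W₁ ⊔ W₂ → S ≤ W₁ ∨ S ≤ W₂ ∨ S ≤ W₃)
    (hS1 : S ≠ W₁) (hS2 : S ≠ W₂) (hS3 : S ≠ W₃)
    (m1 : S ⊓ W₁ ≠ ⊥) (m2 : S ⊓ W₂ ≠ ⊥) (m3 : S ⊓ W₃ ≠ ⊥) :
    (finrank ℂ (S ⊓ W₁ : Submodule ℂ V) = 2 ∨ finrank ℂ (S ⊓ W₂ : Submodule ℂ V) = 2 ∨
      finrank ℂ (S ⊓ W₃ : Submodule ℂ V) = 2) ∧
    ¬ (finrank ℂ (S ⊓ W₁ : Submodule ℂ V) = 2 ∧ finrank ℂ (S ⊓ W₂ : Submodule ℂ V) = 2) ∧
    ¬ (finrank ℂ (S ⊓ W₁ : Submodule ℂ V) = 2 ∧ finrank ℂ (S ⊓ W₃ : Submodule ℂ V) = 2) ∧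
    ¬ (finrank ℂ (S ⊓ W₂ : Submodule ℂ V) = 2 ∧ finrank ℂ (S ⊓ W₃ : Submodule ℂ V) = 2) := by
  set U := W₁ ⊔ W₂ with hUdef
  have hU : finrank ℂ U = 4 := by
    have := Submodule.finrank_sup_add_finrank_inf_eq W₁ W₂
    rw [← hUdef, h₁.rank, h₂.rank, h12] at this; omega
  have hSU : ¬ S ≤ U := by
    intro h
    rcases hthree S hS.iso h with h | h | h
    · exact hS1 (Submodule.eq_of_le_of_finrank_eq h (by rw [hS.rank, h₁.rank]))
    · exact hS2 (Submodule.eq_of_le_of_finrank_eq h (by rw [hS.rank, h₂.rank]))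
    · exact hS3 (Submodule.eq_of_le_of_finrank_eq h (by rw [hS.rank, h₃.rank]))
  have hlt : finrank ℂ (S ⊓ U : Submodule ℂ V) < 3 := by
    rw [← hS.rank]
    apply Submodule.finrank_lt_finrank_of_lt
    rw [lt_iff_le_and_ne]
    exact ⟨inf_le_left, fun h => hSU (inf_eq_left.mp h)⟩
  have hsum := Submodule.finrank_sup_add_finrank_inf_eq S U
  rw [hS.rank, hU] at hsum
  have hle6 := Submodule.finrank_le (S ⊔ U : Submodule ℂ V)
  rw [hV] at hle6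
  have htwoU : ∀ {A B : Submodule ℂ V}, c.Pl A → c.Pl B → A ⊔ B = U → ∀ x ∈ A, x ∈ B →
      ∀ u ∈ U, c.T x x u = 0 := by
    intro A B hA hB hAB x hxA hxB u hu
    rw [← hAB] at hu
    obtain ⟨a, ha, b, hb, rfl⟩ := Submodule.mem_sup.mp hu
    rw [map_add, hA.iso.two hxA ha, hB.iso.two hxB hb, add_zero]
  have s12 : W₁ ⊔ W₂ = U := rfl
  have s13 : W₁ ⊔ W₃ = U := by
    apply Submodule.eq_of_le_of_finrank_eq (sup_le le_sup_left h3U)
    have := Submodule.finrank_sup_add_finrank_inf_eq W₁ W₃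
    rw [h₁.rank, h₃.rank, h13] at this; rw [hU]; omega
  have s23 : W₂ ⊔ W₃ = U := by
    apply Submodule.eq_of_le_of_finrank_eq (sup_le le_sup_right h3U)
    have := Submodule.finrank_sup_add_finrank_inf_eq W₂ W₃
    rw [h₂.rank, h₃.rank, h23] at this; rw [hU]; omega
  have l1 : W₁ ≤ U := le_sup_left
  have l2 : W₂ ≤ U := le_sup_right
  -- the intersection with U is two-dimensional
  have hdim : finrank ℂ (S ⊓ U : Submodule ℂ V) = 2 := by
    by_contra hne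
    have h1 : finrank ℂ (S ⊓ U : Submodule ℂ V) = 1 := by omega
    have htop : S ⊔ U = ⊤ := by
      apply Submodule.eq_top_of_finrank_eq; omega
    have e1 : S ⊓ W₁ = S ⊓ U := by
      apply Submodule.eq_of_le_of_finrank_le (inf_le_inf_left _ l1)
      rw [h1]; exact Submodule.one_le_finrank_iff.mpr m1
    have e2 : S ⊓ W₂ = S ⊓ U := by
      apply Submodule.eq_of_le_of_finrank_le (inf_le_inf_left _ l2)
      rw [h1]; exact Submodule.one_le_finrank_iff.mpr m2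
    obtain ⟨x, hx, hx0⟩ := Submodule.exists_mem_ne_zero_of_ne_bot m1
    have hx2 : x ∈ S ⊓ W₂ := by rw [e2, ← e1]; exact hx
    apply hx0
    have hu := htwoU h₁ h₂ s12 x hx.2 hx2.2
    refine c.sing_of_sup (U := S ⊔ U) (y := 0) (y' := 0) ?_ (by simp) (by simp) ?_
    · intro u hu'
      obtain ⟨a, ha, b, hb, rfl⟩ := Submodule.mem_sup.mp hu'
      rw [map_add, hS.iso.two hx.1 ha, hu b hb, add_zero]
    · rw [htop]; simp
  have hsup5 : finrank ℂ (S ⊔ U : Submodule ℂ V) = 5 := by omega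
  have hex : ∀ {A B : Submodule ℂ V}, c.Pl A → c.Pl B → A ⊔ B = U → A ≤ U → B ≤ U →
      ¬ (finrank ℂ (S ⊓ A : Submodule ℂ V) = 2 ∧ finrank ℂ (S ⊓ B : Submodule ℂ V) = 2) := by
    intro A B hA hB hAB hAU hBU ⟨fA, fB⟩
    have eA : S ⊓ A = S ⊓ U :=
      Submodule.eq_of_le_of_finrank_le (inf_le_inf_left _ hAU) (by omega)
    have eB : S ⊓ B = S ⊓ U :=
      Submodule.eq_of_le_of_finrank_le (inf_le_inf_left _ hBU) (by omega)
    refine c.ns1 (W := S ⊓ U) (U := S ⊔ U) (by omega) (by omega) ?_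
    intro x hx u hu
    have hxA : x ∈ S ⊓ A := by rw [eA]; exact hx
    have hxB : x ∈ S ⊓ B := by rw [eB]; exact hx
    obtain ⟨a, ha, b, hb, rfl⟩ := Submodule.mem_sup.mp hu
    rw [map_add, hS.iso.two hx.1 ha, htwoU hA hB hAB x hxA.2 hxB.2 b hb, add_zero]
  refine ⟨?_, hex h₁ h₂ s12 l1 l2, hex h₁ h₃ s13 l1 h3U, hex h₂ h₃ s23 l2 h3U⟩
  have hiso : c.Iso (S ⊓ U) := fun x hx => hS.iso x hx.1
  rcases hthree (S ⊓ U) hiso inf_le_right with h | h | h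
  · left
    have : S ⊓ W₁ = S ⊓ U := le_antisymm (inf_le_inf_left _ l1) (le_inf inf_le_left h)
    rw [this]; exact hdim
  · right; left
    have : S ⊓ W₂ = S ⊓ U := le_antisymm (inf_le_inf_left _ l2) (le_inf inf_le_left h)
    rw [this]; exact hdim
  · right; right
    have : S ⊓ W₃ = S ⊓ U := le_antisymm (inf_le_inf_left _ h3U) (le_inf inf_le_left h)
    rw [this]; exact hdim

end Pool.Agent.Helper16
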