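import Pool.Agent.Helper16.CubicN

set_option autoImplicit false
set_option linter.unusedVariables false
set_option linter.unusedSectionVars false

namespace Pool.Agent.Helper16

open MvPolynomial Module

/-- polynomial functions on the complement -/
abbrev R3 := MvPolynomial (Fin 3) ℂ

namespace Cub

variable (c : Cub (I6 → ℂ)) {S S' : Type*} [CommRing S] [Algebra ℂ S] [CommRing S'] [Algebra ℂ S']

/-- Gram matrix of the quaternary form -/
noncomputable def Nm (z : Fin 3 → S) : Matrix (Fin 4) (Fin 4) S :=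
  Matrix.of fun i j => c.nf z (Pi.single i 1) (Pi.single j 1)

theorem Nm_apply (z : Fin 3 → S) (i j : Fin 4) :
    c.Nm z i j = c.nf z (Pi.single i 1) (Pi.single j 1) := rfl

theorem single_sum (v : Fin 4 → S) : v = ∑ m, v m • (Pi.single m 1 : Fin 4 → S) := by
  funext i
  simp only [Finset.sum_apply, Pi.smul_apply, smul_eq_mul, Pi.single_apply]
  simp

theorem nf_single_left (z : Fin 3 → S) (i : Fin 4) (v : Fin 4 → S) :
    c.nf z (Pi.single i 1) v = (c.Nm z).mulVec v i := by
  conv_lhs => rw [single_sum v]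
  rw [map_sum, Matrix.mulVec, dotProduct]
  refine Finset.sum_congr rfl fun j _ => ?_
  rw [map_smul, smul_eq_mul, mul_comm]; rfl

theorem nf_eq_dot (z : Fin 3 → S) (u v : Fin 4 → S) :
    c.nf z u v = u ⬝ᵥ (c.Nm z).mulVec v := by
  conv_lhs => rw [single_sum u]
  rw [map_sum, LinearMap.sum_apply, dotProduct]
  refine Finset.sum_congr rfl fun j _ => ?_
  rw [map_smul, LinearMap.smul_apply, smul_eq_mul, nf_single_left]

theorem Nm_symm (z : Fin 3 → S) : (c.Nm z).transpose = c.Nm z := by
  ext i j
  rw [Matrix.transpose_apply, Nm_apply, Nm_apply, nf_symm]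

theorem rad_iff (z : Fin 3 → ℂ) (v : Fin 4 → ℂ) : c.Rad z v ↔ (c.Nm z).mulVec v = 0 := by
  constructor
  · intro h
    funext i
    rw [← nf_single_left, nf_symm]; exact h _
  · intro h v'
    rw [nf_symm, nf_eq_dot, h, dotProduct_zero]

theorem Nm_map (φ : S →ₐ[ℂ] S') (z : Fin 3 → S) :
    (c.Nm z).map φ = c.Nm (fun i => φ (z i)) := by
  ext i j
  rw [Matrix.map_apply, Nm_apply, Nm_apply, map_nf]
  have : ∀ i : Fin 4, (fun m => φ ((Pi.single i 1 : Fin 4 → S) m)) = Pi.single i 1 := by
    intro i; funext m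
    by_cases h : m = i
    · subst h; simp
    · simp [Pi.single_apply, h]
  rw [this, this]

/-- the discriminant -/
noncomputable def disc : R3 := (c.Nm (X : Fin 3 → R3)).det

theorem eval_disc (b : Fin 3 → ℂ) : eval b c.disc = (c.Nm b).det := by
  rw [disc, ← aeval_eq_eval, AlgHom.map_det, AlgHom.mapMatrix_apply, Nm_map]
  simp

theorem pderiv_ext (k : Fin 3) (u v w : I6 → R3) :
    pderiv k (c.ext R3 u v w) = c.ext R3 (fun i => pderiv k (u i)) v w +
      c.ext R3 u (fun i => pderiv k (v i)) w + c.ext R3 u v (fun i => pderiv k (w i)) := by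
  simp only [ext_apply, map_sum, ← Finset.sum_add_distrib]
  refine Finset.sum_congr rfl fun i _ => Finset.sum_congr rfl fun j _ =>
    Finset.sum_congr rfl fun l _ => ?_
  simp only [Derivation.leibniz, Derivation.map_algebraMap, smul_eq_mul]
  ring

/-- derivative of the form at constant vectors -/
theorem eval_pderiv_nf (k : Fin 3) (b : Fin 3 → ℂ) (v : Fin 4 → ℂ) :
    eval b (pderiv k (c.nf (X : Fin 3 → R3) (fun i => C (v i)) (fun i => C (v i)))) =
      c.T (pt b v) (pt b v) (iZ ℂ (Pi.single k 1)) := by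
  have e1 : (fun i => pderiv k (vY R3 (fun i => C (v i)) i)) = (0 : I6 → R3) := by
    funext i; rcases i with i | i <;> simp
  have e2 : (fun i => pderiv k (iZ R3 (X : Fin 3 → R3) i)) = iZ R3 (Pi.single k 1) := by
    funext i; rcases i with i | i
    · simp
    · simp [pderiv_X, Pi.single_apply, eq_comm]
  have e3 : (fun i => aeval b (vY R3 (fun i => C (v i)) i)) = vY ℂ v := by
    funext i; rcases i with i | i <;> simp
  have e4 : (fun i => aeval b (iZ R3 (X : Fin 3 → R3) i)) = iZ ℂ b := by
    funext i; rcases i with i | i <;> simp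
  have e5 : (fun i => aeval b (iZ R3 (Pi.single k 1) i)) = iZ ℂ (Pi.single k 1) := by
    funext i; rcases i with i | i
    · simp
    · by_cases h : i = k
      · subst h; simp
      · simp [Pi.single_apply, h]
  rw [← aeval_eq_eval, nf_apply]
  simp only [map_add, Derivation.leibniz, pderiv_ext, e1, e2, map_zero, LinearMap.zero_apply,
    Derivation.map_algebraMap, smul_eq_mul, pderiv_C, mul_zero, zero_mul, add_zero, zero_add,
    map_mul, map_ext, e3, e4, e5, AlgHom.commutes, ext_complex, aeval_C, pt_apply,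
    LinearMap.add_apply, map_smul, LinearMap.smul_apply, Algebra.algebraMap_self, RingHom.id_apply]
  rw [c.s12 (iZ ℂ b) (vY ℂ v), c.s23 (iZ ℂ b) (iZ ℂ (Pi.single k 1)) (iZ ℂ b),
    c.s13 (iZ ℂ (Pi.single k 1)) (iZ ℂ b) (iZ ℂ b),
    c.s23 (vY ℂ v) (iZ ℂ (Pi.single k 1)) (iZ ℂ b)]
  ring

end Cub

end Pool.Agent.Helper16
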