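import Mathlib
import Pool.Agent.Helper16.CubicSing
import Pool.Agent.Helper16.CubicPlanes

set_option autoImplicit false
set_option linter.unusedVariables false
set_option linter.unusedSectionVars false

namespace Pool.Agent.Helper16

open MvPolynomial Module

theorem adj_mulVec_aux {S : Type*} [CommRing S] (M : Matrix (Fin 4) (Fin 4) S) (v : Fin 4 → S)
    (i : Fin 4) : ∑ j, M.adjugate i j * M.mulVec v j = M.det * v i := by
  have h1 : M.adjugate.mulVec (M.mulVec v) = M.det • v := by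
    rw [Matrix.mulVec_mulVec, Matrix.adjugate_mul, Matrix.smul_mulVec, Matrix.one_mulVec]
  exact congrFun h1 i

theorem Cub.eval_adj (c : Cub (I6 → ℂ)) (b : Fin 3 → ℂ) (i j : Fin 4) :
    eval b ((c.Nm (X : Fin 3 → R3)).adjugate i j) = (c.Nm b).adjugate i j := by
  have h1 := AlgHom.map_adjugate (aeval b : R3 →ₐ[ℂ] ℂ) (c.Nm (X : Fin 3 → R3))
  rw [AlgHom.mapMatrix_apply, AlgHom.mapMatrix_apply, Cub.Nm_map] at h1
  simp only [aeval_X] at h1
  rw [← h1, Matrix.map_apply, aeval_eq_eval]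

theorem Cub.eval_nf (c : Cub (I6 → ℂ)) (b : Fin 3 → ℂ) (v v' : Fin 4 → ℂ) :
    eval b (c.nf (X : Fin 3 → R3) (fun i => C (v i)) (fun i => C (v' i))) = c.nf b v v' := by
  rw [← aeval_eq_eval, Cub.map_nf]
  simp only [aeval_X, aeval_C, Algebra.algebraMap_self, RingHom.id_apply]

namespace Cub

variable {c : Cub (I6 → ℂ)}

theorem sing (hP : c.Iso P0) {b : Fin 3 → ℂ} (hb : b ≠ 0) (h0 : eval b c.disc = 0)
    (hd : ∀ k, eval b (pderiv k c.disc) = 0) :
    ∃ v v', LinearIndependent ℂ ![v, v'] ∧ c.Rad b v ∧ c.Rad b v' := by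
  rw [eval_disc] at h0
  obtain ⟨v, hv0, hv⟩ := Matrix.exists_mulVec_eq_zero_iff.mpr h0
  by_contra hcon
  have hmult : ∀ u, (c.Nm b).mulVec u = 0 → ∃ a : ℂ, u = a • v := by
    intro u hu
    by_contra h
    apply hcon
    refine ⟨v, u, ?_, (c.rad_iff b v).mpr hv, (c.rad_iff b u).mpr hu⟩
    rw [LinearIndependent.pair_iff' hv0]
    intro a ha; exact h ⟨a, ha.symm⟩
  obtain ⟨i, hi⟩ := Function.ne_iff.mp hv0
  have hi : v i ≠ 0 := hi
  set A := (c.Nm b).adjugate with hA
  have hAii : A i i ≠ 0 := by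
    rw [hA, Matrix.adjugate_fin_succ_eq_det_submatrix]
    intro h
    have hdet : ((c.Nm b).submatrix i.succAbove i.succAbove).det = 0 := by
      rcases mul_eq_zero.mp h with h | h
      · exact absurd h (pow_ne_zero _ (by norm_num))
      · exact h
    obtain ⟨w, hw0, hw⟩ := Matrix.exists_mulVec_eq_zero_iff.mpr hdet
    set w' : Fin 4 → ℂ := i.insertNth 0 w with hw'
    have h1 : ∀ j, (c.Nm b).mulVec w' (i.succAbove j) = 0 := by
      intro j
      have h2 := congrFun hw j
      simp only [Matrix.mulVec, dotProduct, Matrix.submatrix_apply, Pi.zero_apply] at h2 ⊢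
      rw [Fin.sum_univ_succAbove _ i]
      simp only [hw', Fin.insertNth_apply_same, Fin.insertNth_apply_succAbove, mul_zero, zero_add]
      exact h2
    have h3 : v ⬝ᵥ (c.Nm b).mulVec w' = 0 := by
      rw [← nf_eq_dot]; exact (c.rad_iff b v).mpr hv w'
    have h4 : (c.Nm b).mulVec w' i = 0 := by
      rw [dotProduct, Fin.sum_univ_succAbove _ i] at h3
      simp only [h1, mul_zero, Finset.sum_const_zero, add_zero] at h3
      exact (mul_eq_zero.mp h3).resolve_left hi
    have h5 : (c.Nm b).mulVec w' = 0 := by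
      funext m
      refine Fin.succAboveCases i ?_ ?_ m
      · exact h4
      · exact h1
    obtain ⟨a, ha⟩ := hmult w' h5
    have h6 : a = 0 := by
      have := congrFun ha i
      simp only [hw', Fin.insertNth_apply_same, Pi.smul_apply, smul_eq_mul] at this
      exact (mul_eq_zero.mp this.symm).resolve_right hi
    apply hw0
    funext j
    have := congrFun ha (i.succAbove j)
    simpa [hw', h6] using this
  have hArow : (c.Nm b).mulVec (fun j => A i j) = 0 := by
    funext m
    have h1 : (A * c.Nm b) i m = 0 := by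
      rw [hA, Matrix.adjugate_mul, h0, zero_smul]; rfl
    rw [Matrix.mul_apply] at h1
    simp only [Matrix.mulVec, dotProduct, Pi.zero_apply]
    rw [← h1]
    refine Finset.sum_congr rfl fun j _ => ?_
    have : c.Nm b m j = c.Nm b j m := by
      have := congrFun (congrFun (c.Nm_symm b) j) m
      exact this
    rw [this, mul_comm]
  obtain ⟨κ, hκ⟩ := hmult _ hArow
  have hκ' : ∀ j, A i j = κ * v j := fun j => congrFun hκ j
  have hκ0 : κ ≠ 0 := by
    rintro rfl
    apply hAii; rw [hκ' i, zero_mul]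
  apply hv0
  refine Rad.eq_zero hP hb ((c.rad_iff b v).mpr hv) fun k => ?_
  rw [← eval_pderiv_nf]
  set vR : Fin 4 → R3 := fun i => C (v i) with hvR
  set w : Fin 4 → R3 := (c.Nm (X : Fin 3 → R3)).mulVec vR with hw
  have hwj : ∀ j, eval b (w j) = 0 := by
    intro j
    have e1 : (Pi.single j 1 : Fin 4 → R3) = fun m => C ((Pi.single j 1 : Fin 4 → ℂ) m) := by
      funext m
      by_cases h : m = j
      · subst h; simp
      · simp [h]
    have h1 : w j = c.nf X (Pi.single j 1) vR := by rw [nf_single_left]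
    rw [h1, e1, hvR, eval_nf, nf_symm]
    exact (c.rad_iff b v).mpr hv _
  have hid := adj_mulVec_aux (c.Nm (X : Fin 3 → R3)) vR i
  rw [← hw, ← disc] at hid
  have hadj : ∀ j, eval b ((c.Nm (X : Fin 3 → R3)).adjugate i j) = A i j := fun j =>
    c.eval_adj b i j
  have hder := congrArg (fun p => eval b (pderiv k p)) hid
  simp only [map_sum, Derivation.leibniz, smul_eq_mul, map_add, map_mul, hvR, pderiv_C, mul_zero,
    zero_add, hd, hwj, zero_mul, add_zero, hadj, hκ', map_zero] at hder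
  have h7 : c.nf X vR vR = ∑ j, C (v j) * w j := by
    rw [nf_eq_dot]; rfl
  rw [h7]
  simp only [map_sum, Derivation.leibniz, smul_eq_mul, map_add, map_mul, pderiv_C, mul_zero,
    hwj, zero_mul, add_zero, eval_C, map_zero]
  have h8 : κ * ∑ j, v j * eval b (pderiv k (w j)) = 0 := by
    rw [Finset.mul_sum, ← hder]
    refine Finset.sum_congr rfl fun j _ => ?_
    ring
  exact (mul_eq_zero.mp h8).resolve_left hκ0

/-- the base plane does not lie in the radical of the conics -/
theorem not_conic_zero (hP : c.Iso P0) (b : Fin 3 → ℂ) (hb : b ≠ 0)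
    (h : ∀ y ∈ P0, c.T y y (iZ ℂ b) = 0) : False := by
  refine c.ns2 (W := P0) (U := P0 ⊔ ℂ ∙ iZ ℂ b) ?_ (by rw [finrank_P0]) ?_
  · have h1 : finrank ℂ (P0 ⊔ ℂ ∙ iZ ℂ b : Submodule ℂ (I6 → ℂ)) ≥ 4 := by
      have h2 : finrank ℂ P0 < finrank ℂ (P0 ⊔ ℂ ∙ iZ ℂ b : Submodule ℂ (I6 → ℂ)) := by
        apply Submodule.finrank_lt_finrank_of_lt
        rw [lt_iff_le_and_ne]
        refine ⟨le_sup_left, fun he => hb ?_⟩
        have : iZ ℂ b ∈ P0 := by
          rw [he]; exact Submodule.mem_sup_right (Submodule.mem_span_singleton_self _)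
        rw [mem_P0, pZ_iZ] at this
        exact this
      rw [finrank_P0] at h2; omega
    rw [finrank_I6]; omega
  · intro x hx u hu
    obtain ⟨a, ha, d, hd, rfl⟩ := Submodule.mem_sup.mp hu
    obtain ⟨r, rfl⟩ := Submodule.mem_span_singleton.mp hd
    rw [map_add, hP.two hx ha, map_smul, h x hx, smul_zero, add_zero]

/-- two independent radical vectors give a plane collinear with the base plane -/
theorem plane_of_rad (hP : c.Iso P0) {b : Fin 3 → ℂ} (hb : b ≠ 0) {v v' : Fin 4 → ℂ}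
    (hli : LinearIndependent ℂ ![v, v']) (hv : c.Rad b v) (hv' : c.Rad b v') :
    ∃ A : Submodule ℂ (I6 → ℂ), c.Pl A ∧ A ≠ P0 ∧ finrank ℂ (A ⊓ P0 : Submodule ℂ _) = 2 := by
  -- a third isotropic vector
  set R2 : Submodule ℂ (Fin 4 → ℂ) := Submodule.span ℂ (Set.range ![v, v']) with hR2
  have hR2d : finrank ℂ R2 = 2 := by
    rw [hR2, finrank_span_eq_card hli]; simp
  obtain ⟨Q, hQ⟩ := Submodule.exists_isCompl R2
  have hQd : finrank ℂ Q = 2 := by
    have := Submodule.finrank_add_eq_of_isCompl hQ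
    rw [hR2d] at this
    have h4 : finrank ℂ (Fin 4 → ℂ) = 4 := by simp
    omega
  obtain ⟨g, hgQ, hg0, hgg⟩ := Q1' (c.nf b) Q (by omega)
  have hgR : g ∉ R2 := by
    intro h
    have : g ∈ R2 ⊓ Q := ⟨h, hgQ⟩
    rw [hQ.inf_eq_bot] at this
    exact hg0 ((Submodule.mem_bot ℂ).mp this)
  set H : Submodule ℂ (Fin 4 → ℂ) := R2 ⊔ ℂ ∙ g with hH
  have hradR2 : ∀ x ∈ R2, c.Rad b x := by
    intro x hx
    rw [hR2] at hx
    induction hx using Submodule.span_induction with
    | mem x hx =>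
      obtain ⟨i, rfl⟩ := hx
      fin_cases i
      · exact hv
      · exact hv'
    | zero => intro y; simp
    | add x y _ _ h1 h2 => intro z; rw [map_add, LinearMap.add_apply, h1, h2, add_zero]
    | smul a x _ h1 => intro z; rw [map_smul, LinearMap.smul_apply, h1, smul_zero]
  have hHiso : ∀ x ∈ H, c.nf b x x = 0 := by
    intro x hx
    obtain ⟨a, ha, d, hd, rfl⟩ := Submodule.mem_sup.mp hx
    obtain ⟨r, rfl⟩ := Submodule.mem_span_singleton.mp hd
    rw [map_add (c.nf b), LinearMap.add_apply, hradR2 a ha, zero_add, map_add, c.nf_symm b _ a,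
      hradR2 a ha, zero_add]
    simp [hgg]
  have hHd : finrank ℂ H = 3 := by
    have h1 : finrank ℂ R2 < finrank ℂ H := by
      apply Submodule.finrank_lt_finrank_of_lt
      rw [lt_iff_le_and_ne]
      refine ⟨le_sup_left, fun he => hgR ?_⟩
      rw [he]; exact Submodule.mem_sup_right (Submodule.mem_span_singleton_self _)
    have h2 := Submodule.finrank_add_le_finrank_add_finrank R2 (ℂ ∙ g)
    have h3 := finrank_span_singleton (K := ℂ) hg0
    rw [h3] at h2
    change finrank ℂ H ≤ _ at h2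
    omega
  have hinj : Function.Injective (pt b) := by
    rw [← LinearMap.ker_eq_bot, Submodule.eq_bot_iff]
    intro x hx
    exact pt_inj hb (LinearMap.mem_ker.mp hx)
  have hAd : finrank ℂ (H.map (pt b)) = 3 := by
    rw [← hHd]
    exact (Submodule.equivMapOfInjective (pt b) hinj H).finrank_eq.symm
  have hAiso : c.Iso (H.map (pt b)) := by
    rintro _ ⟨x, hx, rfl⟩
    rw [T_pt hP, hHiso x hx, mul_zero]
  have hpP0 : ∀ x, pt b x ∈ P0 ↔ x 3 = 0 := by
    intro x
    rw [mem_P0, pt_apply, map_add, map_smul, pZ_iZ]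
    have : pZ ℂ (vY ℂ x) = 0 := by funext k; simp
    rw [this, zero_add]
    constructor
    · intro h
      exact (smul_eq_zero.mp h).resolve_right hb
    · intro h; rw [h, zero_smul]
  have hex : ∃ x ∈ H, x 3 ≠ 0 := by
    by_contra hcon
    push Not at hcon
    -- then `H` is the base plane
    have hle : H.map (pt b) ≤ P0 := by
      rintro _ ⟨x, hx, rfl⟩
      exact (hpP0 x).mpr (hcon x hx)
    have heq : H.map (pt b) = P0 :=
      Submodule.eq_of_le_of_finrank_eq hle (by rw [hAd, finrank_P0])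
    refine not_conic_zero hP b hb fun y hy => ?_
    rw [← heq] at hy
    obtain ⟨x, hx, rfl⟩ := hy
    have h1 := hHiso x hx
    rw [nf_complex, hcon x hx] at h1
    rw [pt_apply, hcon x hx, zero_smul, add_zero]
    simpa using h1
  refine ⟨H.map (pt b), ⟨hAd, hAiso⟩, ?_, ?_⟩
  · intro he
    obtain ⟨x, hx, hx3⟩ := hex
    have : pt b x ∈ P0 := by rw [← he]; exact ⟨x, hx, rfl⟩
    exact hx3 ((hpP0 x).mp this)
  · have h1 : (H.map (pt b) ⊓ P0 : Submodule ℂ _) =
        (H ⊓ LinearMap.ker (LinearMap.proj (3 : Fin 4) : (Fin 4 → ℂ) →ₗ[ℂ] ℂ)).map (pt b) := by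
      ext y
      constructor
      · rintro ⟨⟨x, hx, rfl⟩, hy⟩
        exact ⟨x, ⟨hx, LinearMap.mem_ker.mpr ((hpP0 x).mp hy)⟩, rfl⟩
      · rintro ⟨x, ⟨hx, hx3⟩, rfl⟩
        exact ⟨⟨x, hx, rfl⟩, (hpP0 x).mpr (LinearMap.mem_ker.mp hx3)⟩
    rw [h1, ← (Submodule.equivMapOfInjective (pt b) hinj _).finrank_eq]
    have h2 := finrank_inf_ker H (LinearMap.proj (3 : Fin 4) : (Fin 4 → ℂ) →ₗ[ℂ] ℂ) hex
    omega

end Cub

end Pool.Agent.Helper16
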