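import Mathlib
import Pool.Agent.Helper16.CubicS
import Pool.Agent.Helper16.CubicSing2

set_option autoImplicit false
set_option linter.unusedVariables false
set_option linter.unusedSectionVars false

namespace Pool.Agent.Helper16

open MvPolynomial Module

/-- no two planes are collinear -/
def NoCol (c : Cub (I6 → ℂ)) : Prop :=
  ∀ A B, c.Pl A → c.Pl B → A ≠ B → finrank ℂ (A ⊓ B : Submodule ℂ (I6 → ℂ)) ≠ 2

namespace Cub

variable {c : Cub (I6 → ℂ)}

theorem two_of_indep {A B : Submodule ℂ (I6 → ℂ)} (hA : c.Pl A) (hB : c.Pl B) (hne : A ≠ B)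
    {u v : I6 → ℂ} (hu : u ∈ A ⊓ B) (hv : v ∈ A ⊓ B) (hli : LinearIndependent ℂ ![u, v]) :
    finrank ℂ (A ⊓ B : Submodule ℂ (I6 → ℂ)) = 2 := by
  have h1 : finrank ℂ (A ⊓ B : Submodule ℂ (I6 → ℂ)) < 3 := by
    rw [← hA.rank]
    apply Submodule.finrank_lt_finrank_of_lt
    rw [lt_iff_le_and_ne]
    refine ⟨inf_le_left, fun h => hne ?_⟩
    exact Submodule.eq_of_le_of_finrank_eq (inf_eq_left.mp h) (by rw [hA.rank, hB.rank])
  have h2 : 2 ≤ finrank ℂ (A ⊓ B : Submodule ℂ (I6 → ℂ)) := by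
    have h3 : Submodule.span ℂ (Set.range ![u, v]) ≤ A ⊓ B := by
      rw [Submodule.span_le]
      rintro _ ⟨i, rfl⟩
      fin_cases i
      · exact hu
      · exact hv
    have h4 := Submodule.finrank_mono h3
    rw [finrank_span_eq_card hli] at h4
    simpa using h4
  omega

theorem pl_P0 (hP : c.Iso P0) : c.Pl P0 := ⟨finrank_P0, hP⟩

theorem rad_contra (hP : c.Iso P0) (hno : NoCol c) {b : Fin 3 → ℂ} (hb : b ≠ 0)
    {v v' : Fin 4 → ℂ} (hli : LinearIndependent ℂ ![v, v']) (hv : c.Rad b v)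
    (hv' : c.Rad b v') : False := by
  obtain ⟨A, hA, hA0, h2⟩ := plane_of_rad hP hb hli hv hv'
  exact hno A P0 hA (pl_P0 hP) hA0 h2

/-- independence of a vector outside the base plane and one inside -/
theorem indep_YZ {y x z : Fin 3 → ℂ} (hx : x ≠ 0) (hz : z ≠ 0) :
    LinearIndependent ℂ ![iY ℂ y + iZ ℂ z, iY ℂ x] := by
  rw [LinearIndependent.pair_iff]
  intro s t hst
  have h1 := congrArg (pZ ℂ) hst
  simp only [map_add, map_smul, pZ_iY, pZ_iZ, zero_add, smul_zero, add_zero, map_zero] at h1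
  have hs : s = 0 := (smul_eq_zero.mp h1).resolve_right hz
  rw [hs, zero_smul, zero_add] at hst
  exact ⟨hs, (smul_eq_zero.mp hst).resolve_right (fun h => hx (iY_inj h))⟩

theorem d3_sub2 (x a b f : Fin 3 → ℂ) : d3 x (a - b) f = d3 x a f - d3 x b f := by
  simp only [d3, Pi.sub_apply]; ring

theorem d3_smul1 (r : ℂ) (x a f : Fin 3 → ℂ) : d3 (r • x) a f = r * d3 x a f := by
  simp only [d3, Pi.smul_apply, smul_eq_mul]; ring

theorem d3_swap (x a f : Fin 3 → ℂ) : d3 x a f = - d3 a x f := by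
  simp only [d3]; ring

theorem mk4_smul0 (a : ℂ) (y : Fin 3 → ℂ) : mk4 (a • y) (0 : ℂ) = a • mk4 y 0 := by
  rw [← mk4_smul, mul_zero]

/-- the two sections take opposite values at the common point -/
theorem ss_opp (hP : c.Iso P0) (hno : NoCol c) {W W' : Submodule ℂ (I6 → ℂ)} (hW : c.Pl W)
    (hW' : c.Pl W') (hne : W ≠ W') (hmeet : W ⊓ W' ≠ ⊥) {x x' : Fin 3 → ℂ}
    {φ φ' : (Fin 3 → ℂ) →ₗ[ℂ] (Fin 3 → ℂ)} (h : c.AD W x φ) (h' : c.AD W' x' φ')
    {f1 f2 f1' f2' : Fin 3 → ℂ} (hf : d3 x f1 f2 = 1) (hf' : d3 x' f1' f2' = 1)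
    (hind : ∃ z, c.tl x z = 0 ∧ c.tl x' z ≠ 0)
    {z : Fin 3 → ℂ} (hz0 : z ≠ 0) (hz : c.tl x z = 0) (hz' : c.tl x' z = 0)
    (hs : c.svv x f1 f2 φ z ≠ 0) (hs' : c.svv x' f1' f2' φ' z ≠ 0) :
    c.svv x f1 f2 φ z + c.svv x' f1' f2' φ' z = 0 := by
  have H11 := h.h11 hz
  have H12 := h.h12 hP hW hz
  have H22 := h.h22 hP hW hz
  have H11' := h'.h11 hz'
  have H12' := h'.h12 hP hW' hz'
  have H22' := h'.h22 hP hW' hz'
  have O := orient' z H11 H12 H22 (det_std hf) hs
  have O' := orient' z H11' H12' H22' (det_std hf') hs'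
  change ∀ g1 g2, _ = c.svv x f1 f2 φ z * _ at O
  change ∀ g1 g2, _ = c.svv x' f1' f2' φ' z * _ at O'
  obtain ⟨w, hw, hw0⟩ := Submodule.exists_mem_ne_zero_of_ne_bot hmeet
  -- the two points of the base plane are independent unless equal
  by_cases hw1 : pZ ℂ w = 0
  · -- common point in the base plane
    have hwy : w = iY ℂ (pY ℂ w) := eq_iY_of_mem (mem_P0.mpr hw1)
    obtain ⟨a, ha⟩ := h.inter (pY ℂ w) (by rw [← hwy]; exact hw.1)
    obtain ⟨a', ha'⟩ := h'.inter (pY ℂ w) (by rw [← hwy]; exact hw.2)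
    have hy0 : pY ℂ w ≠ 0 := by
      intro h0; apply hw0; rw [hwy, h0, map_zero]
    have ha'0 : a' ≠ 0 := by
      rintro rfl; rw [zero_smul] at ha'; exact hy0 ha'
    have ha0 : a ≠ 0 := by
      rintro rfl; rw [zero_smul] at ha; exact hy0 ha
    obtain ⟨r, hr0, hr⟩ : ∃ r : ℂ, r ≠ 0 ∧ x' = r • x := by
      refine ⟨a'⁻¹ * a, mul_ne_zero (inv_ne_zero ha'0) ha0, ?_⟩
      rw [mul_smul, ← ha, ha', smul_smul, inv_mul_cancel₀ ha'0, one_smul]
    have hxW' : iY ℂ x ∈ W' := by
      have : iY ℂ x = r⁻¹ • iY ℂ x' := by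
        rw [hr, map_smul, smul_smul, inv_mul_cancel₀ hr0, one_smul]
      rw [this]; exact W'.smul_mem _ h'.xW
    have hli : LinearIndependent ℂ ![x, φ' z - φ z] := by
      rw [LinearIndependent.pair_iff' h.x0]
      intro b hb
      have hu : iY ℂ (φ' z) + iZ ℂ z ∈ W := by
        have : iY ℂ (φ' z) + iZ ℂ z = (iY ℂ (φ z) + iZ ℂ z) + b • iY ℂ x := by
          rw [← map_smul, hb, map_sub]; abel
        rw [this]
        exact W.add_mem (h.pW z hz) (W.smul_mem _ h.xW)
      exact hno W W' hW hW' hne (two_of_indep hW hW' hne ⟨hu, h'.pW z hz'⟩ ⟨h.xW, hxW'⟩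
        (indep_YZ h.x0 hz0))
    obtain ⟨f, hfD⟩ := exists_d3_ne hli
    have e1 := O (mk4 (φ' z) 1) (mk4 f 0)
    have e2 := O' (mk4 (φ z) 1) (mk4 f 0)
    rw [det_rows, one_mul, one_mul, ← d3_sub2] at e1
    rw [det_rows, one_mul, one_mul, ← d3_sub2, hr, d3_smul1] at e2
    have hv1' : mk4 x' (0 : ℂ) = r • mk4 x 0 := by rw [hr, mk4_smul0]
    rw [hv1', map_smul, LinearMap.smul_apply, smul_eq_mul] at H12'
    have e3 : c.nf z (mk4 x 0) (mk4 (φ' z) 1) = 0 := (mul_eq_zero.mp H12').resolve_left hr0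
    rw [e3] at e1
    rw [mk4_smul0, map_smul, LinearMap.smul_apply, LinearMap.smul_apply, smul_eq_mul,
      smul_eq_mul, H12, c.nf_symm z (mk4 (φ' z) 1) (mk4 (φ z) 1)] at e2
    have e4 : d3 x (φ z - φ' z) f = - d3 x (φ' z - φ z) f := by
      simp only [d3, Pi.sub_apply]; ring
    rw [e4] at e2
    have e5 : r * d3 x (φ' z - φ z) f *
        (c.svv x f1 f2 φ z + c.svv (r • x) f1' f2' φ' z) = 0 := by
      linear_combination e2 - r * e1
    have := (mul_eq_zero.mp e5).resolve_left (mul_ne_zero hr0 hfD)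
    rw [← hr] at this
    exact this
  · -- common point outside the base plane
    have hb := h.memW w hw.1
    have hb' := h'.memW w hw.2
    -- `pZ w` is a multiple of `z`
    obtain ⟨r, hr⟩ : ∃ r : ℂ, r • pZ ℂ w = z := by
      by_contra hcon
      push Not at hcon
      have hli : LinearIndependent ℂ ![pZ ℂ w, z] := by
        rw [LinearIndependent.pair_iff' hw1]; exact hcon
      -- then the kernels coincide
      have hK : finrank ℂ (LinearMap.ker (c.tl x)) = 2 := by
        have h2 := LinearMap.finrank_range_add_finrank_ker (c.tl x)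
        have h3 : LinearMap.range (c.tl x) = ⊤ :=
          LinearMap.range_eq_top.mpr (LinearMap.surjective (tl_ne_zero hP h.x0))
        rw [h3, finrank_top] at h2
        simp at h2; omega
      have hle : Submodule.span ℂ (Set.range ![pZ ℂ w, z]) ≤ LinearMap.ker (c.tl x) := by
        rw [Submodule.span_le]
        rintro _ ⟨i, rfl⟩
        fin_cases i
        · exact hb
        · exact hz
      have heq := Submodule.eq_of_le_of_finrank_eq hle (by rw [hK, finrank_span_eq_card hli]; simp)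
      obtain ⟨z', h1, h2⟩ := hind
      apply h2
      have hz'mem : z' ∈ Submodule.span ℂ (Set.range ![pZ ℂ w, z]) := by
        rw [heq]; exact h1
      have hle' : Submodule.span ℂ (Set.range ![pZ ℂ w, z]) ≤ LinearMap.ker (c.tl x') := by
        rw [Submodule.span_le]
        rintro _ ⟨i, rfl⟩
        fin_cases i
        · exact hb'
        · exact hz'
      exact hle' hz'mem
    have hr0 : r ≠ 0 := by
      rintro rfl; rw [zero_smul] at hr; exact hz0 hr.symm
    set w' := r • w with hw'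
    have hw'W : w' ∈ W := W.smul_mem _ hw.1
    have hw'W' : w' ∈ W' := W'.smul_mem _ hw.2
    have hw'z : pZ ℂ w' = z := by rw [hw', map_smul, hr]
    set y := pY ℂ w' with hy
    have hdec : w' = iY ℂ y + iZ ℂ z := by
      have := decomp w'
      rwa [hw'z] at this
    obtain ⟨a, ha⟩ := h.inter (y - φ z) (by
      have : iY ℂ (y - φ z) = w' - (iY ℂ (φ z) + iZ ℂ z) := by
        rw [hdec, map_sub]; abel
      rw [this]; exact W.sub_mem hw'W (h.pW z hz))
    obtain ⟨a', ha'⟩ := h'.inter (y - φ' z) (by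
      have : iY ℂ (y - φ' z) = w' - (iY ℂ (φ' z) + iZ ℂ z) := by
        rw [hdec, map_sub]; abel
      rw [this]; exact W'.sub_mem hw'W' (h'.pW z hz'))
    have hv : mk4 y (1 : ℂ) = mk4 (φ z) 1 + a • mk4 x 0 := by
      have : y = φ z + a • x := by rw [← ha]; abel
      rw [this, ← mk4_smul0, ← mk4_add, add_zero]
    have hv' : mk4 y (1 : ℂ) = mk4 (φ' z) 1 + a' • mk4 x' 0 := by
      have : y = φ' z + a' • x' := by rw [← ha']; abel
      rw [this, ← mk4_smul0, ← mk4_add, add_zero]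
    have hli : LinearIndependent ℂ ![x, x'] := by
      rw [LinearIndependent.pair_iff' h.x0]
      intro b hb
      have hb0 : b ≠ 0 := by
        rintro rfl; rw [zero_smul] at hb; exact h'.x0 hb.symm
      have hxW' : iY ℂ x' ∈ W := by
        rw [← hb, map_smul]; exact W.smul_mem _ h.xW
      have hmem : iY ℂ y + iZ ℂ z ∈ W ⊓ W' := by
        rw [← hdec]; exact ⟨hw'W, hw'W'⟩
      exact hno W W' hW hW' hne (two_of_indep hW hW' hne hmem ⟨hxW', h'.xW⟩
        (indep_YZ h'.x0 hz0))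
    obtain ⟨f, hfD⟩ := exists_d3_ne hli
    have e1 := O (mk4 x' 0) (mk4 f 0)
    have e2 := O' (mk4 x 0) (mk4 f 0)
    rw [det_rows, one_mul, zero_mul, sub_zero] at e1 e2
    have g1 : c.nf z (mk4 (φ z) 1) (mk4 x' 0) = - (a * c.nf z (mk4 x 0) (mk4 x' 0)) := by
      have hx : c.nf z (mk4 y 1) (mk4 x' 0) = 0 := by
        rw [hv', map_add, LinearMap.add_apply, map_smul, LinearMap.smul_apply, H11',
          smul_zero, add_zero, nf_symm, H12']
      rw [hv, map_add, LinearMap.add_apply, map_smul, LinearMap.smul_apply, smul_eq_mul] at hx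
      linear_combination hx
    have g2 : c.nf z (mk4 (φ' z) 1) (mk4 x 0) = - (a' * c.nf z (mk4 x' 0) (mk4 x 0)) := by
      have hx : c.nf z (mk4 y 1) (mk4 x 0) = 0 := by
        rw [hv, map_add, LinearMap.add_apply, map_smul, LinearMap.smul_apply, H11,
          smul_zero, add_zero, nf_symm, H12]
      rw [hv', map_add, LinearMap.add_apply, map_smul, LinearMap.smul_apply, smul_eq_mul] at hx
      linear_combination hx
    have g3 : c.nf z (mk4 (φ z) 1) (mk4 f 0) =
        c.nf z (mk4 y 1) (mk4 f 0) - a * c.nf z (mk4 x 0) (mk4 f 0) := by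
      rw [hv, map_add, LinearMap.add_apply, map_smul, LinearMap.smul_apply, smul_eq_mul]; ring
    have g4 : c.nf z (mk4 (φ' z) 1) (mk4 f 0) =
        c.nf z (mk4 y 1) (mk4 f 0) - a' * c.nf z (mk4 x' 0) (mk4 f 0) := by
      rw [hv', map_add, LinearMap.add_apply, map_smul, LinearMap.smul_apply, smul_eq_mul]; ring
    rw [g1, g3] at e1
    rw [g2, g4, c.nf_symm z (mk4 x' 0) (mk4 x 0), d3_swap] at e2
    have e5 : d3 x x' f * (c.svv x f1 f2 φ z + c.svv x' f1' f2' φ' z) = 0 := by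
      linear_combination e2 - e1
    exact (mul_eq_zero.mp e5).resolve_left hfD

end Cub

end Pool.Agent.Helper16
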