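import Mathlib
import Pool.Agent.Helper16.CubicPoly

set_option autoImplicit false
set_option linter.unusedVariables false
set_option linter.unusedSectionVars false

namespace Pool.Agent.Helper16

open MvPolynomial Module

/-- parametrisation of the line `l = 0` -/
theorem exists_line_param {l : (Fin 3 → ℂ) →ₗ[ℂ] ℂ} (hl : l ≠ 0) :
    ∃ (ι : (Fin 2 → ℂ) →ₗ[ℂ] (Fin 3 → ℂ))
      (ρ : MvPolynomial (Fin 3) ℂ →ₐ[ℂ] MvPolynomial (Fin 2) ℂ)
      (σ : MvPolynomial (Fin 2) ℂ →ₐ[ℂ] MvPolynomial (Fin 3) ℂ),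
      (∀ w, l (ι w) = 0) ∧ Function.Injective ι ∧ (∀ z, l z = 0 → ∃ w, ι w = z) ∧
      (∀ (w : Fin 2 → ℂ) (r), eval w (ρ r) = eval (ι w) r) ∧ (∀ r, ρ (σ r) = r) ∧
      (∀ r, ρ r = 0 → linp l ∣ r) ∧ ρ (linp l) = 0 := by
  have hk : finrank ℂ (LinearMap.ker l) = 2 := by
    have h1 := LinearMap.finrank_range_add_finrank_ker l
    have h2 : LinearMap.range l = ⊤ := LinearMap.range_eq_top.mpr (LinearMap.surjective hl)
    rw [h2, finrank_top] at h1
    simp at h1; omega
  let e : (Fin 2 → ℂ) ≃ₗ[ℂ] LinearMap.ker l := LinearEquiv.ofFinrankEq _ _ (by rw [hk]; simp)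
  let ι : (Fin 2 → ℂ) →ₗ[ℂ] (Fin 3 → ℂ) := (LinearMap.ker l).subtype.comp e.toLinearMap
  have hιker : ∀ w, l (ι w) = 0 := fun w => LinearMap.mem_ker.mp (e w).2
  have hιinj : Function.Injective ι := by
    intro x y hxy
    exact e.injective (Subtype.ext hxy)
  have hιsurj : ∀ z, l z = 0 → ∃ w, ι w = z := by
    intro z hz
    refine ⟨e.symm ⟨z, LinearMap.mem_ker.mpr hz⟩, ?_⟩
    change ((e (e.symm ⟨z, _⟩)) : Fin 3 → ℂ) = z
    rw [LinearEquiv.apply_symm_apply]
  obtain ⟨κ, hκ⟩ := LinearMap.exists_leftInverse_of_injective ι (LinearMap.ker_eq_bot.mpr hιinj)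
  have hκι : ∀ w, κ (ι w) = w := fun w => LinearMap.congr_fun hκ w
  let ρ : MvPolynomial (Fin 3) ℂ →ₐ[ℂ] MvPolynomial (Fin 2) ℂ :=
    aeval (fun i => linp ((LinearMap.proj i).comp ι))
  let σ : MvPolynomial (Fin 2) ℂ →ₐ[ℂ] MvPolynomial (Fin 3) ℂ :=
    aeval (fun i => linp ((LinearMap.proj i).comp κ))
  have hρ : ∀ (w : Fin 2 → ℂ) (r), eval w (ρ r) = eval (ι w) r := by
    intro w r
    have : (aeval w : MvPolynomial (Fin 2) ℂ →ₐ[ℂ] ℂ).comp ρ = aeval (ι w) := by
      apply MvPolynomial.algHom_ext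
      intro i
      rw [AlgHom.comp_apply, aeval_X, aeval_X, aeval_eq_eval, eval_linp]
      rfl
    have h2 := DFunLike.congr_fun this r
    rw [AlgHom.comp_apply, aeval_eq_eval, aeval_eq_eval] at h2
    exact h2
  have hσ : ∀ (z : Fin 3 → ℂ) (r), eval z (σ r) = eval (κ z) r := by
    intro w r
    have : (aeval w : MvPolynomial (Fin 3) ℂ →ₐ[ℂ] ℂ).comp σ = aeval (κ w) := by
      apply MvPolynomial.algHom_ext
      intro i
      rw [AlgHom.comp_apply, aeval_X, aeval_X, aeval_eq_eval, eval_linp]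
      rfl
    have h2 := DFunLike.congr_fun this r
    rw [AlgHom.comp_apply, aeval_eq_eval, aeval_eq_eval] at h2
    exact h2
  have hρσ : ∀ r, ρ (σ r) = r := by
    intro r
    apply MvPolynomial.funext
    intro w
    rw [hρ, hσ, hκι]
  have hρker : ∀ r, ρ r = 0 → linp l ∣ r := by
    intro r hr
    apply null_lite (linp_irreducible hl)
    intro z hz
    rw [eval_linp] at hz
    obtain ⟨w, rfl⟩ := hιsurj z hz
    rw [← hρ, hr, map_zero]
  have hl0 : ρ (linp l) = 0 := by
    apply MvPolynomial.funext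
    intro w
    rw [hρ, eval_linp, hιker, map_zero]
  exact ⟨ι, ρ, σ, hιker, hιinj, hιsurj, hρ, hρσ, hρker, hl0⟩

/-- regular sequence property on the line `l = 0` -/
theorem regF {l : (Fin 3 → ℂ) →ₗ[ℂ] ℂ} (hl : l ≠ 0) {p q a b : MvPolynomial (Fin 3) ℂ}
    (hpq : ∀ z, l z = 0 → eval z p = 0 → eval z q = 0 → z = 0)
    (h : linp l ∣ p * a + q * b) : ∃ u v, b = linp l * u + p * v := by
  obtain ⟨ι, ρ, σ, hιker, hιinj, hιsurj, hρ, hρσ, hρker, hl0⟩ := exists_line_param hl
  have hrel : IsRelPrime (ρ p) (ρ q) := by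
    intro d hdp hdq
    by_contra hu
    obtain ⟨w, hw0, hw⟩ := exists_root_of_not_unit hu
    obtain ⟨x, hx⟩ := hdp
    obtain ⟨y, hy⟩ := hdq
    have h1 : eval (ι w) p = 0 := by rw [← hρ, hx, map_mul, hw, zero_mul]
    have h2 : eval (ι w) q = 0 := by rw [← hρ, hy, map_mul, hw, zero_mul]
    have h3 := hpq _ (hιker w) h1 h2
    apply hw0
    apply hιinj
    rw [h3, map_zero]
  obtain ⟨k, hk⟩ := h
  have h1 : ρ p * ρ a + ρ q * ρ b = 0 := by
    rw [← map_mul, ← map_mul, ← map_add, hk, map_mul, hl0, zero_mul]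
  have h2 : ρ p ∣ ρ q * ρ b := ⟨-ρ a, by linear_combination h1⟩
  obtain ⟨v, hv⟩ := hrel.dvd_of_dvd_mul_left h2
  have h3 : ρ (b - p * σ v) = 0 := by
    rw [map_sub, map_mul, hρσ, hv, sub_self]
  obtain ⟨u, hu⟩ := hρker _ h3
  exact ⟨u, σ v, by linear_combination hu⟩

/-- polynomials vanishing on a linear subspace of codimension two -/
theorem mem_of_vanish {l m : (Fin 3 → ℂ) →ₗ[ℂ] ℂ} (hl : l ≠ 0)
    (hm : ∃ z, l z = 0 ∧ m z ≠ 0) {p : MvPolynomial (Fin 3) ℂ}
    (hp : ∀ z, l z = 0 → m z = 0 → eval z p = 0) : ∃ u v, p = linp l * u + linp m * v := by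
  obtain ⟨ι, ρ, σ, hιker, hιinj, hιsurj, hρ, hρσ, hρker, hl0⟩ := exists_line_param hl
  have h1 : ρ (linp m) = linp (m.comp ι) := by
    apply MvPolynomial.funext
    intro w
    rw [hρ, eval_linp, eval_linp]; rfl
  have h2 : m.comp ι ≠ 0 := by
    obtain ⟨z, hz, hmz⟩ := hm
    obtain ⟨w, rfl⟩ := hιsurj z hz
    intro h0
    exact hmz (LinearMap.congr_fun h0 w)
  have h3 : ρ (linp m) ∣ ρ p := by
    rw [h1]
    apply null_lite (linp_irreducible h2)
    intro w hw
    rw [eval_linp] at hw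
    rw [hρ]
    exact hp _ (hιker w) hw
  obtain ⟨v, hv⟩ := h3
  have h4 : ρ (p - linp m * σ v) = 0 := by
    rw [map_sub, map_mul, hρσ, hv, sub_self]
  obtain ⟨u, hu⟩ := hρker _ h4
  exact ⟨u, σ v, by linear_combination hu⟩

/-- a common zero on the line -/
theorem exists_root_on_line {l : (Fin 3 → ℂ) →ₗ[ℂ] ℂ} {q : MvPolynomial (Fin 3) ℂ}
    (h0 : eval 0 q = 0) : ∃ z, z ≠ 0 ∧ l z = 0 ∧ eval z q = 0 := by
  have hk : 2 ≤ finrank ℂ (LinearMap.ker l) := by
    have h1 := LinearMap.finrank_range_add_finrank_ker l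
    have h2 : finrank ℂ (LinearMap.range l) ≤ 1 := by
      have := Submodule.finrank_le (LinearMap.range l)
      simpa using this
    simp at h1; omega
  obtain ⟨f, hf⟩ := exists_linearIndependent_of_le_finrank (R := ℂ) (M := LinearMap.ker l)
    (n := 2) hk
  let ι : (Fin 2 → ℂ) →ₗ[ℂ] (Fin 3 → ℂ) :=
    (LinearMap.ker l).subtype.comp (Fintype.linearCombination ℂ f)
  have hιker : ∀ w, l (ι w) = 0 := fun w =>
    LinearMap.mem_ker.mp (Fintype.linearCombination ℂ f w).2
  have hιinj : Function.Injective ι := by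
    intro x y hxy
    have h1 : Fintype.linearCombination ℂ f x = Fintype.linearCombination ℂ f y := Subtype.ext hxy
    exact (linearIndependent_iff_injective_fintypeLinearCombination.mp hf) h1
  let ρ : MvPolynomial (Fin 3) ℂ →ₐ[ℂ] MvPolynomial (Fin 2) ℂ :=
    aeval (fun i => linp ((LinearMap.proj i).comp ι))
  have hρ : ∀ (w : Fin 2 → ℂ) (r), eval w (ρ r) = eval (ι w) r := by
    intro w r
    have : (aeval w : MvPolynomial (Fin 2) ℂ →ₐ[ℂ] ℂ).comp ρ = aeval (ι w) := by
      apply MvPolynomial.algHom_ext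
      intro i
      rw [AlgHom.comp_apply, aeval_X, aeval_X, aeval_eq_eval, eval_linp]
      rfl
    have h2 := DFunLike.congr_fun this r
    rw [AlgHom.comp_apply, aeval_eq_eval, aeval_eq_eval] at h2
    exact h2
  have hnu : ¬ IsUnit (ρ q) := by
    intro hu
    have h1 := hu.map (eval (0 : Fin 2 → ℂ))
    rw [hρ, map_zero, h0] at h1
    exact not_isUnit_zero h1
  obtain ⟨w, hw0, hw⟩ := exists_root_of_not_unit hnu
  refine ⟨ι w, fun h => hw0 (hιinj (by rw [h, map_zero])), hιker w, ?_⟩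
  rw [← hρ, hw]

section J

/-- Jacobian determinant -/
noncomputable def J (f g h : MvPolynomial (Fin 3) ℂ) : MvPolynomial (Fin 3) ℂ :=
  pderiv 0 f * (pderiv 1 g * pderiv 2 h - pderiv 2 g * pderiv 1 h) -
  pderiv 1 f * (pderiv 0 g * pderiv 2 h - pderiv 2 g * pderiv 0 h) +
  pderiv 2 f * (pderiv 0 g * pderiv 1 h - pderiv 1 g * pderiv 0 h)

variable {f g h f' : MvPolynomial (Fin 3) ℂ}

theorem J_cyc (f g h : MvPolynomial (Fin 3) ℂ) : J f g h = J g h f := by
  unfold J; ring

theorem J_swap (f g h : MvPolynomial (Fin 3) ℂ) : J f g h = - J g f h := by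
  unfold J; ring

theorem J_self (f h : MvPolynomial (Fin 3) ℂ) : J f f h = 0 := by
  unfold J; ring

theorem J_mul3 (f g h h' : MvPolynomial (Fin 3) ℂ) :
    J f g (h * h') = h * J f g h' + h' * J f g h := by
  simp only [J, Derivation.leibniz, smul_eq_mul]; ring

theorem J_add3 (f g h h' : MvPolynomial (Fin 3) ℂ) :
    J f g (h + h') = J f g h + J f g h' := by
  simp only [J, map_add]; ring

theorem euler3 {f : MvPolynomial (Fin 3) ℂ} {a : ℕ} (hf : f.IsHomogeneous a) :
    X 0 * pderiv 0 f + X 1 * pderiv 1 f + X 2 * pderiv 2 f = (a : MvPolynomial (Fin 3) ℂ) * f := by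
  have := hf.sum_X_mul_pderiv
  rw [Fin.sum_univ_three, nsmul_eq_mul] at this
  exact this

theorem cramer1 {l f g h : MvPolynomial (Fin 3) ℂ} {a b c : ℕ} (hl : l.IsHomogeneous 1)
    (hf : f.IsHomogeneous a) (hg : g.IsHomogeneous b) (hh : h.IsHomogeneous c) :
    l * J f g h = (a : MvPolynomial (Fin 3) ℂ) * f * J l g h +
      (b : MvPolynomial (Fin 3) ℂ) * g * J f l h + (c : MvPolynomial (Fin 3) ℂ) * h * J f g l := by
  rw [← euler3 hf, ← euler3 hg, ← euler3 hh]
  have h1 := euler3 hl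
  rw [Nat.cast_one, one_mul] at h1
  have h2 : l * J f g h = (X 0 * pderiv 0 l + X 1 * pderiv 1 l + X 2 * pderiv 2 l) * J f g h := by
    rw [h1]
  rw [h2]
  unfold J; ring

theorem cramer2 {l m n s : MvPolynomial (Fin 3) ℂ} {a : ℕ} (hl : l.IsHomogeneous 1)
    (hm : m.IsHomogeneous 1) (hn : n.IsHomogeneous 1) (hs : s.IsHomogeneous a) :
    (a : MvPolynomial (Fin 3) ℂ) * s * J l m n = l * J s m n + m * J l s n + n * J l m s := by
  have h1 := euler3 hl
  have h2 := euler3 hm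
  have h3 := euler3 hn
  rw [Nat.cast_one, one_mul] at h1 h2 h3
  rw [← euler3 hs]
  have h4 : l * J s m n + m * J l s n + n * J l m s =
      (X 0 * pderiv 0 l + X 1 * pderiv 1 l + X 2 * pderiv 2 l) * J s m n +
      (X 0 * pderiv 0 m + X 1 * pderiv 1 m + X 2 * pderiv 2 m) * J l s n +
      (X 0 * pderiv 0 n + X 1 * pderiv 1 n + X 2 * pderiv 2 n) * J l m s := by
    rw [h1, h2, h3]
  rw [h4]
  unfold J; ring

end J

/-- homogeneous component of a product with a form -/
theorem hc_mul {i j : ℕ} {f g : MvPolynomial (Fin 3) ℂ} (hf : f.IsHomogeneous i) :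
    homogeneousComponent (i + j) (f * g) = f * homogeneousComponent j g := by
  conv_lhs => rw [← sum_homogeneousComponent g, Finset.mul_sum, map_sum]
  have h : ∀ k, homogeneousComponent (i + j) (f * homogeneousComponent k g) =
      if k = j then f * homogeneousComponent k g else 0 := by
    intro k
    have h1 : (f * homogeneousComponent k g) ∈ homogeneousSubmodule (Fin 3) ℂ (i + k) :=
      hf.mul (homogeneousComponent_isHomogeneous k g)
    rw [homogeneousComponent_of_mem h1]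
    by_cases hk : k = j
    · subst hk; simp
    · rw [if_neg hk, if_neg (by omega)]
  simp only [h]
  by_cases hj : j ∈ Finset.range (g.totalDegree + 1)
  · rw [Finset.sum_ite_eq' _ _ _, if_pos hj]
  · rw [Finset.sum_ite_eq' _ _ _, if_neg hj, homogeneousComponent_eq_zero, mul_zero]
    simp only [Finset.mem_range, not_lt] at hj; omega

theorem hc_mul_zero {i k : ℕ} {f g : MvPolynomial (Fin 3) ℂ} (hf : f.IsHomogeneous i)
    (hk : k < i) : homogeneousComponent k (f * g) = 0 := by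
  rw [← sum_homogeneousComponent g, Finset.mul_sum, map_sum]
  refine Finset.sum_eq_zero fun j _ => ?_
  have h1 : (f * homogeneousComponent j g) ∈ homogeneousSubmodule (Fin 3) ℂ (i + j) :=
    hf.mul (homogeneousComponent_isHomogeneous j g)
  rw [homogeneousComponent_of_mem h1, if_neg (by omega)]

theorem eval_zero_of_hom {n : ℕ} {f : MvPolynomial (Fin n) ℂ} {d : ℕ} (hf : f.IsHomogeneous d)
    (hd : d ≠ 0) : eval 0 f = 0 := by
  have := eval_smul_of_hom hf 0 0
  rw [zero_smul, zero_pow hd, zero_mul] at this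
  exact this

theorem pderiv_linp (k : Fin 3) (l : (Fin 3 → ℂ) →ₗ[ℂ] ℂ) :
    pderiv k (linp l) = C (l (Pi.single k 1)) := by
  simp only [linp, map_sum, Derivation.leibniz, pderiv_C, smul_eq_mul, mul_zero, add_zero,
    pderiv_X]
  rw [Finset.sum_eq_single k]
  · simp
  · intro b _ hb
    simp [hb]
  · simp

/-- the residues at two planes -/
theorem A4 {li lj : (Fin 3 → ℂ) →ₗ[ℂ] ℂ} (hli : li ≠ 0) {si sj ti tj α β : MvPolynomial (Fin 3) ℂ}
    (hsi : si.IsHomogeneous 3) (hti : ti.IsHomogeneous 5)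
    (hΔ : si ^ 2 + linp li * ti = sj ^ 2 + linp lj * tj)
    (hab : si + sj = linp li * α + linp lj * β)
    (h0 : ∀ z, li z = 0 → eval z si = 0 → eval z (linp lj) = 0 → z = 0) :
    ∃ u v w, 5 * J (linp lj) sj tj - J (linp li) si ti = linp li * u + si * v + ti * w := by
  set L := linp li with hL
  set M := linp lj with hM
  have hLh : L.IsHomogeneous 1 := linp_hom _
  have hMh : M.IsHomogeneous 1 := linp_hom _
  have e1 : M * J M sj tj = 2 * si * J M sj si + L * J M sj ti + ti * J M sj L := by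
    have e := congrArg (J M sj) hΔ
    rw [J_add3, J_add3, pow_two, pow_two, J_mul3, J_mul3, J_mul3, J_mul3,
      J_cyc M sj sj, J_self, J_cyc M sj M, J_cyc sj M M, J_self] at e
    linear_combination -e
  have e2 := cramer1 hMh hLh hsi hti
  have e3 : J L M (si + sj) = L * J L M α + M * J L M β := by
    rw [hab, J_add3, J_mul3, J_mul3, J_cyc L M L, J_cyc M L L, J_self, J_cyc L M M, J_cyc M M L]
    have : J M L M = 0 := by rw [J_cyc, J_cyc, J_self]
    rw [this]; ring
  rw [J_add3] at e3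
  have e4 : J M sj L = J L M sj := by rw [J_cyc L M sj]
  have e5 : J L si M = - J L M si := by rw [J_cyc L M si, J_swap M si L, J_cyc si M L, J_cyc M L si]; ring
  rw [e4] at e1
  rw [e5] at e2
  push_cast at e2
  have key : L ∣ si * (-(10 * J M sj si - 3 * J L M ti)) +
      M * (5 * J M sj tj - J L si ti - 5 * ti * J L M β) := by
    refine ⟨5 * J M sj ti - J M si ti + 5 * ti * J L M α, ?_⟩
    linear_combination 5 * e1 - e2 + 5 * ti * e3
  obtain ⟨u, v, huv⟩ := regF hli h0 key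
  exact ⟨u, v, 5 * J L M β, by linear_combination huv⟩

end Pool.Agent.Helper16
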