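import Mathlib
import Pool.Agent.Helper16.CubicA3
import Pool.Agent.Helper16.CubicJac

set_option autoImplicit false
set_option linter.unusedVariables false
set_option linter.unusedSectionVars false

namespace Pool.Agent.Helper16

open MvPolynomial Module

theorem ker2 {a b d e : ℂ} (h : a * e - b * d = 0) :
    ∃ r s : ℂ, (r ≠ 0 ∨ s ≠ 0) ∧ r * a + s * b = 0 ∧ r * d + s * e = 0 := by
  have hdet : Matrix.det !![a, b; d, e] = 0 := by
    rw [Matrix.det_fin_two_of]; exact h
  obtain ⟨v, hv0, hv⟩ := Matrix.exists_mulVec_eq_zero_iff.mpr hdet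
  refine ⟨v 0, v 1, ?_, ?_, ?_⟩
  · by_contra hcon
    push Not at hcon
    apply hv0
    funext i; fin_cases i
    · exact hcon.1
    · exact hcon.2
  · have := congrFun hv 0
    simp [Matrix.mulVec, dotProduct, Fin.sum_univ_two] at this
    linear_combination this
  · have := congrFun hv 1
    simp [Matrix.mulVec, dotProduct, Fin.sum_univ_two] at this
    linear_combination this

theorem span3 {x y z : Fin 3 → ℂ} (h : LinearIndependent ℂ ![x, y, z]) (v : Fin 3 → ℂ) :
    ∃ a b e : ℂ, v = a • x + b • y + e • z := by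
  have htop := h.span_eq_top_of_card_eq_finrank (by simp)
  have hv : v ∈ Submodule.span ℂ (Set.range ![x, y, z]) := by rw [htop]; trivial
  obtain ⟨c, hc⟩ := (Submodule.mem_span_range_iff_exists_fun ℂ).mp hv
  refine ⟨c 0, c 1, c 2, ?_⟩
  rw [← hc, Fin.sum_univ_three]; rfl

theorem indep3 {x y z : Fin 3 → ℂ}
    (h : ∀ a b e : ℂ, a • x + b • y + e • z = 0 → a = 0 ∧ b = 0 ∧ e = 0) :
    LinearIndependent ℂ ![x, y, z] := by
  rw [Fintype.linearIndependent_iff]
  intro g hg
  rw [Fin.sum_univ_three] at hg
  obtain ⟨h0, h1, h2⟩ := h (g 0) (g 1) (g 2) hg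
  intro i; fin_cases i
  · exact h0
  · exact h1
  · exact h2

theorem indep3_elim {x y z : Fin 3 → ℂ} (h : LinearIndependent ℂ ![x, y, z]) {a b e : ℂ}
    (h0 : a • x + b • y + e • z = 0) : a = 0 ∧ b = 0 ∧ e = 0 := by
  rw [Fintype.linearIndependent_iff] at h
  have := h ![a, b, e] (by rw [Fin.sum_univ_three]; exact h0)
  exact ⟨this 0, this 1, this 2⟩

theorem mk4_add_aux (y y' : Fin 3 → ℂ) : mk4 (y + y') (0 : ℂ) = mk4 y 0 + mk4 y' 0 := by
  rw [← mk4_add, add_zero]

namespace Cub

variable {c : Cub (I6 → ℂ)}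

theorem rad_of_span {z x y d : Fin 3 → ℂ} (hspan : LinearIndependent ℂ ![x, y, d])
    {u v : Fin 4 → ℂ} (hv3 : v 3 = 1) (h1 : c.nf z u (mk4 x 0) = 0)
    (h2 : c.nf z u (mk4 y 0) = 0) (h3 : c.nf z u (mk4 d 0) = 0) (h4 : c.nf z u v = 0) :
    c.Rad z u := by
  intro w
  have e : w = mk4 (fun a => (w - w 3 • v) a.castSucc) 0 + w 3 • v := by
    have h5 := eq_mk4 (w - w 3 • v)
    have h6 : (w - w 3 • v) 3 = 0 := by simp [hv3]
    rw [h6] at h5
    rw [← h5]; abel
  obtain ⟨a, b, k, hy⟩ := span3 hspan (fun a => (w - w 3 • v) a.castSucc)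
  rw [hy] at e
  have e2 : mk4 (a • x + b • y + k • d) (0 : ℂ) = a • mk4 x 0 + b • mk4 y 0 + k • mk4 d 0 := by
    rw [← mk4_smul0, ← mk4_smul0, ← mk4_smul0, ← mk4_add, ← mk4_add, add_zero, add_zero]
  rw [e, e2]
  simp only [map_add, map_smul, h1, h2, h3, h4, smul_zero, add_zero]

/-- the tangent functionals at two planes are independent -/
theorem tl_indep (hP : c.Iso P0) (hno : NoCol c) {W W' : Submodule ℂ (I6 → ℂ)} (hW : c.Pl W)
    (hW' : c.Pl W') (hne : W ≠ W') (hmeet : W ⊓ W' ≠ ⊥) {x x' : Fin 3 → ℂ}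
    {φ φ' : (Fin 3 → ℂ) →ₗ[ℂ] (Fin 3 → ℂ)} (h : c.AD W x φ) (h' : c.AD W' x' φ') :
    ∃ z, c.tl x z = 0 ∧ c.tl x' z ≠ 0 := by
  by_contra hcon
  push Not at hcon
  have hK : finrank ℂ (LinearMap.ker (c.tl x)) = 2 := by
    have h2 := LinearMap.finrank_range_add_finrank_ker (c.tl x)
    have h3 : LinearMap.range (c.tl x) = ⊤ :=
      LinearMap.range_eq_top.mpr (LinearMap.surjective (tl_ne_zero hP h.x0))
    rw [h3, finrank_top] at h2
    simp at h2; omega
  obtain ⟨w, hw, hw0⟩ := Submodule.exists_mem_ne_zero_of_ne_bot hmeet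
  by_cases hw1 : pZ ℂ w = 0
  · -- common point in the base plane
    have hwy : w = iY ℂ (pY ℂ w) := eq_iY_of_mem (mem_P0.mpr hw1)
    obtain ⟨a, ha⟩ := h.inter (pY ℂ w) (by rw [← hwy]; exact hw.1)
    obtain ⟨a', ha'⟩ := h'.inter (pY ℂ w) (by rw [← hwy]; exact hw.2)
    have hy0 : pY ℂ w ≠ 0 := by
      intro h0; apply hw0; rw [hwy, h0, map_zero]
    have ha0 : a ≠ 0 := by
      rintro rfl; rw [zero_smul] at ha; exact hy0 ha
    have hxW' : iY ℂ x ∈ W' := by
      have : iY ℂ x = a⁻¹ • iY ℂ (pY ℂ w) := by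
        rw [ha, map_smul, smul_smul, inv_mul_cancel₀ ha0, one_smul]
      rw [this, ← hwy]; exact W'.smul_mem _ hw.2
    let pR : I6 → R3 := Sum.elim (fun a => linp ((LinearMap.proj a).comp φ)) X
    let pR' : I6 → R3 := Sum.elim (fun a => linp ((LinearMap.proj a).comp φ')) X
    have ev : ∀ z, (fun i => aeval z (pR i)) = iY ℂ (φ z) + iZ ℂ z := by
      intro z; funext i; rcases i with i | i
      · simp [pR, aeval_eq_eval, eval_linp]
      · simp [pR]
    have ev' : ∀ z, (fun i => aeval z (pR' i)) = iY ℂ (φ' z) + iZ ℂ z := by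
      intro z; funext i; rcases i with i | i
      · simp [pR', aeval_eq_eval, eval_linp]
      · simp [pR']
    have hq : ∀ z, eval z (c.ext R3 pR pR pR') = c.T (iY ℂ (φ z) + iZ ℂ z) (iY ℂ (φ z) + iZ ℂ z)
        (iY ℂ (φ' z) + iZ ℂ z) := by
      intro z
      rw [← aeval_eq_eval, map_ext, ev, ev', ext_complex]
    obtain ⟨z, hz0, hz, hzq⟩ := exists_root_on_line (l := c.tl x) (q := c.ext R3 pR pR pR') (by
      rw [hq]; simp)
    rw [hq] at hzq
    set p := iY ℂ (φ z) + iZ ℂ z with hp
    set p' := iY ℂ (φ' z) + iZ ℂ z with hp'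
    set Xx := iY ℂ x with hX
    have hpW : p ∈ W := h.pW z hz
    have hpW' : p' ∈ W' := h'.pW z (hcon z hz)
    have hθ : p' - p ∈ P0 := by rw [mem_P0, hp, hp']; simp
    have hθ' : p' - p = iY ℂ (φ' z - φ z) := by rw [hp, hp', map_sub]; abel
    have hXP : Xx ∈ P0 := iY_mem _
    have hli : LinearIndependent ℂ ![x, φ' z - φ z] := by
      rw [LinearIndependent.pair_iff' h.x0]
      intro b hb
      have hu : p' ∈ W := by
        have : p' = p + b • Xx := by
          rw [hX, ← map_smul, hb, ← hθ']; abel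
        rw [this]
        exact W.add_mem hpW (W.smul_mem _ h.xW)
      exact hno W W' hW hW' hne (two_of_indep hW hW' hne ⟨hu, hpW'⟩ ⟨h.xW, hxW'⟩
        (indep_YZ h.x0 hz0))
    -- the values of the form
    have t1 : c.T Xx Xx Xx = 0 := hP _ hXP
    have t2 : c.T Xx Xx p = 0 := hW.iso.two h.xW hpW
    have t3 : c.T Xx Xx p' = 0 := hW'.iso.two hxW' hpW'
    have t4 : c.T Xx p p = 0 := hW.iso.three h.xW hpW hpW
    have t5 : c.T Xx p' p' = 0 := hW'.iso.three hxW' hpW' hpW'
    have t6 : c.T p p p = 0 := hW.iso _ hpW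
    have t7 : c.T p' p' p' = 0 := hW'.iso _ hpW'
    have t8 : c.T Xx p p' = 0 := by
      have := hP.three hXP hθ hθ
      simp only [map_sub, LinearMap.sub_apply, t4, t5] at this
      rw [c.s23 Xx p' p] at this
      linear_combination (-1/2) * this
    have t9 : c.T p p' p' = 0 := by
      have := hP _ hθ
      simp only [map_sub, LinearMap.sub_apply, t6, t7, hzq] at this
      rw [c.s12 p' p p', c.s13 p' p' p, c.s23 p p' p, hzq, c.s12 p' p p, c.s23 p p' p, hzq] at this
      linear_combination (-1/3) * this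
    have hzq' : c.T p p p' = 0 := hzq
    -- the plane
    have hLI : LinearIndependent ℂ ![Xx, p, p'] := by
      rw [Fintype.linearIndependent_iff]
      intro g hg
      rw [Fin.sum_univ_three] at hg
      have hg' : g 0 • Xx + g 1 • p + g 2 • p' = 0 := hg
      have e1 := congrArg (pZ ℂ) hg'
      simp only [map_add, map_smul, hX, hp, hp', pZ_iY, pZ_iZ, zero_add, smul_zero,
        map_zero] at e1
      rw [← add_smul] at e1
      have e2 : g 1 + g 2 = 0 := (smul_eq_zero.mp e1).resolve_right hz0
      have e3 := congrArg (pY ℂ) hg'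
      simp only [map_add, map_smul, hX, hp, hp', pY_iY, pY_iZ, add_zero, map_zero] at e3
      rw [LinearIndependent.pair_iff] at hli
      have e4 := hli (g 0) (g 2) (by
        rw [← e3, smul_sub]
        have : g 1 = - g 2 := by linear_combination e2
        rw [this, neg_smul]; abel)
      have e5 : g 1 = 0 := by linear_combination e2 - e4.2
      intro i; fin_cases i
      · exact e4.1
      · exact e5
      · exact e4.2
    set A := Submodule.span ℂ (Set.range ![Xx, p, p']) with hA
    have hAX : ∀ i, ![Xx, p, p'] i ∈ A := fun i => Submodule.subset_span ⟨i, rfl⟩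
    have hApl : c.Pl A := by
      refine ⟨by rw [hA, finrank_span_eq_card hLI]; simp, ?_⟩
      intro u hu
      obtain ⟨g, rfl⟩ := (Submodule.mem_span_range_iff_exists_fun ℂ).mp hu
      rw [Fin.sum_univ_three]
      change c.T (g 0 • Xx + g 1 • p + g 2 • p') (g 0 • Xx + g 1 • p + g 2 • p')
        (g 0 • Xx + g 1 • p + g 2 • p') = 0
      rw [c.cube_add, c.cube_add]
      simp only [map_add, map_smul, LinearMap.add_apply, LinearMap.smul_apply, smul_eq_mul,
        t1, t2, t3, t4, t5, t6, t7, t8, t9, hzq', c.s12 p Xx p', mul_zero, add_zero]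
    have hAne : A ≠ P0 := by
      intro he
      have : p ∈ P0 := by rw [← he]; exact hAX 1
      rw [mem_P0, hp] at this
      simp at this
      exact hz0 this
    refine hno A P0 hApl (pl_P0 hP) hAne (two_of_indep (u := Xx) (v := iY ℂ (φ' z - φ z)) hApl
      (pl_P0 hP) hAne ⟨hAX 0, hXP⟩ ⟨?_, iY_mem _⟩ ?_)
    · rw [← hθ']; exact A.sub_mem (hAX 2) (hAX 1)
    · rw [LinearIndependent.pair_iff] at hli ⊢
      intro s t hst
      apply hli
      have := congrArg (pY ℂ) hst
      simpa [hX] using this
  · -- common point outside the base plane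
    set b := pZ ℂ w with hbdef
    have hb := h.memW w hw.1
    rw [← hbdef] at hb
    set y := pY ℂ w with hydef
    have hdec : w = iY ℂ y + iZ ℂ b := decomp w
    -- a second vector
    obtain ⟨b', hb', hbb'⟩ : ∃ b', c.tl x b' = 0 ∧ LinearIndependent ℂ ![b, b'] := by
      by_contra hcon2
      push Not at hcon2
      have hle : LinearMap.ker (c.tl x) ≤ ℂ ∙ b := by
        intro u hu
        have h2 := hcon2 u (LinearMap.mem_ker.mp hu)
        rw [LinearIndependent.pair_iff' hw1] at h2
        push Not at h2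
        obtain ⟨a, ha⟩ := h2
        rw [← ha]; exact Submodule.smul_mem _ _ (Submodule.mem_span_singleton_self _)
      have h3 := Submodule.finrank_mono hle
      rw [hK, finrank_span_singleton hw1] at h3
      omega
    set p := iY ℂ (φ b') + iZ ℂ b' with hp
    set p' := iY ℂ (φ' b') + iZ ℂ b' with hp'
    have hpW : p ∈ W := h.pW b' hb'
    have hpW' : p' ∈ W' := h'.pW b' (hcon b' hb')
    set d := φ b' - φ' b' with hd
    have hpd : p - p' = iY ℂ d := by rw [hp, hp', hd, map_sub]; abel
    have hmem : iY ℂ y + iZ ℂ b ∈ W ⊓ W' := by rw [← hdec]; exact hw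
    have hxx : LinearIndependent ℂ ![x, x'] := by
      rw [LinearIndependent.pair_iff' h.x0]
      intro r hr
      have hxW' : iY ℂ x' ∈ W := by
        rw [← hr, map_smul]; exact W.smul_mem _ h.xW
      exact hno W W' hW hW' hne (two_of_indep hW hW' hne hmem ⟨hxW', h'.xW⟩
        (indep_YZ h'.x0 hw1))
    have hLI : LinearIndependent ℂ ![x, x', d] := by
      apply indep3
      intro a a' e he
      have he0 : e = 0 := by
        by_contra hne0
        have hu : e • p + a • iY ℂ x ∈ W := W.add_mem (W.smul_mem _ hpW) (W.smul_mem _ h.xW)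
        have heq : e • p + a • iY ℂ x = e • p' - a' • iY ℂ x' := by
          have e1 := congrArg (iY ℂ) he
          rw [map_add, map_add, map_smul, map_smul, map_smul, ← hpd, map_zero] at e1
          have : e • p + a • iY ℂ x - (e • p' - a' • iY ℂ x') = 0 := by
            rw [← e1, smul_sub]; abel
          exact sub_eq_zero.mp this
        have hu' : e • p + a • iY ℂ x ∈ W' := by
          rw [heq]; exact W'.sub_mem (W'.smul_mem _ hpW') (W'.smul_mem _ h'.xW)
        refine hno W W' hW hW' hne (two_of_indep hW hW' hne hw ⟨hu, hu'⟩ ?_)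
        rw [LinearIndependent.pair_iff] at hbb' ⊢
        intro s t hst
        have e1 := congrArg (pZ ℂ) hst
        simp only [map_add, map_smul, hp, pZ_iY, pZ_iZ, zero_add, smul_zero, add_zero,
          map_zero, ← hbdef] at e1
        rw [smul_smul] at e1
        have e2 := hbb' s (t * e) e1
        exact ⟨e2.1, (mul_eq_zero.mp e2.2).resolve_right hne0⟩
      rw [he0, zero_smul, add_zero] at he
      rw [LinearIndependent.pair_iff] at hxx
      have := hxx a a' he
      exact ⟨this.1, this.2, he0⟩
    -- the quadratic form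
    let la : (Fin 3 → ℂ) →ₗ[ℂ] ℂ := (c.T (iY ℂ x) (iY ℂ x')).comp (iZ ℂ)
    let lc : (Fin 3 → ℂ) →ₗ[ℂ] ℂ := (c.T (iY ℂ x) (iY ℂ d)).comp (iZ ℂ)
    let lc' : (Fin 3 → ℂ) →ₗ[ℂ] ℂ := (c.T (iY ℂ x') (iY ℂ d)).comp (iZ ℂ)
    let le : (Fin 3 → ℂ) →ₗ[ℂ] ℂ := (c.T (iY ℂ d) (iY ℂ d)).comp (iZ ℂ)
    obtain ⟨z, hzK, hz0, hzQ⟩ := Q1' ((1/2 : ℂ) • la.smulRight le - lc.smulRight lc')
      (LinearMap.ker (c.tl x)) (by omega)
    have hz : c.tl x z = 0 := LinearMap.mem_ker.mp hzK
    have hz' : c.tl x' z = 0 := hcon z hz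
    have hQ : (1/2) * (la z * le z) - lc z * lc' z = 0 := by
      simpa [LinearMap.smulRight_apply] using hzQ
    obtain ⟨β, α, hβα⟩ : ∃ β α : ℂ, z = β • b + α • b' := by
      have hle : Submodule.span ℂ (Set.range ![b, b']) ≤ LinearMap.ker (c.tl x) := by
        rw [Submodule.span_le]
        rintro _ ⟨i, rfl⟩
        fin_cases i
        · exact hb
        · exact hb'
      have heq := Submodule.eq_of_le_of_finrank_eq hle
        (by rw [hK, finrank_span_eq_card hbb']; simp)
      rw [← heq] at hzK
      obtain ⟨g, hg⟩ := (Submodule.mem_span_range_iff_exists_fun ℂ).mp hzK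
      refine ⟨g 0, g 1, ?_⟩
      rw [← hg, Fin.sum_univ_two]; rfl
    set v := mk4 (β • y + α • φ b') (1 : ℂ) with hv
    set v' := mk4 (β • y + α • φ' b') (1 : ℂ) with hv'
    have hptv : pt z v = β • w + α • p := by
      rw [hv, pt_mk4, one_smul, hβα, hdec, hp]
      simp only [map_add, map_smul, smul_add]; abel
    have hptv' : pt z v' = β • w + α • p' := by
      rw [hv', pt_mk4, one_smul, hβα, hdec, hp']
      simp only [map_add, map_smul, smul_add]; abel
    have hvW : pt z v ∈ W := by
      rw [hptv]; exact W.add_mem (W.smul_mem _ hw.1) (W.smul_mem _ hpW)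
    have hvW' : pt z v' ∈ W' := by
      rw [hptv']; exact W'.add_mem (W'.smul_mem _ hw.2) (W'.smul_mem _ hpW')
    have n1 : c.nf z v v = 0 := nf_iso hP hW.iso hvW one_ne_zero
    have n2 : c.nf z v (mk4 x 0) = 0 := nf_iso_Y hP hW.iso hvW one_ne_zero h.xW
    have n3 : c.nf z v' v' = 0 := nf_iso hP hW'.iso hvW' one_ne_zero
    have n4 : c.nf z v' (mk4 x' 0) = 0 := nf_iso_Y hP hW'.iso hvW' one_ne_zero h'.xW
    have n5 : c.nf z (mk4 x 0) (mk4 x 0) = 0 := by rw [nf_YY]; exact hz
    have n6 : c.nf z (mk4 x' 0) (mk4 x' 0) = 0 := by rw [nf_YY]; exact hz'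
    have n7 : c.nf z (mk4 x 0) (mk4 x' 0) = la z := by rw [nf_YY]; rfl
    have n8 : c.nf z (mk4 x 0) (mk4 d 0) = lc z := by rw [nf_YY]; rfl
    have n9 : c.nf z (mk4 x' 0) (mk4 d 0) = lc' z := by rw [nf_YY]; rfl
    have n10 : c.nf z (mk4 d 0) (mk4 d 0) = le z := by rw [nf_YY]; rfl
    have hvv' : v = v' + α • mk4 d 0 := by
      rw [hv, hv', ← mk4_smul0, ← mk4_add, add_zero, hd]
      congr 1
      rw [smul_sub]; abel
    have n11 : c.nf z v (mk4 x' 0) = α * lc' z := by
      rw [hvv', map_add, LinearMap.add_apply, n4, map_smul, LinearMap.smul_apply, smul_eq_mul,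
        c.nf_symm z (mk4 d 0) (mk4 x' 0), n9]; ring
    have n12 : c.nf z v' (mk4 x 0) = - (α * lc z) := by
      have e := n2
      rw [hvv', map_add, LinearMap.add_apply, map_smul, LinearMap.smul_apply, smul_eq_mul,
        c.nf_symm z (mk4 d 0) (mk4 x 0), n8] at e
      linear_combination e
    have n13 : c.nf z v (mk4 d 0) = c.nf z v' (mk4 d 0) + α * le z := by
      conv_lhs => rw [hvv']
      rw [map_add, LinearMap.add_apply, map_smul, LinearMap.smul_apply, smul_eq_mul, n10]
    have n14 : α * (2 * c.nf z v' (mk4 d 0) + α * le z) = 0 := by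
      have e := n1
      rw [hvv'] at e
      simp only [map_add, LinearMap.add_apply, map_smul, LinearMap.smul_apply, smul_eq_mul, n3,
        n10, c.nf_symm z (mk4 d 0) v'] at e
      linear_combination e
    by_cases hα : α = 0
    · -- the root is the common point
      have n15 : c.nf z v (mk4 d 0) = 0 := by
        have e1 := T_pt_Y hP z v (mk4 d 0) rfl
        have e2 : pt z v = β • w := by rw [hptv, hα, zero_smul, add_zero]
        have e3 : c.T w w (iY ℂ d) = 0 := by
          rw [← hpd, map_sub, hW.iso.two hw.1 hpW, hW'.iso.two hw.2 hpW', sub_zero]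
        rw [e2, vY_mk4] at e1
        simp only [map_smul, LinearMap.smul_apply, smul_eq_mul, e3, mul_zero] at e1
        have e4 : (2 : ℂ) * v 3 ≠ 0 := by rw [hv]; simp
        exact (mul_eq_zero.mp e1.symm).resolve_left e4
      have hradv : c.Rad z v := by
        refine rad_of_span hLI (v := v) (by rw [hv]; rfl) n2 ?_ n15 n1
        rw [n11, hα, zero_mul]
      obtain ⟨r, s, t, hrst, k1, k2, k3⟩ : ∃ r s t : ℂ, (r ≠ 0 ∨ s ≠ 0 ∨ t ≠ 0) ∧
          s * la z + t * lc z = 0 ∧ r * la z + t * lc' z = 0 ∧
          r * lc z + s * lc' z + t * le z = 0 := by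
        by_cases hA : la z = 0
        · rw [hA] at hQ
          have hcc : lc z * lc' z = 0 := by linear_combination -hQ
          rcases mul_eq_zero.mp hcc with h0 | h0
          · exact ⟨1, 0, 0, Or.inl one_ne_zero, by simp, by simp [hA], by simp [h0]⟩
          · exact ⟨0, 1, 0, Or.inr (Or.inl one_ne_zero), by simp [hA], by simp, by simp [h0]⟩
        · exact ⟨-lc' z, -lc z, la z, Or.inr (Or.inr hA), by ring, by ring,
            by linear_combination 2 * hQ⟩
      set u := r • mk4 x (0 : ℂ) + s • mk4 x' 0 + t • mk4 d 0 with hu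
      have hu' : u = mk4 (r • x + s • x' + t • d) 0 := by
        rw [hu, ← mk4_smul0, ← mk4_smul0, ← mk4_smul0, ← mk4_add, ← mk4_add, add_zero, add_zero]
      have hradu : c.Rad z u := by
        refine rad_of_span hLI (v := v) (by rw [hv]; rfl) ?_ ?_ ?_ ?_
        · rw [hu]
          simp only [map_add, LinearMap.add_apply, map_smul, LinearMap.smul_apply, smul_eq_mul,
            n5, c.nf_symm z (mk4 x' 0) (mk4 x 0), n7, c.nf_symm z (mk4 d 0) (mk4 x 0), n8]
          linear_combination k1
        · rw [hu]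
          simp only [map_add, LinearMap.add_apply, map_smul, LinearMap.smul_apply, smul_eq_mul,
            n6, n7, c.nf_symm z (mk4 d 0) (mk4 x' 0), n9]
          linear_combination k2
        · rw [hu]
          simp only [map_add, LinearMap.add_apply, map_smul, LinearMap.smul_apply, smul_eq_mul,
            n8, n9, n10]
          linear_combination k3
        · rw [nf_symm]; exact hradv u
      refine rad_contra hP hno hz0 (v := v) (v' := u) ?_ hradv hradu
      rw [LinearIndependent.pair_iff]
      intro a a' haa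
      have e1 := congrFun haa 3
      rw [hu'] at e1
      simp only [hv, Pi.add_apply, Pi.smul_apply, mk4_3, smul_eq_mul, mul_one, mul_zero,
        add_zero, Pi.zero_apply] at e1
      refine ⟨e1, ?_⟩
      rw [e1, zero_smul, zero_add] at haa
      by_contra hne0
      have e2 : u = 0 := (smul_eq_zero.mp haa).resolve_left hne0
      have e3 : r • x + s • x' + t • d = 0 := by
        funext i
        have := congrFun (hu'.symm.trans e2) i.castSucc
        fin_cases i <;> simpa [mk4] using this
      obtain ⟨r0, s0, t0⟩ := indep3_elim hLI e3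
      rcases hrst with h | h | h
      · exact h r0
      · exact h s0
      · exact h t0
    · -- the root is a different point
      have n16 : 2 * c.nf z v' (mk4 d 0) = - (α * le z) := by
        have := (mul_eq_zero.mp n14).resolve_left hα
        linear_combination this
      obtain ⟨r, s, hrs, k1, k2⟩ := ker2 (a := la z) (b := α * lc' z) (d := lc z)
        (e := α * le z / 2) (by linear_combination α * hQ)
      obtain ⟨r', s', hrs', k1', k2'⟩ := ker2 (a := la z) (b := - (α * lc z)) (d := lc' z)
        (e := - (α * le z / 2)) (by linear_combination -α * hQ)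
      have hr1 : c.Rad z (r • mk4 x 0 + s • v) := by
        refine rad_of_span hLI (v := v) (by rw [hv]; rfl) ?_ ?_ ?_ ?_
        · simp only [map_add, LinearMap.add_apply, map_smul, LinearMap.smul_apply, smul_eq_mul,
            n5, n2]; ring
        · simp only [map_add, LinearMap.add_apply, map_smul, LinearMap.smul_apply, smul_eq_mul,
            n7, n11]; exact k1
        · simp only [map_add, LinearMap.add_apply, map_smul, LinearMap.smul_apply, smul_eq_mul,
            n8, n13]
          linear_combination k2 + s / 2 * n16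
        · simp only [map_add, LinearMap.add_apply, map_smul, LinearMap.smul_apply, smul_eq_mul,
            n1, c.nf_symm z (mk4 x 0) v, n2]; ring
      have hr2 : c.Rad z (r' • mk4 x' 0 + s' • v') := by
        refine rad_of_span hLI (v := v') (by rw [hv']; rfl) ?_ ?_ ?_ ?_
        · simp only [map_add, LinearMap.add_apply, map_smul, LinearMap.smul_apply, smul_eq_mul,
            c.nf_symm z (mk4 x' 0) (mk4 x 0), n7, n12]; exact k1'
        · simp only [map_add, LinearMap.add_apply, map_smul, LinearMap.smul_apply, smul_eq_mul,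
            n6, n4]; ring
        · simp only [map_add, LinearMap.add_apply, map_smul, LinearMap.smul_apply, smul_eq_mul,
            n9]
          linear_combination k2' + s' / 2 * n16
        · simp only [map_add, LinearMap.add_apply, map_smul, LinearMap.smul_apply, smul_eq_mul,
            n3, c.nf_symm z (mk4 x' 0) v', n4]; ring
      refine rad_contra hP hno hz0 ?_ hr1 hr2
      rw [LinearIndependent.pair_iff]
      intro a a' haa
      have e1 := congrFun haa 3
      simp only [hv, hv', Pi.add_apply, Pi.smul_apply, mk4_3, smul_eq_mul, mul_one, mul_zero,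
        zero_add, Pi.zero_apply] at e1
      have e2 : (a * r) • x + (a' * r') • x' + (-(a' * s' * α)) • d = 0 := by
        have e3 : a • (r • mk4 x (0 : ℂ) + s • v) + a' • (r' • mk4 x' 0 + s' • v') =
            mk4 ((a * r) • x + (a' * r') • x' + (-(a' * s' * α)) • d) 0 +
            (a * s + a' * s') • v := by
          rw [mk4_add_aux, mk4_add_aux, mk4_smul0, mk4_smul0, mk4_smul0]
          have e4 : v' = v - α • mk4 d 0 := by rw [hvv']; abel
          rw [e4]
          module
        rw [e1, zero_smul, add_zero, haa] at e3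
        funext i
        have := congrFun e3.symm i.castSucc
        fin_cases i <;> simpa [mk4] using this
      obtain ⟨q1, q2, q3⟩ := indep3_elim hLI e2
      have q3' : a' * s' = 0 := by
        have : (a' * s') * α = 0 := by linear_combination -q3
        exact (mul_eq_zero.mp this).resolve_right hα
      have q4 : a * s = 0 := by linear_combination e1 - q3'
      constructor
      · rcases hrs with h | h
        · exact (mul_eq_zero.mp q1).resolve_right h
        · exact (mul_eq_zero.mp q4).resolve_right h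
      · rcases hrs' with h | h
        · exact (mul_eq_zero.mp q2).resolve_right h
        · exact (mul_eq_zero.mp q3').resolve_right h

end Cub

end Pool.Agent.Helper16
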