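import Pool.Agent.Helper16.CubicPoly

set_option autoImplicit false
set_option linter.unusedVariables false
set_option linter.unusedSectionVars false

namespace Pool.Agent.Helper16

open MvPolynomial Module

instance finite_hom (d : ℕ) : FiniteDimensional ℂ (homogeneousSubmodule (Fin 3) ℂ d) := by
  rw [homogeneousSubmodule_eq_finsupp_supported]
  have hfin : Finite {x : Fin 3 →₀ ℕ | x.degree = d} := by
    have e : {x : Fin 3 →₀ ℕ | x.degree = d} ≃ Sym (Fin 3) d := by
      refine Equiv.trans ?_ (Sym.equivNatSum (Fin 3) d).symm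
      refine Equiv.subtypeEquivRight fun x => ?_
      rw [Set.mem_ofPred_eq, Finsupp.degree_eq_sum, Finsupp.sum_fintype _ _ (by simp)]
      rfl
    exact Finite.of_equiv _ e.symm
  exact Module.Finite.of_basis (basisRestrictSupport ℂ {x : Fin 3 →₀ ℕ | x.degree = d})

theorem finrank_hom3 (d : ℕ) :
    finrank ℂ (homogeneousSubmodule (Fin 3) ℂ d) = (d + 2).choose 2 := by
  rw [homogeneousSubmodule_eq_finsupp_supported]
  have h := finrank_eq_nat_card_basis (basisRestrictSupport ℂ {x : Fin 3 →₀ ℕ | x.degree = d})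
  refine h.trans ?_
  have e : {x : Fin 3 →₀ ℕ | x.degree = d} ≃ Sym (Fin 3) d := by
    refine Equiv.trans ?_ (Sym.equivNatSum (Fin 3) d).symm
    refine Equiv.subtypeEquivRight fun x => ?_
    rw [Set.mem_ofPred_eq, Finsupp.degree_eq_sum, Finsupp.sum_fintype _ _ (by simp)]
    rfl
  rw [Nat.card_congr e, Nat.card_eq_fintype_card, Sym.card_sym_eq_choose, Fintype.card_fin]
  have : 3 + d - 1 = d + 2 := by omega
  rw [this, ← Nat.choose_symm (by omega : 2 ≤ d + 2)]
  congr 1

theorem exists_lin_sep {z w : Fin 3 → ℂ} (h : z ∉ (ℂ ∙ w)) :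
    ∃ L : (Fin 3 → ℂ) →ₗ[ℂ] ℂ, L w = 0 ∧ L z ≠ 0 := by
  obtain ⟨f, hfx, hf⟩ := Submodule.exists_le_ker_of_notMem h
  exact ⟨f, LinearMap.mem_ker.mp (hf (Submodule.mem_span_singleton_self w)), hfx⟩

theorem exists_lin_ne {z : Fin 3 → ℂ} (h : z ≠ 0) :
    ∃ L : (Fin 3 → ℂ) →ₗ[ℂ] ℂ, L z ≠ 0 := by
  obtain ⟨k, hk⟩ := Function.ne_iff.mp h
  exact ⟨LinearMap.proj k, hk⟩

/-- points impose independent conditions on forms of large degree -/
theorem exists_sep_form {N : ℕ} (z : Fin N → (Fin 3 → ℂ)) (h0 : ∀ i, z i ≠ 0)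
    (hz : ∀ i j, i ≠ j → z i ∉ (ℂ ∙ z j)) (i : Fin N) {d : ℕ} (hd : N ≤ d) :
    ∃ G : MvPolynomial (Fin 3) ℂ, G.IsHomogeneous d ∧ eval (z i) G ≠ 0 ∧
      ∀ j, j ≠ i → eval (z j) G = 0 := by
  classical
  have hL : ∀ j, ∃ L : (Fin 3 → ℂ) →ₗ[ℂ] ℂ, j ≠ i → (L (z j) = 0 ∧ L (z i) ≠ 0) := by
    intro j
    by_cases hji : j = i
    · exact ⟨0, fun h => absurd hji h⟩
    · obtain ⟨L, h1, h2⟩ := exists_lin_sep (hz i j (Ne.symm hji))
      exact ⟨L, fun _ => ⟨h1, h2⟩⟩
  choose L hL using hL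
  obtain ⟨M, hM⟩ := exists_lin_ne (h0 i)
  have hcard : (Finset.univ.erase i : Finset (Fin N)).card = N - 1 := by
    rw [Finset.card_erase_of_mem (Finset.mem_univ i)]; simp
  have hN : 1 ≤ N := by have := i.2; omega
  refine ⟨(∏ j ∈ Finset.univ.erase i, linp (L j)) * (linp M) ^ (d - (N - 1)), ?_, ?_, ?_⟩
  · have h1 : (∏ j ∈ Finset.univ.erase i, linp (L j)).IsHomogeneous
        (∑ j ∈ (Finset.univ.erase i : Finset (Fin N)), 1) :=
      IsHomogeneous.prod _ _ _ fun j _ => linp_hom (L j)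
    rw [Finset.sum_const, hcard, smul_eq_mul, mul_one] at h1
    have h2 := h1.mul ((linp_hom M).pow (d - (N - 1)))
    have h3 : N - 1 + 1 * (d - (N - 1)) = d := by omega
    rwa [h3] at h2
  · rw [map_mul, map_prod, map_pow, eval_linp]
    refine mul_ne_zero ?_ (pow_ne_zero _ hM)
    rw [Finset.prod_ne_zero_iff]
    intro j hj
    rw [eval_linp]
    exact (hL j (Finset.ne_of_mem_erase hj)).2
  · intro j hj
    rw [map_mul, map_prod]
    have : ∏ k ∈ Finset.univ.erase i, eval (z j) (linp (L k)) = 0 := by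
      apply Finset.prod_eq_zero (Finset.mem_erase.mpr ⟨hj, Finset.mem_univ j⟩)
      rw [eval_linp]
      exact (hL j hj).1
    rw [this, zero_mul]

/-- evaluation at finitely many points -/
noncomputable def evs {N : ℕ} (z : Fin N → (Fin 3 → ℂ)) (d : ℕ) :
    homogeneousSubmodule (Fin 3) ℂ d →ₗ[ℂ] (Fin N → ℂ) where
  toFun G := fun i => eval (z i) (G : MvPolynomial (Fin 3) ℂ)
  map_add' x y := by funext i; simp
  map_smul' a x := by funext i; simp [smul_eval]

theorem evs_surj {N : ℕ} (z : Fin N → (Fin 3 → ℂ)) (h0 : ∀ i, z i ≠ 0)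
    (hz : ∀ i j, i ≠ j → z i ∉ (ℂ ∙ z j)) {d : ℕ} (hd : N ≤ d) :
    LinearMap.range (evs z d) = ⊤ := by
  classical
  rw [eq_top_iff]
  intro v _
  have hv : v = ∑ i, v i • (Pi.single i 1 : Fin N → ℂ) := by
    funext i
    simp only [Finset.sum_apply, Pi.smul_apply, smul_eq_mul, Pi.single_apply]
    simp
  rw [hv]
  refine Submodule.sum_mem _ fun i _ => Submodule.smul_mem _ _ ?_
  obtain ⟨G, hG, hGi, hGj⟩ := exists_sep_form z h0 hz i hd
  refine ⟨(eval (z i) G)⁻¹ • ⟨G, hG⟩, ?_⟩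
  funext j
  by_cases hji : j = i
  · subst hji
    simp [evs, hGi]
  · simp [evs, hGj j hji, hji]

/-- the syzygy map -/
noncomputable def syz (P Q : MvPolynomial (Fin 3) ℂ) {m e N : ℕ} (hP : P.IsHomogeneous m)
    (hQ : Q.IsHomogeneous e) :
    (homogeneousSubmodule (Fin 3) ℂ (e + N) × homogeneousSubmodule (Fin 3) ℂ (m + N)) →ₗ[ℂ]
      homogeneousSubmodule (Fin 3) ℂ (m + e + N) where
  toFun x := ⟨P * x.1 + Q * x.2, by
    have h1 : (P * x.1.1).IsHomogeneous (m + (e + N)) := hP.mul x.1.2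
    have h2 : (Q * x.2.1).IsHomogeneous (e + (m + N)) := hQ.mul x.2.2
    have e1 : m + (e + N) = m + e + N := by ring
    have e2 : e + (m + N) = m + e + N := by ring
    rw [e1] at h1
    rw [e2] at h2
    exact h1.add h2⟩
  map_add' x y := by
    ext1
    simp only [Prod.fst_add, Prod.snd_add, Submodule.coe_add]
    ring
  map_smul' a x := by
    ext1
    simp only [Prod.smul_fst, Prod.smul_snd, Submodule.coe_smul, RingHom.id_apply,
      smul_add, mul_smul_comm]

/-- the Koszul map -/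
noncomputable def kos (P Q : MvPolynomial (Fin 3) ℂ) {m e N : ℕ} (hP : P.IsHomogeneous m)
    (hQ : Q.IsHomogeneous e) :
    homogeneousSubmodule (Fin 3) ℂ N →ₗ[ℂ]
    (homogeneousSubmodule (Fin 3) ℂ (e + N) × homogeneousSubmodule (Fin 3) ℂ (m + N)) where
  toFun x := (⟨Q * x.1, hQ.mul x.2⟩, ⟨-(P * x.1), (hP.mul x.2).neg⟩)
  map_add' x y := by
    ext1
    · ext1; simp only [Submodule.coe_add, Prod.mk_add_mk]; ring
    · ext1; simp only [Submodule.coe_add, Prod.mk_add_mk]; ring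
  map_smul' a x := by
    ext1
    · ext1; simp
    · ext1; simp

/-- a weak form of Bezout's theorem -/
theorem bezout {P Q : MvPolynomial (Fin 3) ℂ} {m e : ℕ} (hP : P.IsHomogeneous m)
    (hQ : Q.IsHomogeneous e) (hrel : IsRelPrime P Q) (hQ0 : Q ≠ 0) {N : ℕ}
    (z : Fin N → (Fin 3 → ℂ)) (h0 : ∀ i, z i ≠ 0)
    (hz : ∀ i j, i ≠ j → z i ∉ (ℂ ∙ z j)) (hPz : ∀ i, eval (z i) P = 0)
    (hQz : ∀ i, eval (z i) Q = 0) : N ≤ m * e := by
  have hker : LinearMap.ker (syz P Q (N := N) hP hQ) ≤ LinearMap.range (kos P Q (N := N) hP hQ) := by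
    rintro ⟨⟨A, hA⟩, ⟨B, hB⟩⟩ hx
    rw [LinearMap.mem_ker] at hx
    have hx1 : P * A + Q * B = 0 := congrArg Subtype.val hx
    have hd : Q ∣ P * A := ⟨-B, by linear_combination hx1⟩
    obtain ⟨D, hD⟩ := (hrel.symm.dvd_of_dvd_mul_left hd)
    subst hD
    have hB' : B = -(P * D) := by
      have : Q * (B + P * D) = 0 := by linear_combination hx1
      have := (mul_eq_zero.mp this).resolve_left hQ0
      linear_combination this
    have hDh : D.IsHomogeneous N := by
      by_cases h : Q * D = 0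
      · rw [(mul_eq_zero.mp h).resolve_left hQ0]; exact isHomogeneous_zero _ _ _
      · obtain ⟨a, b, ha, hb, hab⟩ := hom_factor ((mem_homogeneousSubmodule _ _).mp hA) h
        have hae : a = e := ha.inj_right hQ hQ0
        have : b = N := by omega
        rwa [this] at hb
    refine ⟨⟨D, hDh⟩, ?_⟩
    ext1
    · rfl
    · ext1; exact hB'.symm
  have hrange : LinearMap.range (syz P Q (N := N) hP hQ) ≤ LinearMap.ker (evs z (m + e + N)) := by
    rintro _ ⟨x, rfl⟩
    rw [LinearMap.mem_ker]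
    funext i
    change eval (z i) (P * x.1 + Q * x.2) = 0
    rw [map_add, map_mul, map_mul, hPz, hQz]; ring
  have f1 := LinearMap.finrank_range_add_finrank_ker (syz P Q (N := N) hP hQ)
  have f2 := LinearMap.finrank_range_add_finrank_ker (evs z (m + e + N))
  have f3 := Submodule.finrank_mono hker
  have f4 := Submodule.finrank_mono hrange
  have f5 := LinearMap.finrank_range_le (kos P Q (N := N) hP hQ)
  rw [evs_surj z h0 hz (by omega), finrank_top, finrank_hom3] at f2
  have f6 : finrank ℂ (Fin N → ℂ) = N := by simp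
  rw [f6] at f2
  rw [finrank_prod, finrank_hom3, finrank_hom3] at f1
  rw [finrank_hom3] at f5
  have g1 : ∀ k : ℕ, 2 * (k + 2).choose 2 = (k + 2) * (k + 1) := by
    intro k
    rw [Nat.choose_two_right]
    have : 2 ∣ (k + 2) * (k + 2 - 1) := by
      have := Nat.even_mul_succ_self (k + 1)
      have h2 : (k + 2) * (k + 2 - 1) = (k + 1) * (k + 1 + 1) := by
        have : k + 2 - 1 = k + 1 := by omega
        rw [this]; ring
      rw [h2]
      exact this.two_dvd
    rw [Nat.mul_div_cancel' this]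
    congr 1
  have c1 := g1 (m + e + N)
  have c2 := g1 (e + N)
  have c3 := g1 (m + N)
  have c4 := g1 N
  nlinarith [f1, f2, f3, f4, f5, c1, c2, c3, c4]

end Pool.Agent.Helper16
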