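import Mathlib
import Pool.Agent.Helper16.CubicJac
import Pool.Agent.Helper16.CubicBez

set_option autoImplicit false
set_option linter.unusedVariables false
set_option linter.unusedSectionVars false

namespace Pool.Agent.Helper16

open MvPolynomial Module

theorem J_hom {f g h : MvPolynomial (Fin 3) ℂ} {a b c : ℕ} (hf : f.IsHomogeneous (a + 1))
    (hg : g.IsHomogeneous (b + 1)) (hh : h.IsHomogeneous (c + 1)) :
    (J f g h).IsHomogeneous (a + b + c) := by
  have hf' : ∀ k, (pderiv k f).IsHomogeneous a := fun k => hf.pderiv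
  have hg' : ∀ k, (pderiv k g).IsHomogeneous b := fun k => hg.pderiv
  have hh' : ∀ k, (pderiv k h).IsHomogeneous c := fun k => hh.pderiv
  have e : ∀ i j k, (pderiv i f * (pderiv j g * pderiv k h)).IsHomogeneous (a + b + c) := by
    intro i j k
    have := (hf' i).mul ((hg' j).mul (hh' k))
    rwa [← add_assoc] at this
  unfold J
  rw [mul_sub, mul_sub, mul_sub]
  exact (((e _ _ _).sub (e _ _ _)).sub ((e _ _ _).sub (e _ _ _))).add ((e _ _ _).sub (e _ _ _))

/-- the Jacobian is not in the ideal of the complete intersection -/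
theorem A5 {l : (Fin 3 → ℂ) →ₗ[ℂ] ℂ} (hl : l ≠ 0) {s t : MvPolynomial (Fin 3) ℂ}
    (hs : s.IsHomogeneous 3) (ht : t.IsHomogeneous 5)
    (h0 : ∀ z, l z = 0 → eval z s = 0 → eval z t = 0 → z = 0)
    (h : ∃ u v w, J (linp l) s t = linp l * u + s * v + t * w) : False := by
  obtain ⟨u', v', w', h⟩ := h
  set L := linp l with hL
  have hLh : L.IsHomogeneous 1 := linp_hom _
  have hGh : (J L s t).IsHomogeneous 6 := J_hom (a := 0) (b := 2) (c := 4) hLh hs ht
  -- homogeneous coefficients
  obtain ⟨u, v, w, hw, h⟩ : ∃ u v w : MvPolynomial (Fin 3) ℂ, w.IsHomogeneous 1 ∧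
      J L s t = L * u + s * v + t * w := by
    refine ⟨homogeneousComponent 5 u', homogeneousComponent 3 v', homogeneousComponent 1 w',
      homogeneousComponent_isHomogeneous _ _, ?_⟩
    have e1 : homogeneousComponent 6 (J L s t) = J L s t := by
      rw [homogeneousComponent_of_mem ((mem_homogeneousSubmodule _ _).mpr hGh), if_pos rfl]
    have e2 := hc_mul (j := 5) (g := u') hLh
    have e3 := hc_mul (j := 3) (g := v') hs
    have e4 := hc_mul (j := 1) (g := w') ht
    have e5 := congrArg (homogeneousComponent 6) h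
    rw [e1, map_add, map_add] at e5
    rw [e5, ← e2, ← e3, ← e4]
  -- the key divisibility
  have key : ∀ m : MvPolynomial (Fin 3) ℂ, m.IsHomogeneous 1 →
      ∃ r, m * w - 5 * J L s m = L * r := by
    intro m hm
    have e1 := cramer1 hm hLh hs ht
    push_cast at e1
    have hdvd : L ∣ s * (m * v - 3 * J L m t) + t * (m * w - 5 * J L s m) := by
      refine ⟨J m s t - m * u, ?_⟩
      linear_combination e1 - m * h
    obtain ⟨a, b, hab⟩ := regF hl h0 hdvd
    refine ⟨homogeneousComponent 1 a, ?_⟩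
    have hh : (m * w - 5 * J L s m).IsHomogeneous 2 := by
      apply (hm.mul hw).sub
      have h1 : (J L s m).IsHomogeneous 2 := J_hom (a := 0) (b := 2) (c := 0) hLh hs hm
      have h2 : ((5 : MvPolynomial (Fin 3) ℂ)) = C 5 :=
        (map_ofNat (C : ℂ →+* MvPolynomial (Fin 3) ℂ) 5).symm
      rw [h2]; exact h1.C_mul _
    have e2 : homogeneousComponent 2 (m * w - 5 * J L s m) = m * w - 5 * J L s m := by
      rw [homogeneousComponent_of_mem ((mem_homogeneousSubmodule _ _).mpr hh), if_pos rfl]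
    have e3 := hc_mul (j := 1) (g := a) hLh
    have e4 := hc_mul_zero (k := 2) (g := b) hs (by norm_num)
    rw [← e2, hab, map_add, e4, ← e3, add_zero]
  have key2 : ∀ m n : MvPolynomial (Fin 3) ℂ, m.IsHomogeneous 1 → n.IsHomogeneous 1 →
      L ∣ s * J L m n := by
    intro m n hm hn
    obtain ⟨a, ha⟩ := key m hm
    obtain ⟨b, hb⟩ := key n hn
    have e := cramer2 hLh hm hn hs
    push_cast at e
    have e' : J L m s = - J L s m := by rw [J_cyc L m s, J_swap m s L, J_cyc s m L, J_cyc m L s]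
    rw [e'] at e
    have h15 : L ∣ C 15 * (s * J L m n) := by
      have : (C 15 : MvPolynomial (Fin 3) ℂ) = 15 :=
        map_ofNat (C : ℂ →+* MvPolynomial (Fin 3) ℂ) 15
      rw [this]
      refine ⟨5 * J s m n - m * b + n * a, ?_⟩
      linear_combination 5 * e - m * hb + n * ha
    have hu : IsUnit (C 15 : MvPolynomial (Fin 3) ℂ) := by
      apply IsUnit.map; norm_num
    exact (hu.dvd_mul_left).mp h15
  have hdvds : L ∣ s := by
    have hex : ∃ k, l (Pi.single k 1) ≠ 0 := by
      by_contra hcon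
      push Not at hcon
      apply hl
      apply LinearMap.pi_ext'
      intro i
      ext
      simpa using hcon i
    obtain ⟨k, hk⟩ := hex
    have hu : IsUnit (C (l (Pi.single k 1)) : MvPolynomial (Fin 3) ℂ) := by
      apply IsUnit.map; exact isUnit_iff_ne_zero.mpr hk
    have hX := fun i : Fin 3 => isHomogeneous_X ℂ i
    have hj : ∃ m n : MvPolynomial (Fin 3) ℂ, m.IsHomogeneous 1 ∧ n.IsHomogeneous 1 ∧
        J L m n = C (l (Pi.single k 1)) := by
      have p01 : pderiv (0 : Fin 3) (X 1 : MvPolynomial (Fin 3) ℂ) = 0 :=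
        pderiv_X_of_ne (by decide)
      have p02 : pderiv (0 : Fin 3) (X 2 : MvPolynomial (Fin 3) ℂ) = 0 :=
        pderiv_X_of_ne (by decide)
      have p10 : pderiv (1 : Fin 3) (X 0 : MvPolynomial (Fin 3) ℂ) = 0 :=
        pderiv_X_of_ne (by decide)
      have p12 : pderiv (1 : Fin 3) (X 2 : MvPolynomial (Fin 3) ℂ) = 0 :=
        pderiv_X_of_ne (by decide)
      have p20 : pderiv (2 : Fin 3) (X 0 : MvPolynomial (Fin 3) ℂ) = 0 :=
        pderiv_X_of_ne (by decide)
      have p21 : pderiv (2 : Fin 3) (X 1 : MvPolynomial (Fin 3) ℂ) = 0 :=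
        pderiv_X_of_ne (by decide)
      fin_cases k
      · refine ⟨X 1, X 2, hX 1, hX 2, ?_⟩
        simp only [J, hL, pderiv_linp, p01, p02, p12, p21, pderiv_X_self]
        simp
      · refine ⟨X 2, X 0, hX 2, hX 0, ?_⟩
        simp only [J, hL, pderiv_linp, p02, p12, p10, p20, pderiv_X_self]
        simp
      · refine ⟨X 0, X 1, hX 0, hX 1, ?_⟩
        simp only [J, hL, pderiv_linp, p01, p10, p20, p21, pderiv_X_self]
        simp
    obtain ⟨m, n, hm, hn, hmn⟩ := hj
    have h1 := key2 m n hm hn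
    rw [hmn] at h1
    exact (hu.dvd_mul_right).mp h1
  obtain ⟨r, hr⟩ := hdvds
  obtain ⟨z, hz0, hlz, hz⟩ := exists_root_on_line (l := l) (q := t) (eval_zero_of_hom ht (by norm_num))
  apply hz0
  refine h0 z hlz ?_ hz
  rw [hr, map_mul, eval_linp, hlz, zero_mul]

/-- the counting argument -/
theorem caseA_count {N : ℕ} (l : Fin N → ((Fin 3 → ℂ) →ₗ[ℂ] ℂ))
    (s t : Fin N → MvPolynomial (Fin 3) ℂ) {Δ : MvPolynomial (Fin 3) ℂ}
    (hl : ∀ i, l i ≠ 0) (hs : ∀ i, (s i).IsHomogeneous 3) (ht : ∀ i, (t i).IsHomogeneous 5)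
    (hΔ : ∀ i, Δ = s i ^ 2 + linp (l i) * t i)
    (hcz : ∀ i z, l i z = 0 → eval z (s i) = 0 → eval z (t i) = 0 → z = 0)
    (hli : ∀ i j, i ≠ j → ∃ z, l i z = 0 ∧ l j z ≠ 0)
    (hss : ∀ i j, i ≠ j → ∀ z, l i z = 0 → l j z = 0 → eval z (s i + s j) = 0)
    (hs0 : ∀ i j, i ≠ j → ∀ z, l i z = 0 → l j z = 0 → eval z (s i) = 0 → z = 0)
    (hΔh : Δ.IsHomogeneous 6) (hΔ0 : Δ ≠ 0) : N ≤ 25 := by
  classical
  let G : Fin N → MvPolynomial (Fin 3) ℂ := fun i => J (linp (l i)) (s i) (t i)
  -- the ideals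
  let I : Fin N → Ideal (MvPolynomial (Fin 3) ℂ) := fun i => Ideal.span {linp (l i), s i, t i}
  have hImem : ∀ i p, p ∈ I i ↔ ∃ u v w, p = linp (l i) * u + s i * v + t i * w := by
    intro i p
    simp only [I]
    rw [Ideal.mem_span_insert]
    constructor
    · rintro ⟨a, z, hz, rfl⟩
      obtain ⟨b, c, rfl⟩ := Ideal.mem_span_pair.mp hz
      exact ⟨a, b, c, by ring⟩
    · rintro ⟨u, v, w, rfl⟩
      exact ⟨u, s i * v + t i * w, Ideal.mem_span_pair.mpr ⟨v, w, by ring⟩, by ring⟩
  have hGI : ∀ i, G i ∉ (I i).restrictScalars ℂ := by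
    intro i hi
    exact A5 (hl i) (hs i) (ht i) (hcz i) ((hImem i _).mp hi)
  have hχ : ∀ i, ∃ χ : MvPolynomial (Fin 3) ℂ →ₗ[ℂ] ℂ, χ (G i) ≠ 0 ∧ ∀ p ∈ I i, χ p = 0 := by
    intro i
    obtain ⟨f, hf1, hf2⟩ := Submodule.exists_le_ker_of_notMem (hGI i)
    exact ⟨f, hf1, fun p hp => LinearMap.mem_ker.mp (hf2 hp)⟩
  choose χ hχ1 hχ2 using hχ
  have hχG : ∀ i j, i ≠ j → χ i (G j) = χ i (G i) / 5 := by
    intro i j hij
    obtain ⟨α, β, hαβ⟩ := mem_of_vanish (hl i) (hli i j hij) (hss i j hij)
    have h1 := A4 (hl i) (hs i) (ht i) ((hΔ i).symm.trans (hΔ j)) hαβ (by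
      intro z hz hsz hlz
      rw [eval_linp] at hlz
      exact hs0 i j hij z hz hlz hsz)
    have h2 := hχ2 i _ ((hImem i _).mpr h1)
    have h3 : χ i (5 * G j - G i) = 5 * χ i (G j) - χ i (G i) := by
      rw [map_sub]
      have : (5 : MvPolynomial (Fin 3) ℂ) * G j = (5 : ℂ) • G j := by
        rw [smul_eq_C_mul, (map_ofNat (C : ℂ →+* MvPolynomial (Fin 3) ℂ) 5)]
      rw [this, map_smul, smul_eq_mul]
    change χ i (5 * G j - G i) = 0 at h2
    rw [h3] at h2
    field_simp
    linear_combination h2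
  -- a nonzero partial derivative
  obtain ⟨b, hb⟩ : ∃ b, pderiv b Δ ≠ 0 := by
    by_contra hcon
    push Not at hcon
    have := hΔh.sum_X_mul_pderiv
    simp only [hcon, mul_zero, Finset.sum_const_zero] at this
    have h6 : (6 : ℕ) • Δ = 0 := this.symm
    rw [nsmul_eq_mul] at h6
    rcases mul_eq_zero.mp h6 with h | h
    · norm_num at h
    · exact hΔ0 h
  have hder : ∀ i, pderiv b Δ ∈ I i := by
    intro i
    rw [hImem]
    refine ⟨pderiv b (t i), 2 * pderiv b (s i), pderiv b (linp (l i)), ?_⟩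
    rw [hΔ i, map_add, pow_two, Derivation.leibniz, Derivation.leibniz]
    simp only [smul_eq_mul]; ring
  -- the linearly independent family
  let Gs : Fin N ⊕ Fin 3 → homogeneousSubmodule (Fin 3) ℂ 6 :=
    Sum.elim (fun i => ⟨G i, J_hom (a := 0) (b := 2) (c := 4) (linp_hom _) (hs i) (ht i)⟩)
      (fun a => ⟨X a * pderiv b Δ, (isHomogeneous_X ℂ a).mul (hΔh.pderiv (i := b))⟩)
  have hLI : LinearIndependent ℂ Gs := by
    rw [Fintype.linearIndependent_iff]
    intro g hg
    have hg' := congrArg (Submodule.subtype _) hg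
    rw [map_zero, map_sum, Fintype.sum_sum_type] at hg'
    simp only [map_smul, Submodule.subtype_apply] at hg'
    have hg2 : ∑ i, g (.inl i) • G i + ∑ a, g (.inr a) • (X a * pderiv b Δ) = 0 := hg'
    have hrow : ∀ i, g (.inl i) * (4/5) + (∑ j, g (.inl j)) / 5 = 0 := by
      intro i
      have h1 := congrArg (χ i) hg2
      rw [map_add, map_sum, map_sum, map_zero] at h1
      have h2 : ∑ a, χ i (g (.inr a) • (X a * pderiv b Δ)) = 0 := by
        refine Finset.sum_eq_zero fun a _ => ?_
        rw [map_smul, hχ2 i _ (Ideal.mul_mem_left _ _ (hder i)), smul_zero]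
      rw [h2, add_zero] at h1
      have h3 : ∀ j, χ i (g (.inl j) • G j) =
          χ i (G i) * (g (.inl j) / 5 + if j = i then g (.inl i) * (4/5) else 0) := by
        intro j
        rw [map_smul, smul_eq_mul]
        by_cases hj : j = i
        · subst hj; rw [if_pos rfl]; ring
        · rw [if_neg hj, hχG i j (Ne.symm hj)]; ring
      simp only [h3] at h1
      rw [← Finset.mul_sum, Finset.sum_add_distrib, Finset.sum_ite_eq' _ _ _,
        if_pos (Finset.mem_univ i), ← Finset.sum_div] at h1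
      have := (mul_eq_zero.mp h1).resolve_left (hχ1 i)
      linear_combination this
    set σ := ∑ j, g (.inl j) with hσ
    have hσ0 : σ = 0 := by
      have h1 : ∀ i, g (.inl i) = -σ / 4 := by
        intro i; linear_combination (5/4) * hrow i
      have h2 : σ = ∑ j : Fin N, (-σ / 4) := by
        rw [hσ]; exact Finset.sum_congr rfl fun j _ => h1 j
      rw [Finset.sum_const, Finset.card_univ, Fintype.card_fin, nsmul_eq_mul] at h2
      have h3 : σ * (4 + N) = 0 := by linear_combination 4 * h2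
      rcases mul_eq_zero.mp h3 with h | h
      · exact h
      · exfalso
        have : ((4 + N : ℕ) : ℂ) = 0 := by push_cast; exact h
        rw [Nat.cast_eq_zero] at this; omega
    have hinl : ∀ i, g (.inl i) = 0 := by
      intro i
      have := hrow i
      rw [hσ0] at this
      linear_combination (5/4) * this
    simp only [hinl, zero_smul, Finset.sum_const_zero, zero_add] at hg2
    have hg3 : (∑ a, g (.inr a) • (X a : MvPolynomial (Fin 3) ℂ)) * pderiv b Δ = 0 := by
      rw [Finset.sum_mul, ← hg2]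
      refine Finset.sum_congr rfl fun a _ => ?_
      rw [smul_mul_assoc]
    have hg4 := (mul_eq_zero.mp hg3).resolve_right hb
    intro i
    rcases i with i | a
    · exact hinl i
    · have := congrArg (eval (Pi.single a (1 : ℂ))) hg4
      rw [map_sum, map_zero] at this
      simp only [smul_eval, eval_X] at this
      rw [Finset.sum_eq_single a] at this
      · simpa using this
      · intro c _ hc; simp [hc]
      · simp
  have hcard := hLI.fintype_card_le_finrank
  rw [finrank_hom3, Fintype.card_sum, Fintype.card_fin, Fintype.card_fin] at hcard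
  have : (6 + 2).choose 2 = 28 := by decide
  omega

end Pool.Agent.Helper16
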