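import Mathlib
import Pool.Agent.Helper16.CubicJac

set_option autoImplicit false
set_option linter.unusedVariables false
set_option linter.unusedSectionVars false

namespace Pool.Agent.Helper16

open MvPolynomial Module

/-- the linear vector field with matrix `m` -/
noncomputable def vf (m : Fin 3 → Fin 3 → ℂ) (f : MvPolynomial (Fin 3) ℂ) :
    MvPolynomial (Fin 3) ℂ :=
  ∑ a, ∑ b, m a b • (X a * pderiv b f)

theorem vf_add (m : Fin 3 → Fin 3 → ℂ) (f g : MvPolynomial (Fin 3) ℂ) :
    vf m (f + g) = vf m f + vf m g := by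
  simp only [vf, map_add, mul_add, smul_add, Finset.sum_add_distrib]

theorem vf_mul (m : Fin 3 → Fin 3 → ℂ) (f g : MvPolynomial (Fin 3) ℂ) :
    vf m (f * g) = f * vf m g + g * vf m f := by
  simp only [vf, Derivation.leibniz, smul_eq_mul, Finset.mul_sum]
  rw [← Finset.sum_add_distrib]
  refine Finset.sum_congr rfl fun a _ => ?_
  rw [← Finset.sum_add_distrib]
  refine Finset.sum_congr rfl fun b _ => ?_
  simp only [smul_eq_C_mul]
  ring

/-- the point map of the vector field -/
def vT (m : Fin 3 → Fin 3 → ℂ) (z : Fin 3 → ℂ) : Fin 3 → ℂ := fun b => ∑ a, m a b * z a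

theorem eval_vf (m : Fin 3 → Fin 3 → ℂ) (f : MvPolynomial (Fin 3) ℂ) (z : Fin 3 → ℂ) :
    eval z (vf m f) = ∑ b, vT m z b * eval z (pderiv b f) := by
  simp only [vf, map_sum, smul_eval, map_mul, eval_X, vT, Finset.sum_mul]
  rw [Finset.sum_comm]
  refine Finset.sum_congr rfl fun b _ => Finset.sum_congr rfl fun a _ => ?_
  ring

theorem eval_vf_linp (m : Fin 3 → Fin 3 → ℂ) (l : (Fin 3 → ℂ) →ₗ[ℂ] ℂ) (z : Fin 3 → ℂ) :
    eval z (vf m (linp l)) = l (vT m z) := by
  rw [eval_vf]
  have h : l (vT m z) = ∑ b, vT m z b * l (Pi.single b 1) := by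
    conv_lhs => rw [show vT m z = ∑ b, vT m z b • (Pi.single b 1 : Fin 3 → ℂ) by
      funext k
      simp only [Finset.sum_apply, Pi.smul_apply, smul_eq_mul, Pi.single_apply]
      simp]
    rw [map_sum]
    simp only [map_smul, smul_eq_mul]
  rw [h]
  simp only [pderiv_linp, eval_C]

theorem vf_hom (m : Fin 3 → Fin 3 → ℂ) {f : MvPolynomial (Fin 3) ℂ} {d : ℕ}
    (hf : f.IsHomogeneous (d + 1)) : (vf m f).IsHomogeneous (d + 1) := by
  unfold vf
  refine IsHomogeneous.sum _ _ _ fun a _ => IsHomogeneous.sum _ _ _ fun b _ => ?_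
  rw [smul_eq_C_mul]
  apply IsHomogeneous.C_mul
  have := (isHomogeneous_X ℂ a).mul (hf.pderiv (i := b))
  rwa [Nat.add_sub_cancel, add_comm] at this

/-- a tritangent line of a sextic killed by a linear vector field is preserved -/
theorem line_preserved (m : Fin 3 → Fin 3 → ℂ) {l : (Fin 3 → ℂ) →ₗ[ℂ] ℂ} (hl : l ≠ 0)
    {s t : MvPolynomial (Fin 3) ℂ} (hs : s.IsHomogeneous 3)
    (hcz : ∀ z, l z = 0 → eval z s = 0 → eval z t = 0 → z = 0)
    (h : vf m (s ^ 2 + linp l * t) = 0) : ∀ z, l z = 0 → l (vT m z) = 0 := by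
  rw [vf_add, pow_two, vf_mul, vf_mul] at h
  have hdvd : linp l ∣ s * (2 * vf m s) + t * vf m (linp l) := ⟨- vf m t, by
    linear_combination h⟩
  obtain ⟨u, v, huv⟩ := regF hl hcz hdvd
  have h1 : (vf m (linp l)).IsHomogeneous 1 := vf_hom m (d := 0) (linp_hom l)
  have e2 := hc_mul (j := 0) (g := u) (linp_hom l)
  have e4 := hc_mul_zero (k := 1) (g := v) hs (by norm_num)
  have e1 : homogeneousComponent 1 (vf m (linp l)) = vf m (linp l) := by
    rw [homogeneousComponent_of_mem ((mem_homogeneousSubmodule _ _).mpr h1), if_pos rfl]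
  intro z hz
  rw [← eval_vf_linp, ← e1, huv, map_add, e4, add_zero]
  have e5 : homogeneousComponent 1 (linp l * u) = linp l * homogeneousComponent 0 u := e2
  rw [e5, map_mul, eval_linp, hz, zero_mul]

theorem vT_add (m : Fin 3 → Fin 3 → ℂ) (z w : Fin 3 → ℂ) : vT m (z + w) = vT m z + vT m w := by
  funext b
  simp only [vT, Pi.add_apply, mul_add, Finset.sum_add_distrib]

theorem vT_smul (m : Fin 3 → Fin 3 → ℂ) (r : ℂ) (z : Fin 3 → ℂ) : vT m (r • z) = r • vT m z := by
  funext b
  simp only [vT, Pi.smul_apply, smul_eq_mul, Finset.mul_sum]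
  exact Finset.sum_congr rfl fun a _ => by ring

/-- a linear form whose kernel is preserved is an eigenvector -/
theorem eigen_of_preserved (m : Fin 3 → Fin 3 → ℂ) {l : (Fin 3 → ℂ) →ₗ[ℂ] ℂ} (hl : l ≠ 0)
    (h : ∀ z, l z = 0 → l (vT m z) = 0) : ∃ c : ℂ, ∀ z, l (vT m z) = c * l z := by
  obtain ⟨w, hw⟩ : ∃ w, l w ≠ 0 := by
    by_contra hcon
    push Not at hcon
    exact hl (LinearMap.ext hcon)
  refine ⟨l (vT m w) / l w, fun z => ?_⟩
  have h1 : l (z - (l z / l w) • w) = 0 := by
    rw [map_sub, map_smul, smul_eq_mul]; field_simp; ring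
  have h2 := h _ h1
  have h3 : vT m (z - (l z / l w) • w) = vT m z - (l z / l w) • vT m w := by
    rw [sub_eq_add_neg, ← neg_smul, vT_add, vT_smul, neg_smul, ← sub_eq_add_neg]
  rw [h3, map_sub, map_smul, smul_eq_mul] at h2
  field_simp
  field_simp at h2
  linear_combination h2

/-- four lines in general position preserved by a linear vector field -/
theorem scalar_of_four (m : Fin 3 → Fin 3 → ℂ) (l : Fin 4 → ((Fin 3 → ℂ) →ₗ[ℂ] ℂ))
    (hgen : ∀ i j k, i ≠ j → i ≠ k → j ≠ k → ∀ z, l i z = 0 → l j z = 0 → l k z = 0 → z = 0)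
    (hl : ∀ i, l i ≠ 0) (h : ∀ i z, l i z = 0 → l i (vT m z) = 0) :
    ∃ c : ℂ, ∀ z, vT m z = c • z := by
  choose c hc using fun i => eigen_of_preserved m (hl i) (h i)
  -- a common zero of two of the first three lines
  have key : ∀ i j k : Fin 4, i ≠ j → i ≠ k → j ≠ k → ∃ z, l j z = 0 ∧ l k z = 0 ∧ l i z ≠ 0 := by
    intro i j k hij hik hjk
    let f : (Fin 3 → ℂ) →ₗ[ℂ] (Fin 2 → ℂ) := LinearMap.pi ![l j, l k]
    have hker : ∃ z, z ≠ 0 ∧ f z = 0 := by
      by_contra hcon
      push Not at hcon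
      have hinj : Function.Injective f := by
        rw [injective_iff_map_eq_zero]
        intro a ha
        by_contra hne
        exact hcon a hne ha
      have := LinearMap.finrank_le_finrank_of_injective hinj
      simp at this
    obtain ⟨z, hz0, hz⟩ := hker
    have h1 : l j z = 0 := congrFun hz 0
    have h2 : l k z = 0 := congrFun hz 1
    exact ⟨z, h1, h2, fun h3 => hz0 (hgen i j k hij hik hjk z h3 h1 h2)⟩
  -- the eigenvalues agree
  have hval : ∀ i j k n : Fin 4, i ≠ j → i ≠ k → j ≠ k → n ≠ i → n ≠ j → n ≠ k → c i = c n := by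
    intro i j k n hij hik hjk hni hnj hnk
    obtain ⟨z, hj, hk, hi⟩ := key i j k hij hik hjk
    have hT : vT m z = c i • z := by
      have : vT m z - c i • z = 0 := by
        apply hgen i j k hij hik hjk
        · rw [map_sub, map_smul, smul_eq_mul, hc]; ring
        · rw [map_sub, map_smul, smul_eq_mul, hc, hj]; ring
        · rw [map_sub, map_smul, smul_eq_mul, hc, hk]; ring
      exact sub_eq_zero.mp this
    have hn : l n z ≠ 0 := by
      intro h0
      apply hi
      have := hgen j k n hjk (Ne.symm hnj) (Ne.symm hnk) z hj hk h0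
      rw [this, map_zero]
    have e := hc n z
    rw [hT, map_smul, smul_eq_mul] at e
    exact mul_right_cancel₀ hn e
  refine ⟨c 3, fun z => ?_⟩
  have h0 : c 0 = c 3 := hval 0 1 2 3 (by decide) (by decide) (by decide) (by decide) (by decide)
    (by decide)
  have h1 : c 1 = c 3 := hval 1 0 2 3 (by decide) (by decide) (by decide) (by decide) (by decide)
    (by decide)
  have h2 : c 2 = c 3 := hval 2 0 1 3 (by decide) (by decide) (by decide) (by decide) (by decide)
    (by decide)
  have : vT m z - c 3 • z = 0 := by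
    apply hgen 0 1 2 (by decide) (by decide) (by decide)
    · rw [map_sub, map_smul, smul_eq_mul, hc, h0]; ring
    · rw [map_sub, map_smul, smul_eq_mul, hc, h1]; ring
    · rw [map_sub, map_smul, smul_eq_mul, hc, h2]; ring
  exact sub_eq_zero.mp this

/-- the field kills no nonzero sextic with four tritangent lines in general position -/
theorem vf_eq_zero {N : ℕ} (hN : 4 ≤ N) (l : Fin N → ((Fin 3 → ℂ) →ₗ[ℂ] ℂ))
    (s t : Fin N → MvPolynomial (Fin 3) ℂ) {Δ : MvPolynomial (Fin 3) ℂ}
    (hl : ∀ i, l i ≠ 0) (hs : ∀ i, (s i).IsHomogeneous 3)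
    (hΔ : ∀ i, Δ = s i ^ 2 + linp (l i) * t i)
    (hcz : ∀ i z, l i z = 0 → eval z (s i) = 0 → eval z (t i) = 0 → z = 0)
    (hss : ∀ i j, i ≠ j → ∀ z, l i z = 0 → l j z = 0 → eval z (s i + s j) = 0)
    (hs0 : ∀ i j, i ≠ j → ∀ z, l i z = 0 → l j z = 0 → eval z (s i) = 0 → z = 0)
    (hΔh : Δ.IsHomogeneous 6) (hΔ0 : Δ ≠ 0) (m : Fin 3 → Fin 3 → ℂ) (hm : vf m Δ = 0) :
    ∀ a b, m a b = 0 := by
  have hgen : ∀ i j k, i ≠ j → i ≠ k → j ≠ k → ∀ z, l i z = 0 → l j z = 0 → l k z = 0 →
      z = 0 := by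
    intro i j k hij hik hjk z hi hj hk
    have e1 := hss i j hij z hi hj
    have e2 := hss i k hik z hi hk
    have e3 := hss j k hjk z hj hk
    rw [map_add] at e1 e2 e3
    apply hs0 i j hij z hi hj
    linear_combination (e1 + e2 - e3) / 2
  let e : Fin 4 → Fin N := fun i => ⟨i.1, by omega⟩
  have he : ∀ i j, i ≠ j → e i ≠ e j := by
    intro i j hij h
    apply hij
    have := congrArg Fin.val h
    exact Fin.ext this
  obtain ⟨c, hc⟩ := scalar_of_four m (fun i => l (e i))
    (fun i j k hij hik hjk => hgen _ _ _ (he _ _ hij) (he _ _ hik) (he _ _ hjk))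
    (fun i => hl _) (fun i => line_preserved m (hl _) (hs _) (hcz _) (by rw [← hΔ]; exact hm))
  -- the entries
  have hent : ∀ a b, m a b = c * (if a = b then 1 else 0) := by
    intro a b
    have h1 := congrFun (hc (Pi.single a 1)) b
    simp only [vT, Pi.smul_apply, smul_eq_mul, Pi.single_apply] at h1
    simp only [mul_ite, mul_one, mul_zero, Finset.sum_ite_eq', Finset.mem_univ, if_true] at h1
    rw [h1]
    by_cases hab : a = b
    · subst hab; simp
    · rw [if_neg hab, if_neg (Ne.symm hab)]; ring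
  -- Euler
  have hE : vf m Δ = C (6 * c) * Δ := by
    have h1 := hΔh.sum_X_mul_pderiv
    unfold vf
    simp only [hent]
    have h2 : ∀ a : Fin 3, ∑ b, (c * (if a = b then 1 else 0)) • ((X a : MvPolynomial (Fin 3) ℂ) *
        pderiv b Δ) = c • (X a * pderiv a Δ) := by
      intro a
      rw [Finset.sum_eq_single a]
      · simp
      · intro b _ hb
        rw [if_neg (Ne.symm hb), mul_zero, zero_smul]
      · simp
    simp only [h2]
    rw [← Finset.smul_sum, h1, smul_eq_C_mul, nsmul_eq_mul, C_mul]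
    have h3 : (C 6 : MvPolynomial (Fin 3) ℂ) = 6 := map_ofNat (C : ℂ →+* MvPolynomial (Fin 3) ℂ) 6
    rw [h3]; push_cast; ring
  rw [hm] at hE
  have hc0 : c = 0 := by
    rcases mul_eq_zero.mp hE.symm with h | h
    · rw [C_eq_zero] at h
      rcases mul_eq_zero.mp h with h | h
      · norm_num at h
      · exact h
    · exact absurd h hΔ0
  intro a b
  rw [hent, hc0, zero_mul]

end Pool.Agent.Helper16
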