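import Mathlib
import Pool.Agent.Helper16.CubicVec
import Pool.Agent.Helper16.CubicCount

set_option autoImplicit false
set_option linter.unusedVariables false
set_option linter.unusedSectionVars false

namespace Pool.Agent.Helper16

open MvPolynomial Module

/-- the counting argument -/
theorem caseA_count19 {N : ℕ} (l : Fin N → ((Fin 3 → ℂ) →ₗ[ℂ] ℂ))
    (s t : Fin N → MvPolynomial (Fin 3) ℂ) {Δ : MvPolynomial (Fin 3) ℂ}
    (hl : ∀ i, l i ≠ 0) (hs : ∀ i, (s i).IsHomogeneous 3) (ht : ∀ i, (t i).IsHomogeneous 5)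
    (hΔ : ∀ i, Δ = s i ^ 2 + linp (l i) * t i)
    (hcz : ∀ i z, l i z = 0 → eval z (s i) = 0 → eval z (t i) = 0 → z = 0)
    (hli : ∀ i j, i ≠ j → ∃ z, l i z = 0 ∧ l j z ≠ 0)
    (hss : ∀ i j, i ≠ j → ∀ z, l i z = 0 → l j z = 0 → eval z (s i + s j) = 0)
    (hs0 : ∀ i j, i ≠ j → ∀ z, l i z = 0 → l j z = 0 → eval z (s i) = 0 → z = 0)
    (hΔh : Δ.IsHomogeneous 6) (hΔ0 : Δ ≠ 0) : N ≤ 19 := by
  classical
  let G : Fin N → MvPolynomial (Fin 3) ℂ := fun i => J (linp (l i)) (s i) (t i)
  -- the ideals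
  let I : Fin N → Ideal (MvPolynomial (Fin 3) ℂ) := fun i => Ideal.span {linp (l i), s i, t i}
  have hImem : ∀ i p, p ∈ I i ↔ ∃ u v w, p = linp (l i) * u + s i * v + t i * w := by
    intro i p
    simp only [I]
    rw [Ideal.mem_span_insert]
    constructor
    · rintro ⟨a, z, hz, rfl⟩
      obtain ⟨b, c, rfl⟩ := Ideal.mem_span_pair.mp hz
      exact ⟨a, b, c, by ring⟩
    · rintro ⟨u, v, w, rfl⟩
      exact ⟨u, s i * v + t i * w, Ideal.mem_span_pair.mpr ⟨v, w, by ring⟩, by ring⟩
  have hGI : ∀ i, G i ∉ (I i).restrictScalars ℂ := by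
    intro i hi
    exact A5 (hl i) (hs i) (ht i) (hcz i) ((hImem i _).mp hi)
  have hχ : ∀ i, ∃ χ : MvPolynomial (Fin 3) ℂ →ₗ[ℂ] ℂ, χ (G i) ≠ 0 ∧ ∀ p ∈ I i, χ p = 0 := by
    intro i
    obtain ⟨f, hf1, hf2⟩ := Submodule.exists_le_ker_of_notMem (hGI i)
    exact ⟨f, hf1, fun p hp => LinearMap.mem_ker.mp (hf2 hp)⟩
  choose χ hχ1 hχ2 using hχ
  have hχG : ∀ i j, i ≠ j → χ i (G j) = χ i (G i) / 5 := by
    intro i j hij
    obtain ⟨α, β, hαβ⟩ := mem_of_vanish (hl i) (hli i j hij) (hss i j hij)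
    have h1 := A4 (hl i) (hs i) (ht i) ((hΔ i).symm.trans (hΔ j)) hαβ (by
      intro z hz hsz hlz
      rw [eval_linp] at hlz
      exact hs0 i j hij z hz hlz hsz)
    have h2 := hχ2 i _ ((hImem i _).mpr h1)
    have h3 : χ i (5 * G j - G i) = 5 * χ i (G j) - χ i (G i) := by
      rw [map_sub]
      have : (5 : MvPolynomial (Fin 3) ℂ) * G j = (5 : ℂ) • G j := by
        rw [smul_eq_C_mul, (map_ofNat (C : ℂ →+* MvPolynomial (Fin 3) ℂ) 5)]
      rw [this, map_smul, smul_eq_mul]
    change χ i (5 * G j - G i) = 0 at h2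
    rw [h3] at h2
    field_simp
    linear_combination h2
  rcases Nat.lt_or_ge N 4 with hN4 | hN4
  · omega
  have hder : ∀ i b, pderiv b Δ ∈ I i := by
    intro i b
    rw [hImem]
    refine ⟨pderiv b (t i), 2 * pderiv b (s i), pderiv b (linp (l i)), ?_⟩
    rw [hΔ i, map_add, pow_two, Derivation.leibniz, Derivation.leibniz]
    simp only [smul_eq_mul]; ring
  -- the linearly independent family
  let Gs : Fin N ⊕ (Fin 3 × Fin 3) → homogeneousSubmodule (Fin 3) ℂ 6 :=
    Sum.elim (fun i => ⟨G i, J_hom (a := 0) (b := 2) (c := 4) (linp_hom _) (hs i) (ht i)⟩)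
      (fun a => ⟨X a.1 * pderiv a.2 Δ, (isHomogeneous_X ℂ a.1).mul (hΔh.pderiv (i := a.2))⟩)
  have hLI : LinearIndependent ℂ Gs := by
    rw [Fintype.linearIndependent_iff]
    intro g hg
    have hg' := congrArg (Submodule.subtype _) hg
    rw [map_zero, map_sum, Fintype.sum_sum_type] at hg'
    simp only [map_smul, Submodule.subtype_apply] at hg'
    have hg2 : ∑ i, g (.inl i) • G i + ∑ a : Fin 3 × Fin 3, g (.inr a) • (X a.1 * pderiv a.2 Δ) = 0 := hg'
    have hrow : ∀ i, g (.inl i) * (4/5) + (∑ j, g (.inl j)) / 5 = 0 := by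
      intro i
      have h1 := congrArg (χ i) hg2
      rw [map_add, map_sum, map_sum, map_zero] at h1
      have h2 : ∑ a : Fin 3 × Fin 3, χ i (g (.inr a) • (X a.1 * pderiv a.2 Δ)) = 0 := by
        refine Finset.sum_eq_zero fun a _ => ?_
        rw [map_smul, hχ2 i _ (Ideal.mul_mem_left _ _ (hder i a.2)), smul_zero]
      rw [h2, add_zero] at h1
      have h3 : ∀ j, χ i (g (.inl j) • G j) =
          χ i (G i) * (g (.inl j) / 5 + if j = i then g (.inl i) * (4/5) else 0) := by
        intro j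
        rw [map_smul, smul_eq_mul]
        by_cases hj : j = i
        · subst hj; rw [if_pos rfl]; ring
        · rw [if_neg hj, hχG i j (Ne.symm hj)]; ring
      simp only [h3] at h1
      rw [← Finset.mul_sum, Finset.sum_add_distrib, Finset.sum_ite_eq' _ _ _,
        if_pos (Finset.mem_univ i), ← Finset.sum_div] at h1
      have := (mul_eq_zero.mp h1).resolve_left (hχ1 i)
      linear_combination this
    set σ := ∑ j, g (.inl j) with hσ
    have hσ0 : σ = 0 := by
      have h1 : ∀ i, g (.inl i) = -σ / 4 := by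
        intro i; linear_combination (5/4) * hrow i
      have h2 : σ = ∑ j : Fin N, (-σ / 4) := by
        rw [hσ]; exact Finset.sum_congr rfl fun j _ => h1 j
      rw [Finset.sum_const, Finset.card_univ, Fintype.card_fin, nsmul_eq_mul] at h2
      have h3 : σ * (4 + N) = 0 := by linear_combination 4 * h2
      rcases mul_eq_zero.mp h3 with h | h
      · exact h
      · exfalso
        have : ((4 + N : ℕ) : ℂ) = 0 := by push_cast; exact h
        rw [Nat.cast_eq_zero] at this; omega
    have hinl : ∀ i, g (.inl i) = 0 := by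
      intro i
      have := hrow i
      rw [hσ0] at this
      linear_combination (5/4) * this
    simp only [hinl, zero_smul, Finset.sum_const_zero, zero_add] at hg2
    have hg3 : vf (fun a b => g (.inr (a, b))) Δ = 0 := by
      rw [Fintype.sum_prod_type] at hg2
      exact hg2
    have hg4 := vf_eq_zero hN4 l s t hl hs hΔ hcz hss hs0 hΔh hΔ0 _ hg3
    intro i
    rcases i with i | ⟨a, b⟩
    · exact hinl i
    · exact hg4 a b
  have hcard := hLI.fintype_card_le_finrank
  rw [finrank_hom3, Fintype.card_sum, Fintype.card_prod, Fintype.card_fin, Fintype.card_fin] at hcard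
  have : (6 + 2).choose 2 = 28 := by decide
  omega

end Pool.Agent.Helper16
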