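import Pool.Agent.Helper16.CubicA2
import Pool.Agent.Helper16.CubicCount19

set_option autoImplicit false
set_option linter.unusedVariables false
set_option linter.unusedSectionVars false

namespace Pool.Agent.Helper16

open MvPolynomial Module

namespace Cub

variable {c : Cub (I6 → ℂ)}

/-- case A: if no two planes are collinear there are at most 19 planes besides the base plane -/
theorem caseA19 (hP : c.Iso P0) (hno : NoCol c) {N : ℕ} (W : Fin N → Submodule ℂ (I6 → ℂ))
    (hW : ∀ i, c.Pl (W i)) (hne0 : ∀ i, W i ≠ P0) (hinj : Function.Injective W)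
    (hm0 : ∀ i, W i ⊓ P0 ≠ ⊥) (hm : ∀ i j, W i ⊓ W j ≠ ⊥) : N ≤ 19 := by
  have h1 : ∀ i, finrank ℂ (W i ⊓ P0 : Submodule ℂ (I6 → ℂ)) = 1 := by
    intro i
    have a1 : finrank ℂ (W i ⊓ P0 : Submodule ℂ (I6 → ℂ)) ≠ 2 :=
      hno _ _ (hW i) (pl_P0 hP) (hne0 i)
    have a2 : 1 ≤ finrank ℂ (W i ⊓ P0 : Submodule ℂ (I6 → ℂ)) :=
      Submodule.one_le_finrank_iff.mpr (hm0 i)
    have a3 : finrank ℂ (W i ⊓ P0 : Submodule ℂ (I6 → ℂ)) < 3 := by
      rw [← (hW i).rank]
      apply Submodule.finrank_lt_finrank_of_lt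
      rw [lt_iff_le_and_ne]
      refine ⟨inf_le_left, fun h => hne0 i ?_⟩
      exact Submodule.eq_of_le_of_finrank_eq (inf_eq_left.mp h) (by rw [(hW i).rank, finrank_P0])
    omega
  choose x φ h using fun i => exists_AD hP (hW i) (h1 i)
  choose f1 f2 hf using fun i => exists_d3_one (h i).x0
  choose t ht hΔ using fun i => (h i).exists_t hP (hW i) (hf i)
  have hl : ∀ i, c.tl (x i) ≠ 0 := fun i => tl_ne_zero hP (h i).x0
  have hdisc : ∀ i z, c.tl (x i) z = 0 → eval z c.disc = eval z (c.sp (x i) (f1 i) (f2 i) (φ i)) ^ 2 := by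
    intro i z hz
    rw [hΔ i, map_add, map_mul, map_pow, eval_linp, hz, zero_mul, add_zero]
  have hcz : ∀ i z, c.tl (x i) z = 0 → eval z (c.sp (x i) (f1 i) (f2 i) (φ i)) = 0 →
      eval z (t i) = 0 → z = 0 := by
    intro i z hz hs htz
    by_contra hz0
    obtain ⟨v, v', hli, hv, hv'⟩ := sing hP hz0 (by rw [hdisc i z hz, hs]; ring) (by
      intro k
      rw [hΔ i, map_add, pow_two, Derivation.leibniz, Derivation.leibniz]
      simp only [smul_eq_mul, map_add, map_mul, eval_linp, hz, hs, htz]; ring)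
    exact rad_contra hP hno hz0 hli hv hv'
  have hli : ∀ i j, i ≠ j → ∃ z, c.tl (x i) z = 0 ∧ c.tl (x j) z ≠ 0 := by
    intro i j hij
    exact tl_indep hP hno (hW i) (hW j) (fun he => hij (hinj he)) (hm i j) (h i) (h j)
  have hs0 : ∀ i j, i ≠ j → ∀ z, c.tl (x i) z = 0 → c.tl (x j) z = 0 →
      eval z (c.sp (x i) (f1 i) (f2 i) (φ i)) = 0 → z = 0 := by
    intro i j hij z hz hz' hs
    have hsj : eval z (c.sp (x j) (f1 j) (f2 j) (φ j)) = 0 := by
      have e1 := hdisc i z hz
      have e2 := hdisc j z hz'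
      rw [e1, hs] at e2
      have : eval z (c.sp (x j) (f1 j) (f2 j) (φ j)) ^ 2 = 0 := by rw [← e2]; ring
      exact pow_eq_zero_iff (two_ne_zero) |>.mp this
    -- compare the differentials
    have hder : ∀ i, c.tl (x i) z = 0 → eval z (c.sp (x i) (f1 i) (f2 i) (φ i)) = 0 → ∀ k,
        eval z (pderiv k c.disc) = eval z (t i) * c.tl (x i) (Pi.single k 1) := by
      intro i hz hs k
      rw [hΔ i, map_add, pow_two, Derivation.leibniz, Derivation.leibniz, pderiv_linp]
      simp only [smul_eq_mul, map_add, map_mul, eval_linp, hz, hs, eval_C]; ring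
    have hfun : (eval z (t i)) • c.tl (x i) = (eval z (t j)) • c.tl (x j) := by
      apply LinearMap.pi_ext'
      intro k
      ext
      have e1 := hder i hz hs k
      have e2 := hder j hz' hsj k
      rw [e1] at e2
      simpa using e2
    obtain ⟨z', h1', h2'⟩ := hli j i (Ne.symm hij)
    have e3 := LinearMap.congr_fun hfun z'
    simp only [LinearMap.smul_apply, smul_eq_mul, h1', mul_zero] at e3
    have e4 : eval z (t i) = 0 := (mul_eq_zero.mp e3).resolve_right h2'
    exact hcz i z hz hs e4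
  have hss : ∀ i j, i ≠ j → ∀ z, c.tl (x i) z = 0 → c.tl (x j) z = 0 →
      eval z (c.sp (x i) (f1 i) (f2 i) (φ i) + c.sp (x j) (f1 j) (f2 j) (φ j)) = 0 := by
    intro i j hij z hz hz'
    by_cases hz0 : z = 0
    · rw [hz0, map_add, eval_zero_of_hom (sp_hom _ _ _ _) (by norm_num),
        eval_zero_of_hom (sp_hom _ _ _ _) (by norm_num), add_zero]
    · have hsi : eval z (c.sp (x i) (f1 i) (f2 i) (φ i)) ≠ 0 := fun h0 =>
        hz0 (hs0 i j hij z hz hz' h0)
      have hsj : eval z (c.sp (x j) (f1 j) (f2 j) (φ j)) ≠ 0 := fun h0 =>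
        hz0 (hs0 j i (Ne.symm hij) z hz' hz h0)
      rw [map_add, eval_sp, eval_sp]
      rw [eval_sp] at hsi hsj
      exact ss_opp hP hno (hW i) (hW j) (fun he => hij (hinj he)) (hm i j) (h i) (h j) (hf i)
        (hf j) (hli i j hij) hz0 hz hz' hsi hsj
  rcases Nat.eq_zero_or_pos N with h0 | hpos
  · omega
  have hΔ0 : c.disc ≠ 0 := by
    intro hd
    let i : Fin N := ⟨0, hpos⟩
    obtain ⟨z, hz0, hz, hzt⟩ := exists_root_on_line (l := c.tl (x i)) (q := t i)
      (eval_zero_of_hom (ht i) (by norm_num))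
    apply hz0
    refine hcz i z hz ?_ hzt
    have e1 := hdisc i z hz
    rw [hd, map_zero] at e1
    exact pow_eq_zero_iff (two_ne_zero) |>.mp e1.symm
  exact caseA_count19 (fun i => c.tl (x i)) (fun i => c.sp (x i) (f1 i) (f2 i) (φ i)) t hl
    (fun i => sp_hom _ _ _ _) ht hΔ hcz hli hss hs0 disc_hom hΔ0

end Cub

end Pool.Agent.Helper16
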