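import Mathlib

set_option autoImplicit false

namespace Pool.Agent.Helper16

/-- the combinatorial structure of collinearity (a possibly degenerate generalised quadrangle with
three points on each line) -/
structure Quad3 {α : Type*} (adj : α → α → Prop) : Prop where
  symm : ∀ {a b}, adj a b → adj b a
  irr : ∀ a, ¬ adj a a
  third : ∀ {p q}, adj p q → ∃ r, adj r p ∧ adj r q ∧
    (∀ s, adj s p → adj s q → s = r) ∧ (∀ s, s ≠ p → s ≠ q → ¬ adj s p → ¬ adj s q → adj s r)

namespace Quad3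

variable {α : Type*} {adj : α → α → Prop} (H : Quad3 adj)
include H

theorem U {p q r s : α} (h1 : adj p q) (h2 : adj q r) (h3 : adj p r) (h4 : adj s p)
    (h5 : adj s q) : s = r := by
  obtain ⟨r', _, _, h, _⟩ := H.third h1
  rw [h s h4 h5, h r (H.symm h3) (H.symm h2)]

theorem E {p q r s : α} (h1 : adj p q) (h2 : adj q r) (h3 : adj p r) (h4 : s ≠ p)
    (h5 : s ≠ q) (h6 : ¬ adj s p) (h7 : ¬ adj s q) : adj s r := by
  obtain ⟨r', _, _, h, h'⟩ := H.third h1
  rw [h r (H.symm h3) (H.symm h2)]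
  exact h' s h4 h5 h6 h7

theorem ne {a b : α} (h : adj a b) : a ≠ b := by
  rintro rfl; exact H.irr _ h

theorem no_six {x y : α} (hxy : ¬ adj x y) (hne : x ≠ y) (z : Fin 6 → α)
    (hz : Function.Injective z) (hx : ∀ i, adj (z i) x) (hy : ∀ i, adj (z i) y) : False := by
  have s : ∀ {a b}, adj a b → adj b a := H.symm
  have exa : ∀ i, ∃ a, adj a x ∧ adj a (z i) := fun i => by
    obtain ⟨r, h1, h2, _⟩ := H.third (s (hx i))
    exact ⟨r, h1, h2⟩
  have exb : ∀ i, ∃ b, adj b y ∧ adj b (z i) := fun i => by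
    obtain ⟨r, h1, h2, _⟩ := H.third (s (hy i))
    exact ⟨r, h1, h2⟩
  choose a hax haz using exa
  choose b hby hbz using exb
  have zz : ∀ i j, i ≠ j → ¬ adj (z i) (z j) := fun i j hij h =>
    hne (H.U h (hx j) (hx i) (s (hy i)) (s (hy j))).symm
  have ay : ∀ i, ¬ adj (a i) y := fun i h =>
    hne (H.U (s (haz i)) (hax i) (hx i) (s (hy i)) (s h)).symm
  have bx : ∀ i, ¬ adj (b i) x := fun i h =>
    hne (H.U (s (hbz i)) (hby i) (hy i) (s (hx i)) (s h))
  have za : ∀ i j, i ≠ j → ¬ adj (z j) (a i) := fun i j hij h =>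
    hij (hz (H.U (s (hax i)) (haz i) (s (hx i)) (hx j) h)).symm
  have zb : ∀ i j, i ≠ j → ¬ adj (z j) (b i) := fun i j hij h =>
    hij (hz (H.U (s (hby i)) (hbz i) (s (hy i)) (hy j) h)).symm
  have zna : ∀ i j, i ≠ j → z j ≠ a i := fun i j hij h => by
    apply zz i j hij; rw [h]; exact s (haz i)
  have znb : ∀ i j, i ≠ j → z j ≠ b i := fun i j hij h => by
    apply zz i j hij; rw [h]; exact s (hbz i)
  have ab : ∀ i j, i ≠ j → adj (a i) (b j) := fun i j hij => by
    refine H.E (s (hy j)) (s (hbz j)) (s (hby j)) ?_ (zna i j hij).symm (ay i)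
      (fun h => za i j hij (s h))
    intro h; apply hxy; rw [← h]; exact s (hax i)
  obtain ⟨c, hca, hcb, _⟩ := H.third (ab 0 1 (by decide))
  have zc : ∀ k, k ≠ 0 → k ≠ 1 → adj (z k) c := fun k h0 h1 =>
    H.E (ab 0 1 (by decide)) (s hcb) (s hca) (zna 0 k h0.symm) (znb 1 k h1.symm)
      (za 0 k h0.symm) (zb 1 k h1.symm)
  obtain ⟨w, hwz, hwc, _⟩ := H.third (zc 2 (by decide) (by decide))
  have ac : ∀ k, k ≠ 0 → k ≠ 1 → ¬ adj (a k) c := fun k h0 h1 h => by
    have hcx : c = x := H.U (s (haz k)) (hax k) (hx k) (s (zc k h0 h1)) (s h)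
    rw [hcx] at hcb
    exact bx 1 (s hcb)
  have bc : ∀ k, k ≠ 0 → k ≠ 1 → ¬ adj (b k) c := fun k h0 h1 h => by
    have hcy : c = y := H.U (s (hbz k)) (hby k) (hy k) (s (zc k h0 h1)) (s h)
    rw [hcy] at hca
    exact ay 0 (s hca)
  have anc : ∀ k, k ≠ 0 → k ≠ 1 → a k ≠ c := fun k h0 h1 h => by
    have h2 : adj (a k) (a 0) := by rw [h]; exact hca
    exact zna 0 k h0.symm (H.U (s (hax k)) h2 (s (hax 0)) (hx k) (s (haz k)))
  have bnc : ∀ k, k ≠ 0 → k ≠ 1 → b k ≠ c := fun k h0 h1 h => by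
    have h2 : adj (b k) (b 1) := by rw [h]; exact hcb
    exact znb 1 k h1.symm (H.U (s (hby k)) h2 (s (hby 1)) (hy k) (s (hbz k)))
  have aw : ∀ k, k ≠ 0 → k ≠ 1 → k ≠ 2 → adj (a k) w := fun k h0 h1 h2 =>
    H.E (zc 2 (by decide) (by decide)) (s hwc) (s hwz) (zna k 2 h2).symm (anc k h0 h1)
      (fun h => za k 2 h2 (s h)) (ac k h0 h1)
  have bw : ∀ k, k ≠ 0 → k ≠ 1 → k ≠ 2 → adj (b k) w := fun k h0 h1 h2 =>
    H.E (zc 2 (by decide) (by decide)) (s hwc) (s hwz) (znb k 2 h2).symm (bnc k h0 h1)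
      (fun h => zb k 2 h2 (s h)) (bc k h0 h1)
  have h45 : b 5 = b 4 := H.U (aw 3 (by decide) (by decide) (by decide))
    (s (bw 4 (by decide) (by decide) (by decide))) (ab 3 4 (by decide))
    (s (ab 3 5 (by decide))) (bw 5 (by decide) (by decide) (by decide))
  apply zb 5 4 (by decide)
  rw [h45]; exact s (hbz 4)

theorem common_le {x y : α} (hxy : ¬ adj x y) (hne : x ≠ y) :
    {z | adj z x ∧ adj z y}.encard ≤ 5 := by
  by_contra hlt
  push Not at hlt
  have h6 : (6 : ℕ∞) ≤ {z | adj z x ∧ adj z y}.encard := by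
    have := Order.add_one_le_of_lt hlt
    exact this
  obtain ⟨t, ht, ht6⟩ := Set.exists_subset_encard_eq h6
  have hfin : t.Finite := Set.finite_of_encard_eq_coe ht6
  have hcard : hfin.toFinset.card = 6 := by
    have h := hfin.encard_eq_coe_toFinset_card
    rw [ht6] at h
    exact_mod_cast h.symm
  let e := (hfin.toFinset.equivFinOfCardEq hcard).symm
  refine H.no_six hxy hne (fun i => (e i : α)) ?_ ?_ ?_
  · intro i j hij
    exact e.injective (Subtype.ext hij)
  · intro i
    exact (ht (hfin.mem_toFinset.mp (e i).2)).1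
  · intro i
    exact (ht (hfin.mem_toFinset.mp (e i).2)).2

theorem degree_le {x y : α} (hxy : ¬ adj x y) (hne : x ≠ y) :
    {z | adj z x}.encard ≤ 10 := by
  classical
  set Z := {z | adj z x ∧ adj z y} with hZ
  have hex : ∀ m : α, ∃ n : α, adj m x → (adj n x ∧ adj n m) := by
    intro m
    by_cases hm : adj m x
    · obtain ⟨r, h1, h2, _⟩ := H.third hm
      exact ⟨r, fun _ => ⟨h2, h1⟩⟩
    · exact ⟨m, fun h => absurd h hm⟩
  choose a ha using hex
  have hsub : {z | adj z x} ⊆ Z ∪ a '' Z := by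
    intro n hn
    by_cases hny : adj n y
    · exact Or.inl ⟨hn, hny⟩
    · right
      obtain ⟨m, h1, h2, _⟩ := H.third hn
      have hym : adj y m := by
        refine H.E hn (H.symm h2) (H.symm h1) ?_ hne.symm (fun h => hny (H.symm h))
          (fun h => hxy (H.symm h))
        rintro rfl; exact hxy (H.symm hn)
      refine ⟨m, ⟨h2, H.symm hym⟩, ?_⟩
      obtain ⟨h3, h4⟩ := ha m h2
      exact H.U h2 (H.symm hn) h1 h4 h3
  calc {z | adj z x}.encard ≤ (Z ∪ a '' Z).encard := Set.encard_le_encard hsub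
    _ ≤ Z.encard + (a '' Z).encard := Set.encard_union_le _ _
    _ ≤ 5 + 5 := add_le_add (H.common_le hxy hne)
        (le_trans (Set.encard_image_le _ _) (H.common_le hxy hne))
    _ = 10 := by norm_num

theorem card_le {p q : α} (hpq : adj p q)
    (hc : ∀ x, x = p ∨ adj x p → ∃ y, y ≠ x ∧ ¬ adj x y) :
    (Set.univ : Set α).encard ≤ 27 := by
  classical
  obtain ⟨r, hrp, hrq, _⟩ := H.third hpq
  have s : ∀ {a b}, adj a b → adj b a := H.symm
  have key : ∀ {a b c : α}, (a = p ∨ adj a p) → adj b a → adj c a → b ≠ c →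
      ({z | adj z a} \ {b, c}).encard ≤ 8 := by
    intro a b c ha hb hc' hbc
    obtain ⟨y, hy, hay⟩ := hc a ha
    have h10 := H.degree_le hay hy.symm
    have hsub : ({b, c} : Set α) ⊆ {z | adj z a} := by
      intro z hz
      rcases hz with rfl | rfl
      · exact hb
      · exact hc'
    have h1 := Set.encard_diff_add_encard_of_subset hsub
    rw [Set.encard_pair hbc] at h1
    rw [← h1] at h10
    have h3 : ({z | adj z a} \ {b, c}).encard + 2 ≤ 8 + 2 := by
      refine le_trans h10 ?_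
      norm_num
    exact (ENat.add_le_add_iff_right (by norm_num)).mp h3
  have hqr : q ≠ r := (H.ne hrq).symm
  have hpr : p ≠ r := (H.ne hrp).symm
  have hpq' : p ≠ q := H.ne hpq
  have kp := key (a := p) (b := q) (c := r) (Or.inl rfl) (s hpq) hrp hqr
  have kq := key (a := q) (b := p) (c := r) (Or.inr (s hpq)) hpq hrq hpr
  have kr := key (a := r) (b := p) (c := q) (Or.inr hrp) (s hrp) (s hrq) hpq'
  have hsub : (Set.univ : Set α) ⊆ {p, q, r} ∪ (({z | adj z p} \ {q, r}) ∪
      (({z | adj z q} \ {p, r}) ∪ ({z | adj z r} \ {p, q}))) := by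
    intro x _
    by_cases h1 : x = p
    · left; simp [h1]
    by_cases h2 : x = q
    · left; simp [h2]
    by_cases h3 : x = r
    · left; simp [h3]
    right
    by_cases h4 : adj x p
    · left; exact ⟨h4, by simp [h2, h3]⟩
    by_cases h5 : adj x q
    · right; left; exact ⟨h5, by simp [h1, h3]⟩
    · right; right
      exact ⟨H.E hpq (s hrq) (s hrp) h1 h2 h4 h5, by simp [h1, h2]⟩
  have h3 : ({p, q, r} : Set α).encard ≤ 3 := by
    have : ({p, q, r} : Set α) = (({p, q, r} : Finset α) : Set α) := by simp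
    rw [this, Set.encard_coe_eq_coe_finsetCard]
    exact_mod_cast Finset.card_le_three
  calc (Set.univ : Set α).encard ≤ _ := Set.encard_le_encard hsub
    _ ≤ 3 + (8 + (8 + 8)) := by
        refine le_trans (Set.encard_union_le _ _) (add_le_add h3 ?_)
        refine le_trans (Set.encard_union_le _ _) (add_le_add kp ?_)
        refine le_trans (Set.encard_union_le _ _) (add_le_add kq kr)
    _ = 27 := by norm_num

end Quad3

end Pool.Agent.Helper16
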