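import Mathlib
import Pool.Agent.Helper16.CubicBez

set_option autoImplicit false
set_option linter.unusedVariables false
set_option linter.unusedSectionVars false

namespace Pool.Agent.Helper16

open MvPolynomial Module

theorem bezout_finset {P Q : MvPolynomial (Fin 3) ℂ} {m e : ℕ} (hP : P.IsHomogeneous m)
    (hQ : Q.IsHomogeneous e) (hrel : IsRelPrime P Q) (hQ0 : Q ≠ 0) {N : ℕ}
    (z : Fin N → (Fin 3 → ℂ)) (h0 : ∀ i, z i ≠ 0)
    (hz : ∀ i j, i ≠ j → z i ∉ (ℂ ∙ z j)) (S : Finset (Fin N))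
    (hPz : ∀ i ∈ S, eval (z i) P = 0) (hQz : ∀ i ∈ S, eval (z i) Q = 0) :
    S.card ≤ m * e := by
  let f : Fin S.card → Fin N := fun i => (S.equivFin.symm i : Fin N)
  have hf : Function.Injective f := fun i j hij => S.equivFin.symm.injective (Subtype.ext hij)
  exact bezout hP hQ hrel hQ0 (fun i => z (f i)) (fun i => h0 _)
    (fun i j hij => hz _ _ (fun h => hij (hf h)))
    (fun i => hPz _ (S.equivFin.symm i).2) (fun i => hQz _ (S.equivFin.symm i).2)

/-- relative primality from irreducible factors -/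
theorem isRelPrime_of_irr {P Q : MvPolynomial (Fin 3) ℂ} (hP : P ≠ 0)
    (h : ∀ π, Irreducible π → π ∣ P → π ∣ Q → False) : IsRelPrime P Q := by
  intro d hdP hdQ
  by_contra hu
  have hd0 : d ≠ 0 := by
    rintro rfl
    exact hP (zero_dvd_iff.mp hdP)
  obtain ⟨π, hπ, hdvd⟩ := WfDvdMonoid.exists_irreducible_factor hu hd0
  exact h π hπ (hdvd.trans hdP) (hdvd.trans hdQ)

/-- a generic combination avoiding the irreducible factors of `P` -/
theorem exists_comb {P : MvPolynomial (Fin 3) ℂ} (hP : P ≠ 0)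
    (Q : Fin 3 → MvPolynomial (Fin 3) ℂ)
    (h : ∀ π, Irreducible π → π ∣ P → ∃ a, ¬ π ∣ Q a) :
    ∃ r : Fin 3 → ℂ, IsRelPrime P (∑ a, C (r a) * Q a) := by
  classical
  -- the bad subspaces
  let lin : (Fin 3 → ℂ) →ₗ[ℂ] MvPolynomial (Fin 3) ℂ := Fintype.linearCombination ℂ Q
  have hlin : ∀ r, lin r = ∑ a, C (r a) * Q a := by
    intro r
    rw [Fintype.linearCombination_apply]
    refine Finset.sum_congr rfl fun a _ => ?_
    rw [smul_eq_C_mul]
  let bad : MvPolynomial (Fin 3) ℂ → Submodule ℂ (Fin 3 → ℂ) := fun f =>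
    ((Ideal.span {f}).restrictScalars ℂ).comap lin
  have hbad : ∀ f r, r ∈ bad f ↔ f ∣ ∑ a, C (r a) * Q a := by
    intro f r
    rw [Submodule.mem_comap, hlin, Submodule.restrictScalars_mem, Ideal.mem_span_singleton]
  let F := (UniqueFactorizationMonoid.factors P).toFinset
  have hF : ∀ f ∈ F, Irreducible f ∧ f ∣ P := by
    intro f hf
    have hf' := Multiset.mem_toFinset.mp hf
    exact ⟨UniqueFactorizationMonoid.irreducible_of_factor f hf',
      UniqueFactorizationMonoid.dvd_of_mem_factors hf'⟩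
  have htop : (⊤ : Submodule ℂ (Fin 3 → ℂ)) ∉ F.image bad := by
    intro ht
    obtain ⟨f, hf, hbf⟩ := Finset.mem_image.mp ht
    obtain ⟨a, ha⟩ := h f (hF f hf).1 (hF f hf).2
    apply ha
    have : (Pi.single a 1 : Fin 3 → ℂ) ∈ bad f := by rw [hbf]; trivial
    rw [hbad] at this
    have e : ∑ b, C ((Pi.single a 1 : Fin 3 → ℂ) b) * Q b = Q a := by
      rw [Finset.sum_eq_single a]
      · simp
      · intro b _ hb; simp [hb]
      · simp
    rwa [e] at this
  have hne := Subspace.biUnion_ne_univ_of_top_notMem htop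
  obtain ⟨r, hr⟩ := (Set.ne_univ_iff_exists_notMem _).mp hne
  refine ⟨r, isRelPrime_of_irr hP fun π hπ hπP hπQ => hr ?_⟩
  obtain ⟨f, hf, hassoc⟩ := UniqueFactorizationMonoid.exists_mem_factors_of_dvd hP hπ hπP
  rw [Set.mem_iUnion₂]
  refine ⟨bad f, Finset.mem_image.mpr ⟨f, Multiset.mem_toFinset.mpr hf, rfl⟩, ?_⟩
  change r ∈ bad f
  rw [hbad]
  exact hassoc.symm.dvd.trans hπQ

/-- removing common factors -/
theorem factor_out (n : ℕ) : ∀ A : Fin 4 → MvPolynomial (Fin 3) ℂ, A 3 ≠ 0 →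
    (A 3).totalDegree ≤ n → ∃ (G : MvPolynomial (Fin 3) ℂ) (B : Fin 4 → MvPolynomial (Fin 3) ℂ),
      (∀ j, A j = G * B j) ∧ ∀ π, Irreducible π → ∃ j, ¬ π ∣ B j := by
  induction n with
  | zero =>
    intro A hA hd
    refine ⟨1, A, fun j => (one_mul _).symm, fun π hπ => ⟨3, fun hdvd => ?_⟩⟩
    have hd0 : (A 3).totalDegree = 0 := by omega
    rw [totalDegree_eq_zero_iff_eq_C] at hd0
    apply hπ.not_isUnit
    refine isUnit_of_dvd_unit hdvd ?_
    rw [hd0]
    apply IsUnit.map
    rw [isUnit_iff_ne_zero]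
    intro h0; apply hA; rw [hd0, h0, map_zero]
  | succ n ih =>
    intro A hA hd
    by_cases hall : ∃ π, Irreducible π ∧ ∀ j, π ∣ A j
    · obtain ⟨π, hπ, hdvd⟩ := hall
      choose A' hA' using hdvd
      have hA'3 : A' 3 ≠ 0 := by
        intro h0; apply hA; rw [hA' 3, h0, mul_zero]
      have hdeg : (A' 3).totalDegree ≤ n := by
        have h1 := totalDegree_mul_of_isDomain hπ.ne_zero hA'3
        rw [← hA' 3] at h1
        have h2 : π.totalDegree ≠ 0 := by
          intro h0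
          rw [totalDegree_eq_zero_iff_eq_C] at h0
          apply hπ.not_isUnit
          rw [h0]
          apply IsUnit.map
          rw [isUnit_iff_ne_zero]
          intro h3; apply hπ.ne_zero; rw [h0, h3, map_zero]
        omega
      obtain ⟨G, B, hB, hirr⟩ := ih A' hA'3 hdeg
      exact ⟨π * G, B, fun j => by rw [hA' j, hB j]; ring, hirr⟩
    · push Not at hall
      exact ⟨1, A, fun j => (one_mul _).symm, hall⟩

/-- counting the common zeros of a family of forms without common factor -/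
theorem count_family {P : MvPolynomial (Fin 3) ℂ} {m e : ℕ} (hP : P.IsHomogeneous m)
    (hP0 : P ≠ 0) (Q : Fin 3 → MvPolynomial (Fin 3) ℂ) (hQ : ∀ a, (Q a).IsHomogeneous e)
    (h : ∀ π, Irreducible π → π ∣ P → ∃ a, ¬ π ∣ Q a) {N : ℕ}
    (z : Fin N → (Fin 3 → ℂ)) (h0 : ∀ i, z i ≠ 0)
    (hz : ∀ i j, i ≠ j → z i ∉ (ℂ ∙ z j)) (S : Finset (Fin N))
    (hPz : ∀ i ∈ S, eval (z i) P = 0) (hQz : ∀ i ∈ S, ∀ a, eval (z i) (Q a) = 0) :
    S.card ≤ m * e := by
  obtain ⟨r, hr⟩ := exists_comb hP0 Q h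
  by_cases hu : IsUnit P
  · -- no zeros
    have : S = ∅ := by
      rw [Finset.eq_empty_iff_forall_notMem]
      intro i hi
      have h1 := hu.map (eval (z i))
      rw [hPz i hi] at h1
      exact not_isUnit_zero h1
    rw [this]; simp
  · have hQ0 : ∑ a, C (r a) * Q a ≠ 0 := by
      intro h1
      rw [h1] at hr
      exact hu (hr dvd_rfl (dvd_zero _))
    refine bezout_finset hP (IsHomogeneous.sum _ _ _ fun a _ => (hQ a).C_mul _) hr hQ0 z h0 hz S
      hPz fun i hi => ?_
    rw [map_sum]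
    refine Finset.sum_eq_zero fun a _ => ?_
    rw [map_mul, hQz i hi a, mul_zero]

/-- an irreducible form has a nonzero zero at which some derivative does not vanish -/
theorem exists_smooth_point {π : MvPolynomial (Fin 3) ℂ} {m : ℕ} (hπ : Irreducible π)
    (hm : π.IsHomogeneous m) : ∃ b, b ≠ 0 ∧ eval b π = 0 ∧ ∃ k, eval b (pderiv k π) ≠ 0 := by
  by_contra hcon
  push Not at hcon
  have hnX : ¬ (π ∣ X 0 ∧ π ∣ X 1) := by
    rintro ⟨h0, h1⟩
    have h01 : (X 0 : MvPolynomial (Fin 3) ℂ) ∣ X 1 :=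
      ((hπ.dvd_irreducible_iff_associated (X_irreducible 0)).mp h0).symm.dvd.trans h1
    rw [X_dvd_X] at h01
    simp at h01
  have hmpos : m ≠ 0 := by
    rintro rfl
    rw [← totalDegree_zero_iff_isHomogeneous, totalDegree_eq_zero_iff_eq_C] at hm
    apply hπ.not_isUnit
    rw [hm]
    apply IsUnit.map
    rw [isUnit_iff_ne_zero]
    intro h3; apply hπ.ne_zero; rw [hm, h3, map_zero]
  have hdvd : ∀ k, π ∣ pderiv k π := by
    intro k
    by_contra hnd
    have h1 : ∀ i, π ∣ X i := by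
      intro i
      have h2 : π ∣ X i * pderiv k π := by
        apply null_lite hπ
        intro z hz
        rw [map_mul, eval_X]
        by_cases hz0 : z = 0
        · rw [hz0]; simp
        · rw [hcon z hz0 hz k, mul_zero]
      exact (hπ.prime.dvd_or_dvd h2).resolve_right hnd
    exact hnX ⟨h1 0, h1 1⟩
  have hzero : ∀ k, pderiv k π = 0 := by
    intro k
    by_contra hne
    obtain ⟨q, hq⟩ := hdvd k
    have hq0 : q ≠ 0 := by
      rintro rfl; rw [mul_zero] at hq; exact hne hq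
    have h1 := totalDegree_mul_of_isDomain hπ.ne_zero hq0
    rw [← hq, (hm.pderiv (i := k)).totalDegree hne, hm.totalDegree hπ.ne_zero] at h1
    omega
  have h2 := hm.sum_X_mul_pderiv
  simp only [hzero, mul_zero, Finset.sum_const_zero] at h2
  have h3 : m • π = 0 := h2.symm
  rw [nsmul_eq_mul] at h3
  rcases mul_eq_zero.mp h3 with h | h
  · exact hmpos (by exact_mod_cast h)
  · exact hπ.ne_zero h

end Pool.Agent.Helper16
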