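import Mathlib
import Pool.Agent.Helper16.CubicB1
import Pool.Agent.Helper16.CubicSing2

set_option autoImplicit false
set_option linter.unusedVariables false
set_option linter.unusedSectionVars false

namespace Pool.Agent.Helper16

open MvPolynomial Module

namespace Cub

variable {c : Cub (I6 → ℂ)}

theorem finrank_U {b : Fin 3 → ℂ} (hb : b ≠ 0) :
    finrank ℂ (P0 ⊔ ℂ ∙ iZ ℂ b : Submodule ℂ (I6 → ℂ)) = 4 := by
  have h2 : finrank ℂ P0 < finrank ℂ (P0 ⊔ ℂ ∙ iZ ℂ b : Submodule ℂ (I6 → ℂ)) := by
    apply Submodule.finrank_lt_finrank_of_lt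
    rw [lt_iff_le_and_ne]
    refine ⟨le_sup_left, fun he => hb ?_⟩
    have : iZ ℂ b ∈ P0 := by
      rw [he]; exact Submodule.mem_sup_right (Submodule.mem_span_singleton_self _)
    rw [mem_P0, pZ_iZ] at this
    exact this
  have h3 := Submodule.finrank_add_le_finrank_add_finrank P0 (ℂ ∙ iZ ℂ b)
  have h4 : finrank ℂ (ℂ ∙ iZ ℂ b) = 1 := by
    apply finrank_span_singleton
    intro h
    have := congrArg (pZ ℂ) h
    rw [pZ_iZ, map_zero] at this
    exact hb this
  rw [finrank_P0] at h2 h3
  rw [h4] at h3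
  omega

theorem pt_injective {b : Fin 3 → ℂ} (hb : b ≠ 0) : Function.Injective (pt b) := by
  rw [← LinearMap.ker_eq_bot, Submodule.eq_bot_iff]
  intro x hx
  exact pt_inj hb (LinearMap.mem_ker.mp hx)

/-- the radical has dimension at most two -/
theorem rad3 (hP : c.Iso P0) {b : Fin 3 → ℂ} (hb : b ≠ 0) (K : Submodule ℂ (Fin 4 → ℂ))
    (hK : 3 ≤ finrank ℂ K) (h : ∀ k ∈ K, c.Rad b k) : False := by
  refine c.ns2 (W := K.map (pt b)) (U := P0 ⊔ ℂ ∙ iZ ℂ b) ?_ ?_ ?_
  · rw [finrank_U hb, finrank_I6]
  · rw [← (Submodule.equivMapOfInjective (pt b) (pt_injective hb) K).finrank_eq]; exact hK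
  · rintro _ ⟨k, hk, rfl⟩ u hu
    obtain ⟨a, ha, d, hd, rfl⟩ := Submodule.mem_sup.mp hu
    obtain ⟨r, rfl⟩ := Submodule.mem_span_singleton.mp hd
    rw [map_add, (h k hk).T_Y hP ha, zero_add, map_smul, (h k hk).T_Z, smul_zero]

/-- nondegenerate pairs exist for the form at a point -/
theorem exists_gram2 (hP : c.Iso P0) {b : Fin 3 → ℂ} (hb : b ≠ 0) :
    ∃ f g, c.nf b f f * c.nf b g g - c.nf b f g ^ 2 ≠ 0 := by
  by_contra hcon
  push Not at hcon
  by_cases h0 : ∀ f, c.nf b f f = 0
  · -- the form vanishes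
    refine rad3 hP hb ⊤ (by simp) fun k _ v => ?_
    have h1 := h0 (k + v)
    simp only [map_add, LinearMap.add_apply, h0, c.nf_symm b v k] at h1
    linear_combination (1/2) * h1
  · push Not at h0
    obtain ⟨f, hf⟩ := h0
    refine rad3 hP hb (LinearMap.ker (c.nf b f)) ?_ fun k hk v => ?_
    · have h1 := LinearMap.finrank_range_add_finrank_ker (c.nf b f)
      have h2 : finrank ℂ (LinearMap.range (c.nf b f)) ≤ 1 := by
        have := Submodule.finrank_le (LinearMap.range (c.nf b f))
        simpa using this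
      simp at h1; omega
    · have hk0 : c.nf b f k = 0 := LinearMap.mem_ker.mp hk
      have h1 := hcon f (k + v)
      have h2 := hcon f v
      have h3 := hcon f k
      simp only [map_add, LinearMap.add_apply, hk0, c.nf_symm b v k] at h1
      rw [hk0] at h3
      have h4 : c.nf b f f * (2 * c.nf b k v) = 0 := by linear_combination h1 - h2 - h3
      have h5 := (mul_eq_zero.mp h4).resolve_left hf
      linear_combination (1/2) * h5

/-- three by three Gram determinants vanish when the radical has dimension at least two -/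
theorem gram3_zero {b : Fin 3 → ℂ} {v v' : Fin 4 → ℂ} (hli : LinearIndependent ℂ ![v, v'])
    (hv : c.Rad b v) (hv' : c.Rad b v') (k f g : Fin 4 → ℂ) :
    Matrix.det !![c.nf b k k, c.nf b k f, c.nf b k g; c.nf b f k, c.nf b f f, c.nf b f g;
      c.nf b g k, c.nf b g f, c.nf b g g] = 0 := by
  by_cases hkfg : LinearIndependent ℂ ![k, f, g]
  · -- the span meets the radical
    set S := Submodule.span ℂ (Set.range ![k, f, g]) with hS
    set R := Submodule.span ℂ (Set.range ![v, v']) with hR
    have hS3 : finrank ℂ S = 3 := by rw [hS, finrank_span_eq_card hkfg]; simp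
    have hR2 : finrank ℂ R = 2 := by rw [hR, finrank_span_eq_card hli]; simp
    have hmeet : S ⊓ R ≠ ⊥ := by
      intro h0
      have h1 := Submodule.finrank_sup_add_finrank_inf_eq S R
      rw [h0, finrank_bot, hS3, hR2] at h1
      have h2 := Submodule.finrank_le (S ⊔ R)
      simp at h2; omega
    obtain ⟨u, hu, hu0⟩ := Submodule.exists_mem_ne_zero_of_ne_bot hmeet
    have hrad : c.Rad b u := by
      obtain ⟨a, ha⟩ := (Submodule.mem_span_range_iff_exists_fun ℂ).mp hu.2
      intro w
      have e1 : c.nf b v w = 0 := hv w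
      have e2 : c.nf b v' w = 0 := hv' w
      have ha2 : a 0 • v + a 1 • v' = u := by rw [← ha, Fin.sum_univ_two]; rfl
      rw [← ha2, map_add, LinearMap.add_apply, map_smul, map_smul, LinearMap.smul_apply,
        LinearMap.smul_apply, e1, e2, smul_zero, smul_zero, add_zero]
    obtain ⟨a, ha⟩ := (Submodule.mem_span_range_iff_exists_fun ℂ).mp hu.1
    rw [Fin.sum_univ_three] at ha
    have ha' : a 0 • k + a 1 • f + a 2 • g = u := ha
    rw [← Matrix.exists_mulVec_eq_zero_iff]
    refine ⟨a, ?_, ?_⟩
    · rintro rfl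
      apply hu0; rw [← ha']; simp
    · have e : ∀ w, a 0 * c.nf b w k + a 1 * c.nf b w f + a 2 * c.nf b w g = 0 := by
        intro w
        have h1 : c.nf b w u = 0 := by rw [nf_symm]; exact hrad w
        rw [← ha'] at h1
        simpa using h1
      funext i
      fin_cases i
      · simp [Matrix.mulVec, dotProduct, Fin.sum_univ_three]
        linear_combination e k
      · simp [Matrix.mulVec, dotProduct, Fin.sum_univ_three]
        linear_combination e f
      · simp [Matrix.mulVec, dotProduct, Fin.sum_univ_three]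
        linear_combination e g
  · -- dependent vectors
    rw [Fintype.not_linearIndependent_iff] at hkfg
    obtain ⟨a, ha, i, hi⟩ := hkfg
    rw [Fin.sum_univ_three] at ha
    have ha' : a 0 • k + a 1 • f + a 2 • g = 0 := ha
    rw [← Matrix.exists_mulVec_eq_zero_iff]
    refine ⟨a, ?_, ?_⟩
    · rintro rfl; exact hi rfl
    · have e : ∀ w, a 0 * c.nf b w k + a 1 * c.nf b w f + a 2 * c.nf b w g = 0 := by
        intro w
        have h1 := congrArg (c.nf b w) ha'
        simpa using h1
      funext i
      fin_cases i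
      · simp [Matrix.mulVec, dotProduct, Fin.sum_univ_three]
        linear_combination e k
      · simp [Matrix.mulVec, dotProduct, Fin.sum_univ_three]
        linear_combination e f
      · simp [Matrix.mulVec, dotProduct, Fin.sum_univ_three]
        linear_combination e g

/-- the form does not have a two-dimensional radical along a curve -/
theorem no_curve (hP : c.Iso P0) {π : R3} {m : ℕ} (hπ : Irreducible π) (hm : π.IsHomogeneous m)
    (h : ∀ z, z ≠ 0 → eval z π = 0 → ∃ v v', LinearIndependent ℂ ![v, v'] ∧ c.Rad z v ∧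
      c.Rad z v') : False := by
  obtain ⟨b, hb0, hb, k0, hk0⟩ := exists_smooth_point hπ hm
  obtain ⟨v, v', hli, hv, hv'⟩ := h b hb0 hb
  obtain ⟨f, g, hfg⟩ := exists_gram2 hP hb0
  -- the differential of the irreducible form
  let dπ : (Fin 3 → ℂ) →ₗ[ℂ] ℂ := ∑ k, (eval b (pderiv k π)) • LinearMap.proj k
  have hdπ : ∀ δ, dπ δ = ∑ k, eval b (pderiv k π) * δ k := by
    intro δ
    simp [dπ, LinearMap.sum_apply]
  have hdπ0 : dπ ≠ 0 := by
    intro h0
    apply hk0
    have := LinearMap.congr_fun h0 (Pi.single k0 1)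
    rw [hdπ, LinearMap.zero_apply, Finset.sum_eq_single k0] at this
    · simpa using this
    · intro j _ hj; simp [hj]
    · simp
  -- derivative of the form at radical vectors
  have key : ∀ k : Fin 4 → ℂ, c.Rad b k → ∀ δ, dπ δ = 0 →
      c.T (pt b k) (pt b k) (iZ ℂ δ) = 0 := by
    intro k hk δ hδ
    let n : (Fin 4 → ℂ) → (Fin 4 → ℂ) → R3 := fun u w =>
      c.nf (X : Fin 3 → R3) (fun i => C (u i)) (fun i => C (w i))
    have hn : ∀ z u w, eval z (n u w) = c.nf z u w := fun z u w => c.eval_nf z u w
    let q : R3 := n k k * (n f f * n g g - n f g * n f g) -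
      n k f * (n k f * n g g - n f g * n k g) + n k g * (n k f * n f g - n f f * n k g)
    have hq : π ∣ q := by
      apply null_lite hπ
      intro z hz
      have e0 : eval z q = c.nf z k k * (c.nf z f f * c.nf z g g - c.nf z f g * c.nf z f g) -
          c.nf z k f * (c.nf z k f * c.nf z g g - c.nf z f g * c.nf z k g) +
          c.nf z k g * (c.nf z k f * c.nf z f g - c.nf z f f * c.nf z k g) := by
        simp only [q, map_add, map_sub, map_mul, hn]
      rw [e0]
      by_cases hz0 : z = 0
      · have : ∀ u w, c.nf z u w = 0 := by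
          intro u w
          rw [nf_complex, hz0]; simp
        simp only [this]; ring
      · obtain ⟨u, u', hli2, hu, hu'⟩ := h z hz0 hz
        have h3 := gram3_zero hli2 hu hu' k f g
        rw [Matrix.det_fin_three] at h3
        simp at h3
        rw [c.nf_symm z f k, c.nf_symm z g k, c.nf_symm z g f] at h3
        linear_combination h3
    obtain ⟨r, hr⟩ := hq
    have hnk : ∀ w, eval b (n k w) = 0 := fun w => by rw [hn]; exact hk w
    have hder : ∀ j, eval b (pderiv j (n k k)) *
        (c.nf b f f * c.nf b g g - c.nf b f g ^ 2) = eval b r * eval b (pderiv j π) := by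
      intro j
      have e1 := congrArg (fun p => eval b (pderiv j p)) hr
      simp only [q, map_add, map_sub, Derivation.leibniz, smul_eq_mul, map_mul, hnk, hn, hb] at e1
      linear_combination e1
    have hsum : c.T (pt b k) (pt b k) (iZ ℂ δ) = ∑ j, δ j * eval b (pderiv j (n k k)) := by
      have hδ' : δ = ∑ j, δ j • (Pi.single j 1 : Fin 3 → ℂ) := by
        funext i
        simp only [Finset.sum_apply, Pi.smul_apply, smul_eq_mul, Pi.single_apply]
        simp
      conv_lhs => rw [hδ']
      rw [map_sum, map_sum]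
      refine Finset.sum_congr rfl fun j _ => ?_
      rw [map_smul, map_smul, smul_eq_mul]
      congr 1
      exact (eval_pderiv_nf c j b k).symm
    have hfin : (c.nf b f f * c.nf b g g - c.nf b f g ^ 2) *
        c.T (pt b k) (pt b k) (iZ ℂ δ) = 0 := by
      rw [hsum, Finset.mul_sum]
      have : ∀ j, (c.nf b f f * c.nf b g g - c.nf b f g ^ 2) *
          (δ j * eval b (pderiv j (n k k))) = eval b r * (eval b (pderiv j π) * δ j) := by
        intro j
        linear_combination δ j * hder j
      simp only [this]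
      rw [← Finset.mul_sum, ← hdπ, hδ, mul_zero]
    exact (mul_eq_zero.mp hfin).resolve_left hfg
  -- contradiction with smoothness
  have hkerd : finrank ℂ (LinearMap.ker dπ) = 2 := by
    have h2 := LinearMap.finrank_range_add_finrank_ker dπ
    have h3 : LinearMap.range dπ = ⊤ :=
      LinearMap.range_eq_top.mpr (LinearMap.surjective hdπ0)
    rw [h3, finrank_top] at h2
    simp at h2; omega
  set R := Submodule.span ℂ (Set.range ![v, v']) with hR
  have hR2 : finrank ℂ R = 2 := by rw [hR, finrank_span_eq_card hli]; simp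
  have hradR : ∀ u ∈ R, c.Rad b u := by
    intro u hu w
    obtain ⟨a, ha⟩ := (Submodule.mem_span_range_iff_exists_fun ℂ).mp hu
    have e1 : c.nf b v w = 0 := hv w
    have e2 : c.nf b v' w = 0 := hv' w
    have ha2 : a 0 • v + a 1 • v' = u := by rw [← ha, Fin.sum_univ_two]; rfl
    rw [← ha2, map_add, LinearMap.add_apply, map_smul, map_smul, LinearMap.smul_apply,
      LinearMap.smul_apply, e1, e2, smul_zero, smul_zero, add_zero]
  have hiZinj : Function.Injective (iZ ℂ) := by
    intro x y hxy
    have := congrArg (pZ ℂ) hxy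
    simpa using this
  refine c.ns1 (W := R.map (pt b)) (U := P0 ⊔ (LinearMap.ker dπ).map (iZ ℂ)) ?_ ?_ ?_
  · have h1 := Submodule.finrank_sup_add_finrank_inf_eq P0 ((LinearMap.ker dπ).map (iZ ℂ))
    have h2 : P0 ⊓ (LinearMap.ker dπ).map (iZ ℂ) = ⊥ := by
      rw [Submodule.eq_bot_iff]
      rintro _ ⟨hx, ⟨y, hy, rfl⟩⟩
      have : pZ ℂ (iZ ℂ y) = 0 := mem_P0.mp hx
      rw [pZ_iZ] at this
      rw [this, map_zero]
    rw [h2, finrank_bot, finrank_P0, ← (Submodule.equivMapOfInjective (iZ ℂ) hiZinj
      (LinearMap.ker dπ)).finrank_eq, hkerd] at h1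
    rw [finrank_I6]; omega
  · rw [← (Submodule.equivMapOfInjective (pt b) (pt_injective hb0) R).finrank_eq, hR2]
  · rintro _ ⟨k, hk, rfl⟩ u hu
    obtain ⟨a, ha, d, hd, rfl⟩ := Submodule.mem_sup.mp hu
    obtain ⟨δ, hδ, rfl⟩ := hd
    rw [map_add, (hradR k hk).T_Y hP ha, zero_add]
    exact key k (hradR k hk) δ (LinearMap.mem_ker.mp hδ)

end Cub

end Pool.Agent.Helper16
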