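import Pool.Agent.Helper16.CubicB4

set_option autoImplicit false
set_option linter.unusedVariables false
set_option linter.unusedSectionVars false

namespace Pool.Agent.Helper16

open MvPolynomial Module

namespace Cub

variable {c : Cub (I6 → ℂ)}

/-- points with a conic of rank at most one -/
def R1 (c : Cub (I6 → ℂ)) (b : Fin 3 → ℂ) : Prop :=
  ∃ v v', LinearIndependent ℂ ![v, v'] ∧ (∀ y, c.T (iY ℂ v) (iY ℂ y) (iZ ℂ b) = 0) ∧
      ∀ y, c.T (iY ℂ v') (iY ℂ y) (iZ ℂ b) = 0

/-- there are at most three points with a conic of rank one -/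
theorem no_four_R1 (hP : c.Iso P0) (z : Fin 4 → (Fin 3 → ℂ)) (h0 : ∀ i, z i ≠ 0)
    (hz : ∀ i j, i ≠ j → z i ∉ (ℂ ∙ z j)) (hR : ∀ i, c.R1 (z i)) : False := by
  have hform : ∀ i, ∃ (μ : (Fin 3 → ℂ) →ₗ[ℂ] ℂ) (r : ℂ), μ ≠ 0 ∧ r ≠ 0 ∧
      ∀ y y', c.T (iY ℂ y) (iY ℂ y') (iZ ℂ (z i)) = r * (μ y * μ y') := by
    intro i
    obtain ⟨v, v', hli, hv, hv'⟩ := hR i
    exact rank1_form hP (h0 i) hli hv hv'
  choose μ r hμ hr hf using hform
  -- pairwise independence of the linear forms
  have hpair : ∀ i j, i ≠ j → ∃ y, μ i y = 0 ∧ μ j y ≠ 0 := by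
    intro i j hij
    by_contra hcon
    push Not at hcon
    obtain ⟨y0, hy0⟩ : ∃ y0, μ i y0 = 1 := by
      obtain ⟨y, hy⟩ := LinearMap.surjective (hμ i) 1
      exact ⟨y, hy⟩
    have hprop : ∀ y, μ j y = μ j y0 * μ i y := by
      intro y
      have h1 := hcon (y - μ i y • y0) (by rw [map_sub, map_smul, hy0]; simp)
      rw [map_sub, map_smul, smul_eq_mul] at h1
      linear_combination h1
    -- the two conics are proportional
    have h2 : z j - (r j * (μ j y0) ^ 2 / r i) • z i = 0 := by
      by_contra hne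
      refine not_conic_zero hP _ hne fun y hy => ?_
      rw [eq_iY_of_mem hy, map_sub, map_sub, map_smul, map_smul, hf, hf, hprop, smul_eq_mul]
      have := hr i
      field_simp
      ring
    apply hz j i (Ne.symm hij)
    rw [sub_eq_zero.mp h2]
    exact Submodule.smul_mem _ _ (Submodule.mem_span_singleton_self _)
  -- three of the points are always independent
  have htriple : ∀ i j k, i ≠ j → i ≠ k → j ≠ k → LinearIndependent ℂ ![z i, z j, z k] := by
    intro i j k hij hik hjk
    by_contra hdep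
    have hlij : LinearIndependent ℂ ![z i, z j] := by
      rw [LinearIndependent.pair_iff' (h0 i)]
      intro a ha
      apply hz j i (Ne.symm hij)
      rw [← ha]
      exact Submodule.smul_mem _ _ (Submodule.mem_span_singleton_self _)
    obtain ⟨α, β, hαβ⟩ : ∃ α β : ℂ, z k = α • z i + β • z j := by
      rw [Fintype.not_linearIndependent_iff] at hdep
      obtain ⟨g, hg, m, hm⟩ := hdep
      rw [Fin.sum_univ_three] at hg
      have hg' : g 0 • z i + g 1 • z j + g 2 • z k = 0 := hg
      have hg2 : g 2 ≠ 0 := by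
        intro h2
        rw [h2, zero_smul, add_zero] at hg'
        rw [LinearIndependent.pair_iff] at hlij
        have := hlij _ _ hg'
        fin_cases m
        · exact hm this.1
        · exact hm this.2
        · exact hm h2
      refine ⟨-(g 0 / g 2), -(g 1 / g 2), ?_⟩
      have h3 : g 2 • z k = -(g 0 • z i) - g 1 • z j := by
        have := hg'
        rw [← sub_eq_zero]
        rw [← this]; abel
      have h4 : z k = (g 2)⁻¹ • (g 2 • z k) := by rw [smul_smul, inv_mul_cancel₀ hg2, one_smul]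
      rw [h4, h3, smul_sub, smul_neg, smul_smul, smul_smul, neg_smul, neg_smul, sub_eq_add_neg]
      congr 3
      · rw [div_eq_inv_mul]
      · rw [div_eq_inv_mul]
    obtain ⟨y1, hy1, hy1'⟩ := hpair j i (Ne.symm hij)
    obtain ⟨y2, hy2, hy2'⟩ := hpair i j hij
    have e : ∀ y y', r k * (μ k y * μ k y') = α * (r i * (μ i y * μ i y')) +
        β * (r j * (μ j y * μ j y')) := by
      intro y y'
      rw [← hf k, hαβ, map_add, map_add, map_smul, map_smul, map_smul, map_smul, hf i, hf j]
      simp [smul_eq_mul]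
    have e12 := e y1 y2
    rw [hy1, hy2] at e12
    have e12' : μ k y1 * μ k y2 = 0 := by
      have : r k * (μ k y1 * μ k y2) = 0 := by rw [e12]; ring
      exact (mul_eq_zero.mp this).resolve_left (hr k)
    rcases mul_eq_zero.mp e12' with h | h
    · have e11 := e y1 y1
      rw [h, hy1] at e11
      have hα : α = 0 := by
        have h5 : α * (r i * (μ i y1 * μ i y1)) = 0 := by linear_combination -e11
        exact (mul_eq_zero.mp h5).resolve_right
          (mul_ne_zero (hr i) (mul_ne_zero hy1' hy1'))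
      apply hz k j (Ne.symm hjk)
      rw [hαβ, hα, zero_smul, zero_add]
      exact Submodule.smul_mem _ _ (Submodule.mem_span_singleton_self _)
    · have e22 := e y2 y2
      rw [h, hy2] at e22
      have hβ : β = 0 := by
        have h5 : β * (r j * (μ j y2 * μ j y2)) = 0 := by linear_combination -e22
        exact (mul_eq_zero.mp h5).resolve_right
          (mul_ne_zero (hr j) (mul_ne_zero hy2' hy2'))
      apply hz k i (Ne.symm hik)
      rw [hαβ, hβ, zero_smul, add_zero]
      exact Submodule.smul_mem _ _ (Submodule.mem_span_singleton_self _)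
  -- dual basis for the first three forms
  have hz3 := htriple 0 1 2 (by decide) (by decide) (by decide)
  let M : (Fin 3 → ℂ) →ₗ[ℂ] (Fin 3 → ℂ) := LinearMap.pi ![μ 0, μ 1, μ 2]
  have hMinj : Function.Injective M := by
    rw [← LinearMap.ker_eq_bot, Submodule.eq_bot_iff]
    intro y hy
    have hy' := LinearMap.mem_ker.mp hy
    have m0 : μ 0 y = 0 := congrFun hy' 0
    have m1 : μ 1 y = 0 := congrFun hy' 1
    have m2 : μ 2 y = 0 := congrFun hy' 2
    apply iY_inj
    by_contra hne
    obtain ⟨x, hx⟩ := c.ns _ hne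
    apply hx
    rw [decomp x, map_add, hP.two (iY_mem _) (iY_mem _), zero_add]
    obtain ⟨a1, a2, a3, ha⟩ := span3 hz3 (pZ ℂ x)
    rw [ha]
    simp only [map_add, map_smul, hf, m0, m1, m2]
    simp
  have hMsurj : Function.Surjective M := LinearMap.injective_iff_surjective.mp hMinj
  obtain ⟨y0, hy0⟩ := hMsurj (Pi.single 0 1)
  obtain ⟨y1, hy1⟩ := hMsurj (Pi.single 1 1)
  obtain ⟨y2, hy2⟩ := hMsurj (Pi.single 2 1)
  have a00 : μ 0 y0 = 1 := congrFun hy0 0
  have a10 : μ 1 y0 = 0 := congrFun hy0 1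
  have a20 : μ 2 y0 = 0 := congrFun hy0 2
  have a01 : μ 0 y1 = 0 := congrFun hy1 0
  have a11 : μ 1 y1 = 1 := congrFun hy1 1
  have a21 : μ 2 y1 = 0 := congrFun hy1 2
  have a02 : μ 0 y2 = 0 := congrFun hy2 0
  have a12 : μ 1 y2 = 0 := congrFun hy2 1
  have a22 : μ 2 y2 = 1 := congrFun hy2 2
  obtain ⟨b0, b1, b2, hb⟩ := span3 hz3 (z 3)
  have e : ∀ y y', r 3 * (μ 3 y * μ 3 y') = b0 * (r 0 * (μ 0 y * μ 0 y')) +
      b1 * (r 1 * (μ 1 y * μ 1 y')) + b2 * (r 2 * (μ 2 y * μ 2 y')) := by
    intro y y'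
    rw [← hf 3, hb]
    simp only [map_add, map_smul, hf, smul_eq_mul]
  have e01 := e y0 y1
  have e02 := e y0 y2
  have e12 := e y1 y2
  have e00 := e y0 y0
  have e11 := e y1 y1
  have e22 := e y2 y2
  simp only [a00, a10, a20, a01, a11, a21, a02, a12, a22, mul_one, mul_zero, zero_mul, add_zero,
    zero_add] at e01 e02 e12 e00 e11 e22
  have p01 : μ 3 y0 * μ 3 y1 = 0 := (mul_eq_zero.mp e01).resolve_left (hr 3)
  have p02 : μ 3 y0 * μ 3 y2 = 0 := (mul_eq_zero.mp e02).resolve_left (hr 3)
  have p12 : μ 3 y1 * μ 3 y2 = 0 := (mul_eq_zero.mp e12).resolve_left (hr 3)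
  have hb0 : μ 3 y0 = 0 → b0 = 0 := by
    intro h
    rw [h] at e00
    have : b0 * r 0 = 0 := by linear_combination -e00
    exact (mul_eq_zero.mp this).resolve_right (hr 0)
  have hb1 : μ 3 y1 = 0 → b1 = 0 := by
    intro h
    rw [h] at e11
    have : b1 * r 1 = 0 := by linear_combination -e11
    exact (mul_eq_zero.mp this).resolve_right (hr 1)
  have hb2 : μ 3 y2 = 0 → b2 = 0 := by
    intro h
    rw [h] at e22
    have : b2 * r 2 = 0 := by linear_combination -e22
    exact (mul_eq_zero.mp this).resolve_right (hr 2)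
  by_cases h3 : μ 3 y0 = 0
  · by_cases h4 : μ 3 y1 = 0
    · apply hz 3 2 (by decide)
      rw [hb, hb0 h3, hb1 h4, zero_smul, zero_smul, zero_add, zero_add]
      exact Submodule.smul_mem _ _ (Submodule.mem_span_singleton_self _)
    · have h5 := (mul_eq_zero.mp p12).resolve_left h4
      apply hz 3 1 (by decide)
      rw [hb, hb0 h3, hb2 h5, zero_smul, zero_smul, zero_add, add_zero]
      exact Submodule.smul_mem _ _ (Submodule.mem_span_singleton_self _)
  · have h4 := (mul_eq_zero.mp p01).resolve_left h3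
    have h5 := (mul_eq_zero.mp p02).resolve_left h3
    apply hz 3 0 (by decide)
    rw [hb, hb1 h4, hb2 h5, zero_smul, zero_smul, add_zero, add_zero]
    exact Submodule.smul_mem _ _ (Submodule.mem_span_singleton_self _)

theorem R1_card (hP : c.Iso P0) {N : ℕ} (z : Fin N → (Fin 3 → ℂ)) (h0 : ∀ i, z i ≠ 0)
    (hz : ∀ i j, i ≠ j → z i ∉ (ℂ ∙ z j)) (S : Finset (Fin N)) (hS : ∀ i ∈ S, c.R1 (z i)) :
    S.card ≤ 3 := by
  by_contra hlt
  push Not at hlt
  obtain ⟨T, hTS, hT⟩ := Finset.exists_subset_card_eq (s := S) (n := 4) (by omega)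
  let f : Fin 4 → Fin N := fun i => ((T.equivFinOfCardEq hT).symm i : Fin N)
  have hf : Function.Injective f := fun i j hij =>
    (T.equivFinOfCardEq hT).symm.injective (Subtype.ext hij)
  exact no_four_R1 hP (fun i => z (f i)) (fun i => h0 _)
    (fun i j hij => hz _ _ (fun h => hij (hf h)))
    (fun i => hS _ (hTS ((T.equivFinOfCardEq hT).symm i).2))

/-- the discriminant of the net of conics does not vanish identically -/
theorem dis3_ne_zero (hP : c.Iso P0) : c.dis3 ≠ 0 := by
  intro h0
  have hR : ∀ b, c.R1 b := fun b => dis3_sing hP (by rw [h0, map_zero])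
    (fun k => by rw [h0, map_zero, map_zero])
  refine no_four_R1 hP ![![1, 0, 0], ![0, 1, 0], ![0, 0, 1], ![1, 1, 1]] ?_ ?_ (fun i => hR _)
  · intro i h
    fin_cases i
    · have := congrFun h 0; simp at this
    · have := congrFun h 1; simp at this
    · have := congrFun h 2; simp at this
    · have := congrFun h 0; simp at this
  · intro i j hij h
    obtain ⟨a, ha⟩ := Submodule.mem_span_singleton.mp h
    have k0 := congrFun ha 0
    have k1 := congrFun ha 1
    have k2 := congrFun ha 2
    fin_cases i <;> fin_cases j <;> simp at hij k0 k1 k2 <;> simp_all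

end Cub

end Pool.Agent.Helper16
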