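import Mathlib
import Pool.Agent.Helper16.CubicB5
import Pool.Agent.Helper16.CubicB3

set_option autoImplicit false
set_option linter.unusedVariables false
set_option linter.unusedSectionVars false

namespace Pool.Agent.Helper16

open MvPolynomial Module

namespace Cub

variable {c : Cub (I6 → ℂ)}

/-- cofactors of the last column -/
noncomputable def cof (c : Cub (I6 → ℂ)) (j : Fin 4) : R3 :=
  (c.Nm (X : Fin 3 → R3)).adjugate j 3

theorem eval_cof (b : Fin 3 → ℂ) (j : Fin 4) : eval b (c.cof j) = (c.Nm b).adjugate j 3 :=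
  c.eval_adj b j 3

theorem cof3 : c.cof 3 = c.dis3 := by
  rw [cof, dis3, Matrix.adjugate_fin_succ_eq_det_submatrix]
  have h : (c.Nm (X : Fin 3 → R3)).submatrix (Fin.succAbove 3) (Fin.succAbove 3) =
      c.Lm (X : Fin 3 → R3) := by
    ext i j
    rw [Matrix.submatrix_apply, Nm_apply, Lm_apply, nf_apply]
    have e1 : ∀ a : Fin 3, vY R3 (Pi.single (Fin.succAbove 3 a) 1) = iY R3 (Pi.single a 1) := by
      intro a
      funext m
      rcases m with m | m
      · fin_cases a <;> fin_cases m <;> simp [Fin.succAbove, Fin.lt_def]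
      · simp
    have e2 : ∀ a : Fin 3, (Pi.single (Fin.succAbove 3 a) 1 : Fin 4 → R3) 3 = 0 := by
      intro a
      fin_cases a <;> simp [Fin.succAbove, Fin.lt_def]
    rw [e1, e1, e2, e2]; ring_nf
  rw [h]
  have h6 : ((-1 : R3) ^ (((3 : Fin 4) : ℕ) + ((3 : Fin 4) : ℕ))) = 1 := by
    norm_num
  rw [h6, one_mul]

theorem cof_scale (a : ℂ) (z : Fin 3 → ℂ) (j : Fin 4) :
    (c.Nm (a • z)).adjugate j 3 = a ^ 3 * ((![a, a, a, 1] : Fin 4 → ℂ) j *
      (c.Nm z).adjugate j 3) := by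
  have h : c.Nm (a • z) = a • (Matrix.diagonal ![1, 1, 1, a] * c.Nm z *
      Matrix.diagonal ![1, 1, 1, a]) := by
    ext i j
    rw [Matrix.smul_apply, Matrix.mul_diagonal, Matrix.diagonal_mul, Nm_apply, Nm_apply,
      nf_scale, smul_eq_mul]
    have e : ∀ i : Fin 4, mk4 (fun m => (Pi.single i 1 : Fin 4 → ℂ) m.castSucc)
        (a * (Pi.single i 1 : Fin 4 → ℂ) 3) = (![1, 1, 1, a] : Fin 4 → ℂ) i • Pi.single i 1 := by
      intro i
      funext m
      fin_cases i <;> fin_cases m <;> simp [mk4]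
    rw [e, e, map_smul, map_smul, LinearMap.smul_apply, smul_eq_mul, smul_eq_mul]
    ring
  rw [h, Matrix.adjugate_smul, Matrix.adjugate_mul_distrib, Matrix.adjugate_mul_distrib,
    Matrix.adjugate_diagonal, Matrix.smul_apply, Matrix.diagonal_mul, Matrix.mul_diagonal]
  have e3 : ∏ i ∈ Finset.univ.erase (3 : Fin 4), (![1, 1, 1, a] : Fin 4 → ℂ) i = 1 := by
    rw [Finset.prod_eq_one]
    intro i hi
    have := Finset.ne_of_mem_erase hi
    fin_cases i <;> simp at this ⊢
  rw [e3, mul_one, smul_eq_mul, Fintype.card_fin]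
  congr 1
  congr 1
  have e4 : ∀ j : Fin 4, ∏ i ∈ Finset.univ.erase j, (![1, 1, 1, a] : Fin 4 → ℂ) i =
      (![a, a, a, 1] : Fin 4 → ℂ) j := by
    intro j
    by_cases hj : j = 3
    · subst hj; rw [e3]; rfl
    · rw [Finset.prod_eq_single 3]
      · fin_cases j <;> simp at hj ⊢
      · intro i hi hi3
        fin_cases i <;> simp at hi3 ⊢
      · intro h
        exfalso; apply h
        rw [Finset.mem_erase]
        exact ⟨fun h => hj h.symm, Finset.mem_univ _⟩
  exact e4 j

theorem cof3_hom : (c.cof 3).IsHomogeneous 3 := by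
  apply isHomogeneous_of_eval
  intro a z
  rw [eval_cof, eval_cof, cof_scale]
  simp

theorem cof_hom (j : Fin 3) : (c.cof j.castSucc).IsHomogeneous 4 := by
  apply isHomogeneous_of_eval
  intro a z
  rw [eval_cof, eval_cof, cof_scale]
  have : (![a, a, a, 1] : Fin 4 → ℂ) j.castSucc = a := by fin_cases j <;> rfl
  rw [this]; ring

theorem disc_eq_sum : c.disc = ∑ j, c.Nm (X : Fin 3 → R3) 3 j * c.cof j := by
  have h : (c.Nm (X : Fin 3 → R3) * (c.Nm (X : Fin 3 → R3)).adjugate) 3 3 = c.disc := by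
    rw [Matrix.mul_adjugate, Matrix.smul_apply, Matrix.one_apply_eq, smul_eq_mul, mul_one, disc]
  rw [← h, Matrix.mul_apply]
  rfl

/-- points with a radical of dimension at least two -/
def C2 (c : Cub (I6 → ℂ)) (b : Fin 3 → ℂ) : Prop :=
  ∃ v v', LinearIndependent ℂ ![v, v'] ∧ c.Rad b v ∧ c.Rad b v'

theorem C2.cof_zero {b : Fin 3 → ℂ} (h : c.C2 b) (j : Fin 4) : eval b (c.cof j) = 0 := by
  obtain ⟨v, v', hli, hv, hv'⟩ := h
  rw [eval_cof]
  exact adj_zero (n := 3) _ hli ((c.rad_iff b v).mp hv) ((c.rad_iff b v').mp hv') j 3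

theorem C2.dif_zero {b : Fin 3 → ℂ} (h : c.C2 b) (k : Fin 3) :
    eval b (pderiv k c.disc) = 0 := by
  obtain ⟨v, v', hli, hv, hv'⟩ := h
  rw [disc]
  exact Pool.Agent.Helper16.dif_zero (n := 3) _ b hli
    (by rw [Nm_eval]; exact (c.rad_iff b v).mp hv)
    (by rw [Nm_eval]; exact (c.rad_iff b v').mp hv') k

theorem disc_ne_zero (hP : c.Iso P0) : c.disc ≠ 0 := by
  intro h0
  refine no_curve hP (X_irreducible (0 : Fin 3)) (isHomogeneous_X _ _) fun z hz _ => ?_
  exact sing hP hz (by rw [h0, map_zero]) (fun k => by rw [h0, map_zero, map_zero])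

/-- at most thirteen points -/
theorem thirteen (hP : c.Iso P0) {N : ℕ} (z : Fin N → (Fin 3 → ℂ)) (h0 : ∀ i, z i ≠ 0)
    (hz : ∀ i j, i ≠ j → z i ∉ (ℂ ∙ z j)) (hC : ∀ i, c.C2 (z i)) : N ≤ 13 := by
  classical
  have hA3 : c.cof 3 ≠ 0 := by rw [cof3]; exact dis3_ne_zero hP
  obtain ⟨G, B, hB, hirr⟩ := factor_out _ c.cof hA3 le_rfl
  have hG0 : G ≠ 0 := by
    rintro rfl; apply hA3; rw [hB 3, zero_mul]
  have hB30 : B 3 ≠ 0 := by
    intro h; apply hA3; rw [hB 3, h, mul_zero]
  obtain ⟨g, b3, hGh, hB3h, hg3⟩ := hom_factor (by rw [← hB 3]; exact cof3_hom)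
    (by rw [← hB 3]; exact hA3)
  have hBh : ∀ j : Fin 3, (B j.castSucc).IsHomogeneous (4 - g) := by
    intro j
    by_cases h : c.cof j.castSucc = 0
    · have : B j.castSucc = 0 := by
        rw [hB] at h
        exact (mul_eq_zero.mp h).resolve_left hG0
      rw [this]; exact isHomogeneous_zero _ _ _
    · obtain ⟨a', b', ha', hb', hab⟩ := hom_factor (by rw [← hB]; exact cof_hom j)
        (by rw [← hB]; exact h)
      have : a' = g := ha'.inj_right hGh hG0
      have hb4 : b' = 4 - g := by omega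
      rwa [hb4] at hb'
  set H : R3 := ∑ j, c.Nm (X : Fin 3 → R3) 3 j * B j with hH
  have hdisc : c.disc = G * H := by
    rw [disc_eq_sum, hH, Finset.mul_sum]
    refine Finset.sum_congr rfl fun j _ => ?_
    rw [hB j]; ring
  have hd0 := disc_ne_zero hP
  have hH0 : H ≠ 0 := by
    intro h; apply hd0; rw [hdisc, h, mul_zero]
  obtain ⟨g', h', hGh', hHh, hgh⟩ := hom_factor (by rw [← hdisc]; exact disc_hom)
    (by rw [← hdisc]; exact hd0)
  have hgg : g' = g := hGh'.inj_right hGh hG0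
  subst hgg
  have hrel : IsRelPrime G H := by
    refine isRelPrime_of_irr hG0 fun π hπ hπG hπH => ?_
    obtain ⟨q, hq⟩ := hπG
    obtain ⟨r, hr⟩ := hπH
    obtain ⟨m, _, hm, _, _⟩ := hom_factor (by rw [← hq]; exact hGh) (by rw [← hq]; exact hG0)
    refine no_curve hP hπ hm fun z hz0 hπz => ?_
    refine sing hP hz0 ?_ fun k => ?_
    · rw [hdisc, hq, hr, map_mul, map_mul, hπz, zero_mul, zero_mul]
    · rw [hdisc, hq, hr]
      simp only [Derivation.leibniz, smul_eq_mul, map_add, map_mul, hπz]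
      ring
  -- the three subsets
  let S1 : Finset (Fin N) := Finset.univ.filter fun i => eval (z i) G ≠ 0
  let S2 : Finset (Fin N) := Finset.univ.filter fun i => eval (z i) G = 0 ∧ eval (z i) H = 0
  let S3 : Finset (Fin N) := Finset.univ.filter fun i => eval (z i) G = 0 ∧ eval (z i) H ≠ 0
  have hcover : (Finset.univ : Finset (Fin N)) ⊆ S1 ∪ (S2 ∪ S3) := by
    intro i _
    simp only [S1, S2, S3, Finset.mem_union, Finset.mem_filter, Finset.mem_univ, true_and]
    by_cases h1 : eval (z i) G = 0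
    · by_cases h2 : eval (z i) H = 0
      · exact Or.inr (Or.inl ⟨h1, h2⟩)
      · exact Or.inr (Or.inr ⟨h1, h2⟩)
    · exact Or.inl h1
  have hcard : N ≤ S1.card + (S2.card + S3.card) := by
    have h1 := Finset.card_le_card hcover
    rw [Finset.card_univ, Fintype.card_fin] at h1
    exact h1.trans ((Finset.card_union_le _ _).trans
      (Nat.add_le_add_left (Finset.card_union_le _ _) _))
  have c1 : S1.card ≤ b3 * (4 - g') := by
    refine count_family hB3h hB30 (fun a => B a.castSucc) hBh ?_ z h0 hz S1 ?_ ?_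
    · intro π hπ hπB
      obtain ⟨j, hj⟩ := hirr π hπ
      have hj3 : j ≠ Fin.last 3 := by
        rintro rfl; exact hj hπB
      obtain ⟨a, rfl⟩ := Fin.exists_castSucc_eq.mpr hj3
      exact ⟨a, hj⟩
    · intro i hi
      have hGi : eval (z i) G ≠ 0 := (Finset.mem_filter.mp hi).2
      have h1 := (hC i).cof_zero 3
      rw [hB 3, map_mul] at h1
      exact (mul_eq_zero.mp h1).resolve_left hGi
    · intro i hi a
      have hGi : eval (z i) G ≠ 0 := (Finset.mem_filter.mp hi).2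
      have h1 := (hC i).cof_zero a.castSucc
      rw [hB, map_mul] at h1
      exact (mul_eq_zero.mp h1).resolve_left hGi
  have c2 : S2.card ≤ g' * h' := by
    refine bezout_finset hGh hHh hrel hH0 z h0 hz S2 ?_ ?_
    · intro i hi; exact (Finset.mem_filter.mp hi).2.1
    · intro i hi; exact (Finset.mem_filter.mp hi).2.2
  have hder : ∀ i ∈ S3, ∀ k, eval (z i) (pderiv k G) = 0 := by
    intro i hi k
    obtain ⟨hGi, hHi⟩ := (Finset.mem_filter.mp hi).2
    have h1 := (hC i).dif_zero k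
    rw [hdisc, Derivation.leibniz, smul_eq_mul, smul_eq_mul, map_add, map_mul, map_mul, hGi,
      zero_mul, zero_add] at h1
    exact (mul_eq_zero.mp h1).resolve_left hHi
  have c3 : S3.card ≤ 3 := by
    refine R1_card hP z h0 hz S3 fun i hi => ?_
    have hGi := (Finset.mem_filter.mp hi).2.1
    refine dis3_sing hP ?_ fun k => ?_
    · rw [← cof3, hB 3, map_mul, hGi, zero_mul]
    · rw [← cof3, hB 3, Derivation.leibniz, smul_eq_mul, smul_eq_mul, map_add, map_mul, map_mul,
        hGi, hder i hi k]; ring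
  have c4 : g' ≤ 1 → S3.card = 0 := by
    intro hg1
    rw [Finset.card_eq_zero, Finset.eq_empty_iff_forall_notMem]
    intro i hi
    have hGi := (Finset.mem_filter.mp hi).2.1
    apply hG0
    rcases Nat.eq_zero_or_pos g' with hg | hg
    · subst hg
      rw [← totalDegree_zero_iff_isHomogeneous, totalDegree_eq_zero_iff_eq_C] at hGh
      rw [hGh, eval_C] at hGi
      rw [hGh, hGi, map_zero]
    · have hg1' : g' = 1 := by omega
      subst hg1'
      have hk : ∀ k, pderiv k G = 0 := by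
        intro k
        have h1 : (pderiv k G).IsHomogeneous 0 := hGh.pderiv
        rw [← totalDegree_zero_iff_isHomogeneous, totalDegree_eq_zero_iff_eq_C] at h1
        have h2 := hder i hi k
        rw [h1, eval_C] at h2
        rw [h1, h2, map_zero]
      have h2 := hGh.sum_X_mul_pderiv
      simp only [hk, mul_zero, Finset.sum_const_zero, one_smul] at h2
      exact h2.symm
  have hg' : g' ≤ 3 := by omega
  have hb3' : b3 = 3 - g' := by omega
  have hh' : h' = 6 - g' := by omega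
  rw [hb3'] at c1
  rw [hh'] at c2
  clear hGh hGh' hBh hHh
  interval_cases g'
  · have := c4 (by omega); omega
  · have := c4 (by omega); omega
  · omega
  · omega

/-- a plane collinear with the base plane gives a point with a large radical -/
theorem exists_point (hP : c.Iso P0) {W : Submodule ℂ (I6 → ℂ)} (hW : c.Pl W) (hne : W ≠ P0)
    (h2 : finrank ℂ (W ⊓ P0 : Submodule ℂ (I6 → ℂ)) = 2) :
    ∃ b, b ≠ 0 ∧ W ⊔ P0 = P0 ⊔ ℂ ∙ iZ ℂ b ∧ c.C2 b := by
  obtain ⟨w, hw, hwP⟩ := hW.exists_mem_notMem (pl_P0 hP) hne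
  set b := pZ ℂ w with hb
  have hb0 : b ≠ 0 := fun h => hwP (mem_P0.mpr h)
  have hU : W ⊔ P0 = P0 ⊔ ℂ ∙ iZ ℂ b := by
    symm
    apply Submodule.eq_of_le_of_finrank_eq
    · refine sup_le le_sup_right ?_
      rw [Submodule.span_singleton_le_iff_mem]
      have : iZ ℂ b = w - iY ℂ (pY ℂ w) := by
        have := decomp w
        rw [← hb] at this
        exact eq_sub_of_add_eq' this.symm
      rw [this]
      exact Submodule.sub_mem _ (Submodule.mem_sup_left hw) (Submodule.mem_sup_right (iY_mem _))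
    · rw [finrank_U hb0]
      have := Submodule.finrank_sup_add_finrank_inf_eq W P0
      rw [h2, hW.rank, finrank_P0] at this
      omega
  refine ⟨b, hb0, hU, ?_⟩
  -- two vectors of the base plane in `W`
  obtain ⟨f, hf⟩ := exists_linearIndependent_of_le_finrank (R := ℂ)
    (M := (W ⊓ P0 : Submodule ℂ (I6 → ℂ))) (n := 2) (by omega)
  set y1 := pY ℂ (f 0 : I6 → ℂ) with hy1
  set y2 := pY ℂ (f 1 : I6 → ℂ) with hy2
  have e1 : iY ℂ y1 = (f 0 : I6 → ℂ) := (eq_iY_of_mem (f 0).2.2).symm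
  have e2 : iY ℂ y2 = (f 1 : I6 → ℂ) := (eq_iY_of_mem (f 1).2.2).symm
  have hW1 : iY ℂ y1 ∈ W := by rw [e1]; exact (f 0).2.1
  have hW2 : iY ℂ y2 ∈ W := by rw [e2]; exact (f 1).2.1
  have hli : LinearIndependent ℂ ![y1, y2] := by
    rw [LinearIndependent.pair_iff]
    intro s t hst
    have h3 := congrArg (iY ℂ) hst
    rw [map_add, map_smul, map_smul, map_zero, e1, e2] at h3
    rw [Fintype.linearIndependent_iff] at hf
    have h4 := hf ![s, t] (by
      rw [Fin.sum_univ_two]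
      ext1
      exact h3)
    exact ⟨h4 0, h4 1⟩
  obtain ⟨y3, hy3⟩ := exists_d3_ne hli
  have hLI : LinearIndependent ℂ ![y1, y2, y3] := by
    apply indep3
    intro a a' e he
    have he0 : e * d3 y1 y2 y3 = 0 := by
      have h0 := congrFun he 0
      have h1 := congrFun he 1
      have h2 := congrFun he 2
      simp only [Pi.add_apply, Pi.smul_apply, smul_eq_mul, Pi.zero_apply] at h0 h1 h2
      simp only [d3]
      linear_combination (y1 1 * y2 2 - y1 2 * y2 1) * h0 + (y1 2 * y2 0 - y1 0 * y2 2) * h1 +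
        (y1 0 * y2 1 - y1 1 * y2 0) * h2
    have he1 : e = 0 := (mul_eq_zero.mp he0).resolve_right hy3
    rw [he1, zero_smul, add_zero] at he
    rw [LinearIndependent.pair_iff] at hli
    have := hli a a' he
    exact ⟨this.1, this.2, he1⟩
  set v0 := mk4 (pY ℂ w) (1 : ℂ) with hv0
  have hpt : pt b v0 = w := by
    rw [hv0, pt_mk4, one_smul]; exact (decomp w).symm
  have hptW : pt b v0 ∈ W := by rw [hpt]; exact hw
  have hYY : ∀ y y', iY ℂ y ∈ W → iY ℂ y' ∈ W → c.nf b (mk4 y 0) (mk4 y' 0) = 0 := by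
    intro y y' hy hy'
    rw [nf_YY]
    have : iZ ℂ b = w - iY ℂ (pY ℂ w) := by
      have := decomp w
      rw [← hb] at this
      exact eq_sub_of_add_eq' this.symm
    rw [this, map_sub, hW.iso.three hy hy' hw, hP.three (iY_mem _) (iY_mem _) (iY_mem _),
      sub_zero]
  have m1 : c.nf b v0 (mk4 y1 0) = 0 := nf_iso_Y hP hW.iso hptW one_ne_zero hW1
  have m2 : c.nf b v0 (mk4 y2 0) = 0 := nf_iso_Y hP hW.iso hptW one_ne_zero hW2
  have m0 : c.nf b v0 v0 = 0 := nf_iso hP hW.iso hptW one_ne_zero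
  -- vectors of the isotropic space orthogonal to `y3`
  let ℓ : (Fin 3 → ℂ) →ₗ[ℂ] ℂ :=
    (c.nf b (mk4 y1 0) (mk4 y3 0)) • LinearMap.proj 0 +
    (c.nf b (mk4 y2 0) (mk4 y3 0)) • LinearMap.proj 1 +
    (c.nf b v0 (mk4 y3 0)) • LinearMap.proj 2
  have hℓ : 2 ≤ finrank ℂ (LinearMap.ker ℓ) := by
    have h1 := LinearMap.finrank_range_add_finrank_ker ℓ
    have h2 : finrank ℂ (LinearMap.range ℓ) ≤ 1 := by
      have := Submodule.finrank_le (LinearMap.range ℓ)
      simpa using this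
    simp at h1; omega
  obtain ⟨k, hk⟩ := exists_linearIndependent_of_le_finrank (R := ℂ) (M := LinearMap.ker ℓ)
    (n := 2) hℓ
  let u : (Fin 3 → ℂ) → (Fin 4 → ℂ) := fun a => mk4 (a 0 • y1 + a 1 • y2) 0 + a 2 • v0
  have hu : ∀ a : Fin 3 → ℂ, ℓ a = 0 → c.Rad b (u a) := by
    intro a ha
    have ha' : a 0 * c.nf b (mk4 y1 0) (mk4 y3 0) + a 1 * c.nf b (mk4 y2 0) (mk4 y3 0) +
        a 2 * c.nf b v0 (mk4 y3 0) = 0 := by
      simp only [ℓ, LinearMap.add_apply, LinearMap.smul_apply, LinearMap.proj_apply,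
        smul_eq_mul] at ha
      linear_combination ha
    have hua : u a = a 0 • mk4 y1 0 + a 1 • mk4 y2 0 + a 2 • v0 := by
      simp only [u]
      rw [mk4_add_aux, mk4_smul0, mk4_smul0]
    refine rad_of_span hLI (v := v0) rfl ?_ ?_ ?_ ?_
    · rw [hua]
      simp only [map_add, map_smul, LinearMap.add_apply, LinearMap.smul_apply, hYY _ _ hW1 hW1,
        hYY _ _ hW2 hW1, m1, smul_zero, add_zero]
    · rw [hua]
      simp only [map_add, map_smul, LinearMap.add_apply, LinearMap.smul_apply, hYY _ _ hW1 hW2,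
        hYY _ _ hW2 hW2, m2, smul_zero, add_zero]
    · rw [hua]
      simp only [map_add, map_smul, LinearMap.add_apply, LinearMap.smul_apply, smul_eq_mul]
      exact ha'
    · rw [hua]
      simp only [map_add, map_smul, LinearMap.add_apply, LinearMap.smul_apply,
        c.nf_symm b (mk4 y1 0) v0, c.nf_symm b (mk4 y2 0) v0, m1, m2, m0, smul_zero, add_zero]
  refine ⟨u (k 0), u (k 1), ?_, hu _ (LinearMap.mem_ker.mp (k 0).2),
    hu _ (LinearMap.mem_ker.mp (k 1).2)⟩
  rw [LinearIndependent.pair_iff]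
  intro s t hst
  have hst2 : mk4 ((s * (k 0 : Fin 3 → ℂ) 0 + t * (k 1 : Fin 3 → ℂ) 0) • y1 +
      (s * (k 0 : Fin 3 → ℂ) 1 + t * (k 1 : Fin 3 → ℂ) 1) • y2) (0 : ℂ) +
      (s * (k 0 : Fin 3 → ℂ) 2 + t * (k 1 : Fin 3 → ℂ) 2) • v0 = 0 := by
    rw [← hst]
    simp only [u]
    rw [mk4_add_aux, mk4_add_aux, mk4_add_aux, mk4_smul0, mk4_smul0, mk4_smul0, mk4_smul0,
      mk4_smul0, mk4_smul0]
    module
  have h3 : s * (k 0 : Fin 3 → ℂ) 2 + t * (k 1 : Fin 3 → ℂ) 2 = 0 := by
    have := congrFun hst2 3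
    simp only [hv0, Pi.add_apply, Pi.smul_apply, mk4_3, smul_eq_mul, mul_one, zero_add,
      Pi.zero_apply] at this
    exact this
  rw [h3, zero_smul, add_zero] at hst2
  have h4 : (s * (k 0 : Fin 3 → ℂ) 0 + t * (k 1 : Fin 3 → ℂ) 0) • y1 +
      (s * (k 0 : Fin 3 → ℂ) 1 + t * (k 1 : Fin 3 → ℂ) 1) • y2 = 0 := by
    funext i
    have := congrFun hst2 i.castSucc
    fin_cases i <;> simpa [mk4] using this
  rw [LinearIndependent.pair_iff] at hli
  obtain ⟨h5, h6⟩ := hli _ _ h4
  rw [Fintype.linearIndependent_iff] at hk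
  have h7 := hk ![s, t] (by
    rw [Fin.sum_univ_two]
    ext i
    change s * (k 0 : Fin 3 → ℂ) i + t * (k 1 : Fin 3 → ℂ) i = 0
    fin_cases i
    · exact h5
    · exact h6
    · exact h3)
  exact ⟨h7 0, h7 1⟩

/-- at most 26 planes are collinear with a given plane -/
theorem star_card (hP : c.Iso P0) (T : Finset (Submodule ℂ (I6 → ℂ)))
    (hT : ∀ W ∈ T, c.Pl W ∧ W ≠ P0 ∧ finrank ℂ (W ⊓ P0 : Submodule ℂ (I6 → ℂ)) = 2) :
    T.card ≤ 26 := by
  classical
  have h1 : T.card ≤ 2 * (T.image fun W => W ⊔ P0).card := by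
    apply Finset.card_le_mul_card_image
    intro U hU
    obtain ⟨W, hW, rfl⟩ := Finset.mem_image.mp hU
    obtain ⟨hWpl, hWne, hW2⟩ := hT W hW
    obtain ⟨W3, hW3, -, -, -, -, -, hthree⟩ := Cub.third finrank_I6 hWpl (pl_P0 hP) hWne hW2
    have hsub : (T.filter fun x => x ⊔ P0 = W ⊔ P0) ⊆ {W, W3} := by
      intro S hS
      obtain ⟨hST, hSU⟩ := Finset.mem_filter.mp hS
      obtain ⟨hSpl, hSne, hS2⟩ := hT S hST
      have hle : S ≤ W ⊔ P0 := by rw [← hSU]; exact le_sup_left
      rw [Finset.mem_insert, Finset.mem_singleton]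
      rcases hthree S hSpl.iso hle with h | h | h
      · left; exact Submodule.eq_of_le_of_finrank_eq h (by rw [hSpl.rank, hWpl.rank])
      · exfalso; exact hSne (Submodule.eq_of_le_of_finrank_eq h (by rw [hSpl.rank, finrank_P0]))
      · right
        exact Submodule.eq_of_le_of_finrank_eq h (by rw [hSpl.rank, hW3.rank])
    exact (Finset.card_le_card hsub).trans Finset.card_le_two
  have h2 : (T.image fun W => W ⊔ P0).card ≤ 13 := by
    set S := T.image fun W => W ⊔ P0 with hS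
    have hex : ∀ i : Fin S.card, ∃ W ∈ T, W ⊔ P0 = (S.equivFin.symm i : Submodule ℂ (I6 → ℂ)) := by
      intro i
      obtain ⟨W, hW, hWe⟩ := Finset.mem_image.mp (S.equivFin.symm i).2
      exact ⟨W, hW, hWe⟩
    choose W hWT hWe using hex
    have hpt : ∀ i, ∃ b, b ≠ 0 ∧ W i ⊔ P0 = P0 ⊔ ℂ ∙ iZ ℂ b ∧ c.C2 b := fun i =>
      exists_point hP (hT _ (hWT i)).1 (hT _ (hWT i)).2.1 (hT _ (hWT i)).2.2
    choose b hb0 hbU hbC using hpt
    refine thirteen hP b hb0 ?_ hbC
    intro i j hij hmem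
    obtain ⟨a, ha⟩ := Submodule.mem_span_singleton.mp hmem
    have hle : P0 ⊔ ℂ ∙ iZ ℂ (b i) ≤ P0 ⊔ ℂ ∙ iZ ℂ (b j) := by
      refine sup_le le_sup_left ?_
      rw [Submodule.span_singleton_le_iff_mem, ← ha, map_smul]
      exact Submodule.smul_mem _ _
        (Submodule.mem_sup_right (Submodule.mem_span_singleton_self _))
    have heq := Submodule.eq_of_le_of_finrank_eq hle
      (by rw [finrank_U (hb0 i), finrank_U (hb0 j)])
    rw [← hbU, ← hbU, hWe, hWe] at heq
    exact hij (S.equivFin.symm.injective (Subtype.ext heq))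
  omega

end Cub

end Pool.Agent.Helper16
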