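import Mathlib
import Pool.Agent.Helper16.CubicA
import Pool.Agent.Helper16.CubicB

set_option autoImplicit false

namespace Pool.Agent.Helper16

open Module Submodule

variable {V V' : Type*} [AddCommGroup V] [Module ℂ V] [AddCommGroup V'] [Module ℂ V']

namespace Cub

/-- pull back along a linear equivalence -/
def comap (c : Cub V) (e : V' ≃ₗ[ℂ] V) : Cub V' where
  T := (c.T.compl₁₂ (e : V' →ₗ[ℂ] V) (e : V' →ₗ[ℂ] V)).compr₂ (LinearMap.lcomp ℂ ℂ (e : V' →ₗ[ℂ] V))
  s12 x y z := by
    simp only [LinearMap.compr₂_apply, LinearMap.compl₁₂_apply, LinearMap.lcomp_apply,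
      LinearEquiv.coe_coe]
    exact c.s12 _ _ _
  s23 x y z := by
    simp only [LinearMap.compr₂_apply, LinearMap.compl₁₂_apply, LinearMap.lcomp_apply,
      LinearEquiv.coe_coe]
    exact c.s23 _ _ _
  ns x hx := by
    obtain ⟨y, hy⟩ := c.ns (e x) (by simpa using hx)
    refine ⟨e.symm y, ?_⟩
    simp only [LinearMap.compr₂_apply, LinearMap.compl₁₂_apply, LinearMap.lcomp_apply,
      LinearEquiv.coe_coe, LinearEquiv.apply_symm_apply]
    exact hy

theorem comap_apply (c : Cub V) (e : V' ≃ₗ[ℂ] V) (x y z : V') :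
    (c.comap e).T x y z = c.T (e x) (e y) (e z) := rfl

theorem iso_comap (c : Cub V) (e : V' ≃ₗ[ℂ] V) (W : Submodule ℂ V) :
    (c.comap e).Iso (W.comap (e : V' →ₗ[ℂ] V)) ↔ c.Iso W := by
  constructor
  · intro h x hx
    have := h (e.symm x) (by simpa using hx)
    rw [comap_apply] at this
    simpa using this
  · intro h x hx
    rw [comap_apply]
    exact h _ hx

theorem finrank_comap (e : V' ≃ₗ[ℂ] V) (W : Submodule ℂ V) :
    finrank ℂ (W.comap (e : V' →ₗ[ℂ] V)) = finrank ℂ W := by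
  rw [← LinearEquiv.finrank_map_eq e (W.comap (e : V' →ₗ[ℂ] V)),
    Submodule.map_comap_eq_of_surjective e.surjective]

theorem pl_comap (c : Cub V) (e : V' ≃ₗ[ℂ] V) (W : Submodule ℂ V) :
    (c.comap e).Pl (W.comap (e : V' →ₗ[ℂ] V)) ↔ c.Pl W := by
  constructor
  · intro h
    exact ⟨by rw [← h.rank, finrank_comap], (iso_comap c e W).mp h.iso⟩
  · intro h
    exact ⟨by rw [← h.rank, finrank_comap], (iso_comap c e W).mpr h.iso⟩

theorem comap_inj (e : V' ≃ₗ[ℂ] V) :
    Function.Injective (fun W : Submodule ℂ V => W.comap (e : V' →ₗ[ℂ] V)) :=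
  Submodule.comap_injective_of_surjective e.surjective

/-- adapted basis -/
theorem exists_basis [FiniteDimensional ℂ V] {A B : Submodule ℂ V} (hAB : IsCompl A B)
    (hA : finrank ℂ A = 3) (hB : finrank ℂ B = 3) :
    ∃ w : Basis I6 ℂ V, (∀ i, w (.inl i) ∈ A) ∧ (∀ i, w (.inr i) ∈ B) := by
  let bA : Basis (Fin 3) ℂ A := finBasisOfFinrankEq ℂ A hA
  let bB : Basis (Fin 3) ℂ B := finBasisOfFinrankEq ℂ B hB
  refine ⟨(bA.prod bB).map (Submodule.prodEquivOfIsCompl A B hAB), fun i => ?_, fun i => ?_⟩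
  · simp
  · simp

theorem exists_equiv [FiniteDimensional ℂ V] (hV : finrank ℂ V = 6) {A : Submodule ℂ V}
    (hA : finrank ℂ A = 3) :
    ∃ e : (I6 → ℂ) ≃ₗ[ℂ] V, A.comap (e : (I6 → ℂ) →ₗ[ℂ] V) = P0 := by
  obtain ⟨B, hAB⟩ := Submodule.exists_isCompl A
  have hB : finrank ℂ B = 3 := by
    have := Submodule.finrank_add_eq_of_isCompl hAB
    omega
  obtain ⟨w, hwA, hwB⟩ := exists_basis hAB hA hB
  refine ⟨w.equivFun.symm, ?_⟩
  symm
  apply Submodule.eq_of_le_of_finrank_eq
  · intro x hx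
    rw [Submodule.mem_comap, LinearEquiv.coe_coe, Basis.equivFun_symm_apply, Fintype.sum_sum_type]
    apply Submodule.add_mem
    · exact Submodule.sum_mem _ fun i _ => Submodule.smul_mem _ _ (hwA i)
    · have h0 := mem_P0.mp hx
      rw [Finset.sum_eq_zero]
      · exact Submodule.zero_mem _
      · intro i _
        have : x (.inr i) = 0 := congrFun h0 i
        rw [this, zero_smul]
  · rw [finrank_comap, hA, finrank_P0]

end Cub

variable {c : Cub V} [FiniteDimensional ℂ V]

/-- case A for an arbitrary cubic -/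
theorem Cub.caseA' (hV : finrank ℂ V = 6) (hno : ∀ A B, c.Pl A → c.Pl B → A ≠ B →
      finrank ℂ (A ⊓ B : Submodule ℂ V) ≠ 2)
    (hmeet : ∀ A B, c.Pl A → c.Pl B → A ⊓ B ≠ ⊥) (T : Finset (Submodule ℂ V))
    (hT : ∀ W ∈ T, c.Pl W) : T.card ≤ 26 := by
  classical
  rcases T.eq_empty_or_nonempty with rfl | ⟨A, hAT⟩
  · simp
  have hA := hT A hAT
  obtain ⟨e, he⟩ := Cub.exists_equiv hV hA.rank
  have h1 : (T.erase A).card ≤ 25 := by
    set S := T.erase A with hS
    have hSm : ∀ i : Fin S.card, (S.equivFin.symm i : Submodule ℂ V) ∈ T ∧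
        (S.equivFin.symm i : Submodule ℂ V) ≠ A := fun i =>
      ⟨Finset.mem_of_mem_erase (S.equivFin.symm i).2, Finset.ne_of_mem_erase (S.equivFin.symm i).2⟩
    refine Cub.caseA (c := c.comap e) ?_ ?_
      (fun i => (S.equivFin.symm i : Submodule ℂ V).comap (e : (I6 → ℂ) →ₗ[ℂ] V)) ?_ ?_ ?_ ?_ ?_
    · rw [← he, Cub.iso_comap]; exact hA.iso
    · intro B D hB hD hBD
      have hB' : c.Pl (B.map (e : (I6 → ℂ) →ₗ[ℂ] V)) := by
        rw [← Cub.pl_comap c e, Submodule.comap_map_eq_of_injective e.injective]; exact hB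
      have hD' : c.Pl (D.map (e : (I6 → ℂ) →ₗ[ℂ] V)) := by
        rw [← Cub.pl_comap c e, Submodule.comap_map_eq_of_injective e.injective]; exact hD
      have := hno _ _ hB' hD' (fun h => hBD (Submodule.map_injective_of_injective e.injective h))
      rwa [← Submodule.map_inf _ e.injective, LinearEquiv.finrank_map_eq e] at this
    · intro i
      exact (Cub.pl_comap c e _).mpr (hT _ (hSm i).1)
    · intro i h
      rw [← he] at h
      exact (hSm i).2 (Cub.comap_inj e h)
    · intro i j hij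
      exact S.equivFin.symm.injective (Subtype.ext (Cub.comap_inj e hij))
    · intro i h
      rw [← he, ← Submodule.comap_inf] at h
      apply hmeet _ _ (hT _ (hSm i).1) hA
      apply Cub.comap_inj e
      simp only [h]
      symm
      rw [Submodule.comap_bot]
      exact LinearMap.ker_eq_bot.mpr e.injective
    · intro i j h
      rw [← Submodule.comap_inf] at h
      apply hmeet _ _ (hT _ (hSm i).1) (hT _ (hSm j).1)
      apply Cub.comap_inj e
      simp only [h]
      symm
      rw [Submodule.comap_bot]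
      exact LinearMap.ker_eq_bot.mpr e.injective
  have h2 := Finset.card_erase_add_one hAT
  omega

/-- at most 26 planes collinear with a given one, for an arbitrary cubic -/
theorem Cub.star_card' (hV : finrank ℂ V = 6) {A : Submodule ℂ V} (hA : c.Pl A)
    (T : Finset (Submodule ℂ V))
    (hT : ∀ W ∈ T, c.Pl W ∧ W ≠ A ∧ finrank ℂ (W ⊓ A : Submodule ℂ V) = 2) : T.card ≤ 26 := by
  classical
  obtain ⟨e, he⟩ := Cub.exists_equiv hV hA.rank
  have h1 := Cub.star_card (c := c.comap e) (by rw [← he, Cub.iso_comap]; exact hA.iso)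
    (T.image fun W => W.comap (e : (I6 → ℂ) →ₗ[ℂ] V)) (by
      intro W hW
      obtain ⟨W', hW', rfl⟩ := Finset.mem_image.mp hW
      obtain ⟨h1, h2, h3⟩ := hT W' hW'
      refine ⟨(Cub.pl_comap c e _).mpr h1, ?_, ?_⟩
      · intro h
        rw [← he] at h
        exact h2 (Cub.comap_inj e h)
      · rw [← he, ← Submodule.comap_inf, Cub.finrank_comap, h3])
  rwa [Finset.card_image_of_injective _ (Cub.comap_inj e)] at h1

end Pool.Agent.Helper16
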