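import Mathlib
import Pool.Agent.Helper16.CubicTransfer
import Pool.Agent.Helper16.CubicComb

set_option autoImplicit false

namespace Pool.Agent.Helper16

open Module Submodule

variable {V : Type*} [AddCommGroup V] [Module ℂ V] {c : Cub V} [FiniteDimensional ℂ V]

/-- collinearity of planes -/
def Cub.adj (c : Cub V) (a b : {W : Submodule ℂ V // c.Pl W}) : Prop :=
  (a : Submodule ℂ V) ≠ b ∧ finrank ℂ ((a : Submodule ℂ V) ⊓ b : Submodule ℂ V) = 2

theorem Cub.quad3 (hV : finrank ℂ V = 6) (hmeet : ∀ A B, c.Pl A → c.Pl B → A ⊓ B ≠ ⊥) :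
    Quad3 c.adj where
  symm := by
    rintro a b ⟨h1, h2⟩
    exact ⟨h1.symm, by rw [inf_comm]; exact h2⟩
  irr := by
    rintro a ⟨h1, _⟩
    exact h1 rfl
  third := by
    rintro ⟨p, hp⟩ ⟨q, hq⟩ ⟨hne, h2⟩
    simp only at hne h2
    obtain ⟨r, hr, hrp, hrq, hle, hpr, hqr, hthree⟩ := Cub.third hV hp hq hne h2
    refine ⟨⟨r, hr⟩, ⟨hrp, by rw [inf_comm]; exact hpr⟩, ⟨hrq, by rw [inf_comm]; exact hqr⟩, ?_, ?_⟩
    · rintro ⟨s, hs⟩ ⟨hsp, hsp2⟩ ⟨hsq, hsq2⟩
      simp only at hsp hsp2 hsq hsq2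
      by_contra hsr
      have hsr' : s ≠ r := fun h => hsr (Subtype.ext h)
      exact (Cub.exactly_one hV hp hq hr hs h2 hpr hqr hle hthree hsp hsq hsr'
        (hmeet _ _ hs hp) (hmeet _ _ hs hq) (hmeet _ _ hs hr)).2.1 ⟨hsp2, hsq2⟩
    · rintro ⟨s, hs⟩ hsp hsq nsp nsq
      have hsp' : s ≠ p := fun h => hsp (Subtype.ext h)
      have hsq' : s ≠ q := fun h => hsq (Subtype.ext h)
      have hsr' : s ≠ r := by
        rintro rfl
        exact nsp ⟨hsp', by rw [inf_comm]; exact hpr⟩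
      rcases (Cub.exactly_one hV hp hq hr hs h2 hpr hqr hle hthree hsp' hsq' hsr'
        (hmeet _ _ hs hp) (hmeet _ _ hs hq) (hmeet _ _ hs hr)).1 with h | h | h
      · exact absurd ⟨hsp', h⟩ nsp
      · exact absurd ⟨hsq', h⟩ nsq
      · exact ⟨hsr', h⟩

theorem exists_finset_of_le {α : Type*} {S : Set α} {n : ℕ} (h : (n : ℕ∞) ≤ S.encard) :
    ∃ T : Finset α, (∀ x ∈ T, x ∈ S) ∧ T.card = n := by
  obtain ⟨t, ht, htn⟩ := Set.exists_subset_encard_eq h
  have hfin : t.Finite := Set.finite_of_encard_eq_coe htn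
  refine ⟨hfin.toFinset, fun x hx => ht (hfin.mem_toFinset.mp hx), ?_⟩
  have h := hfin.encard_eq_coe_toFinset_card
  rw [htn] at h
  exact_mod_cast h.symm

/-- a smooth cubic fourfold without a pair of disjoint planes has at most 27 planes -/
theorem Cub.planes_le (hV : finrank ℂ V = 6) (hmeet : ∀ A B, c.Pl A → c.Pl B → A ⊓ B ≠ ⊥) :
    {W : Submodule ℂ V | c.Pl W}.encard ≤ 27 := by
  classical
  by_contra hlt
  push Not at hlt
  have h28 : ((28 : ℕ) : ℕ∞) ≤ {W : Submodule ℂ V | c.Pl W}.encard := by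
    have := Order.add_one_le_of_lt hlt
    refine le_trans ?_ this
    norm_num
  obtain ⟨T, hT, hT28⟩ := exists_finset_of_le h28
  by_cases hno : ∀ A B, c.Pl A → c.Pl B → A ≠ B → finrank ℂ (A ⊓ B : Submodule ℂ V) ≠ 2
  · have := Cub.caseA' hV hno hmeet T hT
    omega
  push Not at hno
  obtain ⟨A, B, hA, hB, hAB, h2⟩ := hno
  have hadj : c.adj ⟨A, hA⟩ ⟨B, hB⟩ := ⟨hAB, h2⟩
  by_cases hc : ∀ x : {W : Submodule ℂ V // c.Pl W}, x = ⟨A, hA⟩ ∨ c.adj x ⟨A, hA⟩ →
      ∃ y, y ≠ x ∧ ¬ c.adj x y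
  · have h := (Cub.quad3 hV hmeet).card_le hadj hc
    rw [← Subtype.val_injective.encard_image, Set.image_univ, Subtype.range_coe_subtype] at h
    exact absurd (lt_of_lt_of_le hlt h) (lt_irrefl _)
  · push Not at hc
    obtain ⟨x, _, hx⟩ := hc
    have h1 := Cub.star_card' hV x.2 (T.erase x) (by
      intro W hW
      have hWT := hT W (Finset.mem_of_mem_erase hW)
      have hWx := Finset.ne_of_mem_erase hW
      obtain ⟨h3, h4⟩ := hx ⟨W, hWT⟩ (fun h => hWx (congrArg Subtype.val h))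
      exact ⟨hWT, hWx, by rw [inf_comm]; exact h4⟩)
    have h2 := Finset.pred_card_le_card_erase (s := T) (a := (x : Submodule ℂ V))
    omega

/-- 28 planes force two disjoint ones -/
theorem Cub.exists_disjoint (hV : finrank ℂ V = 6)
    (h28 : 28 ≤ {W : Submodule ℂ V | c.Pl W}.encard) :
    ∃ A B, c.Pl A ∧ c.Pl B ∧ A ⊓ B = ⊥ := by
  by_contra hcon
  push Not at hcon
  have h := Cub.planes_le hV hcon
  have h3 := le_trans h28 h
  norm_num at h3

end Pool.Agent.Helper16
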