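import Mathlib
import Pool.Agent.Helper16.CubicSing

set_option autoImplicit false
set_option linter.unusedVariables false
set_option linter.unusedSectionVars false

namespace Pool.Agent.Helper16

open MvPolynomial Module

section mat

variable {n : ℕ}

theorem adj_mulVec_aux' {S : Type*} [CommRing S] (M : Matrix (Fin (n + 1)) (Fin (n + 1)) S)
    (v : Fin (n + 1) → S) (i : Fin (n + 1)) :
    ∑ j, M.adjugate i j * M.mulVec v j = M.det * v i := by
  have h1 : M.adjugate.mulVec (M.mulVec v) = M.det • v := by
    rw [Matrix.mulVec_mulVec, Matrix.adjugate_mul, Matrix.smul_mulVec, Matrix.one_mulVec]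
  exact congrFun h1 i

theorem eval_adj' (M : Matrix (Fin (n + 1)) (Fin (n + 1)) R3) (b : Fin 3 → ℂ)
    (i j : Fin (n + 1)) :
    eval b (M.adjugate i j) = (M.map (eval b)).adjugate i j := by
  have h1 := RingHom.map_adjugate (eval b : R3 →+* ℂ) M
  rw [RingHom.mapMatrix_apply, RingHom.mapMatrix_apply] at h1
  rw [← h1, Matrix.map_apply]

theorem eval_mulVec (M : Matrix (Fin (n + 1)) (Fin (n + 1)) R3) (b : Fin 3 → ℂ)
    (v : Fin (n + 1) → ℂ) (j : Fin (n + 1)) :
    eval b (M.mulVec (fun i => C (v i)) j) = (M.map (eval b)).mulVec v j := by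
  simp [Matrix.mulVec, dotProduct, map_sum]

theorem eval_det' (M : Matrix (Fin (n + 1)) (Fin (n + 1)) R3) (b : Fin 3 → ℂ) :
    eval b M.det = (M.map (eval b)).det := by
  rw [RingHom.map_det, RingHom.mapMatrix_apply]

/-- singular points of the determinant of a symmetric matrix of polynomials -/
theorem symsing (M : Matrix (Fin (n + 1)) (Fin (n + 1)) R3) (hM : M.transpose = M)
    (b : Fin 3 → ℂ) (h0 : eval b M.det = 0) (hd : ∀ k, eval b (pderiv k M.det) = 0)
    (hno : ∀ v v', LinearIndependent ℂ ![v, v'] → (M.map (eval b)).mulVec v = 0 →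
      (M.map (eval b)).mulVec v' = 0 → False) :
    ∃ v, v ≠ 0 ∧ (M.map (eval b)).mulVec v = 0 ∧
      ∀ k, ∑ i, v i * ∑ j, v j * eval b (pderiv k (M i j)) = 0 := by
  rw [eval_det'] at h0
  set Mb := M.map (eval b) with hMb
  have hMbs : ∀ i j, Mb i j = Mb j i := by
    intro i j
    have := congrFun (congrFun hM i) j
    rw [Matrix.transpose_apply] at this
    rw [hMb, Matrix.map_apply, Matrix.map_apply, this]
  obtain ⟨v, hv0, hv⟩ := Matrix.exists_mulVec_eq_zero_iff.mpr h0
  have hmult : ∀ u, Mb.mulVec u = 0 → ∃ a : ℂ, u = a • v := by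
    intro u hu
    by_contra h
    refine hno v u ?_ hv hu
    rw [LinearIndependent.pair_iff' hv0]
    intro a ha; exact h ⟨a, ha.symm⟩
  obtain ⟨i, hi⟩ := Function.ne_iff.mp hv0
  have hi : v i ≠ 0 := hi
  set A := Mb.adjugate with hA
  have hAii : A i i ≠ 0 := by
    rw [hA, Matrix.adjugate_fin_succ_eq_det_submatrix]
    intro h
    have hdet : (Mb.submatrix i.succAbove i.succAbove).det = 0 := by
      rcases mul_eq_zero.mp h with h | h
      · exact absurd h (pow_ne_zero _ (by norm_num))
      · exact h
    obtain ⟨w, hw0, hw⟩ := Matrix.exists_mulVec_eq_zero_iff.mpr hdet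
    set w' : Fin (n + 1) → ℂ := i.insertNth 0 w with hw'
    have h1 : ∀ j, Mb.mulVec w' (i.succAbove j) = 0 := by
      intro j
      have h2 := congrFun hw j
      simp only [Matrix.mulVec, dotProduct, Matrix.submatrix_apply, Pi.zero_apply] at h2 ⊢
      rw [Fin.sum_univ_succAbove _ i]
      simp only [hw', Fin.insertNth_apply_same, Fin.insertNth_apply_succAbove, mul_zero, zero_add]
      exact h2
    have h3 : v ⬝ᵥ Mb.mulVec w' = 0 := by
      rw [Matrix.dotProduct_mulVec]
      have h4 : Matrix.vecMul v Mb = Mb.mulVec v := by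
        funext m
        simp only [Matrix.vecMul, Matrix.mulVec, dotProduct]
        refine Finset.sum_congr rfl fun j _ => ?_
        rw [hMbs m j, mul_comm]
      rw [h4, hv, zero_dotProduct]
    have h4 : Mb.mulVec w' i = 0 := by
      rw [dotProduct, Fin.sum_univ_succAbove _ i] at h3
      simp only [h1, mul_zero, Finset.sum_const_zero, add_zero] at h3
      exact (mul_eq_zero.mp h3).resolve_left hi
    have h5 : Mb.mulVec w' = 0 := by
      funext m
      refine Fin.succAboveCases i ?_ ?_ m
      · exact h4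
      · exact h1
    obtain ⟨a, ha⟩ := hmult w' h5
    have h6 : a = 0 := by
      have := congrFun ha i
      simp only [hw', Fin.insertNth_apply_same, Pi.smul_apply, smul_eq_mul] at this
      exact (mul_eq_zero.mp this.symm).resolve_right hi
    apply hw0
    funext j
    have := congrFun ha (i.succAbove j)
    simpa [hw', h6] using this
  have hArow : Mb.mulVec (fun j => A i j) = 0 := by
    funext m
    have h1 : (A * Mb) i m = 0 := by
      rw [hA, Matrix.adjugate_mul, h0, zero_smul]; rfl
    rw [Matrix.mul_apply] at h1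
    simp only [Matrix.mulVec, dotProduct, Pi.zero_apply]
    rw [← h1]
    refine Finset.sum_congr rfl fun j _ => ?_
    rw [hMbs m j, mul_comm]
  obtain ⟨κ, hκ⟩ := hmult _ hArow
  have hκ' : ∀ j, A i j = κ * v j := fun j => congrFun hκ j
  have hκ0 : κ ≠ 0 := by
    rintro rfl
    apply hAii; rw [hκ' i, zero_mul]
  refine ⟨v, hv0, hv, fun k => ?_⟩
  set vR : Fin (n + 1) → R3 := fun i => C (v i) with hvR
  have hwj : ∀ j, eval b (M.mulVec vR j) = 0 := by
    intro j
    rw [hvR, eval_mulVec, ← hMb, hv]; rfl
  have hid := adj_mulVec_aux' M vR i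
  have hadj : ∀ j, eval b (M.adjugate i j) = A i j := fun j => eval_adj' M b i j
  have hder := congrArg (fun p => eval b (pderiv k p)) hid
  simp only [map_sum, Derivation.leibniz, smul_eq_mul, map_add, map_mul, hvR, pderiv_C, mul_zero,
    zero_add, hd, hadj, hκ'] at hder
  have hwj' : ∀ j, eval b (M.mulVec (fun i => C (v i)) j) = 0 := hwj
  simp only [hwj', zero_mul, add_zero] at hder
  have h8 : κ * ∑ j, v j * eval b (pderiv k (M.mulVec (fun i => C (v i)) j)) = 0 := by
    rw [Finset.mul_sum]
    rw [← hder]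
    refine Finset.sum_congr rfl fun j _ => ?_
    ring
  have h9 := (mul_eq_zero.mp h8).resolve_left hκ0
  rw [← h9]
  refine Finset.sum_congr rfl fun j _ => ?_
  congr 1
  simp only [Matrix.mulVec, dotProduct, map_sum, Derivation.leibniz, pderiv_C, smul_eq_mul,
    mul_zero, zero_add, map_mul, eval_C]

/-- all cofactors vanish when the kernel has dimension at least two -/
theorem adj_zero (M : Matrix (Fin (n + 1)) (Fin (n + 1)) ℂ) {v v' : Fin (n + 1) → ℂ}
    (hli : LinearIndependent ℂ ![v, v']) (hv : M.mulVec v = 0) (hv' : M.mulVec v' = 0)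
    (i j : Fin (n + 1)) : M.adjugate i j = 0 := by
  rw [Matrix.adjugate_fin_succ_eq_det_submatrix]
  -- a kernel vector with vanishing `i`-th coordinate
  obtain ⟨u, hu0, hui, hu⟩ : ∃ u : Fin (n + 1) → ℂ, u ≠ 0 ∧ u i = 0 ∧ M.mulVec u = 0 := by
    by_cases h : v i = 0
    · exact ⟨v, hli.ne_zero 0, h, hv⟩
    · refine ⟨v' i • v - v i • v', ?_, by simp [mul_comm], ?_⟩
      · intro h0
        rw [LinearIndependent.pair_iff] at hli
        have := hli (v' i) (-v i) (by rw [neg_smul, ← sub_eq_add_neg]; exact h0)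
        exact h (neg_eq_zero.mp this.2)
      · rw [Matrix.mulVec_sub, Matrix.mulVec_smul, Matrix.mulVec_smul, hv, hv']; simp
  have hdet : (M.submatrix j.succAbove i.succAbove).det = 0 := by
    rw [← Matrix.exists_mulVec_eq_zero_iff]
    refine ⟨fun a => u (i.succAbove a), ?_, ?_⟩
    · intro h0
      apply hu0
      funext m
      refine Fin.succAboveCases i ?_ ?_ m
      · exact hui
      · intro a; exact congrFun h0 a
    · funext a
      have h1 := congrFun hu (j.succAbove a)
      simp only [Matrix.mulVec, dotProduct, Matrix.submatrix_apply, Pi.zero_apply] at h1 ⊢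
      rw [Fin.sum_univ_succAbove _ i, hui, mul_zero, zero_add] at h1
      exact h1
  rw [hdet, mul_zero]

/-- the differential of the determinant vanishes when the kernel has dimension at least two -/
theorem dif_zero (M : Matrix (Fin (n + 1)) (Fin (n + 1)) R3) (b : Fin 3 → ℂ)
    {v v' : Fin (n + 1) → ℂ} (hli : LinearIndependent ℂ ![v, v'])
    (hv : (M.map (eval b)).mulVec v = 0) (hv' : (M.map (eval b)).mulVec v' = 0) (k : Fin 3) :
    eval b (pderiv k M.det) = 0 := by
  obtain ⟨i, hi⟩ := Function.ne_iff.mp (hli.ne_zero 0)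
  have hi : v i ≠ 0 := hi
  have hadj : ∀ j, eval b (M.adjugate i j) = 0 := fun j => by
    rw [eval_adj']; exact adj_zero _ hli hv hv' i j
  have hwj : ∀ j, eval b (M.mulVec (fun i => C (v i)) j) = 0 := by
    intro j
    rw [eval_mulVec, hv]; rfl
  have hder := congrArg (fun p => eval b (pderiv k p)) (adj_mulVec_aux' M (fun i => C (v i)) i)
  simp only [map_sum, Derivation.leibniz, smul_eq_mul, map_add, map_mul, pderiv_C, mul_zero,
    zero_add, hadj, hwj, zero_mul, add_zero, eval_C, Finset.sum_const_zero] at hder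
  exact (mul_eq_zero.mp hder.symm).resolve_left hi

end mat

end Pool.Agent.Helper16
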