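import Mathlib
import Pool.Agent.Helper16.CubicA2
import Pool.Agent.Helper16.CubicB2

set_option autoImplicit false
set_option linter.unusedVariables false
set_option linter.unusedSectionVars false

namespace Pool.Agent.Helper16

open MvPolynomial Module

theorem single_sum3 {S : Type*} [CommRing S] (v : Fin 3 → S) :
    v = ∑ m, v m • (Pi.single m 1 : Fin 3 → S) := by
  funext i
  simp only [Finset.sum_apply, Pi.smul_apply, smul_eq_mul, Pi.single_apply]
  simp

namespace Cub

variable (c : Cub (I6 → ℂ)) {S : Type*} [CommRing S] [Algebra ℂ S]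

/-- matrix of the conic -/
noncomputable def Lm (z : Fin 3 → S) : Matrix (Fin 3) (Fin 3) S :=
  Matrix.of fun a b => c.ext S (iY S (Pi.single a 1)) (iY S (Pi.single b 1)) (iZ S z)

theorem Lm_apply (z : Fin 3 → S) (a b : Fin 3) :
    c.Lm z a b = c.ext S (iY S (Pi.single a 1)) (iY S (Pi.single b 1)) (iZ S z) := rfl

theorem Lm_single (z : Fin 3 → S) (a : Fin 3) (v : Fin 3 → S) :
    c.ext S (iY S (Pi.single a 1)) (iY S v) (iZ S z) = (c.Lm z).mulVec v a := by
  conv_lhs => rw [single_sum3 v]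
  rw [map_sum, map_sum, LinearMap.sum_apply, Matrix.mulVec, dotProduct]
  refine Finset.sum_congr rfl fun j _ => ?_
  rw [map_smul, map_smul, LinearMap.smul_apply, smul_eq_mul, mul_comm]; rfl

theorem Lm_dot (z : Fin 3 → S) (u v : Fin 3 → S) :
    c.ext S (iY S u) (iY S v) (iZ S z) = ∑ a, u a * (c.Lm z).mulVec v a := by
  conv_lhs => rw [single_sum3 u]
  rw [map_sum, map_sum, LinearMap.sum_apply, LinearMap.sum_apply]
  refine Finset.sum_congr rfl fun j _ => ?_
  rw [map_smul, map_smul, LinearMap.smul_apply, LinearMap.smul_apply, smul_eq_mul, Lm_single]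

theorem Lm_symm (z : Fin 3 → S) : (c.Lm z).transpose = c.Lm z := by
  ext i j
  rw [Matrix.transpose_apply, Lm_apply, Lm_apply, ext12]

theorem Lm_eval (b : Fin 3 → ℂ) : (c.Lm (X : Fin 3 → R3)).map (eval b) = c.Lm b := by
  ext i j
  rw [Matrix.map_apply, Lm_apply, Lm_apply, ← aeval_eq_eval, map_ext]
  have e1 : ∀ a : Fin 3, (fun i => aeval b (iY R3 (Pi.single a 1) i)) = iY ℂ (Pi.single a 1) := by
    intro a; funext i; rcases i with i | i
    · by_cases h : i = a
      · subst h; simp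
      · simp [h]
    · simp
  have e2 : (fun i => aeval b (iZ R3 (X : Fin 3 → R3) i)) = iZ ℂ b := by
    funext i; rcases i with i | i <;> simp
  rw [e1, e1, e2]

/-- the discriminant of the net of conics -/
noncomputable def dis3 : R3 := (c.Lm (X : Fin 3 → R3)).det

theorem Nm_eval (b : Fin 3 → ℂ) : (c.Nm (X : Fin 3 → R3)).map (eval b) = c.Nm b := by
  ext i j
  rw [Matrix.map_apply, Nm_apply, Nm_apply]
  have e1 : ∀ j : Fin 4, (Pi.single j 1 : Fin 4 → R3) = fun m => C ((Pi.single j 1 : Fin 4 → ℂ) m) := by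
    intro j; funext m
    by_cases h : m = j
    · subst h; simp
    · simp [h]
  rw [e1, e1, c.eval_nf]

variable {c}

theorem mulVec_Lm_zero {b : Fin 3 → ℂ} {v : Fin 3 → ℂ} :
    (c.Lm b).mulVec v = 0 ↔ ∀ y, c.T (iY ℂ v) (iY ℂ y) (iZ ℂ b) = 0 := by
  constructor
  · intro h y
    have h1 := c.Lm_dot b y v
    rw [h] at h1
    simp only [Pi.zero_apply, mul_zero, Finset.sum_const_zero] at h1
    rw [ext_complex] at h1
    rw [c.s12]; exact h1
  · intro h
    funext a
    rw [← Lm_single, ext_complex, c.s12]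
    exact h _

/-- singular points of the discriminant cubic -/
theorem dis3_sing (hP : c.Iso P0) {b : Fin 3 → ℂ} (h0 : eval b c.dis3 = 0)
    (hd : ∀ k, eval b (pderiv k c.dis3) = 0) :
    ∃ v v', LinearIndependent ℂ ![v, v'] ∧ (∀ y, c.T (iY ℂ v) (iY ℂ y) (iZ ℂ b) = 0) ∧
      ∀ y, c.T (iY ℂ v') (iY ℂ y) (iZ ℂ b) = 0 := by
  by_contra hcon
  obtain ⟨v, hv0, hv, hk⟩ := symsing (c.Lm (X : Fin 3 → R3)) (c.Lm_symm _) b h0 hd (by
    intro v v' hli hv hv'
    rw [Lm_eval] at hv hv'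
    exact hcon ⟨v, v', hli, mulVec_Lm_zero.mp hv, mulVec_Lm_zero.mp hv'⟩)
  apply hv0
  apply iY_inj
  by_contra hne
  obtain ⟨x, hx⟩ := c.ns _ hne
  apply hx
  rw [decomp x, map_add, hP.two (iY_mem _) (iY_mem _), zero_add]
  conv_lhs => rw [single_sum3 (pZ ℂ x)]
  rw [map_sum, map_sum]
  refine Finset.sum_eq_zero fun k _ => ?_
  rw [map_smul, map_smul]
  have e : c.T (iY ℂ v) (iY ℂ v) (iZ ℂ (Pi.single k 1)) = 0 := by
    rw [← hk k, ← ext_complex, Lm_dot]
    refine Finset.sum_congr rfl fun i _ => ?_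
    congr 1
    rw [Matrix.mulVec, dotProduct]
    refine Finset.sum_congr rfl fun j _ => ?_
    rw [mul_comm]
    congr 1
    rw [Lm_apply, Lm_apply, pderiv_ext, ext_complex]
    have e1 : ∀ a : Fin 3, (fun i => pderiv k (iY R3 (Pi.single a 1) i)) = 0 := by
      intro a; funext i; rcases i with i | i
      · by_cases h : i = a
        · subst h; simp
        · simp [h]
      · simp
    have e2 : (fun i => pderiv k (iZ R3 (X : Fin 3 → R3) i)) = iZ R3 (Pi.single k 1) := by
      funext i; rcases i with i | i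
      · simp
      · simp [pderiv_X, Pi.single_apply, eq_comm]
    simp only [e1, e2, map_zero, LinearMap.zero_apply, zero_add]
    rw [← aeval_eq_eval, map_ext]
    have e3 : ∀ a : Fin 3, (fun i => aeval b (iY R3 (Pi.single a 1) i)) = iY ℂ (Pi.single a 1) := by
      intro a; funext i; rcases i with i | i
      · by_cases h : i = a
        · subst h; simp
        · simp [h]
      · simp
    have e4 : (fun i => aeval b (iZ R3 (Pi.single k 1) i)) = iZ ℂ (Pi.single k 1) := by
      funext i; rcases i with i | i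
      · simp
      · by_cases h : i = k
        · subst h; simp
        · simp [h]
    rw [e3, e3, e4, ext_complex]
  rw [e, smul_zero]

/-- conics of rank one are squares -/
theorem rank1_form (hP : c.Iso P0) {b : Fin 3 → ℂ} (hb : b ≠ 0) {v v' : Fin 3 → ℂ}
    (hli : LinearIndependent ℂ ![v, v']) (hv : ∀ y, c.T (iY ℂ v) (iY ℂ y) (iZ ℂ b) = 0)
    (hv' : ∀ y, c.T (iY ℂ v') (iY ℂ y) (iZ ℂ b) = 0) :
    ∃ (μ : (Fin 3 → ℂ) →ₗ[ℂ] ℂ) (r : ℂ), μ ≠ 0 ∧ r ≠ 0 ∧
      ∀ y y', c.T (iY ℂ y) (iY ℂ y') (iZ ℂ b) = r * (μ y * μ y') := by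
  obtain ⟨f, hf⟩ := exists_d3_ne hli
  have hLI : LinearIndependent ℂ ![v, v', f] := by
    apply indep3
    intro a a' e he
    have he0 : e * d3 v v' f = 0 := by
      have h0 := congrFun he 0
      have h1 := congrFun he 1
      have h2 := congrFun he 2
      simp only [Pi.add_apply, Pi.smul_apply, smul_eq_mul, Pi.zero_apply] at h0 h1 h2
      simp only [d3]
      linear_combination (v 1 * v' 2 - v 2 * v' 1) * h0 + (v 2 * v' 0 - v 0 * v' 2) * h1 +
        (v 0 * v' 1 - v 1 * v' 0) * h2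
    have he1 : e = 0 := (mul_eq_zero.mp he0).resolve_right hf
    rw [he1, zero_smul, add_zero] at he
    rw [LinearIndependent.pair_iff] at hli
    have := hli a a' he
    exact ⟨this.1, this.2, he1⟩
  set r := c.T (iY ℂ f) (iY ℂ f) (iZ ℂ b) with hr
  let μ : (Fin 3 → ℂ) →ₗ[ℂ] ℂ := (((c.T (iY ℂ f)).flip (iZ ℂ b)).comp (iY ℂ))
  have hμ : ∀ y, μ y = c.T (iY ℂ f) (iY ℂ y) (iZ ℂ b) := fun y => rfl
  have hform : ∀ y y', r * c.T (iY ℂ y) (iY ℂ y') (iZ ℂ b) = μ y * μ y' := by
    intro y y'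
    obtain ⟨a1, a2, a3, hy⟩ := span3 hLI y
    obtain ⟨b1, b2, b3, hy'⟩ := span3 hLI y'
    have e1 : c.T (iY ℂ y) (iY ℂ y') (iZ ℂ b) = a3 * b3 * r := by
      rw [hy, hy']
      simp only [map_add, map_smul, LinearMap.add_apply, LinearMap.smul_apply, smul_eq_mul, hv,
        hv', c.s12 (iY ℂ f) (iY ℂ v), c.s12 (iY ℂ f) (iY ℂ v')]
      rw [hr]; ring
    have e2 : μ y = a3 * r := by
      rw [hμ, hy]
      simp only [map_add, map_smul, LinearMap.add_apply, LinearMap.smul_apply, smul_eq_mul,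
        c.s12 (iY ℂ f) (iY ℂ v), c.s12 (iY ℂ f) (iY ℂ v'), hv, hv']
      rw [hr]; ring
    have e3 : μ y' = b3 * r := by
      rw [hμ, hy']
      simp only [map_add, map_smul, LinearMap.add_apply, LinearMap.smul_apply, smul_eq_mul,
        c.s12 (iY ℂ f) (iY ℂ v), c.s12 (iY ℂ f) (iY ℂ v'), hv, hv']
      rw [hr]; ring
    rw [e1, e2, e3]; ring
  have hr0 : r ≠ 0 := by
    intro h0
    refine not_conic_zero hP b hb fun y hy => ?_
    rw [eq_iY_of_mem hy]
    obtain ⟨a1, a2, a3, hy⟩ := span3 hLI (pY ℂ y)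
    rw [hy]
    simp only [map_add, map_smul, LinearMap.add_apply, LinearMap.smul_apply, smul_eq_mul, hv,
      hv', c.s12 (iY ℂ f) (iY ℂ v), c.s12 (iY ℂ f) (iY ℂ v'), ← hr, h0]
    ring
  refine ⟨μ, r⁻¹, ?_, inv_ne_zero hr0, ?_⟩
  · intro h0
    have := hμ f
    rw [h0] at this
    exact hr0 this.symm
  · intro y y'
    rw [← hform]
    field_simp

end Cub

end Pool.Agent.Helper16
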