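import Mathlib

set_option autoImplicit false

namespace Pool.Agent.Helper16

open MvPolynomial

/-- partial derivatives commute -/
theorem pderiv_comm' {σ : Type*} (i j : σ) (f : MvPolynomial σ ℂ) :
    pderiv i (pderiv j f) = pderiv j (pderiv i f) := by
  have h : (⁅(pderiv i : Derivation ℂ (MvPolynomial σ ℂ) (MvPolynomial σ ℂ)),
      (pderiv j : Derivation ℂ (MvPolynomial σ ℂ) (MvPolynomial σ ℂ))⁆) = 0 := by
    apply MvPolynomial.derivation_ext
    intro k
    rw [Derivation.commutator_apply]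
    classical
    rw [pderiv_X, pderiv_X]
    have key : ∀ a b c : σ, pderiv (R := ℂ) a ((Pi.single b 1 : σ → MvPolynomial σ ℂ) c) = 0 := by
      intro a b c
      by_cases h : c = b
      · subst h; simp
      · rw [Pi.single_eq_of_ne h]; simp
    rw [key, key]; simp
  have h2 := congrArg (fun D => D f) h
  simp only [Derivation.commutator_apply, Derivation.coe_zero, Pi.zero_apply] at h2
  exact sub_eq_zero.mp h2

variable {n : ℕ}

/-- third derivative coefficients divided by six -/
noncomputable def tcoef (F : MvPolynomial (Fin n) ℂ) (i j k : Fin n) : ℂ :=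
  eval 0 (pderiv i (pderiv j (pderiv k F))) / 6

theorem tcoef_swap12 (F : MvPolynomial (Fin n) ℂ) (i j k : Fin n) :
    tcoef F i j k = tcoef F j i k := by
  unfold tcoef; rw [pderiv_comm']

theorem tcoef_swap23 (F : MvPolynomial (Fin n) ℂ) (i j k : Fin n) :
    tcoef F i j k = tcoef F i k j := by
  unfold tcoef; rw [pderiv_comm' j k]

/-- the symmetric trilinear form of a cubic -/
noncomputable def tri (c : Fin n → Fin n → Fin n → ℂ) :
    (Fin n → ℂ) →ₗ[ℂ] (Fin n → ℂ) →ₗ[ℂ] (Fin n → ℂ) →ₗ[ℂ] ℂ :=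
  ∑ i, ∑ j, ∑ k, (c i j k) •
    ((LinearMap.proj i).smulRight ((LinearMap.proj j).smulRight (LinearMap.proj k)))

theorem tri_apply (c : Fin n → Fin n → Fin n → ℂ) (x y z : Fin n → ℂ) :
    tri c x y z = ∑ i, ∑ j, ∑ k, c i j k * x i * y j * z k := by
  simp only [tri, LinearMap.sum_apply, LinearMap.smul_apply, LinearMap.smulRight_apply,
    LinearMap.proj_apply, smul_eq_mul]
  refine Finset.sum_congr rfl fun i _ => Finset.sum_congr rfl fun j _ =>
    Finset.sum_congr rfl fun k _ => ?_
  ring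

theorem eval_const_of_hom0 {g : MvPolynomial (Fin n) ℂ} (hg : g.IsHomogeneous 0) (x : Fin n → ℂ) :
    eval x g = eval 0 g := by
  rw [← totalDegree_zero_iff_isHomogeneous, totalDegree_eq_zero_iff_eq_C] at hg
  rw [hg]; simp

theorem euler_eval {g : MvPolynomial (Fin n) ℂ} {d : ℕ} (hg : g.IsHomogeneous d)
    (x : Fin n → ℂ) : (d : ℂ) * eval x g = ∑ i, x i * eval x (pderiv i g) := by
  have h := congrArg (eval x) hg.sum_X_mul_pderiv
  simp only [map_sum, map_mul, eval_X, nsmul_eq_mul, map_natCast] at h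
  exact h.symm

theorem eval_pderiv2 {F : MvPolynomial (Fin n) ℂ} (hF : F.IsHomogeneous 3) (x : Fin n → ℂ)
    (i j : Fin n) : eval x (pderiv i (pderiv j F)) = 6 * ∑ k, tcoef F i j k * x k := by
  have h1 : (pderiv i (pderiv j F)).IsHomogeneous 1 := hF.pderiv.pderiv
  have h := euler_eval h1 x
  simp only [Nat.cast_one, one_mul] at h
  rw [h, Finset.mul_sum]
  refine Finset.sum_congr rfl fun k _ => ?_
  rw [eval_const_of_hom0 (h1.pderiv : (pderiv k (pderiv i (pderiv j F))).IsHomogeneous 0)]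
  have : tcoef F i j k = tcoef F k i j := by
    rw [tcoef_swap23, tcoef_swap12]
  rw [this]; unfold tcoef; ring

theorem eval_pderiv1 {F : MvPolynomial (Fin n) ℂ} (hF : F.IsHomogeneous 3) (x : Fin n → ℂ)
    (j : Fin n) : eval x (pderiv j F) = 3 * ∑ i, ∑ k, tcoef F i j k * x i * x k := by
  have h := euler_eval (hF.pderiv (i := j)) x
  simp only [Nat.add_one_sub_one, Nat.cast_ofNat] at h
  have h2 : eval x (pderiv j F) = (1/2) * (2 * eval x (pderiv j F)) := by ring
  rw [h2, h, Finset.mul_sum, Finset.mul_sum]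
  refine Finset.sum_congr rfl fun i _ => ?_
  rw [eval_pderiv2 hF]
  rw [Finset.mul_sum, Finset.mul_sum, Finset.mul_sum, Finset.mul_sum]
  refine Finset.sum_congr rfl fun k _ => ?_
  ring

theorem eval_eq_tri {F : MvPolynomial (Fin n) ℂ} (hF : F.IsHomogeneous 3) (x : Fin n → ℂ) :
    eval x F = tri (tcoef F) x x x := by
  have h := euler_eval hF x
  simp only [Nat.cast_ofNat] at h
  have h2 : eval x F = (1/3) * (3 * eval x F) := by ring
  rw [h2, h, tri_apply, Finset.mul_sum, Finset.sum_comm]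
  refine Finset.sum_congr rfl fun j _ => ?_
  rw [eval_pderiv1 hF]
  rw [Finset.mul_sum, Finset.mul_sum, Finset.mul_sum]
  refine Finset.sum_congr rfl fun i _ => ?_
  rw [Finset.mul_sum, Finset.mul_sum, Finset.mul_sum]
  refine Finset.sum_congr rfl fun k _ => ?_
  ring

theorem eval_pderiv_eq_tri {F : MvPolynomial (Fin n) ℂ} (hF : F.IsHomogeneous 3)
    (x : Fin n → ℂ) (j : Fin n) :
    eval x (pderiv j F) = 3 * tri (tcoef F) x x (Pi.single j 1) := by
  rw [eval_pderiv1 hF, tri_apply]
  congr 1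
  refine Finset.sum_congr rfl fun i _ => ?_
  refine Finset.sum_congr rfl fun k _ => ?_
  rw [Finset.sum_eq_single j]
  · rw [tcoef_swap23]; simp
  · intro b _ hb; simp [hb]
  · simp

theorem tri_symm12 {c : Fin n → Fin n → Fin n → ℂ} (h : ∀ i j k, c i j k = c j i k)
    (x y z : Fin n → ℂ) : tri c x y z = tri c y x z := by
  rw [tri_apply, tri_apply, Finset.sum_comm]
  refine Finset.sum_congr rfl fun i _ => Finset.sum_congr rfl fun j _ =>
    Finset.sum_congr rfl fun k _ => ?_
  rw [h i j k]; ring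

theorem tri_symm23 {c : Fin n → Fin n → Fin n → ℂ} (h : ∀ i j k, c i j k = c i k j)
    (x y z : Fin n → ℂ) : tri c x y z = tri c x z y := by
  rw [tri_apply, tri_apply]
  refine Finset.sum_congr rfl fun i _ => ?_
  rw [Finset.sum_comm]
  refine Finset.sum_congr rfl fun j _ =>
    Finset.sum_congr rfl fun k _ => ?_
  rw [h i j k]; ring

end Pool.Agent.Helper16
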