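import Mathlib
import Pool.Agent.Helper16.CubicBez
import Pool.Agent.Helper16.CubicJac

set_option autoImplicit false
set_option linter.unusedVariables false
set_option linter.unusedSectionVars false

namespace Pool.Agent.Helper16

open MvPolynomial Module

/-- directional derivative -/
noncomputable def dv (w : Fin 3 → ℂ) : MvPolynomial (Fin 3) ℂ →ₗ[ℂ] MvPolynomial (Fin 3) ℂ :=
  ∑ b, w b • ((pderiv b : Derivation ℂ (MvPolynomial (Fin 3) ℂ) (MvPolynomial (Fin 3) ℂ)) :
    MvPolynomial (Fin 3) ℂ →ₗ[ℂ] MvPolynomial (Fin 3) ℂ)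

theorem dv_apply (w : Fin 3 → ℂ) (G : MvPolynomial (Fin 3) ℂ) :
    dv w G = ∑ b, w b • pderiv b G := by
  simp [dv, LinearMap.sum_apply]

theorem dv_mul (w : Fin 3 → ℂ) (f g : MvPolynomial (Fin 3) ℂ) :
    dv w (f * g) = f * dv w g + g * dv w f := by
  simp only [dv_apply, Derivation.leibniz, smul_eq_mul, Finset.mul_sum]
  rw [← Finset.sum_add_distrib]
  refine Finset.sum_congr rfl fun b _ => ?_
  simp only [smul_eq_C_mul]
  ring

theorem eval_dv (w z : Fin 3 → ℂ) (G : MvPolynomial (Fin 3) ℂ) :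
    eval z (dv w G) = ∑ b, w b * eval z (pderiv b G) := by
  simp only [dv_apply, map_sum, smul_eval]

theorem eval_dv_linp (w z : Fin 3 → ℂ) (l : (Fin 3 → ℂ) →ₗ[ℂ] ℂ) :
    eval z (dv w (linp l)) = l w := by
  rw [eval_dv]
  have h : l w = ∑ b, w b * l (Pi.single b 1) := by
    conv_lhs => rw [show w = ∑ b, w b • (Pi.single b 1 : Fin 3 → ℂ) by
      funext k
      simp only [Finset.sum_apply, Pi.smul_apply, smul_eq_mul, Pi.single_apply]
      simp]
    rw [map_sum]
    simp only [map_smul, smul_eq_mul]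
  rw [h]
  simp only [pderiv_linp, eval_C]

/-- a square vanishes doubly -/
theorem dv_sq {w z : Fin 3 → ℂ} {f : MvPolynomial (Fin 3) ℂ} (h : eval z f = 0) :
    eval z (dv w (f * f)) = 0 := by
  rw [dv_mul, map_add, map_mul, h]; ring

/-- one-jets at points are independent on forms of large degree -/
theorem exists_sep2 {N : ℕ} (z w : Fin N → (Fin 3 → ℂ)) (h0 : ∀ i, z i ≠ 0)
    (hz : ∀ i j, i ≠ j → z i ∉ (ℂ ∙ z j)) (hw : ∀ i, w i ∉ (ℂ ∙ z i)) (i : Fin N) {d : ℕ}
    (hd : 2 * N ≤ d) (a b : ℂ) :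
    ∃ G : MvPolynomial (Fin 3) ℂ, G.IsHomogeneous d ∧ eval (z i) G = a ∧
      eval (z i) (dv (w i) G) = b ∧
      ∀ j, j ≠ i → eval (z j) G = 0 ∧ eval (z j) (dv (w j) G) = 0 := by
  classical
  have hL : ∀ j, ∃ L : (Fin 3 → ℂ) →ₗ[ℂ] ℂ, j ≠ i → (L (z j) = 0 ∧ L (z i) ≠ 0) := by
    intro j
    by_cases hji : j = i
    · exact ⟨0, fun h => absurd hji h⟩
    · obtain ⟨L, h1, h2⟩ := exists_lin_sep (hz i j (Ne.symm hji))
      exact ⟨L, fun _ => ⟨h1, h2⟩⟩
  choose L hL using hL
  obtain ⟨M, hM⟩ := exists_lin_ne (h0 i)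
  obtain ⟨M', hM'z, hM'w⟩ := exists_lin_sep (hw i)
  have hcard : (Finset.univ.erase i : Finset (Fin N)).card = N - 1 := by
    rw [Finset.card_erase_of_mem (Finset.mem_univ i)]; simp
  have hN : 1 ≤ N := by have := i.2; omega
  set R : MvPolynomial (Fin 3) ℂ := ∏ j ∈ Finset.univ.erase i, linp (L j) with hR
  have hRh : R.IsHomogeneous (N - 1) := by
    have h1 : (∏ j ∈ Finset.univ.erase i, linp (L j)).IsHomogeneous
        (∑ j ∈ (Finset.univ.erase i : Finset (Fin N)), 1) :=
      IsHomogeneous.prod _ _ _ fun j _ => linp_hom (L j)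
    rw [Finset.sum_const, hcard, smul_eq_mul, mul_one] at h1
    exact h1
  have hRi : eval (z i) R ≠ 0 := by
    rw [hR, map_prod, Finset.prod_ne_zero_iff]
    intro j hj
    rw [eval_linp]
    exact (hL j (Finset.ne_of_mem_erase hj)).2
  have hRj : ∀ j, j ≠ i → eval (z j) R = 0 := by
    intro j hj
    rw [hR, map_prod]
    apply Finset.prod_eq_zero (Finset.mem_erase.mpr ⟨hj, Finset.mem_univ j⟩)
    rw [eval_linp]
    exact (hL j hj).1
  set k := d - (2 * (N - 1)) - 1 with hk
  set G1 : MvPolynomial (Fin 3) ℂ := (R * R) * ((linp M) ^ k * linp M) with hG1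
  set G2 : MvPolynomial (Fin 3) ℂ := (R * R) * ((linp M) ^ k * linp M') with hG2
  have hh1 : G1.IsHomogeneous d := by
    have := (hRh.mul hRh).mul (((linp_hom M).pow k).mul (linp_hom M))
    have e : N - 1 + (N - 1) + (1 * k + 1) = d := by omega
    rwa [e] at this
  have hh2 : G2.IsHomogeneous d := by
    have := (hRh.mul hRh).mul (((linp_hom M).pow k).mul (linp_hom M'))
    have e : N - 1 + (N - 1) + (1 * k + 1) = d := by omega
    rwa [e] at this
  have v1 : eval (z i) G1 ≠ 0 := by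
    rw [hG1, map_mul, map_mul, map_mul, map_pow, eval_linp]
    exact mul_ne_zero (mul_ne_zero hRi hRi) (mul_ne_zero (pow_ne_zero _ hM) hM)
  have v2 : eval (z i) G2 = 0 := by
    rw [hG2, map_mul, map_mul, map_mul, map_pow, eval_linp, eval_linp, hM'z]; ring
  have d2 : eval (z i) (dv (w i) G2) ≠ 0 := by
    rw [hG2, dv_mul, dv_mul]
    simp only [map_add, map_mul, map_pow, eval_linp, eval_dv_linp, hM'z]
    have : eval (z i) R * eval (z i) R * (M (z i) ^ k * M' (w i) +
        0 * eval (z i) (dv (w i) (linp M ^ k))) + M (z i) ^ k * 0 * eval (z i) (dv (w i) (R * R)) =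
        eval (z i) R * eval (z i) R * (M (z i) ^ k * M' (w i)) := by ring
    rw [this]
    exact mul_ne_zero (mul_ne_zero hRi hRi) (mul_ne_zero (pow_ne_zero _ hM) hM'w)
  have hj : ∀ T : MvPolynomial (Fin 3) ℂ, ∀ j, j ≠ i → eval (z j) ((R * R) * T) = 0 ∧
      eval (z j) (dv (w j) ((R * R) * T)) = 0 := by
    intro T j hji
    refine ⟨by rw [map_mul, map_mul, hRj j hji]; ring, ?_⟩
    rw [dv_mul, map_add, map_mul, map_mul, map_mul, dv_sq (hRj j hji), hRj j hji]; ring
  refine ⟨(a / eval (z i) G1) • G1 + ((b - a / eval (z i) G1 * eval (z i) (dv (w i) G1)) /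
    eval (z i) (dv (w i) G2)) • G2, ?_, ?_, ?_, ?_⟩
  · rw [smul_eq_C_mul, smul_eq_C_mul]
    exact (hh1.C_mul _).add (hh2.C_mul _)
  · rw [map_add, smul_eval, smul_eval, v2]; field_simp; ring
  · rw [map_add, map_smul, map_smul, map_add, smul_eval, smul_eval]; field_simp; ring
  · intro j hji
    have a1 := hj ((linp M) ^ k * linp M) j hji
    have a2 := hj ((linp M) ^ k * linp M') j hji
    rw [← hG1] at a1
    rw [← hG2] at a2
    constructor
    · rw [map_add, smul_eval, smul_eval, a1.1, a2.1]; ring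
    · rw [map_add, map_smul, map_smul, map_add, smul_eval, smul_eval, a1.2, a2.2]; ring

/-- evaluation of one-jets at finitely many points -/
noncomputable def evs2 {N : ℕ} (z w : Fin N → (Fin 3 → ℂ)) (d : ℕ) :
    homogeneousSubmodule (Fin 3) ℂ d →ₗ[ℂ] (Fin N → ℂ × ℂ) where
  toFun G := fun i => (eval (z i) (G : MvPolynomial (Fin 3) ℂ),
    eval (z i) (dv (w i) (G : MvPolynomial (Fin 3) ℂ)))
  map_add' x y := by
    funext i
    simp only [Submodule.coe_add, map_add, Pi.add_apply, Prod.mk_add_mk]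
  map_smul' a x := by
    funext i
    simp only [Submodule.coe_smul, map_smul, smul_eval, RingHom.id_apply, Pi.smul_apply,
      Prod.smul_mk, smul_eq_mul]

theorem evs2_surj {N : ℕ} (z w : Fin N → (Fin 3 → ℂ)) (h0 : ∀ i, z i ≠ 0)
    (hz : ∀ i j, i ≠ j → z i ∉ (ℂ ∙ z j)) (hw : ∀ i, w i ∉ (ℂ ∙ z i)) {d : ℕ}
    (hd : 2 * N ≤ d) : LinearMap.range (evs2 z w d) = ⊤ := by
  classical
  rw [eq_top_iff]
  intro v _
  have hv : v = ∑ i, Pi.single i (v i) := by
    funext i
    rw [Finset.sum_apply]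
    simp [Pi.single_apply]
  rw [hv]
  refine Submodule.sum_mem _ fun i _ => ?_
  obtain ⟨G, hG, h1, h2, h3⟩ := exists_sep2 z w h0 hz hw i hd (v i).1 (v i).2
  refine ⟨⟨G, hG⟩, ?_⟩
  funext j
  by_cases hji : j = i
  · subst hji
    simp only [evs2, LinearMap.coe_mk, AddHom.coe_mk, Pi.single_eq_same, h1, h2]
  · simp only [evs2, LinearMap.coe_mk, AddHom.coe_mk]
    rw [Pi.single_eq_of_ne hji, (h3 j hji).1, (h3 j hji).2]
    rfl

/-- Bezout with double points -/
theorem bezout2 {P Q : MvPolynomial (Fin 3) ℂ} {m e : ℕ} (hP : P.IsHomogeneous m)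
    (hQ : Q.IsHomogeneous e) (hrel : IsRelPrime P Q) (hQ0 : Q ≠ 0) {N : ℕ}
    (z : Fin N → (Fin 3 → ℂ)) (h0 : ∀ i, z i ≠ 0)
    (hz : ∀ i j, i ≠ j → z i ∉ (ℂ ∙ z j)) (hPz : ∀ i, eval (z i) P = 0)
    (hPd : ∀ i k, eval (z i) (pderiv k P) = 0)
    (hQz : ∀ i, eval (z i) Q = 0) : 2 * N ≤ m * e := by
  -- tangent directions of Q
  have hex : ∀ i, ∃ w : Fin 3 → ℂ, w ∉ (ℂ ∙ z i) ∧ eval (z i) (dv w Q) = 0 := by
    intro i
    let f : (Fin 3 → ℂ) →ₗ[ℂ] ℂ := ∑ b, (eval (z i) (pderiv b Q)) • LinearMap.proj b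
    have hf : ∀ w, f w = eval (z i) (dv w Q) := by
      intro w
      rw [eval_dv]
      simp only [f, LinearMap.sum_apply, LinearMap.smul_apply, LinearMap.proj_apply, smul_eq_mul]
      exact Finset.sum_congr rfl fun b _ => mul_comm _ _
    by_contra hcon
    push Not at hcon
    have hle : LinearMap.ker f ≤ ℂ ∙ z i := by
      intro w hw
      by_contra hne
      exact hcon w hne (by rw [← hf]; exact LinearMap.mem_ker.mp hw)
    have h1 := Submodule.finrank_mono hle
    have h2 := LinearMap.finrank_range_add_finrank_ker f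
    have h3 := Submodule.finrank_le (LinearMap.range f)
    have h4 : finrank ℂ (ℂ ∙ z i : Submodule ℂ (Fin 3 → ℂ)) ≤ 1 := by
      rw [finrank_span_singleton (h0 i)]
    simp only [finrank_self, finrank_fintype_fun_eq_card, Fintype.card_fin] at h2 h3
    omega
  choose w hw hwQ using hex
  have hPw : ∀ i, eval (z i) (dv (w i) P) = 0 := by
    intro i
    rw [eval_dv]
    exact Finset.sum_eq_zero fun b _ => by rw [hPd, mul_zero]
  have hker : LinearMap.ker (syz P Q (N := 2 * N) hP hQ) ≤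
      LinearMap.range (kos P Q (N := 2 * N) hP hQ) := by
    rintro ⟨⟨A, hA⟩, ⟨B, hB⟩⟩ hx
    rw [LinearMap.mem_ker] at hx
    have hx1 : P * A + Q * B = 0 := congrArg Subtype.val hx
    have hd : Q ∣ P * A := ⟨-B, by linear_combination hx1⟩
    obtain ⟨D, hD⟩ := (hrel.symm.dvd_of_dvd_mul_left hd)
    subst hD
    have hB' : B = -(P * D) := by
      have : Q * (B + P * D) = 0 := by linear_combination hx1
      have := (mul_eq_zero.mp this).resolve_left hQ0
      linear_combination this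
    have hDh : D.IsHomogeneous (2 * N) := by
      by_cases h : Q * D = 0
      · rw [(mul_eq_zero.mp h).resolve_left hQ0]; exact isHomogeneous_zero _ _ _
      · obtain ⟨a, b, ha, hb, hab⟩ := hom_factor ((mem_homogeneousSubmodule _ _).mp hA) h
        have hae : a = e := ha.inj_right hQ hQ0
        have : b = 2 * N := by omega
        rwa [this] at hb
    refine ⟨⟨D, hDh⟩, ?_⟩
    ext1
    · rfl
    · ext1; exact hB'.symm
  have hrange : LinearMap.range (syz P Q (N := 2 * N) hP hQ) ≤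
      LinearMap.ker (evs2 z w (m + e + 2 * N)) := by
    rintro _ ⟨x, rfl⟩
    rw [LinearMap.mem_ker]
    funext i
    change (eval (z i) (P * x.1 + Q * x.2), eval (z i) (dv (w i) (P * x.1 + Q * x.2))) = 0
    rw [map_add, map_mul, map_mul, hPz, hQz, map_add, dv_mul, dv_mul, map_add, map_add, map_add,
      map_mul, map_mul, map_mul, map_mul, hPz, hQz, hPw, hwQ]
    simp
  have f1 := LinearMap.finrank_range_add_finrank_ker (syz P Q (N := 2 * N) hP hQ)
  have f2 := LinearMap.finrank_range_add_finrank_ker (evs2 z w (m + e + 2 * N))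
  have f3 := Submodule.finrank_mono hker
  have f4 := Submodule.finrank_mono hrange
  have f5 := LinearMap.finrank_range_le (kos P Q (N := 2 * N) hP hQ)
  rw [evs2_surj z w h0 hz hw (by omega), finrank_top, finrank_hom3] at f2
  have f6 : finrank ℂ (Fin N → ℂ × ℂ) = 2 * N := by
    rw [finrank_pi_fintype]
    simp [mul_comm]
  rw [f6] at f2
  rw [finrank_prod, finrank_hom3, finrank_hom3] at f1
  rw [finrank_hom3] at f5
  have g1 : ∀ k : ℕ, 2 * (k + 2).choose 2 = (k + 2) * (k + 1) := by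
    intro k
    rw [Nat.choose_two_right]
    have : 2 ∣ (k + 2) * (k + 2 - 1) := by
      have := Nat.even_mul_succ_self (k + 1)
      have h2 : (k + 2) * (k + 2 - 1) = (k + 1) * (k + 1 + 1) := by
        have : k + 2 - 1 = k + 1 := by omega
        rw [this]; ring
      rw [h2]
      exact this.two_dvd
    rw [Nat.mul_div_cancel' this]
    congr 1
  have c1 := g1 (m + e + 2 * N)
  have c2 := g1 (e + 2 * N)
  have c3 := g1 (m + 2 * N)
  have c4 := g1 (2 * N)
  nlinarith [f1, f2, f3, f4, f5, c1, c2, c3, c4]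

end Pool.Agent.Helper16
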