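import Mathlib
import Pool.Agent.Helper16.CubicPoly
import Pool.Agent.Helper16.CubicSing

set_option autoImplicit false
set_option linter.unusedVariables false
set_option linter.unusedSectionVars false

namespace Pool.Agent.Helper16

open MvPolynomial Module

/-- determinant of three vectors -/
def d3 {S : Type*} [CommRing S] (a b c : Fin 3 → S) : S :=
  a 0 * (b 1 * c 2 - b 2 * c 1) - a 1 * (b 0 * c 2 - b 2 * c 0) + a 2 * (b 0 * c 1 - b 1 * c 0)

/-- the vector `(y, u)` -/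
def mk4 {S : Type*} (y : Fin 3 → S) (u : S) : Fin 4 → S := ![y 0, y 1, y 2, u]

theorem yv_eq {S : Type*} [CommRing S] (y : Fin 3 → S) : yv y = mk4 y 0 := by
  funext i
  refine Fin.lastCases ?_ (fun a => ?_) i
  · have h1 : yv y (Fin.last 3) = 0 := yv_last y
    rw [h1]; rfl
  · have h1 : yv y (Fin.castSucc a) = y a := by
      simp [yv]
    rw [h1]
    fin_cases a <;> rfl

theorem mk4_add {S : Type*} [CommRing S] (y y' : Fin 3 → S) (u u' : S) :
    mk4 (y + y') (u + u') = mk4 y u + mk4 y' u' := by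
  funext i; fin_cases i <;> simp [mk4]

theorem mk4_smul {S : Type*} [CommRing S] (a : S) (y : Fin 3 → S) (u : S) :
    mk4 (a • y) (a * u) = a • mk4 y u := by
  funext i; fin_cases i <;> simp [mk4]

theorem yv_add {S : Type*} [CommRing S] (y y' : Fin 3 → S) : yv (y + y') = yv y + yv y' := by
  rw [yv_eq, yv_eq, yv_eq, ← mk4_add, add_zero]

theorem yv_smul {S : Type*} [CommRing S] (a : S) (y : Fin 3 → S) : yv (a • y) = a • yv y := by
  rw [yv_eq, yv_eq, ← mk4_smul, mul_zero]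

@[simp] theorem mk4_3 {S : Type*} (y : Fin 3 → S) (u : S) : mk4 y u 3 = u := rfl

theorem vY_mk4 (y : Fin 3 → ℂ) (u : ℂ) : vY ℂ (mk4 y u) = iY ℂ y := by
  funext i; rcases i with i | i
  · fin_cases i <;> rfl
  · simp

theorem pt_mk4 (z y : Fin 3 → ℂ) (u : ℂ) : pt z (mk4 y u) = iY ℂ y + u • iZ ℂ z := by
  rw [pt_apply, vY_mk4]; rfl

theorem eq_mk4 (v : Fin 4 → ℂ) : v = mk4 (fun a => v a.castSucc) (v 3) := by
  funext i; fin_cases i <;> rfl

theorem det_rows {a b c d : Fin 3 → ℂ} (u v : ℂ) :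
    Matrix.det (Matrix.of ![mk4 a 0, mk4 b v, mk4 c 0, mk4 d u]) =
      u * d3 a b c - v * d3 a d c := by
  rw [Matrix.det_succ_row_zero]
  simp only [Fin.sum_univ_succ, Matrix.det_fin_three, Matrix.submatrix_apply, mk4, d3,
    Matrix.of_apply]
  simp [Fin.succAbove, Fin.lt_def]
  ring

theorem det_block (a1 a2 b1 b2 p q r u p' q' r' u' : ℂ) :
    Matrix.det (!![0, a1, a2, 0; p, q, r, u; p', q', r', u'; 0, b1, b2, 0] :
      Matrix (Fin 4) (Fin 4) ℂ) = (a1 * b2 - a2 * b1) * (p * u' - p' * u) := by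
  rw [Matrix.det_succ_row_zero]
  simp only [Fin.sum_univ_succ, Matrix.det_fin_three, Matrix.submatrix_apply, Matrix.of_apply]
  simp [Fin.succAbove, Fin.lt_def]
  ring

namespace Cub

variable {c : Cub (I6 → ℂ)}

theorem gram (z : Fin 3 → ℂ) (G B : Fin 4 → Fin 4 → ℂ) :
    Matrix.det (Matrix.of fun i j => c.nf z (G i) (B j)) =
      Matrix.det (Matrix.of G) * Matrix.det (c.Nm z) * Matrix.det (Matrix.of B) := by
  have h : (Matrix.of fun i j => c.nf z (G i) (B j)) =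
      Matrix.of G * c.Nm z * (Matrix.of B).transpose := by
    ext i j
    rw [Matrix.of_apply, nf_eq_dot, Matrix.mul_apply, dotProduct]
    simp only [Matrix.mul_apply, Matrix.transpose_apply, Matrix.of_apply, Matrix.mulVec,
      dotProduct, Finset.sum_mul, Finset.mul_sum]
    rw [Finset.sum_comm]
    refine Finset.sum_congr rfl fun k _ => Finset.sum_congr rfl fun m _ => ?_
    ring
  rw [h, Matrix.det_mul, Matrix.det_mul, Matrix.det_transpose]

theorem orient (z : Fin 3 → ℂ) {v1 v2 f1 f2 : Fin 4 → ℂ} (h11 : c.nf z v1 v1 = 0)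
    (h12 : c.nf z v1 v2 = 0) (h22 : c.nf z v2 v2 = 0)
    (hdet : Matrix.det (Matrix.of ![v1, f1, f2, v2]) = 1) (g1 g2 : Fin 4 → ℂ) :
    Matrix.det (Matrix.of ![v1, g1, g2, v2]) * (c.Nm z).det =
      (c.nf z v1 f1 * c.nf z v2 f2 - c.nf z v1 f2 * c.nf z v2 f1) *
      (c.nf z v1 g1 * c.nf z v2 g2 - c.nf z v1 g2 * c.nf z v2 g1) := by
  have h := gram (c := c) z ![v1, g1, g2, v2] ![v1, f1, f2, v2]
  rw [hdet, mul_one] at h
  rw [← h]
  have h21 : c.nf z v2 v1 = 0 := by rw [nf_symm]; exact h12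
  have hm : (Matrix.of fun i j => c.nf z ((![v1, g1, g2, v2] : Fin 4 → Fin 4 → ℂ) i)
      ((![v1, f1, f2, v2] : Fin 4 → Fin 4 → ℂ) j)) =
      !![0, c.nf z v1 f1, c.nf z v1 f2, 0;
        c.nf z g1 v1, c.nf z g1 f1, c.nf z g1 f2, c.nf z g1 v2;
        c.nf z g2 v1, c.nf z g2 f1, c.nf z g2 f2, c.nf z g2 v2;
        0, c.nf z v2 f1, c.nf z v2 f2, 0] := by
    ext i j
    fin_cases i <;> fin_cases j <;> simp [h11, h12, h21, h22]
  rw [hm, det_block, c.nf_symm z v1 g1, c.nf_symm z v1 g2, c.nf_symm z v2 g2, c.nf_symm z v2 g1]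

/-- the square root of the discriminant along an isotropic line -/
noncomputable def sv (c : Cub (I6 → ℂ)) (z : Fin 3 → ℂ) (v1 v2 f1 f2 : Fin 4 → ℂ) : ℂ :=
  c.nf z v1 f1 * c.nf z v2 f2 - c.nf z v1 f2 * c.nf z v2 f1

theorem det_eq_sq (z : Fin 3 → ℂ) {v1 v2 f1 f2 : Fin 4 → ℂ} (h11 : c.nf z v1 v1 = 0)
    (h12 : c.nf z v1 v2 = 0) (h22 : c.nf z v2 v2 = 0)
    (hdet : Matrix.det (Matrix.of ![v1, f1, f2, v2]) = 1) :
    (c.Nm z).det = c.sv z v1 v2 f1 f2 ^ 2 := by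
  have := orient (c := c) z h11 h12 h22 hdet f1 f2
  rw [hdet, one_mul] at this
  rw [this, sv]; ring

theorem orient' (z : Fin 3 → ℂ) {v1 v2 f1 f2 : Fin 4 → ℂ} (h11 : c.nf z v1 v1 = 0)
    (h12 : c.nf z v1 v2 = 0) (h22 : c.nf z v2 v2 = 0)
    (hdet : Matrix.det (Matrix.of ![v1, f1, f2, v2]) = 1)
    (hs : c.sv z v1 v2 f1 f2 ≠ 0) (g1 g2 : Fin 4 → ℂ) :
    c.nf z v1 g1 * c.nf z v2 g2 - c.nf z v1 g2 * c.nf z v2 g1 =
      c.sv z v1 v2 f1 f2 * Matrix.det (Matrix.of ![v1, g1, g2, v2]) := by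
  have h1 := orient (c := c) z h11 h12 h22 hdet g1 g2
  have h2 := det_eq_sq (c := c) z h11 h12 h22 hdet
  rw [h2] at h1
  change _ = c.sv z v1 v2 f1 f2 * _ at h1
  have h3 : c.sv z v1 v2 f1 f2 * (Matrix.det (Matrix.of ![v1, g1, g2, v2]) *
      c.sv z v1 v2 f1 f2 - (c.nf z v1 g1 * c.nf z v2 g2 - c.nf z v1 g2 * c.nf z v2 g1)) = 0 := by
    linear_combination h1
  have := (mul_eq_zero.mp h3).resolve_left hs
  linear_combination -this

/-- scaling of the form -/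
theorem nf_scale (a : ℂ) (z : Fin 3 → ℂ) (v v' : Fin 4 → ℂ) :
    c.nf (a • z) v v' = a * c.nf z (mk4 (fun i => v i.castSucc) (a * v 3))
      (mk4 (fun i => v' i.castSucc) (a * v' 3)) := by
  rw [nf_complex, nf_complex]
  have e1 : ∀ v : Fin 4 → ℂ, vY ℂ (mk4 (fun i => v i.castSucc) (a * v 3)) = vY ℂ v := by
    intro v
    rw [vY_mk4]; rfl
  rw [e1, e1]
  simp only [map_smul, LinearMap.smul_apply, smul_eq_mul, mk4_3]
  ring

theorem disc_hom : (c.disc).IsHomogeneous 6 := by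
  apply isHomogeneous_of_eval
  intro a z
  rw [eval_disc, eval_disc]
  have h : c.Nm (a • z) = a • (Matrix.diagonal ![1, 1, 1, a] * c.Nm z *
      Matrix.diagonal ![1, 1, 1, a]) := by
    ext i j
    rw [Matrix.smul_apply, Matrix.mul_diagonal, Matrix.diagonal_mul, Nm_apply, Nm_apply,
      nf_scale, smul_eq_mul]
    have e : ∀ i : Fin 4, mk4 (fun m => (Pi.single i 1 : Fin 4 → ℂ) m.castSucc)
        (a * (Pi.single i 1 : Fin 4 → ℂ) 3) = (![1, 1, 1, a] : Fin 4 → ℂ) i • Pi.single i 1 := by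
      intro i
      funext m
      fin_cases i <;> fin_cases m <;> simp [mk4]
    rw [e, e, map_smul, map_smul, LinearMap.smul_apply, smul_eq_mul, smul_eq_mul]
    ring
  rw [h, Matrix.det_smul, Matrix.det_mul, Matrix.det_mul, Matrix.det_diagonal]
  simp [Fin.prod_univ_succ]
  ring

end Cub

end Pool.Agent.Helper16
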