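import Mathlib
import Pool.Agent.Helper16.CubicOri
import Pool.Agent.Helper16.CubicPlanes

set_option autoImplicit false
set_option linter.unusedVariables false
set_option linter.unusedSectionVars false

namespace Pool.Agent.Helper16

open MvPolynomial Module

namespace Cub

variable {c : Cub (I6 → ℂ)}

/-- the tangent functional on the complement -/
noncomputable def tl (c : Cub (I6 → ℂ)) (x : Fin 3 → ℂ) : (Fin 3 → ℂ) →ₗ[ℂ] ℂ :=
  (c.T (iY ℂ x) (iY ℂ x)).comp (iZ ℂ)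

theorem tl_apply (x z : Fin 3 → ℂ) : c.tl x z = c.T (iY ℂ x) (iY ℂ x) (iZ ℂ z) := rfl

theorem iY_inj {x : Fin 3 → ℂ} (h : iY ℂ x = 0) : x = 0 := by
  have := congrArg (pY ℂ) h
  simpa using this

theorem tl_ne_zero (hP : c.Iso P0) {x : Fin 3 → ℂ} (hx : x ≠ 0) : c.tl x ≠ 0 := by
  intro h
  obtain ⟨v, hv⟩ := c.ns (iY ℂ x) (fun h => hx (iY_inj h))
  apply hv
  rw [decomp v, map_add, hP.two (iY_mem _) (iY_mem _), zero_add, ← tl_apply, h]
  rfl

/-- data of a plane meeting the base plane in a point -/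
structure AD (c : Cub (I6 → ℂ)) (W : Submodule ℂ (I6 → ℂ)) (x : Fin 3 → ℂ)
    (φ : (Fin 3 → ℂ) →ₗ[ℂ] (Fin 3 → ℂ)) : Prop where
  x0 : x ≠ 0
  xW : iY ℂ x ∈ W
  pW : ∀ z, c.tl x z = 0 → iY ℂ (φ z) + iZ ℂ z ∈ W
  inter : ∀ y, iY ℂ y ∈ W → ∃ a : ℂ, y = a • x
  memW : ∀ w ∈ W, c.tl x (pZ ℂ w) = 0

theorem exists_AD (hP : c.Iso P0) {W : Submodule ℂ (I6 → ℂ)} (hW : c.Pl W)
    (h1 : finrank ℂ (W ⊓ P0 : Submodule ℂ _) = 1) : ∃ x φ, c.AD W x φ := by
  obtain ⟨⟨x', hx'⟩, hx0, hxs⟩ := finrank_eq_one_iff'.mp h1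
  have hx0' : x' ≠ 0 := fun h => hx0 (Subtype.ext h)
  set x := pY ℂ x' with hx
  have hxx : iY ℂ x = x' := (eq_iY_of_mem hx'.2).symm
  have hx0'' : x ≠ 0 := by
    intro h; apply hx0'; rw [← hxx, h, map_zero]
  have hmem : ∀ w ∈ W, c.tl x (pZ ℂ w) = 0 := by
    intro w hw
    have h2 : c.T (iY ℂ x) (iY ℂ x) w = 0 := hW.iso.two (by rw [hxx]; exact hx'.1) hw
    rw [decomp w, map_add, hP.two (iY_mem _) (iY_mem _), zero_add] at h2
    exact h2
  -- the image of `W`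
  have hker : finrank ℂ (LinearMap.ker ((pZ ℂ).domRestrict W)) = 1 := by
    have e : (W ⊓ P0 : Submodule ℂ _) = (LinearMap.ker ((pZ ℂ).domRestrict W)).map W.subtype := by
      ext y
      simp only [Submodule.mem_inf, Submodule.mem_map, Submodule.subtype_apply, LinearMap.mem_ker]
      constructor
      · rintro ⟨hy, hy'⟩
        exact ⟨⟨y, hy⟩, mem_P0.mp hy', rfl⟩
      · rintro ⟨z, hz, rfl⟩
        exact ⟨z.2, mem_P0.mpr hz⟩
    rw [← h1, e, Submodule.finrank_map_subtype_eq]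
  have hrange : finrank ℂ (LinearMap.range ((pZ ℂ).domRestrict W)) = 2 := by
    have := LinearMap.finrank_range_add_finrank_ker ((pZ ℂ).domRestrict W)
    rw [hker, hW.rank] at this; omega
  have htl : finrank ℂ (LinearMap.ker (c.tl x)) = 2 := by
    have h2 := LinearMap.finrank_range_add_finrank_ker (c.tl x)
    have h3 : LinearMap.range (c.tl x) = ⊤ :=
      LinearMap.range_eq_top.mpr (LinearMap.surjective (tl_ne_zero hP hx0''))
    rw [h3, finrank_top] at h2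
    simp at h2; omega
  have heq : LinearMap.range ((pZ ℂ).domRestrict W) = LinearMap.ker (c.tl x) := by
    apply Submodule.eq_of_le_of_finrank_eq
    · rintro _ ⟨w, rfl⟩
      exact LinearMap.mem_ker.mpr (hmem w w.2)
    · rw [hrange, htl]
  obtain ⟨g, hg⟩ := LinearMap.exists_rightInverse_of_surjective
    ((pZ ℂ).domRestrict W).rangeRestrict (LinearMap.range_rangeRestrict _)
  obtain ⟨φ, hφ⟩ := LinearMap.exists_extend ((pY ℂ).comp (W.subtype.comp g))
  refine ⟨x, φ, hx0'', by rw [hxx]; exact hx'.1, ?_, ?_, hmem⟩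
  · intro z hz
    have hzr : z ∈ LinearMap.range ((pZ ℂ).domRestrict W) := by
      rw [heq]; exact LinearMap.mem_ker.mpr hz
    have e1 : φ z = pY ℂ (g ⟨z, hzr⟩ : I6 → ℂ) := LinearMap.congr_fun hφ ⟨z, hzr⟩
    have e2 : pZ ℂ (g ⟨z, hzr⟩ : I6 → ℂ) = z := by
      have := LinearMap.congr_fun hg ⟨z, hzr⟩
      exact congrArg Subtype.val this
    have e3 : iY ℂ (φ z) + iZ ℂ z = (g ⟨z, hzr⟩ : I6 → ℂ) := by
      conv_rhs => rw [decomp (g ⟨z, hzr⟩ : I6 → ℂ), e2]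
      rw [e1]
    rw [e3]; exact (g ⟨z, hzr⟩).2
  · intro y hy
    obtain ⟨a, ha⟩ := hxs ⟨iY ℂ y, hy, iY_mem y⟩
    refine ⟨a, ?_⟩
    have h3 : a • x' = iY ℂ y := congrArg Subtype.val ha
    have := congrArg (pY ℂ) h3
    rw [map_smul, pY_iY] at this
    exact this.symm

/-- completing a vector to a unimodular basis -/
theorem exists_d3_one {x : Fin 3 → ℂ} (hx : x ≠ 0) : ∃ f1 f2, d3 x f1 f2 = 1 := by
  obtain ⟨k, hk⟩ := Function.ne_iff.mp hx
  have hk : x k ≠ 0 := hk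
  fin_cases k
  · refine ⟨![0, (x 0)⁻¹, 0], ![0, 0, 1], ?_⟩
    simp only [Fin.zero_eta] at hk
    simp [d3, hk]
  · refine ⟨![0, 0, (x 1)⁻¹], ![1, 0, 0], ?_⟩
    simp only [Fin.mk_one] at hk
    simp [d3, hk]
  · refine ⟨![(x 2)⁻¹, 0, 0], ![0, 1, 0], ?_⟩
    have hk : x 2 ≠ 0 := hk
    simp [d3, hk]

theorem exists_d3_ne {x y : Fin 3 → ℂ} (h : LinearIndependent ℂ ![x, y]) :
    ∃ f, d3 x y f ≠ 0 := by
  by_contra hcon
  push Not at hcon
  have h0 := hcon ![1, 0, 0]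
  have h1 := hcon ![0, 1, 0]
  have h2 := hcon ![0, 0, 1]
  simp [d3] at h0 h1 h2
  have hx0 : x ≠ 0 := h.ne_zero 0
  rw [LinearIndependent.pair_iff' hx0] at h
  obtain ⟨k, hk⟩ := Function.ne_iff.mp hx0
  have hk : x k ≠ 0 := hk
  apply h (y k / x k)
  funext i
  simp only [Pi.smul_apply, smul_eq_mul]
  rw [div_mul_eq_mul_div, div_eq_iff hk]
  fin_cases k <;> fin_cases i <;> simp at hk ⊢ <;> first
    | ring1
    | linear_combination h0
    | linear_combination -h0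
    | linear_combination h1
    | linear_combination -h1
    | linear_combination h2
    | linear_combination -h2

end Cub

end Pool.Agent.Helper16
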