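import Pool.Agent.Helper16.CubicBez2

set_option autoImplicit false
set_option linter.unusedVariables false
set_option linter.unusedSectionVars false

namespace Pool.Agent.Helper16

open MvPolynomial Module

/-- a linear form missing the common zeros of two coprime forms -/
theorem exists_line_missing {G H : MvPolynomial (Fin 3) ℂ} {m e : ℕ} (hG : G.IsHomogeneous m)
    (hH : H.IsHomogeneous e) (hrel : IsRelPrime G H) (hH0 : H ≠ 0) :
    ∃ l : (Fin 3 → ℂ) →ₗ[ℂ] ℂ, l ≠ 0 ∧
      ∀ p, l p = 0 → eval p G = 0 → eval p H = 0 → p = 0 := by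
  classical
  -- a maximal family of common zeros
  let P : ℕ → Prop := fun N => ∃ z : Fin N → (Fin 3 → ℂ), (∀ i, z i ≠ 0) ∧
    (∀ i j, i ≠ j → z i ∉ (ℂ ∙ z j)) ∧ (∀ i, eval (z i) G = 0) ∧ (∀ i, eval (z i) H = 0)
  have hbound : ∀ N, P N → N ≤ m * e := by
    rintro N ⟨z, h0, hz, hGz, hHz⟩
    exact bezout hG hH hrel hH0 z h0 hz hGz hHz
  have hP0 : P 0 := ⟨fun i => i.elim0, fun i => i.elim0, fun i => i.elim0, fun i => i.elim0,
    fun i => i.elim0⟩
  set M := Nat.findGreatest P (m * e) with hM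
  have hPM : P M := Nat.findGreatest_spec (P := P) (m := 0) (Nat.zero_le _) hP0
  have hmax : ¬ P (M + 1) := by
    intro h
    have h1 := hbound _ h
    have h2 := Nat.le_findGreatest (P := P) h1 h
    omega
  obtain ⟨z, h0, hz, hGz, hHz⟩ := hPM
  have hcov : ∀ p, p ≠ 0 → eval p G = 0 → eval p H = 0 → ∃ i, p ∈ (ℂ ∙ z i) := by
    intro p hp hGp hHp
    by_contra hcon
    push Not at hcon
    apply hmax
    refine ⟨Fin.snoc z p, ?_, ?_, ?_, ?_⟩
    · intro i
      refine Fin.lastCases ?_ (fun j => ?_) i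
      · rw [Fin.snoc_last]; exact hp
      · rw [Fin.snoc_castSucc]; exact h0 j
    · intro i j
      refine Fin.lastCases ?_ (fun i' => ?_) i <;> refine Fin.lastCases ?_ (fun j' => ?_) j
      · intro h; exact absurd rfl h
      · intro _
        rw [Fin.snoc_last, Fin.snoc_castSucc]; exact hcon j'
      · intro _ hmem
        rw [Fin.snoc_last, Fin.snoc_castSucc] at hmem
        obtain ⟨a, ha⟩ := Submodule.mem_span_singleton.mp hmem
        have ha0 : a ≠ 0 := by
          rintro rfl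
          rw [zero_smul] at ha
          exact h0 i' ha.symm
        apply hcon i'
        rw [← ha]
        refine Submodule.mem_span_singleton.mpr ⟨a⁻¹, ?_⟩
        rw [smul_smul, inv_mul_cancel₀ ha0, one_smul]
      · intro hij
        rw [Fin.snoc_castSucc, Fin.snoc_castSucc]
        exact hz i' j' (fun h => hij (by rw [h]))
    · intro i
      refine Fin.lastCases ?_ (fun j => ?_) i
      · rw [Fin.snoc_last]; exact hGp
      · rw [Fin.snoc_castSucc]; exact hGz j
    · intro i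
      refine Fin.lastCases ?_ (fun j => ?_) i
      · rw [Fin.snoc_last]; exact hHp
      · rw [Fin.snoc_castSucc]; exact hHz j
  -- the form `(1, t, t ^ 2)`
  let q : Fin M → Polynomial ℂ := fun i =>
    Polynomial.C (z i 0) + Polynomial.C (z i 1) * Polynomial.X + Polynomial.C (z i 2) *
      Polynomial.X ^ 2
  have hq : ∀ i, q i ≠ 0 := by
    intro i h
    apply h0 i
    have c0 := congrArg (fun r => Polynomial.coeff r 0) h
    have c1 := congrArg (fun r => Polynomial.coeff r 1) h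
    have c2 := congrArg (fun r => Polynomial.coeff r 2) h
    simp [q, Polynomial.coeff_X, Polynomial.coeff_C, Polynomial.coeff_X_pow] at c0 c1 c2
    funext k
    fin_cases k
    · exact c0
    · exact c1
    · exact c2
  have hprod : (∏ i, q i) ≠ 0 := Finset.prod_ne_zero_iff.mpr fun i _ => hq i
  obtain ⟨t, ht⟩ : ∃ t : ℂ, (∏ i, q i).eval t ≠ 0 := by
    by_contra hcon
    push Not at hcon
    exact hprod (Polynomial.funext (by simpa using hcon))
  rw [Polynomial.eval_prod, Finset.prod_ne_zero_iff] at ht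
  let l : (Fin 3 → ℂ) →ₗ[ℂ] ℂ :=
    LinearMap.proj 0 + t • LinearMap.proj 1 + t ^ 2 • LinearMap.proj 2
  have hl : ∀ p, l p = p 0 + t * p 1 + t ^ 2 * p 2 := fun p => rfl
  refine ⟨l, ?_, ?_⟩
  · intro h
    have := hl (Pi.single 0 1)
    rw [h] at this
    simp at this
  · intro p hlp hGp hHp
    by_contra hp
    obtain ⟨i, hi⟩ := hcov p hp hGp hHp
    obtain ⟨a, ha⟩ := Submodule.mem_span_singleton.mp hi
    have ha0 : a ≠ 0 := by
      rintro rfl
      rw [zero_smul] at ha
      exact hp ha.symm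
    rw [← ha, map_smul, smul_eq_mul] at hlp
    have h1 := (mul_eq_zero.mp hlp).resolve_left ha0
    apply ht i (Finset.mem_univ i)
    rw [hl] at h1
    simp only [q, Polynomial.eval_add, Polynomial.eval_mul, Polynomial.eval_C, Polynomial.eval_X,
      Polynomial.eval_pow]
    linear_combination h1

/-- two linear forms with a given common kernel -/
theorem exists_two_forms {p : Fin 3 → ℂ} (hp : p ≠ 0) :
    ∃ l m : (Fin 3 → ℂ) →ₗ[ℂ] ℂ, l p = 0 ∧ m p = 0 ∧ l ≠ 0 ∧ (∃ z, l z = 0 ∧ m z ≠ 0) ∧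
      (∀ z, l z = 0 → m z = 0 → z ∈ (ℂ ∙ p)) ∧ (∀ a b : ℂ, ∃ τ, l τ = a ∧ m τ = b) := by
  classical
  obtain ⟨Q, hQ⟩ := Submodule.exists_isCompl (ℂ ∙ p)
  have hQ2 : finrank ℂ Q = 2 := by
    have := Submodule.finrank_add_eq_of_isCompl hQ
    rw [finrank_span_singleton hp] at this
    simp only [finrank_fintype_fun_eq_card, Fintype.card_fin] at this
    omega
  let b : Basis (Fin 2) ℂ Q := finBasisOfFinrankEq ℂ Q hQ2
  let pr : (Fin 3 → ℂ) →ₗ[ℂ] Q := Submodule.linearProjOfIsCompl Q (ℂ ∙ p) hQ.symm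
  have hpr : ∀ x : Q, pr x = x := fun x => Submodule.linearProjOfIsCompl_apply_left hQ.symm x
  have hker : ∀ x, pr x = 0 ↔ x ∈ (ℂ ∙ p) := fun x =>
    Submodule.linearProjOfIsCompl_apply_eq_zero_iff hQ.symm
  have hpp : pr p = 0 := (hker p).mpr (Submodule.mem_span_singleton_self p)
  let l := (b.coord 0).comp pr
  let m := (b.coord 1).comp pr
  have hl : ∀ x, l x = b.coord 0 (pr x) := fun x => rfl
  have hm : ∀ x, m x = b.coord 1 (pr x) := fun x => rfl
  have hsurj : ∀ a a' : ℂ, ∃ τ, l τ = a ∧ m τ = a' := by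
    intro a a'
    refine ⟨(a • b 0 + a' • b 1 : Q), ?_, ?_⟩
    · rw [hl, hpr]; simp
    · rw [hm, hpr]; simp
  refine ⟨l, m, ?_, ?_, ?_, ?_, ?_, hsurj⟩
  · rw [hl, hpp, map_zero]
  · rw [hm, hpp, map_zero]
  · intro h0
    obtain ⟨τ, h1, _⟩ := hsurj 1 0
    rw [h0] at h1
    simp at h1
  · obtain ⟨τ, h1, h2⟩ := hsurj 0 1
    exact ⟨τ, h1, by rw [h2]; exact one_ne_zero⟩
  · intro z h1 h2
    rw [← hker]
    have h3 := b.sum_repr (pr z)
    rw [Fin.sum_univ_two] at h3
    rw [← h3]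
    have h4 : b.repr (pr z) 0 = 0 := h1
    have h5 : b.repr (pr z) 1 = 0 := h2
    rw [h4, h5]; simp

/-- Noether's theorem for transversal curves -/
theorem noether {G H K : MvPolynomial (Fin 3) ℂ} {m e d : ℕ} (hG : G.IsHomogeneous m)
    (hH : H.IsHomogeneous e) (hK : K.IsHomogeneous d) (hrel : IsRelPrime G H) (hG0 : G ≠ 0)
    (hH0 : H ≠ 0)
    (htr : ∀ p, p ≠ 0 → eval p G = 0 → eval p H = 0 → ∀ τ, τ ∉ (ℂ ∙ p) →
      eval p (dv τ G) = 0 → eval p (dv τ H) = 0 → False)
    (hm : m ≠ 0) (he : e ≠ 0) (hd : d ≠ 0)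
    (hKz : ∀ p, p ≠ 0 → eval p G = 0 → eval p H = 0 → eval p K = 0) :
    ∃ u v, K = G * u + H * v := by
  classical
  obtain ⟨ℓ, hℓ, hℓz⟩ := exists_line_missing hG hH hrel hH0
  -- the quotient ideal
  let I : Ideal (MvPolynomial (Fin 3) ℂ) :=
    { carrier := {s | ∃ u v, s * K = G * u + H * v}
      add_mem' := by
        rintro a b ⟨u, v, h1⟩ ⟨u', v', h2⟩
        exact ⟨u + u', v + v', by rw [add_mul, h1, h2]; ring⟩
      zero_mem' := ⟨0, 0, by ring⟩
      smul_mem' := by
        rintro a b ⟨u, v, h1⟩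
        exact ⟨a * u, a * v, by rw [smul_eq_mul, mul_assoc, h1]; ring⟩ }
  have hI : ∀ s, s ∈ I ↔ ∃ u v, s * K = G * u + H * v := fun s => Iff.rfl
  have hz : zeroLocus ℂ I ⊆ {0} := by
    intro p hp
    rw [Set.mem_singleton_iff]
    by_contra hp0
    have hval : ∀ s ∈ I, eval p s = 0 := by
      intro s hs
      have := hp s hs
      rwa [aeval_eq_eval] at this
    have hGp : eval p G = 0 := hval G ((hI G).mpr ⟨K, 0, by ring⟩)
    have hHp : eval p H = 0 := hval H ((hI H).mpr ⟨0, K, by ring⟩)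
    have hKp := hKz p hp0 hGp hHp
    obtain ⟨l, n, hlp, hnp, hl0, hln, hker, hsurj⟩ := exists_two_forms hp0
    have hvan : ∀ {F : MvPolynomial (Fin 3) ℂ} {k : ℕ}, F.IsHomogeneous k → eval p F = 0 →
        k ≠ 0 → ∃ u v, F = linp l * u + linp n * v := by
      intro F k hF hFp hk
      apply mem_of_vanish hl0 hln
      intro z h1 h2
      obtain ⟨a, ha⟩ := Submodule.mem_span_singleton.mp (hker z h1 h2)
      rw [← ha, eval_smul_of_hom hF, hFp, mul_zero]
    obtain ⟨G1, G2, eG⟩ := hvan hG hGp hm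
    obtain ⟨H1, H2, eH⟩ := hvan hH hHp he
    obtain ⟨K1, K2, eK⟩ := hvan hK hKp hd
    have hs : G1 * H2 - G2 * H1 ∈ I := by
      refine (hI _).mpr ⟨H2 * K1 - H1 * K2, G1 * K2 - G2 * K1, ?_⟩
      rw [eG, eH, eK]; ring
    have hs0 := hval _ hs
    rw [map_sub, map_mul, map_mul] at hs0
    -- a common tangent direction
    obtain ⟨a, b, hab, ha1, ha2⟩ : ∃ a b : ℂ, (a ≠ 0 ∨ b ≠ 0) ∧
        a * eval p G1 + b * eval p G2 = 0 ∧ a * eval p H1 + b * eval p H2 = 0 := by
      by_cases h1 : eval p G2 = 0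
      · by_cases h2 : eval p G1 = 0
        · by_cases h3 : eval p H2 = 0
          · exact ⟨0, 1, Or.inr one_ne_zero, by rw [h1]; ring, by rw [h3]; ring⟩
          · exact ⟨eval p H2, - eval p H1, Or.inl h3, by rw [h1, h2]; ring, by ring⟩
        · have h3 : eval p H2 = 0 := by
            rw [h1] at hs0
            have : eval p G1 * eval p H2 = 0 := by linear_combination hs0
            exact (mul_eq_zero.mp this).resolve_left h2
          exact ⟨0, 1, Or.inr one_ne_zero, by rw [h1]; ring, by rw [h3]; ring⟩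
      · exact ⟨eval p G2, - eval p G1, Or.inl h1, by ring, by linear_combination -hs0⟩
    obtain ⟨τ, hlτ, hnτ⟩ := hsurj a b
    have hτ : τ ∉ (ℂ ∙ p) := by
      intro hmem
      obtain ⟨r, hr⟩ := Submodule.mem_span_singleton.mp hmem
      rw [← hr, map_smul, hlp, smul_zero] at hlτ
      rw [← hr, map_smul, hnp, smul_zero] at hnτ
      rcases hab with h | h
      · exact h hlτ.symm
      · exact h hnτ.symm
    have hder : ∀ {F F1 F2 : MvPolynomial (Fin 3) ℂ}, F = linp l * F1 + linp n * F2 →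
        eval p (dv τ F) = a * eval p F1 + b * eval p F2 := by
      intro F F1 F2 hF
      rw [hF, map_add, dv_mul, dv_mul]
      simp only [map_add, map_mul, eval_linp, eval_dv_linp, hlp, hnp, hlτ, hnτ]
      ring
    exact htr p hp0 hGp hHp τ hτ (by rw [hder eG]; exact ha1) (by rw [hder eH]; exact ha2)
  have hrad : linp ℓ ∈ I.radical := by
    rw [← vanishingIdeal_zeroLocus_eq_radical (K := ℂ), mem_vanishingIdeal_iff]
    intro x hx
    have hx0 : x = 0 := hz hx
    rw [hx0, aeval_eq_eval, eval_linp, map_zero]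
  obtain ⟨k, hk⟩ := hrad
  -- `ℓ` is not a zero divisor modulo the ideal
  have hndvd : ∀ a b : MvPolynomial (Fin 3) ℂ, linp ℓ * a = G * b → ∃ b', b = linp ℓ * b' := by
    intro a b hab
    have hp := (linp_irreducible hℓ).prime
    rcases hp.dvd_or_dvd ⟨a, hab.symm⟩ with h | h
    · exfalso
      obtain ⟨w, hw⟩ := h
      obtain ⟨x, hx0, hx1, hx2⟩ := exists_root_on_line (l := ℓ) (q := H) (eval_zero_of_hom hH he)
      apply hx0
      refine hℓz x hx1 ?_ hx2
      rw [hw, map_mul, eval_linp, hx1, zero_mul]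
    · exact h
  have hstep : ∀ s : MvPolynomial (Fin 3) ℂ, (∃ u v, linp ℓ * s = G * u + H * v) →
      ∃ u v, s = G * u + H * v := by
    rintro s ⟨u, v, h⟩
    obtain ⟨u', v', h1⟩ := regF hℓ hℓz (p := G) (q := H) (a := u) (b := v) ⟨s, h.symm⟩
    have h2 : linp ℓ * (s - H * u') = G * (u + H * v') := by
      rw [h1] at h
      linear_combination h
    obtain ⟨w, hw⟩ := hndvd _ _ h2
    refine ⟨w, u', ?_⟩
    rw [hw] at h2
    have h3 : linp ℓ * (s - H * u' - G * w) = 0 := by linear_combination h2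
    have h4 := (mul_eq_zero.mp h3).resolve_left (linp_ne_zero hℓ)
    linear_combination h4
  obtain ⟨u, v, huv⟩ := (hI _).mp hk
  -- descend the power
  have hdesc : ∀ k : ℕ, (∃ u v, linp ℓ ^ k * K = G * u + H * v) → ∃ u v, K = G * u + H * v := by
    intro k
    induction k with
    | zero =>
      rintro ⟨u, v, h⟩
      exact ⟨u, v, by rw [← h]; ring⟩
    | succ n ih =>
      rintro ⟨u, v, h⟩
      apply ih
      apply hstep
      exact ⟨u, v, by rw [← h]; ring⟩
  exact hdesc k ⟨u, v, huv⟩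

end Pool.Agent.Helper16
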