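import Mathlib
import Pool.Agent.Helper16.CubicBez2
import Pool.Agent.Helper16.CubicSing

set_option autoImplicit false
set_option linter.unusedVariables false
set_option linter.unusedSectionVars false

namespace Pool.Agent.Helper16

open MvPolynomial Module

section second

variable (σ τ p : Fin 3 → ℂ)

/-- second derivative of a product with four factors three of which vanish -/
theorem dd_zero3 {f g h k : MvPolynomial (Fin 3) ℂ} (hf : eval p f = 0) (hg : eval p g = 0)
    (hh : eval p h = 0) : eval p (dv σ (dv τ (f * g * h * k))) = 0 := by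
  simp only [dv_mul, map_add, map_mul, hf, hg, hh]
  ring

theorem dd_mul2 {f g k : MvPolynomial (Fin 3) ℂ} (hf : eval p f = 0) (hg : eval p g = 0) :
    eval p (dv σ (dv τ (f * g * k))) =
      (eval p (dv σ f) * eval p (dv τ g) + eval p (dv τ f) * eval p (dv σ g)) * eval p k := by
  simp only [dv_mul, map_add, map_mul, hf, hg]
  ring

theorem dd_prod {G H : MvPolynomial (Fin 3) ℂ} (hG : eval p G = 0) (hH : eval p H = 0)
    (h1 : eval p (dv τ G) = 0) (h2 : eval p (dv τ H) = 0) :
    eval p (dv σ (dv τ (G * H))) = 0 := by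
  simp only [dv_mul, map_add, map_mul, hG, hH, h1, h2]
  ring

end second

theorem det4_sym {S : Type*} [CommRing S] (a b c q00 q01 q10 q11 r00 r01 r11 : S) :
    Matrix.det !![a, b, q00, q01; b, c, q10, q11; q00, q10, r00, r01; q01, q11, r01, r11] =
      a * c * (r00 * r11 - r01 * r01) - b * b * (r00 * r11 - r01 * r01)
      - a * q10 * q10 * r11 + a * q10 * q11 * (2 * r01) - a * q11 * q11 * r00
      + b * q00 * q10 * (2 * r11) - b * q00 * q11 * (2 * r01) - b * q01 * q10 * (2 * r01)
      + b * q01 * q11 * (2 * r00)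
      - c * q00 * q00 * r11 + c * q00 * q01 * (2 * r01) - c * q01 * q01 * r00
      + q00 * q11 * q00 * q11 - q00 * q11 * q01 * (2 * q10) + q01 * q10 * q01 * q10 := by
  rw [Matrix.det_succ_row_zero]
  simp [Fin.sum_univ_succ, Matrix.det_fin_three, Fin.succAbove, Matrix.submatrix_apply]
  ring

/-- second derivative of the determinant at a point of corank two -/
theorem dd_det4 (σ τ p : Fin 3 → ℂ) (a b c q00 q01 q10 q11 r00 r01 r11 : MvPolynomial (Fin 3) ℂ)
    (ha : eval p a = 0) (hb : eval p b = 0) (hc : eval p c = 0) (h00 : eval p q00 = 0)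
    (h01 : eval p q01 = 0) (h10 : eval p q10 = 0) (h11 : eval p q11 = 0) :
    eval p (dv σ (dv τ (Matrix.det !![a, b, q00, q01; b, c, q10, q11; q00, q10, r00, r01;
      q01, q11, r01, r11]))) =
    (eval p (dv σ a) * eval p (dv τ c) + eval p (dv τ a) * eval p (dv σ c) -
      2 * (eval p (dv σ b) * eval p (dv τ b))) * (eval p r00 * eval p r11 - eval p r01 ^ 2) := by
  rw [det4_sym]
  simp only [map_add, map_sub]
  rw [dd_mul2 σ τ p ha hc, dd_mul2 σ τ p hb hb, dd_zero3 σ τ p ha h10 h10,
    dd_zero3 σ τ p ha h10 h11, dd_zero3 σ τ p ha h11 h11, dd_zero3 σ τ p hb h00 h10,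
    dd_zero3 σ τ p hb h00 h11, dd_zero3 σ τ p hb h01 h10, dd_zero3 σ τ p hb h01 h11,
    dd_zero3 σ τ p hc h00 h00, dd_zero3 σ τ p hc h00 h01, dd_zero3 σ τ p hc h01 h01,
    dd_zero3 σ τ p h00 h11 h00, dd_zero3 σ τ p h00 h11 h01, dd_zero3 σ τ p h01 h10 h01]
  simp only [map_sub, map_mul]
  ring

namespace Cub

variable {c : Cub (I6 → ℂ)}

/-- entries in a constant basis -/
noncomputable def ent (c : Cub (I6 → ℂ)) (x y : Fin 4 → ℂ) : R3 :=
  c.nf (X : Fin 3 → R3) (fun i => C (x i)) (fun i => C (y i))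

theorem ent_symm (x y : Fin 4 → ℂ) : c.ent x y = c.ent y x := c.nf_symm _ _ _

theorem ent_add_left (x x' y : Fin 4 → ℂ) : c.ent (x + x') y = c.ent x y + c.ent x' y := by
  unfold ent
  have : (fun i => (C ((x + x') i) : R3)) = (fun i => C (x i)) + fun i => C (x' i) := by
    funext i; simp
  rw [this, map_add, LinearMap.add_apply]

theorem ent_add_right (x y y' : Fin 4 → ℂ) : c.ent x (y + y') = c.ent x y + c.ent x y' := by
  rw [ent_symm, ent_add_left, ent_symm y, ent_symm y']

theorem eval_ent (b : Fin 3 → ℂ) (x y : Fin 4 → ℂ) : eval b (c.ent x y) = c.nf b x y := by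
  rw [← aeval_eq_eval, ent, map_nf]
  simp only [aeval_X, aeval_C, Algebra.algebraMap_self, RingHom.id_apply]

/-- derivative of an entry -/
theorem eval_dv_ent (σ b : Fin 3 → ℂ) (x y : Fin 4 → ℂ) :
    eval b (dv σ (c.ent x y)) = c.T (pt b x) (pt b y) (iZ ℂ σ) := by
  have hdiag : ∀ v : Fin 4 → ℂ, eval b (dv σ (c.ent v v)) = c.T (pt b v) (pt b v) (iZ ℂ σ) := by
    intro v
    rw [eval_dv]
    have h : iZ ℂ σ = ∑ k, σ k • iZ ℂ (Pi.single k 1) := by
      have h0 : σ = ∑ k, σ k • (Pi.single k 1 : Fin 3 → ℂ) := by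
        funext k
        simp only [Finset.sum_apply, Pi.smul_apply, smul_eq_mul, Pi.single_apply]
        simp
      conv_lhs => rw [h0]
      rw [map_sum]
      exact Finset.sum_congr rfl fun k _ => map_smul _ _ _
    rw [h, map_sum]
    refine Finset.sum_congr rfl fun k _ => ?_
    rw [map_smul, smul_eq_mul, ent, eval_pderiv_nf]
  have h1 := hdiag (x + y)
  have h2 := hdiag x
  have h3 := hdiag y
  rw [ent_add_left, ent_add_right, ent_add_right] at h1
  simp only [map_add, LinearMap.add_apply] at h1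
  rw [h2, h3, ent_symm y x, c.s12 (pt b y) (pt b x)] at h1
  linear_combination (1/2) * h1

end Cub

end Pool.Agent.Helper16
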