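import Mathlib
import Pool.Agent.Helper16.CubicTr
import Pool.Agent.Helper16.CubicA2
import Pool.Agent.Helper16.CubicB3

set_option autoImplicit false
set_option linter.unusedVariables false
set_option linter.unusedSectionVars false

namespace Pool.Agent.Helper16

open MvPolynomial Module

/-- a Gram determinant over the polynomial ring -/
theorem gram_det (M : Matrix (Fin 4) (Fin 4) R3) (B : Matrix (Fin 4) (Fin 4) ℂ) :
    (B.map (C : ℂ →+* R3)).transpose * M * B.map (C : ℂ →+* R3) =
      Matrix.of fun i j => ∑ k, ∑ l, C (B k i) * M k l * C (B l j) := by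
  ext1 i j
  rw [Matrix.mul_apply, Matrix.of_apply]
  simp only [Matrix.mul_apply, Matrix.transpose_apply, Matrix.map_apply, Finset.sum_mul]
  rw [Finset.sum_comm]

namespace Cub

variable {c : Cub (I6 → ℂ)}

theorem ent_eq (x y : Fin 4 → ℂ) :
    c.ent x y = ∑ k, ∑ l, C (x k) * c.Nm (X : Fin 3 → R3) k l * C (y l) := by
  rw [ent, nf_eq_dot]
  simp only [dotProduct, Matrix.mulVec, Finset.mul_sum]
  refine Finset.sum_congr rfl fun k _ => Finset.sum_congr rfl fun l _ => ?_
  ring

/-- the determinant in a basis -/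
theorem det_ent (e : Fin 4 → (Fin 4 → ℂ)) :
    Matrix.det (Matrix.of fun i j => c.ent (e i) (e j)) =
      C (Matrix.det (Matrix.of e) ^ 2) * c.disc := by
  have h : (Matrix.of fun i j => c.ent (e i) (e j)) =
      ((Matrix.of e).transpose.map (C : ℂ →+* R3)).transpose * c.Nm (X : Fin 3 → R3) *
        (Matrix.of e).transpose.map (C : ℂ →+* R3) := by
    rw [gram_det]
    ext1 i j
    rw [Matrix.of_apply, Matrix.of_apply, ent_eq]
    rfl
  rw [h, Matrix.det_mul, Matrix.det_mul, Matrix.det_transpose]
  have h2 : ((Matrix.of e).transpose.map (C : ℂ →+* R3)).det = C (Matrix.det (Matrix.of e)) := by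
    rw [← RingHom.mapMatrix_apply, ← RingHom.map_det, Matrix.det_transpose]
  rw [h2, map_pow, disc]; ring

/-- extension of two independent vectors to a basis of unit determinant -/
theorem exists_ext4 {v v' : Fin 4 → ℂ} (hli : LinearIndependent ℂ ![v, v']) :
    ∃ e : Fin 4 → (Fin 4 → ℂ), e 0 = v ∧ e 1 = v' ∧ Matrix.det (Matrix.of e) ≠ 0 := by
  classical
  obtain ⟨C', hC⟩ := Submodule.exists_isCompl (Submodule.span ℂ (Set.range ![v, v']))
  have hR2 : finrank ℂ (Submodule.span ℂ (Set.range ![v, v'])) = 2 := by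
    rw [finrank_span_eq_card hli]; simp
  have hC2 : finrank ℂ C' = 2 := by
    have := Submodule.finrank_add_eq_of_isCompl hC
    simp only [finrank_fintype_fun_eq_card, Fintype.card_fin] at this
    omega
  let b1 : Basis (Fin 2) ℂ (Submodule.span ℂ (Set.range ![v, v'])) := Basis.span hli
  let b2 : Basis (Fin 2) ℂ C' := finBasisOfFinrankEq ℂ C' hC2
  let w : Basis (Fin 2 ⊕ Fin 2) ℂ (Fin 4 → ℂ) :=
    (b1.prod b2).map (Submodule.prodEquivOfIsCompl _ _ hC)
  let w4 : Basis (Fin 4) ℂ (Fin 4 → ℂ) := w.reindex finSumFinEquiv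
  refine ⟨w4, ?_, ?_, ?_⟩
  · have : w4 0 = w (.inl 0) := by
      rw [Basis.reindex_apply]; rfl
    rw [this]
    simp [w, b1, Basis.span_apply]
  · have : w4 1 = w (.inl 1) := by
      rw [Basis.reindex_apply]; rfl
    rw [this]
    simp [w, b1, Basis.span_apply]
  · have hu := (Pi.basisFun ℂ (Fin 4)).isUnit_det w4
    rw [isUnit_iff_ne_zero] at hu
    intro h0
    apply hu
    rw [Basis.det_apply]
    have : (Pi.basisFun ℂ (Fin 4)).toMatrix w4 = (Matrix.of w4).transpose := by
      ext i j
      simp [Basis.toMatrix_apply]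
    rw [this, Matrix.det_transpose, h0]

/-- transversality of the components of the discriminant -/
theorem transversal (hP : c.Iso P0) {G H : R3} (hD : c.disc = G * H) {p : Fin 3 → ℂ}
    (hp : p ≠ 0) (hG : eval p G = 0) (hH : eval p H = 0) {τ : Fin 3 → ℂ} (hτ : τ ∉ (ℂ ∙ p))
    (h1 : eval p (dv τ G) = 0) (h2 : eval p (dv τ H) = 0) : False := by
  obtain ⟨v, v', hli, hv, hv'⟩ := sing hP hp (by rw [hD, map_mul, hG, zero_mul]) (by
    intro k
    rw [hD, Derivation.leibniz, smul_eq_mul, smul_eq_mul, map_add, map_mul, map_mul, hG, hH]; ring)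
  obtain ⟨e, he0, he1, hdet⟩ := exists_ext4 hli
  -- the complementary block is nondegenerate
  have hblock : c.nf p (e 2) (e 2) * c.nf p (e 3) (e 3) - c.nf p (e 2) (e 3) ^ 2 ≠ 0 := by
    intro h0
    -- a radical vector in the complement
    obtain ⟨s, t, hst, k2, k3⟩ : ∃ s t : ℂ, (s ≠ 0 ∨ t ≠ 0) ∧
        s * c.nf p (e 2) (e 2) + t * c.nf p (e 2) (e 3) = 0 ∧
        s * c.nf p (e 2) (e 3) + t * c.nf p (e 3) (e 3) = 0 := by
      by_cases ha : c.nf p (e 3) (e 3) = 0
      · have hb : c.nf p (e 2) (e 3) = 0 := by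
          rw [ha, mul_zero, zero_sub, neg_eq_zero] at h0
          exact pow_eq_zero_iff (two_ne_zero) |>.mp h0
        exact ⟨0, 1, Or.inr one_ne_zero, by rw [hb]; ring, by rw [ha, hb]; ring⟩
      · refine ⟨c.nf p (e 3) (e 3), - c.nf p (e 2) (e 3), Or.inl ha, ?_, by ring⟩
        linear_combination h0
    set w := s • e 2 + t • e 3 with hw
    have hdetLI : LinearIndependent ℂ e := by
      have := Matrix.linearIndependent_rows_of_det_ne_zero hdet
      exact this
    have hrad : c.Rad p w := by
      have hspan : ⊤ ≤ Submodule.span ℂ (Set.range e) :=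
        (hdetLI.span_eq_top_of_card_eq_finrank (by simp)).ge
      intro x
      obtain ⟨a, ha⟩ := (Submodule.mem_span_range_iff_exists_fun ℂ).mp (hspan (Submodule.mem_top (x := x)))
      rw [← ha, Fin.sum_univ_four]
      have r0 : c.nf p w (e 0) = 0 := by rw [he0, nf_symm]; exact hv w
      have r1 : c.nf p w (e 1) = 0 := by rw [he1, nf_symm]; exact hv' w
      have r2 : c.nf p w (e 2) = 0 := by
        rw [hw, map_add, LinearMap.add_apply, map_smul, map_smul, LinearMap.smul_apply,
          LinearMap.smul_apply, smul_eq_mul, smul_eq_mul, c.nf_symm p (e 3) (e 2)]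
        exact k2
      have r3 : c.nf p w (e 3) = 0 := by
        rw [hw, map_add, LinearMap.add_apply, map_smul, map_smul, LinearMap.smul_apply,
          LinearMap.smul_apply, smul_eq_mul, smul_eq_mul]
        exact k3
      rw [map_add, map_add, map_add, map_smul, map_smul, map_smul, map_smul, r0, r1, r2, r3]
      simp
    have hLI3 : LinearIndependent ℂ ![v, v', w] := by
      rw [Fintype.linearIndependent_iff]
      intro g hg
      rw [Fin.sum_univ_three] at hg
      have hg' : g 0 • v + g 1 • v' + g 2 • w = 0 := hg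
      have h4 := Fintype.linearIndependent_iff.mp hdetLI ![g 0, g 1, g 2 * s, g 2 * t] (by
        rw [Fin.sum_univ_four]
        change g 0 • e 0 + g 1 • e 1 + (g 2 * s) • e 2 + (g 2 * t) • e 3 = 0
        rw [he0, he1, ← hg', hw]; module)
      have a0 : g 0 = 0 := h4 0
      have a1 : g 1 = 0 := h4 1
      have a2 : g 2 * s = 0 := h4 2
      have a3 : g 2 * t = 0 := h4 3
      have a4 : g 2 = 0 := by
        rcases hst with h | h
        · exact (mul_eq_zero.mp a2).resolve_right h
        · exact (mul_eq_zero.mp a3).resolve_right h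
      intro i
      fin_cases i
      · exact a0
      · exact a1
      · exact a4
    refine rad3 hP hp (Submodule.span ℂ (Set.range ![v, v', w])) ?_ ?_
    · rw [finrank_span_eq_card hLI3]; simp
    · intro k hk x
      obtain ⟨a, ha⟩ := (Submodule.mem_span_range_iff_exists_fun ℂ).mp hk
      rw [Fin.sum_univ_three] at ha
      have ha' : a 0 • v + a 1 • v' + a 2 • w = k := ha
      rw [← ha', map_add, map_add, map_smul, map_smul, map_smul, LinearMap.add_apply,
        LinearMap.add_apply, LinearMap.smul_apply, LinearMap.smul_apply, LinearMap.smul_apply,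
        hv x, hv' x, hrad x]
      simp
  -- second derivatives
  let A : (Fin 3 → ℂ) → ℂ := fun σ => c.T (pt p v) (pt p v) (iZ ℂ σ)
  let Bm : (Fin 3 → ℂ) → ℂ := fun σ => c.T (pt p v) (pt p v') (iZ ℂ σ)
  let Cm : (Fin 3 → ℂ) → ℂ := fun σ => c.T (pt p v') (pt p v') (iZ ℂ σ)
  have hpol : ∀ σ, A σ * Cm τ + A τ * Cm σ - 2 * (Bm σ * Bm τ) = 0 := by
    intro σ
    have e1 := dd_prod σ τ p hG hH h1 h2
    rw [← hD] at e1
    have e2 : eval p (dv σ (dv τ (Matrix.det (Matrix.of fun i j => c.ent (e i) (e j))))) = 0 := by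
      rw [det_ent, ← smul_eq_C_mul, map_smul, map_smul, smul_eval, e1, mul_zero]
    have e3 : (Matrix.of fun i j => c.ent (e i) (e j)) =
        !![c.ent v v, c.ent v v', c.ent v (e 2), c.ent v (e 3);
          c.ent v v', c.ent v' v', c.ent v' (e 2), c.ent v' (e 3);
          c.ent v (e 2), c.ent v' (e 2), c.ent (e 2) (e 2), c.ent (e 2) (e 3);
          c.ent v (e 3), c.ent v' (e 3), c.ent (e 2) (e 3), c.ent (e 3) (e 3)] := by
      ext1 i j
      fin_cases i <;> fin_cases j
      · simp [he0]
      · simp [he0, he1]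
      · simp [he0]
      · simp [he0]
      · simp [he0, he1, ent_symm v' v]
      · simp [he1]
      · simp [he1]
      · simp [he1]
      · simp [he0, ent_symm (e 2) v]
      · simp [he1, ent_symm (e 2) v']
      · simp
      · simp
      · simp [he0, ent_symm (e 3) v]
      · simp [he1, ent_symm (e 3) v']
      · simp [ent_symm (e 3) (e 2)]
      · simp
    rw [e3, dd_det4 σ τ p] at e2
    · rw [eval_dv_ent, eval_dv_ent, eval_dv_ent, eval_dv_ent, eval_dv_ent, eval_dv_ent,
        eval_ent, eval_ent, eval_ent] at e2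
      exact (mul_eq_zero.mp e2).resolve_right hblock
    · rw [eval_ent]; exact hv v
    · rw [eval_ent]; exact hv v'
    · rw [eval_ent]; exact hv' v'
    · rw [eval_ent]; exact hv _
    · rw [eval_ent]; exact hv _
    · rw [eval_ent]; exact hv' _
    · rw [eval_ent]; exact hv' _
  -- radical vectors have nonzero differential
  have hsm : ∀ s t : ℂ, (s ≠ 0 ∨ t ≠ 0) →
      (∀ σ, s ^ 2 * A σ + 2 * s * t * Bm σ + t ^ 2 * Cm σ = 0) → False := by
    intro s t hst h
    have hrad : c.Rad p (s • v + t • v') := by
      intro x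
      rw [map_add, LinearMap.add_apply, map_smul, map_smul, LinearMap.smul_apply,
        LinearMap.smul_apply, hv x, hv' x, smul_zero, smul_zero, add_zero]
    have h0 := hrad.eq_zero hP hp (by
      intro k
      have := h (Pi.single k 1)
      rw [map_add (pt p), map_smul, map_smul]
      simp only [map_add, map_smul, LinearMap.add_apply, LinearMap.smul_apply, smul_eq_mul]
      rw [c.s12 (pt p v') (pt p v)]
      linear_combination this)
    rw [LinearIndependent.pair_iff] at hli
    have := hli s t h0
    rcases hst with h' | h'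
    · exact h' this.1
    · exact h' this.2
  -- the values at the point itself
  have hAp : A p = 0 := hv.T_Z
  have hCp : Cm p = 0 := hv'.T_Z
  have hBp : Bm p = 0 := by
    have hrad : c.Rad p (v + v') := by
      intro x
      rw [map_add, LinearMap.add_apply, hv x, hv' x, add_zero]
    have h3 := hrad.T_Z
    rw [map_add (pt p)] at h3
    simp only [map_add, LinearMap.add_apply] at h3
    rw [c.s12 (pt p v') (pt p v)] at h3
    have h4 : A p + Bm p + (Bm p + Cm p) = 0 := h3
    rw [hAp, hCp] at h4
    linear_combination (1/2) * h4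
  have hττ := hpol τ
  by_cases hC0 : Cm τ = 0
  · have hB0 : Bm τ = 0 := by
      rw [hC0] at hττ
      have : Bm τ * Bm τ = 0 := by linear_combination (-1/2) * hττ
      exact mul_self_eq_zero.mp this
    by_cases hA0 : A τ = 0
    · -- all three forms vanish at `p` and `τ`
      obtain ⟨l, hlp, hlτ⟩ := exists_lin_sep hτ
      -- a third vector
      obtain ⟨ρ, hρ⟩ : ∃ ρ : Fin 3 → ℂ, LinearIndependent ℂ ![p, τ, ρ] := by
        have h2 : LinearIndependent ℂ ![p, τ] := by
          rw [LinearIndependent.pair_iff' hp]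
          intro a ha
          apply hτ
          rw [← ha]
          exact Submodule.smul_mem _ _ (Submodule.mem_span_singleton_self _)
        obtain ⟨ρ, hρ⟩ := exists_d3_ne h2
        refine ⟨ρ, ?_⟩
        apply indep3
        intro a a' e he
        have he0 : e * d3 p τ ρ = 0 := by
          have h0 := congrFun he 0
          have h1 := congrFun he 1
          have h2 := congrFun he 2
          simp only [Pi.add_apply, Pi.smul_apply, smul_eq_mul, Pi.zero_apply] at h0 h1 h2
          simp only [d3]
          linear_combination (p 1 * τ 2 - p 2 * τ 1) * h0 + (p 2 * τ 0 - p 0 * τ 2) * h1 +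
            (p 0 * τ 1 - p 1 * τ 0) * h2
        have he1 : e = 0 := (mul_eq_zero.mp he0).resolve_right hρ
        rw [he1, zero_smul, add_zero] at he
        rw [LinearIndependent.pair_iff] at h2
        have := h2 a a' he
        exact ⟨this.1, this.2, he1⟩
      -- an isotropic combination for the value at `ρ`
      let Bρ : (Fin 4 → ℂ) →ₗ[ℂ] (Fin 4 → ℂ) →ₗ[ℂ] ℂ :=
        LinearMap.mk₂ ℂ (fun x y => c.T (pt p x) (pt p y) (iZ ℂ ρ))
          (by intro a b d; simp only [map_add, LinearMap.add_apply])
          (by intro r a b; simp only [map_smul, LinearMap.smul_apply])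
          (by intro a b d; simp only [map_add, LinearMap.add_apply])
          (by intro r a b; simp only [map_smul, LinearMap.smul_apply])
      obtain ⟨s, t, hne, hst⟩ := Q1 Bρ v v' hli
      have hst' : s ≠ 0 ∨ t ≠ 0 := by
        by_contra hcon
        push Not at hcon
        apply hne
        rw [hcon.1, hcon.2]; simp
      refine hsm s t hst' fun σ => ?_
      have hρ0 : s ^ 2 * A ρ + 2 * s * t * Bm ρ + t ^ 2 * Cm ρ = 0 := by
        have h5 : Bρ (s • v + t • v') (s • v + t • v') =
            s ^ 2 * A ρ + 2 * s * t * Bm ρ + t ^ 2 * Cm ρ := by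
          change c.T (pt p (s • v + t • v')) (pt p (s • v + t • v')) (iZ ℂ ρ) = _
          rw [map_add (pt p), map_smul, map_smul]
          simp only [map_add, map_smul, LinearMap.add_apply, LinearMap.smul_apply, smul_eq_mul]
          rw [c.s12 (pt p v') (pt p v)]
          ring
        rw [← h5]; exact hst
      obtain ⟨a1, a2, a3, ha⟩ := span3 hρ σ
      have hlin : ∀ F : (Fin 3 → ℂ) →ₗ[ℂ] ℂ, F p = 0 → F τ = 0 → F σ = a3 * F ρ := by
        intro F h1 h2
        rw [ha, map_add, map_add, map_smul, map_smul, map_smul, h1, h2]; simp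
      have f1 := hlin ((c.T (pt p v) (pt p v)).comp (iZ ℂ)) hAp hA0
      have f2 := hlin ((c.T (pt p v) (pt p v')).comp (iZ ℂ)) hBp hB0
      have f3 := hlin ((c.T (pt p v') (pt p v')).comp (iZ ℂ)) hCp hC0
      have f1' : A σ = a3 * A ρ := f1
      have f2' : Bm σ = a3 * Bm ρ := f2
      have f3' : Cm σ = a3 * Cm ρ := f3
      rw [f1', f2', f3']
      linear_combination a3 * hρ0
    · refine hsm 0 1 (Or.inr one_ne_zero) fun σ => ?_
      have h5 := hpol σ
      rw [hC0, hB0] at h5
      have h6 : A τ * Cm σ = 0 := by linear_combination h5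
      have h7 := (mul_eq_zero.mp h6).resolve_left hA0
      rw [h7]; ring
  · refine hsm (Cm τ) (- Bm τ) (Or.inl hC0) fun σ => ?_
    have h5 := hpol σ
    linear_combination (Cm τ) * h5 - (1/2) * Cm σ * hττ

end Cub

end Pool.Agent.Helper16
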