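import Mathlib
import Pool.Agent.Helper16.CubicNoether
import Pool.Agent.Helper16.CubicTr2
import Pool.Agent.Helper16.CubicB

set_option autoImplicit false
set_option linter.unusedVariables false
set_option linter.unusedSectionVars false

namespace Pool.Agent.Helper16

open MvPolynomial Module

/-- homogeneity with integral degrees -/
def HZ (p : R3) (d : ℤ) : Prop := p = 0 ∨ (0 ≤ d ∧ p.IsHomogeneous d.toNat)

namespace HZ

theorem zero (d : ℤ) : HZ 0 d := Or.inl rfl

theorem of_hom {p : R3} {n : ℕ} (h : p.IsHomogeneous n) : HZ p n :=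
  Or.inr ⟨Int.natCast_nonneg n, by rw [Int.toNat_natCast]; exact h⟩

theorem mul {p q : R3} {d e : ℤ} (hp : HZ p d) (hq : HZ q e) : HZ (p * q) (d + e) := by
  rcases hp with rfl | ⟨hd, hp⟩
  · rw [zero_mul]; exact zero _
  rcases hq with rfl | ⟨he, hq⟩
  · rw [mul_zero]; exact zero _
  · right
    refine ⟨by omega, ?_⟩
    have : (d + e).toNat = d.toNat + e.toNat := by omega
    rw [this]; exact hp.mul hq

theorem add {p q : R3} {d : ℤ} (hp : HZ p d) (hq : HZ q d) : HZ (p + q) d := by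
  rcases hp with rfl | ⟨hd, hp⟩
  · rw [zero_add]; exact hq
  rcases hq with rfl | ⟨he, hq⟩
  · rw [add_zero]; exact Or.inr ⟨hd, hp⟩
  · exact Or.inr ⟨hd, hp.add hq⟩

theorem C_mul {p : R3} {d : ℤ} (a : ℂ) (hp : HZ p d) : HZ (C a * p) d := by
  rcases hp with rfl | ⟨hd, hp⟩
  · rw [mul_zero]; exact zero _
  · exact Or.inr ⟨hd, hp.C_mul a⟩

theorem neg {p : R3} {d : ℤ} (hp : HZ p d) : HZ (-p) d := by
  rcases hp with rfl | ⟨hd, hp⟩
  · rw [neg_zero]; exact zero _
  · exact Or.inr ⟨hd, hp.neg⟩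

theorem sub {p q : R3} {d : ℤ} (hp : HZ p d) (hq : HZ q d) : HZ (p - q) d := by
  rw [sub_eq_add_neg]; exact hp.add hq.neg

theorem sum {ι : Type*} (s : Finset ι) (f : ι → R3) {d : ℤ} (h : ∀ i ∈ s, HZ (f i) d) :
    HZ (∑ i ∈ s, f i) d := by
  classical
  induction s using Finset.induction_on with
  | empty => rw [Finset.sum_empty]; exact zero _
  | insert a s ha ih =>
    rw [Finset.sum_insert ha]
    exact (h a (Finset.mem_insert_self a s)).add
      (ih fun i hi => h i (Finset.mem_insert_of_mem hi))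

theorem eq_zero {p : R3} {d : ℤ} (hp : HZ p d) (hd : d < 0) : p = 0 := by
  rcases hp with h | ⟨h, _⟩
  · exact h
  · omega

theorem congr {p : R3} {d e : ℤ} (hp : HZ p d) (h : d = e) : HZ p e := h ▸ hp

theorem of_mul {G Q : R3} {m : ℕ} {d : ℤ} (hG : G.IsHomogeneous m) (hG0 : G ≠ 0)
    (h : HZ (G * Q) d) : HZ Q (d - m) := by
  by_cases hQ : Q = 0
  · exact Or.inl hQ
  rcases h with h | ⟨hd, h⟩
  · exact absurd ((mul_eq_zero.mp h).resolve_left hG0) hQ
  · obtain ⟨a, b, ha, hb, hab⟩ := hom_factor h (mul_ne_zero hG0 hQ)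
    have : a = m := ha.inj_right hG hG0
    right
    refine ⟨by omega, ?_⟩
    have h2 : (d - m).toNat = b := by omega
    rw [h2]; exact hb

theorem dvd_zero {G P : R3} {m : ℕ} {d : ℤ} (hG : G.IsHomogeneous m) (hG0 : G ≠ 0)
    (hP : HZ P d) (hd : d < m) (h : G ∣ P) : P = 0 := by
  obtain ⟨Q, rfl⟩ := h
  have := (of_mul hG hG0 hP).eq_zero (by omega)
  rw [this, mul_zero]

end HZ

/-- homogeneous form of an ideal membership -/
theorem hom_comb {G H K : R3} {m e d : ℕ} (hG : G.IsHomogeneous m) (hH : H.IsHomogeneous e)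
    (hK : K.IsHomogeneous d) (h : ∃ u v, K = G * u + H * v) :
    ∃ u v, HZ u ((d : ℤ) - m) ∧ HZ v ((d : ℤ) - e) ∧ K = G * u + H * v := by
  obtain ⟨u, v, h⟩ := h
  have key : ∀ {F : R3} {k : ℕ} (hF : F.IsHomogeneous k) (r : R3), ∃ r', HZ r' ((d : ℤ) - k) ∧
      homogeneousComponent d (F * r) = F * r' := by
    intro F k hF r
    by_cases hkd : k ≤ d
    · refine ⟨homogeneousComponent (d - k) r, ?_, ?_⟩
      · have := HZ.of_hom (homogeneousComponent_isHomogeneous (d - k) r)
        refine this.congr (by omega)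
      · have := hc_mul (j := d - k) (g := r) hF
        rwa [Nat.add_sub_cancel' hkd] at this
    · refine ⟨0, HZ.zero _, ?_⟩
      rw [hc_mul_zero hF (by omega), mul_zero]
  obtain ⟨u', hu', eu⟩ := key hG u
  obtain ⟨v', hv', ev⟩ := key hH v
  refine ⟨u', v', hu', hv', ?_⟩
  have e1 : homogeneousComponent d K = K := by
    rw [homogeneousComponent_of_mem ((mem_homogeneousSubmodule _ _).mpr hK), if_pos rfl]
  rw [← e1, h, map_add, eu, ev]

/-- the weights -/
def wt : Fin 4 → ℤ := ![1, 1, 1, 0]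

theorem wt_cases (i : Fin 4) : (i ≠ 3 ∧ wt i = 1) ∨ (i = 3 ∧ wt i = 0) := by
  fin_cases i <;> simp [wt]

namespace Cub

variable {c : Cub (I6 → ℂ)}

theorem Nm_scale (a : ℂ) (z : Fin 3 → ℂ) :
    c.Nm (a • z) = a • (Matrix.diagonal ![1, 1, 1, a] * c.Nm z *
      Matrix.diagonal ![1, 1, 1, a]) := by
  ext i j
  rw [Matrix.smul_apply, Matrix.mul_diagonal, Matrix.diagonal_mul, Nm_apply, Nm_apply,
    nf_scale, smul_eq_mul]
  have e : ∀ i : Fin 4, mk4 (fun m => (Pi.single i 1 : Fin 4 → ℂ) m.castSucc)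
      (a * (Pi.single i 1 : Fin 4 → ℂ) 3) = (![1, 1, 1, a] : Fin 4 → ℂ) i • Pi.single i 1 := by
    intro i
    funext m
    fin_cases i <;> fin_cases m <;> simp [mk4]
  rw [e, e, map_smul, map_smul, LinearMap.smul_apply, smul_eq_mul, smul_eq_mul]
  ring

theorem Nm_hz (i j : Fin 4) : HZ (c.Nm (X : Fin 3 → R3) i j) (3 - wt i - wt j) := by
  have hev : ∀ z, eval z (c.Nm (X : Fin 3 → R3) i j) = c.Nm z i j := by
    intro z
    have := congrFun (congrFun (c.Nm_eval z) i) j
    rwa [Matrix.map_apply] at this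
  have key : ∀ n : ℕ, (∀ (a : ℂ) (z : Fin 3 → ℂ), a * ((![1, 1, 1, a] : Fin 4 → ℂ) i *
      c.Nm z i j * (![1, 1, 1, a] : Fin 4 → ℂ) j) = a ^ n * c.Nm z i j) →
      HZ (c.Nm (X : Fin 3 → R3) i j) n := by
    intro n hn
    apply HZ.of_hom
    apply isHomogeneous_of_eval
    intro a z
    rw [hev, hev, Nm_scale, Matrix.smul_apply, Matrix.mul_diagonal, Matrix.diagonal_mul,
      smul_eq_mul]
    exact hn a z
  rcases wt_cases i with ⟨hi, wi⟩ | ⟨hi, wi⟩ <;> rcases wt_cases j with ⟨hj, wj⟩ | ⟨hj, wj⟩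
  · refine (key 1 ?_).congr (by rw [wi, wj]; norm_num)
    intro a z
    have e1 : (![1, 1, 1, a] : Fin 4 → ℂ) i = 1 := by fin_cases i <;> simp at hi ⊢
    have e2 : (![1, 1, 1, a] : Fin 4 → ℂ) j = 1 := by fin_cases j <;> simp at hj ⊢
    rw [e1, e2]; ring
  · refine (key 2 ?_).congr (by rw [wi, wj]; norm_num)
    intro a z
    have e1 : (![1, 1, 1, a] : Fin 4 → ℂ) i = 1 := by fin_cases i <;> simp at hi ⊢
    have e2 : (![1, 1, 1, a] : Fin 4 → ℂ) j = a := by rw [hj]; rfl
    rw [e1, e2]; ring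
  · refine (key 2 ?_).congr (by rw [wi, wj]; norm_num)
    intro a z
    have e1 : (![1, 1, 1, a] : Fin 4 → ℂ) i = a := by rw [hi]; rfl
    have e2 : (![1, 1, 1, a] : Fin 4 → ℂ) j = 1 := by fin_cases j <;> simp at hj ⊢
    rw [e1, e2]; ring
  · refine (key 3 ?_).congr (by rw [wi, wj]; norm_num)
    intro a z
    have e1 : (![1, 1, 1, a] : Fin 4 → ℂ) i = a := by rw [hi]; rfl
    have e2 : (![1, 1, 1, a] : Fin 4 → ℂ) j = a := by rw [hj]; rfl
    rw [e1, e2]; ring

theorem adj_scale (a : ℂ) (z : Fin 3 → ℂ) (i j : Fin 4) :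
    (c.Nm (a • z)).adjugate i j = a ^ 3 * ((![a, a, a, 1] : Fin 4 → ℂ) i *
      (c.Nm z).adjugate i j * (![a, a, a, 1] : Fin 4 → ℂ) j) := by
  have e3 : ∏ i ∈ Finset.univ.erase (3 : Fin 4), (![1, 1, 1, a] : Fin 4 → ℂ) i = 1 := by
    rw [Finset.prod_eq_one]
    intro i hi
    have := Finset.ne_of_mem_erase hi
    fin_cases i <;> simp at this ⊢
  have e4 : ∀ j : Fin 4, ∏ i ∈ Finset.univ.erase j, (![1, 1, 1, a] : Fin 4 → ℂ) i =
      (![a, a, a, 1] : Fin 4 → ℂ) j := by
    intro j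
    by_cases hj : j = 3
    · subst hj; rw [e3]; rfl
    · rw [Finset.prod_eq_single 3]
      · fin_cases j <;> simp at hj ⊢
      · intro i hi hi3
        fin_cases i <;> simp at hi3 ⊢
      · intro h
        exfalso; apply h
        rw [Finset.mem_erase]
        exact ⟨fun h => hj h.symm, Finset.mem_univ _⟩
  rw [Nm_scale, Matrix.adjugate_smul, Matrix.adjugate_mul_distrib, Matrix.adjugate_mul_distrib,
    Matrix.adjugate_diagonal, Matrix.smul_apply, Matrix.diagonal_mul, Matrix.mul_diagonal, e4, e4,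
    smul_eq_mul, Fintype.card_fin]
  ring

theorem adj_hom (i j : Fin 4) : ∃ n : ℕ, (n : ℤ) = 3 + wt i + wt j ∧
    ((c.Nm (X : Fin 3 → R3)).adjugate i j).IsHomogeneous n := by
  have key : ∀ n : ℕ, (∀ (a r : ℂ), a ^ 3 * ((![a, a, a, 1] : Fin 4 → ℂ) i *
      r * (![a, a, a, 1] : Fin 4 → ℂ) j) = a ^ n * r) →
      ((c.Nm (X : Fin 3 → R3)).adjugate i j).IsHomogeneous n := by
    intro n hn
    apply isHomogeneous_of_eval
    intro a z
    rw [c.eval_adj, c.eval_adj, adj_scale]
    exact hn a _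
  rcases wt_cases i with ⟨hi, wi⟩ | ⟨hi, wi⟩ <;> rcases wt_cases j with ⟨hj, wj⟩ | ⟨hj, wj⟩
  · refine ⟨5, by rw [wi, wj]; norm_num, key 5 ?_⟩
    intro a z
    have e1 : (![a, a, a, 1] : Fin 4 → ℂ) i = a := by fin_cases i <;> simp at hi ⊢
    have e2 : (![a, a, a, 1] : Fin 4 → ℂ) j = a := by fin_cases j <;> simp at hj ⊢
    rw [e1, e2]; ring
  · refine ⟨4, by rw [wi, wj]; norm_num, key 4 ?_⟩
    intro a z
    have e1 : (![a, a, a, 1] : Fin 4 → ℂ) i = a := by fin_cases i <;> simp at hi ⊢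
    have e2 : (![a, a, a, 1] : Fin 4 → ℂ) j = 1 := by rw [hj]; rfl
    rw [e1, e2]; ring
  · refine ⟨4, by rw [wi, wj]; norm_num, key 4 ?_⟩
    intro a z
    have e1 : (![a, a, a, 1] : Fin 4 → ℂ) i = 1 := by rw [hi]; rfl
    have e2 : (![a, a, a, 1] : Fin 4 → ℂ) j = a := by fin_cases j <;> simp at hj ⊢
    rw [e1, e2]; ring
  · refine ⟨3, by rw [wi, wj]; norm_num, key 3 ?_⟩
    intro a z
    have e1 : (![a, a, a, 1] : Fin 4 → ℂ) i = 1 := by rw [hi]; rfl
    have e2 : (![a, a, a, 1] : Fin 4 → ℂ) j = 1 := by rw [hj]; rfl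
    rw [e1, e2]; ring

/-- the idempotent attached to a factorisation of the discriminant -/
theorem idem2 (hP : c.Iso P0) {G H : R3} {m e : ℕ} (hG : G.IsHomogeneous m)
    (hH : H.IsHomogeneous e) (hme : m + e = 6) (hm : m ≠ 0) (he : e ≠ 0)
    (hD : c.disc = G * H) (hrel : IsRelPrime G H) :
    ∃ E U V : Matrix (Fin 4) (Fin 4) R3, (∀ i j, HZ (E i j) (wt j - wt i)) ∧ E * E = E ∧
      E * c.Nm (X : Fin 3 → R3) = c.Nm (X : Fin 3 → R3) * E.transpose ∧ E ≠ 0 ∧ E ≠ 1 ∧
      U * c.Nm (X : Fin 3 → R3) = H • E.transpose ∧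
      V * c.Nm (X : Fin 3 → R3) = G • (1 - E).transpose := by
  classical
  set N := c.Nm (X : Fin 3 → R3) with hN
  have hNs : N.transpose = N := c.Nm_symm _
  have hDet : N.det = G * H := hD
  have hD0 : G * H ≠ 0 := by rw [← hD]; exact disc_ne_zero hP
  have hG0 : G ≠ 0 := left_ne_zero_of_mul hD0
  have hH0 : H ≠ 0 := right_ne_zero_of_mul hD0
  have hC2 : ∀ p, p ≠ 0 → eval p G = 0 → eval p H = 0 → c.C2 p := by
    intro p hp hGp hHp
    refine sing hP hp (by rw [hD, map_mul, hGp, zero_mul]) ?_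
    intro k
    rw [hD, Derivation.leibniz, smul_eq_mul, smul_eq_mul, map_add, map_mul, map_mul, hGp, hHp]
    ring
  -- the entries of the adjugate
  have hadj : ∀ i j, ∃ u v, HZ u (3 + wt i + wt j - m) ∧ HZ v (3 + wt i + wt j - e) ∧
      N.adjugate i j = G * u + H * v := by
    intro i j
    obtain ⟨n, hn, hhom⟩ := c.adj_hom i j
    have hn0 : n ≠ 0 := by
      rcases wt_cases i with ⟨_, wi⟩ | ⟨_, wi⟩ <;> rcases wt_cases j with ⟨_, wj⟩ | ⟨_, wj⟩ <;>
        rw [wi, wj] at hn <;> omega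
    have h1 := noether hG hH hhom hrel hG0 hH0
      (fun p hp hGp hHp τ hτ h1 h2 => transversal hP hD hp hGp hHp hτ h1 h2) hm he hn0
      (fun p hp hGp hHp => by
        obtain ⟨v, v', hli, hv, hv'⟩ := hC2 p hp hGp hHp
        rw [c.eval_adj]
        exact adj_zero (n := 3) _ hli ((c.rad_iff p v).mp hv) ((c.rad_iff p v').mp hv') i j)
    obtain ⟨u, v, hu, hv, huv⟩ := hom_comb hG hH hhom h1
    exact ⟨u, v, hu.congr (by rw [hn]), hv.congr (by rw [hn]), huv⟩
  choose U' V' hU' hV' hUV' using hadj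
  -- symmetrisation
  let U : Matrix (Fin 4) (Fin 4) R3 := Matrix.of fun i j => C (1/2) * (U' i j + U' j i)
  let V : Matrix (Fin 4) (Fin 4) R3 := Matrix.of fun i j => C (1/2) * (V' i j + V' j i)
  have hUh : ∀ i j, HZ (U i j) (3 + wt i + wt j - m) := fun i j =>
    ((hU' i j).add ((hU' j i).congr (by ring))).C_mul _
  have hVh : ∀ i j, HZ (V i j) (3 + wt i + wt j - e) := fun i j =>
    ((hV' i j).add ((hV' j i).congr (by ring))).C_mul _
  have hUs : U.transpose = U := by
    ext1 i j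
    simp only [U, Matrix.transpose_apply, Matrix.of_apply, add_comm]
  have hVs : V.transpose = V := by
    ext1 i j
    simp only [V, Matrix.transpose_apply, Matrix.of_apply, add_comm]
  have hadjs : N.adjugate.transpose = N.adjugate := by
    rw [Matrix.adjugate_transpose, hNs]
  have h2 : (C (1/2) * 2 : R3) = 1 := by
    have : (2 : R3) = C 2 := (map_ofNat (C : ℂ →+* R3) 2).symm
    rw [this, ← C_mul]; norm_num
  have hAUV : N.adjugate = G • U + H • V := by
    ext1 i j
    have e1 := hUV' i j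
    have e2 := hUV' j i
    have e3 : N.adjugate j i = N.adjugate i j := by
      conv_rhs => rw [← hadjs]
      rfl
    rw [e3] at e2
    simp only [Matrix.add_apply, Matrix.smul_apply, smul_eq_mul, U, V, Matrix.of_apply]
    have e4 : N.adjugate i j = C (1/2) * 2 * N.adjugate i j := by rw [h2, one_mul]
    rw [e4]
    linear_combination C (1/2) * e1 + C (1/2) * e2
  have hme' : (m : ℤ) + e = 6 := by exact_mod_cast hme
  have hmain : G • (N * U) + H • (N * V) = (G * H) • (1 : Matrix (Fin 4) (Fin 4) R3) := by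
    rw [← hDet, ← Matrix.mul_adjugate, hAUV, mul_add, Matrix.mul_smul, Matrix.mul_smul]
  have hent : ∀ i j, G * (N * U) i j + H * (N * V) i j =
      G * H * (1 : Matrix (Fin 4) (Fin 4) R3) i j := by
    intro i j
    have := congrFun (congrFun hmain i) j
    simpa only [Matrix.add_apply, Matrix.smul_apply, smul_eq_mul] using this
  have hHd : ∀ i j, H ∣ (N * U) i j := by
    intro i j
    apply hrel.symm.dvd_of_dvd_mul_left
    exact ⟨G * (1 : Matrix (Fin 4) (Fin 4) R3) i j - (N * V) i j, by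
      linear_combination hent i j⟩
  have hGd : ∀ i j, G ∣ (N * V) i j := by
    intro i j
    apply hrel.dvd_of_dvd_mul_left
    exact ⟨H * (1 : Matrix (Fin 4) (Fin 4) R3) i j - (N * U) i j, by
      linear_combination hent i j⟩
  choose E' hE' using hHd
  choose E hE using hGd
  let Em : Matrix (Fin 4) (Fin 4) R3 := Matrix.of E'
  let Fm : Matrix (Fin 4) (Fin 4) R3 := Matrix.of E
  have hNU : N * U = H • Em := by
    ext1 i j
    rw [hE', Matrix.smul_apply, smul_eq_mul]; rfl
  have hNV : N * V = G • Fm := by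
    ext1 i j
    rw [hE, Matrix.smul_apply, smul_eq_mul]; rfl
  have hsum : Em + Fm = 1 := by
    ext1 i j
    have h3 := hent i j
    rw [hNU, hNV] at h3
    simp only [Matrix.smul_apply, smul_eq_mul] at h3
    have h4 : G * H * ((Em + Fm) i j - (1 : Matrix (Fin 4) (Fin 4) R3) i j) = 0 := by
      rw [Matrix.add_apply]
      linear_combination h3
    exact sub_eq_zero.mp ((mul_eq_zero.mp h4).resolve_left hD0)
  have hNUh : ∀ i j, HZ ((N * U) i j) (6 - m + wt j - wt i) := by
    intro i j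
    rw [Matrix.mul_apply]
    refine HZ.sum _ _ fun k _ => ?_
    exact ((c.Nm_hz i k).mul (hUh k j)).congr (by ring)
  have hEmh : ∀ i j, HZ (Em i j) (wt j - wt i) := by
    intro i j
    have h3 := hNUh i j
    rw [hE'] at h3
    exact (HZ.of_mul hH hH0 h3).congr (by omega)
  have hNVh : ∀ i j, HZ ((N * V) i j) (6 - e + wt j - wt i) := by
    intro i j
    rw [Matrix.mul_apply]
    refine HZ.sum _ _ fun k _ => ?_
    exact ((c.Nm_hz i k).mul (hVh k j)).congr (by ring)
  have hFmh : ∀ i j, HZ (Fm i j) (wt j - wt i) := by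
    intro i j
    have h3 := hNVh i j
    rw [hE] at h3
    exact (HZ.of_mul hG hG0 h3).congr (by omega)
  have hUN : U * N = H • Em.transpose := by
    have := congrArg Matrix.transpose hNU
    rwa [Matrix.transpose_mul, hNs, hUs, Matrix.transpose_smul] at this
  have hVN : V * N = G • Fm.transpose := by
    have := congrArg Matrix.transpose hNV
    rwa [Matrix.transpose_mul, hNs, hVs, Matrix.transpose_smul] at this
  have hcross : H • (Em.transpose * V) = G • (U * Fm) := by
    have h3 : U * N * V = U * (N * V) := Matrix.mul_assoc _ _ _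
    rw [hUN, hNV, Matrix.smul_mul, Matrix.mul_smul] at h3
    exact h3
  have hEV : Em.transpose * V = 0 := by
    ext1 i j
    have hh : HZ ((Em.transpose * V) i j) (3 + wt i + wt j - e) := by
      rw [Matrix.mul_apply]
      refine HZ.sum _ _ fun k _ => ?_
      rw [Matrix.transpose_apply]
      exact ((hEmh k i).mul (hVh k j)).congr (by ring)
    refine HZ.dvd_zero hG hG0 hh ?_ ?_
    · have w1 : wt i ≤ 1 := by rcases wt_cases i with ⟨_, w⟩ | ⟨_, w⟩ <;> omega
      have w2 : wt j ≤ 1 := by rcases wt_cases j with ⟨_, w⟩ | ⟨_, w⟩ <;> omega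
      omega
    · apply hrel.dvd_of_dvd_mul_left
      have := congrFun (congrFun hcross i) j
      simp only [Matrix.smul_apply, smul_eq_mul] at this
      exact ⟨_, this⟩
  have hEF : Fm * Em = 0 := by
    have h3 : Em.transpose * (V * N) = 0 := by rw [← Matrix.mul_assoc, hEV, Matrix.zero_mul]
    rw [hVN, Matrix.mul_smul] at h3
    have h4 : Em.transpose * Fm.transpose = 0 := by
      ext1 i j
      have := congrFun (congrFun h3 i) j
      simp only [Matrix.smul_apply, smul_eq_mul, Matrix.zero_apply] at this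
      exact (mul_eq_zero.mp this).resolve_left hG0
    have h5 := congrArg Matrix.transpose h4
    rw [← Matrix.transpose_mul, Matrix.transpose_transpose, Matrix.transpose_zero] at h5
    exact h5
  have hEE : Em * Em = Em := by
    have h3 : (Em + Fm) * Em = Em := by rw [hsum, Matrix.one_mul]
    rw [Matrix.add_mul, hEF, add_zero] at h3
    exact h3
  have hEN : Em * N = N * Em.transpose := by
    have h3 : N * U * N = N * (U * N) := Matrix.mul_assoc _ _ _
    rw [hNU, hUN, Matrix.smul_mul, Matrix.mul_smul] at h3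
    ext1 i j
    have := congrFun (congrFun h3 i) j
    simp only [Matrix.smul_apply, smul_eq_mul] at this
    exact mul_left_cancel₀ hH0 this
  have hunit : ∀ {F F' : R3} {k : ℕ}, F'.IsHomogeneous k → k ≠ 0 → F' ≠ 0 → IsRelPrime F F' →
      F' ∣ F ^ 3 → False := by
    intro F F' k hF' hk hF'0 hr hd
    have h3 : IsRelPrime (F ^ 3) F' := hr.pow_left
    have hu : IsUnit F' := h3 hd dvd_rfl
    have h4 := MvPolynomial.isUnit_iff_totalDegree_of_isReduced.mp hu
    have h5 := hF'.totalDegree hF'0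
    omega
  have hzero : ∀ {W : Matrix (Fin 4) (Fin 4) R3}, N * W = 0 → W = 0 := by
    intro W hW
    have h3 : N.adjugate * (N * W) = 0 := by rw [hW, Matrix.mul_zero]
    rw [← Matrix.mul_assoc, Matrix.adjugate_mul, Matrix.smul_mul, Matrix.one_mul, hDet] at h3
    ext1 i j
    have := congrFun (congrFun h3 i) j
    simp only [Matrix.smul_apply, smul_eq_mul, Matrix.zero_apply] at this
    exact (mul_eq_zero.mp this).resolve_left hD0
  have hFE : Fm = 1 - Em := by rw [← hsum]; abel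
  refine ⟨Em, U, V, hEmh, hEE, hEN, ?_, ?_, hUN, by rw [hVN, hFE]⟩
  · intro h0
    rw [h0, smul_zero] at hNU
    have hU0 := hzero hNU
    rw [hU0, smul_zero, zero_add] at hAUV
    have h3 := Matrix.det_adjugate N
    rw [hAUV, Matrix.det_smul, hDet] at h3
    simp only [Fintype.card_fin] at h3
    have h4 : H * V.det = G ^ 3 := by
      have : H ^ 3 * (H * V.det - G ^ 3) = 0 := by
        have h5 : H ^ 4 * V.det = (G * H) ^ 3 := h3
        linear_combination h5
      exact sub_eq_zero.mp ((mul_eq_zero.mp this).resolve_left (pow_ne_zero _ hH0))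
    exact hunit hH he hH0 hrel ⟨_, h4.symm⟩
  · intro h1
    have hF0 : Fm = 0 := by
      rw [h1] at hsum
      have := hsum
      exact add_eq_left.mp this
    rw [hF0, smul_zero] at hNV
    have hV0 := hzero hNV
    rw [hV0, smul_zero, add_zero] at hAUV
    have h3 := Matrix.det_adjugate N
    rw [hAUV, Matrix.det_smul, hDet] at h3
    simp only [Fintype.card_fin] at h3
    have h4 : G * U.det = H ^ 3 := by
      have : G ^ 3 * (G * U.det - H ^ 3) = 0 := by
        have h5 : G ^ 4 * U.det = (G * H) ^ 3 := h3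
        linear_combination h5
      exact sub_eq_zero.mp ((mul_eq_zero.mp this).resolve_left (pow_ne_zero _ hG0))
    exact hunit hG hm hG0 hrel.symm ⟨_, h4.symm⟩

/-- the idempotent attached to a factorisation of the discriminant -/
theorem idem (hP : c.Iso P0) {G H : R3} {m e : ℕ} (hG : G.IsHomogeneous m)
    (hH : H.IsHomogeneous e) (hme : m + e = 6) (hm : m ≠ 0) (he : e ≠ 0)
    (hD : c.disc = G * H) (hrel : IsRelPrime G H) :
    ∃ E : Matrix (Fin 4) (Fin 4) R3, (∀ i j, HZ (E i j) (wt j - wt i)) ∧ E * E = E ∧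
      E * c.Nm (X : Fin 3 → R3) = c.Nm (X : Fin 3 → R3) * E.transpose ∧ E ≠ 0 ∧ E ≠ 1 := by
  obtain ⟨E, _, _, h1, h2, h3, h4, h5, _, _⟩ := idem2 hP hG hH hme hm he hD hrel
  exact ⟨E, h1, h2, h3, h4, h5⟩

end Cub

end Pool.Agent.Helper16
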