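import Pool.Agent.Helper16.CubicRational

set_option autoImplicit false

namespace Pool.Agent.Helper16

open MvPolynomial Module

variable {F : MvPolynomial (Fin 6) ℂ}

/-- the part of bidegree `(1,2)` does not vanish on the cubic -/
theorem n2_not_dvd (hF : F.IsHomogeneous 3) (hs : Smooth F)
    (w : Basis (Fin 3 ⊕ Fin 3) ℂ (Fin 6 → ℂ))
    (h1 : ∀ y : Fin 3 → ℂ, eval (∑ i, y i • w (.inl i)) F = 0)
    (h2 : ∀ y : Fin 3 → ℂ, eval (∑ i, y i • w (.inr i)) F = 0)
    (hdvd : dh F ∣ dh (n2 (cubOf F hF hs).T w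
      (fun i => crd w (X : Fin 6 → MvPolynomial (Fin 6) ℂ) (.inl i))
      (fun i => crd w (X : Fin 6 → MvPolynomial (Fin 6) ℂ) (.inr i)))) : False := by
  set c := cubOf F hF hs with hc
  set G := n2 c.T w (fun i => crd w (X : Fin 6 → MvPolynomial (Fin 6) ℂ) (.inl i))
    (fun i => crd w (X : Fin 6 → MvPolynomial (Fin 6) ℂ) (.inr i)) with hG
  have hcrd : ∀ j, (crd w X j : MvPolynomial (Fin 6) ℂ).IsHomogeneous 1 := by
    intro j
    apply IsHomogeneous.sum
    intro m _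
    exact (isHomogeneous_X _ _).C_mul _
  have hGh : G.IsHomogeneous 3 := by
    rw [hG, n2]
    refine IsHomogeneous.sum _ _ _ fun i _ => IsHomogeneous.sum _ _ _ fun j _ =>
      IsHomogeneous.sum _ _ _ fun k _ => ?_
    have := (((hcrd (.inl i)).C_mul (3 * c.T (w (.inl i)) (w (.inr j)) (w (.inr k)))).mul
      (hcrd (.inr j))).mul (hcrd (.inr k))
    exact this
  obtain ⟨κ, hκ⟩ := eq_C_mul_of_dvd hF hs hGh hdvd
  have hev : ∀ p p' : Fin 3 → ℂ, n2 c.T w p p' = κ * (n1 c.T w p p' + n2 c.T w p p') := by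
    intro p p'
    have h := congrArg (aeval (comb w p p')) hκ
    rw [hG, map_n2, map_mul, keyid hF hs w h1 h2] at h
    simp only [map_crd, aeval_X] at h
    have e1 : ∀ j, crd w (fun i => comb w p p' i) j = Sum.elim p p' j := crd_comb w p p'
    simp only [e1, Sum.elim_inl, Sum.elim_inr] at h
    have e2 : (aeval (comb w p p')) (C κ : MvPolynomial (Fin 6) ℂ) = κ := by simp
    rw [e2] at h
    exact h
  have hev2 : ∀ p p' : Fin 3 → ℂ, κ * n1 c.T w p p' = 0 ∧ (1 - κ) * n2 c.T w p p' = 0 := by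
    intro p p'
    have ha := hev p p'
    have hb := hev (fun i => (-1) * p i) (fun i => 1 * p' i)
    rw [n1_smul, n2_smul] at hb
    constructor
    · linear_combination (-1/2) * ha - (1/2) * hb
    · linear_combination (1/2) * ha - (1/2) * hb
  -- a vector of each plane
  have hspan : ∀ v : Fin 6 → ℂ, v = ∑ i, w.coord (.inl i) v • w (.inl i) +
      ∑ i, w.coord (.inr i) v • w (.inr i) := by
    intro v
    conv_lhs => rw [← w.sum_repr v]
    rw [Fintype.sum_sum_type]; rfl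
  have hiso1 : ∀ (p q : Fin 3 → ℂ), c.T (∑ i, p i • w (.inl i)) (∑ i, p i • w (.inl i))
      (∑ i, q i • w (.inl i)) = 0 := by
    intro p q
    have hI : c.Iso (Submodule.span ℂ (Set.range fun i => w (.inl i))) := by
      intro x hx
      obtain ⟨a, rfl⟩ := (Submodule.mem_span_range_iff_exists_fun ℂ).mp hx
      rw [hc, cubOf_apply]; exact h1 a
    have hm : ∀ a : Fin 3 → ℂ, (∑ i, a i • w (.inl i)) ∈
        Submodule.span ℂ (Set.range fun i => w (.inl i)) := fun a =>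
      (Submodule.mem_span_range_iff_exists_fun ℂ).mpr ⟨a, rfl⟩
    exact hI.two (hm p) (hm q)
  have hiso2 : ∀ (p q : Fin 3 → ℂ), c.T (∑ i, p i • w (.inr i)) (∑ i, p i • w (.inr i))
      (∑ i, q i • w (.inr i)) = 0 := by
    intro p q
    have hI : c.Iso (Submodule.span ℂ (Set.range fun i => w (.inr i))) := by
      intro x hx
      obtain ⟨a, rfl⟩ := (Submodule.mem_span_range_iff_exists_fun ℂ).mp hx
      rw [hc, cubOf_apply]; exact h2 a
    have hm : ∀ a : Fin 3 → ℂ, (∑ i, a i • w (.inr i)) ∈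
        Submodule.span ℂ (Set.range fun i => w (.inr i)) := fun a =>
      (Submodule.mem_span_range_iff_exists_fun ℂ).mpr ⟨a, rfl⟩
    exact hI.two (hm p) (hm q)
  have hsingle : ∀ (j : Fin 3 → Fin 3 ⊕ Fin 3), (∑ i, (Pi.single (0 : Fin 3) (1 : ℂ) : Fin 3 → ℂ) i •
      w (j i)) = w (j 0) := by
    intro j
    rw [Finset.sum_eq_single 0]
    · simp
    · intro b _ hb; simp [hb]
    · simp
  by_cases hκ0 : κ = 0
  · -- `n2` vanishes identically
    have hn2 : ∀ p p' : Fin 3 → ℂ, n2 c.T w p p' = 0 := by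
      intro p p'
      have := (hev2 p p').2
      rw [hκ0] at this; simpa using this
    obtain ⟨v, hv⟩ := c.ns (w (.inr 0)) (w.ne_zero _)
    apply hv
    rw [hspan v, map_add]
    have e1 := hn2 (fun i => w.coord (.inl i) v) (Pi.single 0 1)
    rw [n2_complex, hsingle (fun i => .inr i)] at e1
    have e2 := hiso2 (Pi.single 0 1) (fun i => w.coord (.inr i) v)
    rw [hsingle (fun i => .inr i)] at e2
    rw [e2, c.rot, c.rot]
    have e3 := (mul_eq_zero.mp e1).resolve_left (by norm_num)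
    rw [e3, zero_add]
  · have hn1 : ∀ p p' : Fin 3 → ℂ, n1 c.T w p p' = 0 := by
      intro p p'
      exact (mul_eq_zero.mp (hev2 p p').1).resolve_left hκ0
    obtain ⟨v, hv⟩ := c.ns (w (.inl 0)) (w.ne_zero _)
    apply hv
    rw [hspan v, map_add]
    have e1 := hn1 (Pi.single 0 1) (fun i => w.coord (.inr i) v)
    rw [n1_complex, hsingle (fun i => .inl i)] at e1
    have e2 := hiso1 (Pi.single 0 1) (fun i => w.coord (.inl i) v)
    rw [hsingle (fun i => .inl i)] at e2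
    rw [e2, zero_add]
    exact (mul_eq_zero.mp e1).resolve_left (by norm_num)

theorem dh_X (i : Fin 6) : dh (X i) = (Fin.cons 1 X : Fin 6 → MvPolynomial (Fin 5) ℂ) i :=
  aeval_X _ _

theorem rational_aux (hF : F.IsHomogeneous 3) (hs : Smooth F)
    (w : Basis (Fin 3 ⊕ Fin 3) ℂ (Fin 6 → ℂ))
    (h1 : ∀ y : Fin 3 → ℂ, eval (∑ i, y i • w (.inl i)) F = 0)
    (h2 : ∀ y : Fin 3 → ℂ, eval (∑ i, y i • w (.inr i)) F = 0)
    [IsDomain (MvPolynomial (Fin 5) ℂ ⧸ Ideal.span {dh F})]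
    (K L : Type) [Field K] [Algebra ℂ K] [Algebra (MvPolynomial (Fin 5) ℂ ⧸ Ideal.span {dh F}) K]
    [IsScalarTower ℂ (MvPolynomial (Fin 5) ℂ ⧸ Ideal.span {dh F}) K]
    [IsFractionRing (MvPolynomial (Fin 5) ℂ ⧸ Ideal.span {dh F}) K]
    [Field L] [Algebra ℂ L] [Algebra (MvPolynomial (Fin 4) ℂ) L]
    [IsScalarTower ℂ (MvPolynomial (Fin 4) ℂ) L] [IsFractionRing (MvPolynomial (Fin 4) ℂ) L] :
    Nonempty (K ≃ₐ[ℂ] L) := by
  set T := (cubOf F hF hs).T with hT
  let A := MvPolynomial (Fin 5) ℂ ⧸ Ideal.span {dh F}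
  let π : MvPolynomial (Fin 5) ℂ →ₐ[ℂ] A := Ideal.Quotient.mkₐ ℂ _
  let ιA : A →ₐ[ℂ] K := IsScalarTower.toAlgHom ℂ A K
  let ιB : MvPolynomial (Fin 4) ℂ →ₐ[ℂ] L := IsScalarTower.toAlgHom ℂ _ L
  have hιA : Function.Injective ιA := IsFractionRing.injective A K
  have hιB : Function.Injective ιB := IsFractionRing.injective _ L
  let θ : MvPolynomial (Fin 5) ℂ →ₐ[ℂ] K := ιA.comp π
  have hθ : ∀ q, θ q = 0 → dh F ∣ q := by
    intro q hq
    have : π q = 0 := hιA (by rw [map_zero]; exact hq)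
    exact Ideal.mem_span_singleton.mp (Ideal.Quotient.eq_zero_iff_mem.mp this)
  have hθF : θ (dh F) = 0 := by
    have : π (dh F) = 0 := Ideal.Quotient.eq_zero_iff_mem.mpr (Ideal.mem_span_singleton_self _)
    change ιA (π (dh F)) = 0
    rw [this, map_zero]
  let xh : Fin 6 → K := fun m => θ ((Fin.cons 1 X : Fin 6 → MvPolynomial (Fin 5) ℂ) m)
  have hxh : ∀ G : MvPolynomial (Fin 6) ℂ, aeval xh G = θ (dh G) := by
    intro G
    have : (aeval xh : MvPolynomial (Fin 6) ℂ →ₐ[ℂ] K) = θ.comp dh := by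
      apply MvPolynomial.algHom_ext
      intro i
      rw [aeval_X, AlgHom.comp_apply, dh_X]
    rw [this]; rfl
  let q1 : Fin 3 → K := fun i => crd w xh (.inl i)
  let q2 : Fin 3 → K := fun i => crd w xh (.inr i)
  have hq : ∀ j, crd w xh j = θ (dh (crd w X j)) := by
    intro j
    rw [← hxh, map_crd]; simp
  have hne : ∀ j, crd w xh j ≠ 0 := by
    intro j h0
    rw [hq] at h0
    refine not_dvd_linear hF hs (G := crd w X j) ?_ ?_ (hθ _ h0)
    · apply IsHomogeneous.sum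
      intro m _
      exact (isHomogeneous_X _ _).C_mul _
    · intro hz
      have := congrArg (aeval (w j)) hz
      rw [map_zero, map_crd] at this
      simp only [aeval_X] at this
      have h3 : crd w (fun i => (w j) i) j = 1 := by
        have := mat1 w j j
        simpa [crd] using this
      rw [h3] at this
      exact one_ne_zero this
  have hq10 : q1 0 ≠ 0 := hne _
  have hq20 : q2 0 ≠ 0 := hne _
  have ht : n2 T w q1 q2 ≠ 0 := by
    intro h0
    apply n2_not_dvd hF hs w h1 h2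
    apply hθ
    rw [← hxh, map_n2]
    simp only [map_crd, aeval_X]
    exact h0
  have hsum : n1 T w q1 q2 = - n2 T w q1 q2 := by
    have h3 := keyid hF hs w h1 h2 q1 q2
    have h4 : comb w q1 q2 = xh := by
      funext m; exact comb_crd w xh m
    rw [h4, hxh, hθF] at h3
    rw [← hT] at h3
    linear_combination -h3
  -- the parametrisation
  let pB : Fin 3 → MvPolynomial (Fin 4) ℂ := ![1, X 0, X 1]
  let pB' : Fin 3 → MvPolynomial (Fin 4) ℂ := ![1, X 2, X 3]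
  let Φ : MvPolynomial (Fin 4) ℂ →ₐ[ℂ] K := aeval ![(q1 0)⁻¹ * q1 1, (q1 0)⁻¹ * q1 2, (q2 0)⁻¹ * q2 1,
    (q2 0)⁻¹ * q2 2]
  have hΦ1 : ∀ i, Φ (pB i) = (q1 0)⁻¹ * q1 i := by
    intro i
    fin_cases i
    · simp [pB, hq10]
    · simp [pB, Φ]
    · simp [pB, Φ]
  have hΦ2 : ∀ i, Φ (pB' i) = (q2 0)⁻¹ * q2 i := by
    intro i
    fin_cases i
    · simp [pB', hq20]
    · simp [pB', Φ]
    · simp [pB', Φ]
  have hΦn2 : Φ (n2 T w pB pB') = (q1 0)⁻¹ * (q2 0)⁻¹ ^ 2 * n2 T w q1 q2 := by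
    rw [map_n2]
    simp only [hΦ1, hΦ2]
    rw [n2_smul]
  have hΦn1 : Φ (n1 T w pB pB') = -((q1 0)⁻¹ ^ 2 * (q2 0)⁻¹ * n2 T w q1 q2) := by
    rw [map_n1]
    simp only [hΦ1, hΦ2]
    rw [n1_smul, hsum]; ring
  have hn2B : n2 T w pB pB' ≠ 0 := by
    intro h0
    rw [h0, map_zero] at hΦn2
    have : (q1 0)⁻¹ * (q2 0)⁻¹ ^ 2 * n2 T w q1 q2 ≠ 0 :=
      mul_ne_zero (mul_ne_zero (inv_ne_zero hq10) (pow_ne_zero _ (inv_ne_zero hq20))) ht
    exact this hΦn2.symm
  have hn1B : n1 T w pB pB' ≠ 0 := by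
    intro h0
    rw [h0, map_zero] at hΦn1
    have : -((q1 0)⁻¹ ^ 2 * (q2 0)⁻¹ * n2 T w q1 q2) ≠ 0 :=
      neg_ne_zero.mpr (mul_ne_zero (mul_ne_zero (pow_ne_zero _ (inv_ne_zero hq10))
        (inv_ne_zero hq20)) ht)
    exact this hΦn1.symm
  let P1 : Fin 3 → MvPolynomial (Fin 4) ℂ := fun i => n2 T w pB pB' * pB i
  let P2 : Fin 3 → MvPolynomial (Fin 4) ℂ := fun i => (-n1 T w pB pB') * pB' i
  let Px : Fin 6 → MvPolynomial (Fin 4) ℂ := fun m => comb w P1 P2 m
  let τ : K := (q1 0)⁻¹ ^ 2 * (q2 0)⁻¹ ^ 2 * n2 T w q1 q2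
  have hτ : τ ≠ 0 := mul_ne_zero (mul_ne_zero (pow_ne_zero _ (inv_ne_zero hq10))
    (pow_ne_zero _ (inv_ne_zero hq20))) ht
  have hΦP : ∀ m, Φ (Px m) = τ * xh m := by
    intro m
    change Φ (comb w P1 P2 m) = _
    rw [map_comb]
    have e1 : (fun i => Φ (P1 i)) = fun i => τ * q1 i := by
      funext i
      change Φ (n2 T w pB pB' * pB i) = _
      rw [map_mul, hΦn2, hΦ1]; ring
    have e2 : (fun i => Φ (P2 i)) = fun i => τ * q2 i := by
      funext i
      change Φ ((-n1 T w pB pB') * pB' i) = _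
      rw [map_mul, map_neg, hΦn1, hΦ2]; ring
    rw [e1, e2, comb_smul, comb_crd]
  have hxh0 : xh 0 = 1 := by
    change θ ((Fin.cons 1 X : Fin 6 → MvPolynomial (Fin 5) ℂ) 0) = 1
    simp
  have hP0 : Px 0 ≠ 0 := by
    intro h0
    have := hΦP 0
    rw [h0, map_zero, hxh0, mul_one] at this
    exact hτ this.symm
  have hP0' : ιB (Px 0) ≠ 0 := by
    intro h0
    exact hP0 (hιB (by rw [h0, map_zero]))
  have hFP : aeval Px F = 0 := by
    change aeval (fun m => comb w P1 P2 m) F = 0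
    rw [keyid hF hs w h1 h2]
    change n1 T w (fun i => n2 T w pB pB' * pB i) (fun i => (-n1 T w pB pB') * pB' i) +
      n2 T w (fun i => n2 T w pB pB' * pB i) (fun i => (-n1 T w pB pB') * pB' i) = 0
    rw [n1_smul, n2_smul]; ring
  let ψ0 : MvPolynomial (Fin 5) ℂ →ₐ[ℂ] L := aeval (fun i => (ιB (Px 0))⁻¹ * ιB (Px i.succ))
  have hψ0c : ∀ m, ψ0 ((Fin.cons 1 X : Fin 6 → MvPolynomial (Fin 5) ℂ) m) =
      (ιB (Px 0))⁻¹ * ιB (Px m) := by
    intro m
    refine Fin.cases ?_ (fun j => ?_) m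
    · simp only [Fin.cons_zero, map_one]
      rw [inv_mul_cancel₀ hP0']
    · simp only [Fin.cons_succ]
      change aeval _ (X j) = _
      rw [aeval_X]
  have hψ : ∀ (G : MvPolynomial (Fin 6) ℂ) (n : ℕ), G.IsHomogeneous n →
      ψ0 (dh G) = (ιB (Px 0))⁻¹ ^ n * ιB (aeval Px G) := by
    intro G n hG
    have e1 : ψ0 (dh G) = aeval (fun m => (ιB (Px 0))⁻¹ * ιB (Px m)) G := by
      have : ψ0.comp dh = aeval (fun m => (ιB (Px 0))⁻¹ * ιB (Px m)) := by
        apply MvPolynomial.algHom_ext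
        intro i
        rw [aeval_X, AlgHom.comp_apply, dh_X, hψ0c]
      rw [← this]; rfl
    rw [e1, aeval_mul_hom hG]
    congr 1
    have : (ιB.comp (aeval Px)) = (aeval fun i => ιB (Px i) : MvPolynomial (Fin 6) ℂ →ₐ[ℂ] L) := by
      apply MvPolynomial.algHom_ext
      intro i
      simp
    rw [← this]; rfl
  have hψF : ψ0 (dh F) = 0 := by
    rw [hψ F 3 hF, hFP, map_zero, mul_zero]
  let Ψ : A →ₐ[ℂ] L := Ideal.Quotient.liftₐ (Ideal.span {dh F}) ψ0 (by
    intro a ha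
    obtain ⟨b, rfl⟩ := Ideal.mem_span_singleton.mp ha
    rw [map_mul, hψF, zero_mul])
  have hΨπ : ∀ g, Ψ (π g) = ψ0 g := fun g => rfl
  have hΨinj : Function.Injective Ψ := by
    rw [injective_iff_map_eq_zero]
    intro a ha
    obtain ⟨g, rfl⟩ := Ideal.Quotient.mkₐ_surjective ℂ _ a
    change Ψ (π g) = 0 at ha
    change π g = 0
    rw [hΨπ] at ha
    have hg : dh (hmg g.totalDegree g) = g := dh_hmg le_rfl
    rw [← hg, hψ _ _ (hmg_hom _ _)] at ha
    have h3 : ιB (aeval Px (hmg g.totalDegree g)) = 0 :=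
      (mul_eq_zero.mp ha).resolve_left (pow_ne_zero _ (inv_ne_zero hP0'))
    have h4 : aeval Px (hmg g.totalDegree g) = 0 := hιB (by rw [h3, map_zero])
    have h5 := congrArg Φ h4
    rw [map_zero] at h5
    have h6 : Φ (aeval Px (hmg g.totalDegree g)) = aeval (fun m => τ * xh m)
        (hmg g.totalDegree g) := by
      have : (Φ.comp (aeval Px)) = (aeval fun i => τ * xh i : MvPolynomial (Fin 6) ℂ →ₐ[ℂ] K) := by
        apply MvPolynomial.algHom_ext
        intro i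
        rw [AlgHom.comp_apply, aeval_X, aeval_X, hΦP]
      rw [← this]; rfl
    rw [h6, aeval_mul_hom (hmg_hom _ _), hxh, hg] at h5
    have h7 : θ g = 0 := (mul_eq_zero.mp h5).resolve_left (pow_ne_zero _ hτ)
    exact hιA (by rw [map_zero]; exact h7)
  let Ψ' : K →ₐ[ℂ] L := IsFractionRing.liftAlgHom (g := Ψ) hΨinj
  have hΨ' : ∀ a : A, Ψ' (ιA a) = Ψ a := by
    intro a
    exact IsLocalization.lift_eq _ a
  have hΨx : ∀ m, Ψ' (xh m) = (ιB (Px 0))⁻¹ * ιB (Px m) := by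
    intro m
    change Ψ' (ιA (π _)) = _
    rw [hΨ', hΨπ, hψ0c]
  have hΨq : ∀ j, Ψ' (crd w xh j) = (ιB (Px 0))⁻¹ * ιB (Sum.elim P1 P2 j) := by
    intro j
    rw [map_crd]
    simp only [hΨx]
    rw [crd_smul, ← map_crd]
    congr 2
    exact crd_comb w P1 P2 j
  have hΨq1 : ∀ i, Ψ' (q1 i) = (ιB (Px 0))⁻¹ * (ιB (n2 T w pB pB') * ιB (pB i)) := by
    intro i
    change Ψ' (crd w xh (.inl i)) = _
    rw [hΨq, Sum.elim_inl]
    change _ * ιB (n2 T w pB pB' * pB i) = _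
    rw [map_mul]
  have hΨq2 : ∀ i, Ψ' (q2 i) = (ιB (Px 0))⁻¹ * (ιB (-n1 T w pB pB') * ιB (pB' i)) := by
    intro i
    change Ψ' (crd w xh (.inr i)) = _
    rw [hΨq, Sum.elim_inr]
    change _ * ιB (-n1 T w pB pB' * pB' i) = _
    rw [map_mul]
  have hn2B' : ιB (n2 T w pB pB') ≠ 0 := by
    intro h0
    exact hn2B (hιB (by rw [h0, map_zero]))
  have hn1B' : ιB (-n1 T w pB pB') ≠ 0 := by
    intro h0
    exact hn1B (neg_eq_zero.mp (hιB (by rw [h0, map_zero])))
  have hr1 : ∀ i, Ψ' ((q1 0)⁻¹ * q1 i) = ιB (pB i) := by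
    intro i
    rw [map_mul, map_inv₀, hΨq1, hΨq1]
    have : ιB (pB 0) = 1 := by simp [pB]
    rw [this]
    field_simp
  have hr2 : ∀ i, Ψ' ((q2 0)⁻¹ * q2 i) = ιB (pB' i) := by
    intro i
    rw [map_mul, map_inv₀, hΨq2, hΨq2]
    have : ιB (pB' 0) = 1 := by simp [pB']
    rw [this]
    field_simp
  have hcompX : ∀ i, Ψ' (Φ (X i)) = ιB (X i) := by
    intro i
    fin_cases i
    · have := hr1 1
      simpa [Φ, pB] using this
    · have := hr1 2
      simpa [Φ, pB] using this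
    · have := hr2 1
      simpa [Φ, pB'] using this
    · have := hr2 2
      simpa [Φ, pB'] using this
  have hcomp : ∀ b : MvPolynomial (Fin 4) ℂ, Ψ' (Φ b) = ιB b := by
    intro b
    have : Ψ'.comp Φ = ιB := by
      apply MvPolynomial.algHom_ext
      intro i
      exact hcompX i
    rw [← this]; rfl
  refine ⟨AlgEquiv.ofBijective Ψ' ⟨Ψ'.toRingHom.injective, ?_⟩⟩
  intro l
  obtain ⟨a, b, hb, rfl⟩ := IsFractionRing.div_surjective (A := MvPolynomial (Fin 4) ℂ) l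
  refine ⟨Φ a / Φ b, ?_⟩
  rw [map_div₀, hcomp, hcomp]
  rfl

/-- a smooth cubic fourfold containing two disjoint planes is rational -/
theorem rational_of_basis (hF : F.IsHomogeneous 3) (hs : Smooth F)
    (w : Basis (Fin 3 ⊕ Fin 3) ℂ (Fin 6 → ℂ))
    (h1 : ∀ y : Fin 3 → ℂ, eval (∑ i, y i • w (.inl i)) F = 0)
    (h2 : ∀ y : Fin 3 → ℂ, eval (∑ i, y i • w (.inr i)) F = 0) :
    Nonempty (FractionRing (MvPolynomial (Fin 5) ℂ ⧸ Ideal.span {dh F}) ≃ₐ[ℂ]
      FractionRing (MvPolynomial (Fin 4) ℂ)) := by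
  have hirr := irreducible_dh hF hs
  have hprime : (Ideal.span {dh F}).IsPrime :=
    (Ideal.span_singleton_prime hirr.ne_zero).mpr hirr.prime
  have : IsDomain (MvPolynomial (Fin 5) ℂ ⧸ Ideal.span {dh F}) := Ideal.Quotient.isDomain _
  exact rational_aux hF hs w h1 h2 _ _

end Pool.Agent.Helper16
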