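import Mathlib
import Pool.Agent.Helper16.CubicRational2
import Pool.Agent.Helper16.CubicTransfer

set_option autoImplicit false

namespace Pool.Agent.Helper16

open MvPolynomial Module

/-- a smooth cubic fourfold containing two disjoint planes is rational -/
theorem rational_of_disjoint (F : MvPolynomial (Fin 6) ℂ) (hF : F.IsHomogeneous 3)
    (hs : ∀ x : Fin 6 → ℂ, x ≠ 0 → ∃ i, eval x (pderiv i F) ≠ 0)
    {A B : Submodule ℂ (Fin 6 → ℂ)} (hA : finrank ℂ A = 3 ∧ ∀ x ∈ A, eval x F = 0)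
    (hB : finrank ℂ B = 3 ∧ ∀ x ∈ B, eval x F = 0) (hAB : A ⊓ B = ⊥) :
    (Ideal.span {aeval (Fin.cons 1 X : Fin 6 → MvPolynomial (Fin 5) ℂ) F}).IsPrime ∧
    Nonempty (FractionRing (MvPolynomial (Fin 5) ℂ ⧸
        Ideal.span {aeval (Fin.cons 1 X : Fin 6 → MvPolynomial (Fin 5) ℂ) F}) ≃ₐ[ℂ]
      FractionRing (MvPolynomial (Fin 4) ℂ)) := by
  have hs' : Helper16.Smooth F := hs
  have hV : finrank ℂ (Fin 6 → ℂ) = 6 := by simp
  refine ⟨?_, ?_⟩
  · have hirr := Helper16.irreducible_dh hF hs'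
    exact (Ideal.span_singleton_prime hirr.ne_zero).mpr hirr.prime
  · have hcompl : IsCompl A B := by
      refine ⟨disjoint_iff.mpr hAB, codisjoint_iff.mpr ?_⟩
      apply Submodule.eq_top_of_finrank_eq
      have h1 := Submodule.finrank_sup_add_finrank_inf_eq A B
      rw [hAB, finrank_bot, hA.1, hB.1] at h1
      rw [hV]; omega
    obtain ⟨w, hwA, hwB⟩ := Cub.exists_basis hcompl hA.1 hB.1
    exact Helper16.rational_of_basis hF hs' w
      (fun y => hA.2 _ (Submodule.sum_mem _ fun i _ => A.smul_mem _ (hwA i)))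
      (fun y => hB.2 _ (Submodule.sum_mem _ fun i _ => B.smul_mem _ (hwB i)))

/-- values of a symmetric integral form with even values and doubly even diagonal -/
theorem four_dvd {ι : Type*} [Fintype ι] (a : ι → ℤ) (N : ι → ι → ℤ) (hsym : ∀ i j, N i j = N j i)
    (hev : ∀ i j, 2 ∣ N i j) (hdiag : ∀ i, 4 ∣ N i i) :
    4 ∣ ∑ i, ∑ j, a i * a j * N i j := by
  choose M hM using hev
  have h1 : ∑ i, ∑ j, a i * a j * N i j = 2 * ∑ p : ι × ι, a p.1 * a p.2 * M p.1 p.2 := by
    rw [Fintype.sum_prod_type, Finset.mul_sum]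
    refine Finset.sum_congr rfl fun i _ => ?_
    rw [Finset.mul_sum]
    refine Finset.sum_congr rfl fun j _ => ?_
    rw [hM]; ring
  have hMsym : ∀ i j, M i j = M j i := by
    intro i j
    have := hsym i j
    rw [hM, hM j i] at this
    omega
  have hMdiag : ∀ i, 2 ∣ M i i := by
    intro i
    have := hdiag i
    rw [hM] at this
    omega
  have h2 : (2 : ℤ) ∣ ∑ p : ι × ι, a p.1 * a p.2 * M p.1 p.2 := by
    have : ((∑ p : ι × ι, a p.1 * a p.2 * M p.1 p.2 : ℤ) : ZMod 2) = 0 := by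
      rw [Int.cast_sum]
      refine Finset.sum_involution (fun p _ => p.swap) ?_ ?_ ?_ ?_
      · rintro ⟨i, j⟩ _
        simp only [Prod.fst_swap, Prod.snd_swap]
        rw [hMsym j i]
        push_cast
        rw [mul_comm (a j : ZMod 2) (a i)]
        exact CharTwo.add_self_eq_zero _
      · rintro ⟨i, j⟩ _ hne heq
        simp only [Prod.swap_prod_mk, Prod.mk.injEq] at heq
        obtain ⟨rfl, -⟩ := heq
        apply hne
        have : ((M j j : ℤ) : ZMod 2) = 0 := (ZMod.intCast_zmod_eq_zero_iff_dvd _ 2).mpr (hMdiag j)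
        push_cast
        rw [this, mul_zero]
      · intros; exact Finset.mem_univ _
      · intros; rfl
    exact (ZMod.intCast_zmod_eq_zero_iff_dvd _ 2).mp this
  rw [h1]
  exact mul_dvd_mul_left 2 h2

end Pool.Agent.Helper16
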