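import Mathlib
import Pool.Agent.Helper29.TR.Defs

set_option autoImplicit false
set_option linter.unusedVariables false
set_option linter.unusedSectionVars false

/-!
The cases of a splitting summand of dimension one and two.
-/

namespace Pool.Agent.Helper16

open MvPolynomial Module Pool.Agent.Helper29.TR

/-- factorisation of a binary quadratic form -/
theorem exists_linear_factors (γ β α : ℂ) (h : ¬ (γ = 0 ∧ β = 0 ∧ α = 0)) :
    ∃ s1 t1 s2 t2 : ℂ, s1 * s2 = γ ∧ s1 * t2 + s2 * t1 = β ∧ t1 * t2 = α ∧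
      ¬ (s1 = 0 ∧ t1 = 0) ∧ ¬ (s2 = 0 ∧ t2 = 0) := by
  by_cases hγ : γ = 0
  · -- `Y (β X + α Y)`
    refine ⟨0, 1, β, α, by rw [hγ]; ring, by ring, by ring, by simp, ?_⟩
    rintro ⟨h1, h2⟩
    exact h ⟨hγ, h1, h2⟩
  · -- roots
    obtain ⟨δ, hδ⟩ : ∃ δ : ℂ, δ * δ = β * β - 4 * γ * α := by
      obtain ⟨δ, hδ⟩ := IsAlgClosed.exists_pow_nat_eq (β * β - 4 * γ * α) (n := 2) (by norm_num)
      exact ⟨δ, by rw [← hδ]; ring⟩
    refine ⟨γ, (β - δ) / 2, 1, (β + δ) / (2 * γ), by ring, ?_, ?_, ?_, ?_⟩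
    · field_simp; ring
    · field_simp
      linear_combination -hδ
    · rintro ⟨h1, _⟩; exact hγ h1
    · rintro ⟨h1, _⟩; exact one_ne_zero h1

namespace Cub

variable {c : Cub (I6 → ℂ)}

/-- a vector of the summand for which the mixed forms vanish is an Eckardt point -/
theorem isEck_of (hP : c.Iso P0) {K V' : Submodule ℂ (I6 → ℂ)} (hKV : IsCompl K V')
    (hK : K ≤ P0) (h : ∀ u ∈ K, ∀ v ∈ V', ∀ w ∈ V', c.T u v w = 0) {u : I6 → ℂ} (hu : u ∈ K)
    (hu0 : u ≠ 0) (hs : ∀ k ∈ K, ∃ s : ℂ, ∀ v ∈ V', c.T u k v = s * c.T u u v) :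
    ∃ p ∈ P0, IsEck c p := by
  refine ⟨u, hK hu, hu0, ?_⟩
  intro x hx
  have hxt : x ∈ K ⊔ V' := by rw [hKV.sup_eq_top]; trivial
  obtain ⟨k, hk, v, hv, rfl⟩ := Submodule.mem_sup.mp hxt
  obtain ⟨s, hs⟩ := hs k hk
  have e1 : c.T u u v = 0 := by
    rw [map_add, hP.three (hK hu) (hK hu) (hK hk), zero_add] at hx
    exact hx
  simp only [map_add, LinearMap.add_apply]
  rw [hP.three (hK hu) (hK hk) (hK hk), h u hu v hv v hv, c.s23 u v k, hs v hv, e1]
  ring

/-- summand of dimension one -/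
theorem eck_of_dim1 (hP : c.Iso P0) {K V' : Submodule ℂ (I6 → ℂ)} (hKV : IsCompl K V')
    (hK : K ≤ P0) (h : ∀ u ∈ K, ∀ v ∈ V', ∀ w ∈ V', c.T u v w = 0) (h1 : finrank ℂ K = 1) :
    ∃ p ∈ P0, IsEck c p := by
  obtain ⟨⟨u, hu⟩, hu0, hus⟩ := finrank_eq_one_iff'.mp h1
  refine isEck_of hP hKV hK h hu (fun h0 => hu0 (Subtype.ext h0)) ?_
  intro k hk
  obtain ⟨s, hs⟩ := hus ⟨k, hk⟩
  refine ⟨s, fun v hv => ?_⟩
  have e1 : s • u = k := congrArg Subtype.val hs
  rw [← e1, map_smul, LinearMap.smul_apply, smul_eq_mul]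

/-- summand of dimension two -/
theorem CN_of_dim2 (hP : c.Iso P0) {K V' : Submodule ℂ (I6 → ℂ)} (hKV : IsCompl K V')
    (hK : K ≤ P0) (h : ∀ u ∈ K, ∀ v ∈ V', ∀ w ∈ V', c.T u v w = 0) (h2 : finrank ℂ K = 2) :
    (∃ u ∈ K, ∃ u' ∈ K, LinearIndependent ℂ ![u, u'] ∧ ∀ x, c.T u u' x = 0) ∨
      ∃ e : (I6 → ℂ) ≃ₗ[ℂ] (I6 → ℂ), CN (c.comap e) := by
  -- basis of the summand
  let bK : Basis (Fin 2) ℂ K := finBasisOfFinrankEq ℂ K h2
  set a : I6 → ℂ := ((bK 0 : K) : I6 → ℂ) with ha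
  set b : I6 → ℂ := ((bK 1 : K) : I6 → ℂ) with hb
  have haK : a ∈ K := (bK 0).2
  have hbK : b ∈ K := (bK 1).2
  have hKs : ∀ k ∈ K, ∃ s t : ℂ, k = s • a + t • b := by
    intro k hk
    refine ⟨bK.repr ⟨k, hk⟩ 0, bK.repr ⟨k, hk⟩ 1, ?_⟩
    have h1 := bK.sum_repr ⟨k, hk⟩
    rw [Fin.sum_univ_two] at h1
    exact (congrArg Subtype.val h1).symm
  have hKi : ∀ s t : ℂ, s • a + t • b = 0 → s = 0 ∧ t = 0 := by
    intro s t hst
    have h1 : s • bK 0 + t • bK 1 = 0 := Subtype.ext hst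
    have h3 := bK.linearIndependent
    rw [Fintype.linearIndependent_iff] at h3
    have h4 := h3 ![s, t] (by rw [Fin.sum_univ_two]; exact h1)
    exact ⟨h4 0, h4 1⟩
  have hKP : ∀ k ∈ K, ∀ k' ∈ K, ∀ k'' ∈ K, c.T k k' k'' = 0 := fun k hk k' hk' k'' hk'' =>
    hP.three (hK hk) (hK hk') (hK hk'')
  -- the three forms
  let Φ : (I6 → ℂ) →ₗ[ℂ] (Fin 3 → ℂ) := LinearMap.pi ![c.T b b, -c.T a b, c.T a a]
  have hΦ0 : ∀ x, Φ x 0 = c.T b b x := fun x => rfl
  have hΦ1 : ∀ x, Φ x 1 = - c.T a b x := fun x => rfl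
  have hΦ2 : ∀ x, Φ x 2 = c.T a a x := fun x => rfl
  have hΦP : ∀ x ∈ P0, Φ x = 0 := by
    intro x hx
    funext i
    fin_cases i
    · exact hP.three (hK hbK) (hK hbK) hx
    · change - c.T a b x = 0
      rw [hP.three (hK haK) (hK hbK) hx, neg_zero]
    · exact hP.three (hK haK) (hK haK) hx
  by_cases hsurj : Function.Surjective Φ
  swap
  · left
    obtain ⟨f, hf0, hf⟩ : ∃ f : (Fin 3 → ℂ) →ₗ[ℂ] ℂ, f ≠ 0 ∧ ∀ x, f (Φ x) = 0 := by
      have h1 : LinearMap.range Φ ≠ ⊤ := fun h1 => hsurj (LinearMap.range_eq_top.mp h1)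
      obtain ⟨f, hf0, hf⟩ := Submodule.exists_le_ker_of_lt_top _ (lt_top_iff_ne_top.mpr h1)
      exact ⟨f, hf0, fun x => LinearMap.mem_ker.mp (hf ⟨x, rfl⟩)⟩
    set α := f (Pi.single 0 1) with hα
    set β := - f (Pi.single 1 1) with hβ
    set γ := f (Pi.single 2 1) with hγ
    have hfe : ∀ y : Fin 3 → ℂ, f y = y 0 * α - y 1 * β + y 2 * γ := by
      intro y
      have e1 : y = y 0 • (Pi.single 0 1 : Fin 3 → ℂ) + y 1 • Pi.single 1 1 +
          y 2 • Pi.single 2 1 := by
        funext i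
        fin_cases i <;> simp
      conv_lhs => rw [e1]
      simp only [map_add, map_smul, smul_eq_mul]
      rw [hα, hβ, hγ]; ring
    have hrel : ∀ x, γ * c.T a a x + β * c.T a b x + α * c.T b b x = 0 := by
      intro x
      have e1 := hf x
      rw [hfe, hΦ0, hΦ1, hΦ2] at e1
      linear_combination e1
    have hne : ¬ (γ = 0 ∧ β = 0 ∧ α = 0) := by
      rintro ⟨h1, h2, h3⟩
      apply hf0
      refine LinearMap.ext fun y => ?_
      rw [hfe, h1, h2, h3]; simp
    obtain ⟨s1, t1, s2, t2, e1, e2, e3, n1, n2⟩ := exists_linear_factors γ β α hne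
    set u := s1 • a + t1 • b with hu
    set u' := s2 • a + t2 • b with hu'
    have huK : u ∈ K := K.add_mem (K.smul_mem _ haK) (K.smul_mem _ hbK)
    have hu'K : u' ∈ K := K.add_mem (K.smul_mem _ haK) (K.smul_mem _ hbK)
    have hu0 : u ≠ 0 := fun h0 => n1 (hKi _ _ h0)
    have hu'0 : u' ≠ 0 := fun h0 => n2 (hKi _ _ h0)
    have huu : ∀ x, c.T u u' x = 0 := by
      intro x
      rw [hu, hu']
      simp only [map_add, map_smul, LinearMap.add_apply, LinearMap.smul_apply, smul_eq_mul]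
      rw [c.s12 b a x]
      rw [← hrel x, ← e1, ← e2, ← e3]; ring
    refine ⟨u, huK, u', hu'K, ?_, huu⟩
    have hdet : s1 * t2 - s2 * t1 ≠ 0 := by
      intro h0
      -- then `u'` is proportional to `u`
      have hpar : ∃ r : ℂ, u' = r • u := by
        by_cases hs1 : s1 = 0
        · have ht1 : t1 ≠ 0 := fun h1 => n1 ⟨hs1, h1⟩
          have hs2 : s2 = 0 := by
            rw [hs1] at h0
            have : s2 * t1 = 0 := by linear_combination -h0
            exact (mul_eq_zero.mp this).resolve_right ht1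
          refine ⟨t2 / t1, ?_⟩
          rw [hu, hu', hs1, hs2]
          simp only [zero_smul, zero_add]
          rw [smul_smul, div_mul_cancel₀ _ ht1]
        · refine ⟨s2 / s1, ?_⟩
          have : s2 / s1 * t1 = t2 := by
            field_simp
            linear_combination -h0
          rw [hu, hu', smul_add, smul_smul, smul_smul, div_mul_cancel₀ _ hs1, this]
      obtain ⟨r, hr⟩ := hpar
      have hr0 : r ≠ 0 := by
        rintro rfl
        rw [zero_smul] at hr
        exact hu'0 hr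
      obtain ⟨y, hy⟩ := c.ns u hu0
      apply hy
      have h1 := huu y
      rw [hr, map_smul, LinearMap.smul_apply, smul_eq_mul] at h1
      exact (mul_eq_zero.mp h1).resolve_left hr0
    rw [LinearIndependent.pair_iff]
    intro s t hst
    have h1 : (s * s1 + t * s2) • a + (s * t1 + t * t2) • b = 0 := by
      rw [← hst, hu, hu']; module
    obtain ⟨h3, h4⟩ := hKi _ _ h1
    constructor
    · have h5 : s * (s1 * t2 - s2 * t1) = 0 := by linear_combination t2 * h3 - s2 * h4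
      exact (mul_eq_zero.mp h5).resolve_right hdet
    · have h5 : t * (s1 * t2 - s2 * t1) = 0 := by linear_combination s1 * h4 - t1 * h3
      exact (mul_eq_zero.mp h5).resolve_right hdet
  · right
    -- the vector `d`
    have hVr : finrank ℂ V' = 4 := by
      have h1 := Submodule.finrank_add_eq_of_isCompl hKV
      rw [finrank_I6] at h1; omega
    obtain ⟨d, hdP, hdV, hd0⟩ : ∃ d : I6 → ℂ, d ∈ P0 ∧ d ∈ V' ∧ d ≠ 0 := by
      have h1 := Submodule.finrank_sup_add_finrank_inf_eq P0 V'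
      have h3 : finrank ℂ (P0 ⊔ V' : Submodule ℂ (I6 → ℂ)) ≤ 6 := by
        refine (Submodule.finrank_le _).trans ?_
        rw [finrank_I6]
      rw [finrank_P0, hVr] at h1
      have h4 : 0 < finrank ℂ (P0 ⊓ V' : Submodule ℂ (I6 → ℂ)) := by omega
      obtain ⟨⟨d, hd⟩, hne⟩ := finrank_pos_iff_exists_ne_zero.mp h4
      exact ⟨d, hd.1, hd.2, fun h0 => hne (Subtype.ext h0)⟩
    -- the dual vectors
    have hsV : ∀ y, ∃ v ∈ V', Φ v = y := by
      intro y
      obtain ⟨x, hx⟩ := hsurj y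
      have hxt : x ∈ K ⊔ V' := by rw [hKV.sup_eq_top]; trivial
      obtain ⟨k, hk, v, hv, rfl⟩ := Submodule.mem_sup.mp hxt
      refine ⟨v, hv, ?_⟩
      rw [map_add, hΦP k (hK hk), zero_add] at hx
      exact hx
    choose g hgV hgΦ using hsV
    let w : I6 → (I6 → ℂ) := Sum.elim ![a, b, d] (fun j => g (Pi.single j 1))
    have hsum : ∀ x : I6 → ℂ, ∑ i, x i • w i = (x (.inl 0) • a + x (.inl 1) • b) +
        (x (.inl 2) • d + ∑ j, x (.inr j) • g (Pi.single j 1)) := by
      intro x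
      rw [Fintype.sum_sum_type, Fin.sum_univ_three]
      simp only [w, Sum.elim_inl, Sum.elim_inr, Matrix.cons_val_zero, Matrix.cons_val_one,
        Matrix.cons_val]
      abel
    have hp1 : ∀ x : I6 → ℂ, x (.inl 0) • a + x (.inl 1) • b ∈ K := fun x =>
      K.add_mem (K.smul_mem _ haK) (K.smul_mem _ hbK)
    have hp2 : ∀ x : I6 → ℂ, x (.inl 2) • d + ∑ j, x (.inr j) • g (Pi.single j 1) ∈ V' := fun x =>
      V'.add_mem (V'.smul_mem _ hdV) (Submodule.sum_mem _ fun j _ => V'.smul_mem _ (hgV _))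
    have hΦd : Φ d = 0 := hΦP d hdP
    have hΦw : ∀ x : I6 → ℂ, Φ (∑ i, x i • w i) = pZ ℂ x := by
      intro x
      rw [hsum, map_add, hΦP _ (hK (hp1 x)), zero_add, map_add, map_smul, hΦd, smul_zero,
        zero_add, map_sum]
      simp only [map_smul, hgΦ]
      funext i
      simp only [Finset.sum_apply, Pi.smul_apply, smul_eq_mul, Pi.single_apply]
      simp
    have hli : LinearIndependent ℂ w := by
      rw [Fintype.linearIndependent_iff]
      intro x hx
      have h1 := hΦw x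
      rw [hx, map_zero] at h1
      have hz : ∀ j, x (.inr j) = 0 := fun j => (congrFun h1 j).symm
      rw [hsum] at hx
      have h2 : x (.inl 0) • a + x (.inl 1) • b = 0 := by
        have h3 : x (.inl 0) • a + x (.inl 1) • b ∈ V' := by
          rw [eq_neg_of_add_eq_zero_left hx]
          exact V'.neg_mem (hp2 x)
        exact (Submodule.disjoint_def.mp hKV.disjoint) _ (hp1 x) h3
      obtain ⟨h3, h4⟩ := hKi _ _ h2
      rw [h2, zero_add] at hx
      simp only [hz, zero_smul, Finset.sum_const_zero, add_zero] at hx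
      have h5 := (smul_eq_zero.mp hx).resolve_right hd0
      intro i
      rcases i with i | i
      · fin_cases i
        · exact h3
        · exact h4
        · exact h5
      · exact hz i
    let B : Basis I6 ℂ (I6 → ℂ) := basisOfLinearIndependentOfCardEqFinrank hli (by
      rw [finrank_I6]; simp)
    have hB : ∀ i, B i = w i := fun i => by
      simp [B]
    refine ⟨B.equivFun.symm, ?_⟩
    have hex : ∀ x : I6 → ℂ, B.equivFun.symm x = ∑ i, x i • w i := by
      intro x
      rw [Basis.equivFun_symm_apply]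
      simp only [hB]
    have hE : ∀ i, B.equivFun.symm (E i) = w i := by
      intro i
      rw [hex]
      simp only [E, Pi.single_apply]
      rw [Finset.sum_eq_single i]
      · simp
      · intro j _ hj; simp [hj]
      · simp
    have hE0 : B.equivFun.symm (E (.inl 0)) = a := hE _
    have hE1 : B.equivFun.symm (E (.inl 1)) = b := hE _
    have hx0 : ∀ x : I6 → ℂ, c.T b b (B.equivFun.symm x) = x (.inr 0) := by
      intro x
      rw [← hΦ0, hex, hΦw]; rfl
    have hx1 : ∀ x : I6 → ℂ, c.T a b (B.equivFun.symm x) = - x (.inr 1) := by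
      intro x
      have h1 := hΦ1 (B.equivFun.symm x)
      rw [hex, hΦw] at h1
      rw [hex]
      have h2 : pZ ℂ x 1 = x (.inr 1) := rfl
      rw [h2] at h1
      linear_combination h1
    have hx2 : ∀ x : I6 → ℂ, c.T a a (B.equivFun.symm x) = x (.inr 2) := by
      intro x
      rw [← hΦ2, hex, hΦw]; rfl
    have hV : ∀ x : I6 → ℂ, x (.inl 0) = 0 → x (.inl 1) = 0 → B.equivFun.symm x ∈ V' := by
      intro x h0 h1
      rw [hex, hsum, h0, h1, zero_smul, zero_smul, add_zero, zero_add]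
      exact hp2 x
    refine ⟨?_, ?_, ?_, ?_, ?_, ?_⟩
    · intro x hx
      rw [comap_apply]
      apply hP
      rw [hex, hsum]
      have hz : ∀ j, x (.inr j) = 0 := fun j => congrFun (mem_P0.mp hx) j
      simp only [hz, zero_smul, Finset.sum_const_zero, add_zero]
      exact P0.add_mem (hK (hp1 x)) (P0.smul_mem _ hdP)
    · intro x
      rw [comap_apply, hE0]; exact hx2 x
    · intro x
      rw [comap_apply, hE0, hE1]; exact hx1 x
    · intro x
      rw [comap_apply, hE1]; exact hx0 x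
    · intro u v hu0 hu1 hv0 hv1
      rw [comap_apply, hE0]
      exact h a haK _ (hV u hu0 hu1) _ (hV v hv0 hv1)
    · intro u v hu0 hu1 hv0 hv1
      rw [comap_apply, hE1]
      exact h b hbK _ (hV u hu0 hu1) _ (hV v hv0 hv1)

end Cub

end Pool.Agent.Helper16
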