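import Pool.Agent.Helper16.CubicEngine
import Pool.Agent.Helper16.CubicTransfer

set_option autoImplicit false
set_option linter.unusedVariables false
set_option linter.unusedSectionVars false

/-!
Rationality of a smooth cubic fourfold in adapted coordinates.
-/

namespace Pool.Agent.Helper16

open MvPolynomial Module

namespace Cub

/-- a generic point of the cubic over an extension of the complex numbers -/
structure Gen (c : Cub (I6 → ℂ)) {K : Type} [Field K] [Algebra ℂ K] (x : I6 → K) : Prop where
  zero : c.ext K x x x = 0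
  gen : ∀ (G : MvPolynomial I6 ℂ) (n : ℕ), G.IsHomogeneous n → aeval x G = 0 →
    ∀ p : I6 → ℂ, c.T p p p = 0 → eval p G = 0

/-- the function field of the cubic is generated by four elements -/
def Rat4 (c : Cub (I6 → ℂ)) : Prop :=
  ∀ (K : Type) [Field K] [Algebra ℂ K] (x : I6 → K), c.Gen x →
    ∃ (r : Fin 4 → K) (τ : K), τ ≠ 0 ∧
      ∀ m, τ * x m ∈ IntermediateField.adjoin ℂ (Set.range r)

end Cub

theorem cubOf_ext (F : MvPolynomial (Fin 6) ℂ) (hF : F.IsHomogeneous 3) (hs : Smooth F)
    (e : (I6 → ℂ) ≃ₗ[ℂ] (Fin 6 → ℂ)) {K : Type} [Field K] [Algebra ℂ K] (x : I6 → K) :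
    ((cubOf F hF hs).comap e).ext K x x x =
      aeval (fun j => ∑ m, algebraMap ℂ K (e (Pi.single m 1) j) * x m) F := by
  -- both sides are the value at `x` of one polynomial
  set G : MvPolynomial I6 ℂ := aeval (fun j => ∑ m, C (e (Pi.single m 1) j) * X m) F with hG
  have h1 : aeval x G = aeval (fun j => ∑ m, algebraMap ℂ K (e (Pi.single m 1) j) * x m) F := by
    rw [hG]
    have : (aeval x : MvPolynomial I6 ℂ →ₐ[ℂ] K).comp
        (aeval (fun j => ∑ m, C (e (Pi.single m 1) j) * X m) :
          MvPolynomial (Fin 6) ℂ →ₐ[ℂ] MvPolynomial I6 ℂ) =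
        aeval (fun j => ∑ m, algebraMap ℂ K (e (Pi.single m 1) j) * x m) := by
      apply MvPolynomial.algHom_ext
      intro i
      simp only [AlgHom.comp_apply, aeval_X, map_sum, map_mul, algHom_C]
    exact DFunLike.congr_fun this F
  have h2 : ((cubOf F hF hs).comap e).ext (MvPolynomial I6 ℂ) X X X = G := by
    apply MvPolynomial.funext
    intro p
    have e1 := ((cubOf F hF hs).comap e).map_ext (aeval p : MvPolynomial I6 ℂ →ₐ[ℂ] ℂ) X X X
    simp only [aeval_X] at e1
    rw [aeval_eq_eval, Cub.ext_complex, Cub.comap_apply, cubOf_apply F hF hs] at e1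
    rw [e1, hG]
    have e2 : (aeval p : MvPolynomial I6 ℂ →ₐ[ℂ] ℂ).comp
        (aeval (fun j => ∑ m, C (e (Pi.single m 1) j) * X m) :
          MvPolynomial (Fin 6) ℂ →ₐ[ℂ] MvPolynomial I6 ℂ) = aeval (e p) := by
      apply MvPolynomial.algHom_ext
      intro j
      simp only [AlgHom.comp_apply, aeval_X, map_sum, map_mul, algHom_C]
      have e3 : e p = ∑ m, p m • e (Pi.single m 1) := by
        conv_lhs => rw [Cub.pi_sum p, map_sum]
        simp only [map_smul]
      rw [e3, Finset.sum_apply]
      refine Finset.sum_congr rfl fun m _ => ?_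
      rw [Pi.smul_apply, smul_eq_mul, mul_comm]; rfl
    have e4 := DFunLike.congr_fun e2 F
    rw [AlgHom.comp_apply, aeval_eq_eval, aeval_eq_eval] at e4
    exact e4.symm
  have h3 := ((cubOf F hF hs).comap e).map_ext (aeval x : MvPolynomial I6 ℂ →ₐ[ℂ] K) X X X
  simp only [aeval_X] at h3
  rw [← h3, h2, h1]

/-- rationality in adapted coordinates -/
theorem rational_of_rat4 {F : MvPolynomial (Fin 6) ℂ} (hF : F.IsHomogeneous 3) (hs : Smooth F)
    (e : (I6 → ℂ) ≃ₗ[ℂ] (Fin 6 → ℂ)) (h : ((cubOf F hF hs).comap e).Rat4) :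
    Nonempty (FractionRing (MvPolynomial (Fin 5) ℂ ⧸ Ideal.span {dh F}) ≃ₐ[ℂ]
      FractionRing (MvPolynomial (Fin 4) ℂ)) := by
  refine rational_of_generators hF hs ?_
  intro K _ _ x hx0 hgen
  -- the adapted coordinates
  let x' : I6 → K := fun m => ∑ j, algebraMap ℂ K (e.symm (Pi.single j 1) m) * x j
  have hinv : ∀ j, ∑ m, algebraMap ℂ K (e (Pi.single m 1) j) * x' m = x j := by
    intro j
    have h1 : ∀ i : Fin 6, ∑ m, e (Pi.single m 1) j * e.symm (Pi.single i 1) m =
        (Pi.single i 1 : Fin 6 → ℂ) j := by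
      intro i
      have h2 : e (e.symm (Pi.single i 1)) = ∑ m, (e.symm (Pi.single i 1) m) •
          e (Pi.single m 1) := by
        conv_lhs => rw [Cub.pi_sum (e.symm (Pi.single i 1)), map_sum]
        simp only [map_smul]
      rw [LinearEquiv.apply_symm_apply] at h2
      have h3 := congrFun h2 j
      rw [Finset.sum_apply] at h3
      rw [h3]
      refine Finset.sum_congr rfl fun m _ => ?_
      rw [Pi.smul_apply, smul_eq_mul, mul_comm]
    simp only [x', Finset.mul_sum]
    rw [Finset.sum_comm]
    have h3 : ∀ i : Fin 6, ∑ m, algebraMap ℂ K (e (Pi.single m 1) j) *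
        (algebraMap ℂ K (e.symm (Pi.single i 1) m) * x i) =
        algebraMap ℂ K ((Pi.single i 1 : Fin 6 → ℂ) j) * x i := by
      intro i
      rw [← h1 i, map_sum, Finset.sum_mul]
      refine Finset.sum_congr rfl fun m _ => ?_
      rw [map_mul]; ring
    rw [Finset.sum_congr rfl fun i _ => h3 i, Finset.sum_eq_single j]
    · simp
    · intro b _ hb
      rw [Pi.single_eq_of_ne (Ne.symm hb)]; simp
    · simp
  obtain ⟨r, τ, hτ, hr⟩ := h K x' ⟨by
    rw [cubOf_ext]
    simp only [hinv]
    exact hx0, by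
    intro G n hG h0 p hp
    -- pull back to the original coordinates
    set G' : MvPolynomial (Fin 6) ℂ := aeval (fun m => ∑ j, C (e.symm (Pi.single j 1) m) * X j) G
      with hG'
    have h1 : G'.IsHomogeneous n := by
      have := hG.aeval (fun m => ∑ j, C (e.symm (Pi.single j 1) m) * (X j : MvPolynomial (Fin 6) ℂ))
        (n := 1) (by
          intro m
          refine IsHomogeneous.sum _ _ _ fun j _ => ?_
          have := (isHomogeneous_C (Fin 6) (e.symm (Pi.single j 1) m)).mul (isHomogeneous_X ℂ j)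
          simpa using this)
      rwa [one_mul] at this
    have h2 : aeval x G' = 0 := by
      rw [hG', ← h0]
      have : (aeval x : MvPolynomial (Fin 6) ℂ →ₐ[ℂ] K).comp
          (aeval (fun m => ∑ j, C (e.symm (Pi.single j 1) m) * X j) :
            MvPolynomial I6 ℂ →ₐ[ℂ] MvPolynomial (Fin 6) ℂ) = aeval x' := by
        apply MvPolynomial.algHom_ext
        intro i
        simp only [AlgHom.comp_apply, aeval_X, map_sum, map_mul, algHom_C]
        rfl
      exact DFunLike.congr_fun this G
    obtain ⟨q, hq⟩ := hgen G' n h1 h2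
    have h3 : eval (e p) G' = eval p G := by
      rw [hG']
      have : (aeval (e p) : MvPolynomial (Fin 6) ℂ →ₐ[ℂ] ℂ).comp
          (aeval (fun m => ∑ j, C (e.symm (Pi.single j 1) m) * X j) :
            MvPolynomial I6 ℂ →ₐ[ℂ] MvPolynomial (Fin 6) ℂ) = aeval p := by
        apply MvPolynomial.algHom_ext
        intro i
        simp only [AlgHom.comp_apply, aeval_X, map_sum, map_mul, algHom_C]
        have h4 : e.symm (e p) = ∑ j, (e p j) • e.symm (Pi.single j 1) := by
          have h5 : e p = ∑ j, (e p j) • (Pi.single j 1 : Fin 6 → ℂ) := by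
            funext i
            simp only [Finset.sum_apply, Pi.smul_apply, smul_eq_mul, Pi.single_apply]
            simp
          conv_lhs => rw [h5, map_sum]
          simp only [map_smul]
        rw [LinearEquiv.symm_apply_apply] at h4
        conv_rhs => rw [h4]
        rw [Finset.sum_apply]
        refine Finset.sum_congr rfl fun m _ => ?_
        rw [Pi.smul_apply, smul_eq_mul, mul_comm]; rfl
      have h5 := DFunLike.congr_fun this G
      rw [AlgHom.comp_apply, aeval_eq_eval, aeval_eq_eval] at h5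
      exact h5
    rw [← h3, hq, map_mul]
    have h6 : eval (e p) F = 0 := by
      rw [← cubOf_apply F hF hs]
      exact hp
    rw [h6, zero_mul]⟩
  refine ⟨r, τ, hτ, fun j => ?_⟩
  rw [← hinv j, Finset.mul_sum]
  refine sum_mem fun m _ => ?_
  have h1 : τ * (algebraMap ℂ K (e (Pi.single m 1) j) * x' m) =
      algebraMap ℂ K (e (Pi.single m 1) j) * (τ * x' m) := by ring
  rw [h1]
  exact mul_mem (IntermediateField.algebraMap_mem _ _) (hr m)

end Pool.Agent.Helper16
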