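import Pool.Agent.Helper16.CubicQuad

set_option autoImplicit false

namespace Pool.Agent.Helper16

open Module Submodule

/-- a nonsingular symmetric trilinear form -/
structure Cub (V : Type*) [AddCommGroup V] [Module ℂ V] where
  T : V →ₗ[ℂ] V →ₗ[ℂ] V →ₗ[ℂ] ℂ
  s12 : ∀ x y z, T x y z = T y x z
  s23 : ∀ x y z, T x y z = T x z y
  ns : ∀ x, x ≠ 0 → ∃ y, T x x y ≠ 0

variable {V : Type*} [AddCommGroup V] [Module ℂ V] (c : Cub V)

namespace Cub

theorem s13 (x y z : V) : c.T x y z = c.T z y x := by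
  rw [c.s23, c.s12, c.s23]

theorem rot (x y z : V) : c.T x y z = c.T y z x := by
  rw [c.s12, c.s23]

/-- isotropic subspace -/
def Iso (W : Submodule ℂ V) : Prop := ∀ x ∈ W, c.T x x x = 0

theorem cube_add (x y : V) : c.T (x + y) (x + y) (x + y) =
    c.T x x x + 3 * c.T x x y + 3 * c.T x y y + c.T y y y := by
  simp only [map_add, LinearMap.add_apply]
  rw [c.s12 y x x, c.s23 x y x, c.s12 y x y, c.s13 y y x]
  ring

variable {c}

theorem Iso.two {W : Submodule ℂ V} (h : c.Iso W) {x y : V} (hx : x ∈ W) (hy : y ∈ W) :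
    c.T x x y = 0 := by
  have h1 := h _ (W.add_mem hx hy)
  have h2 := h _ (W.add_mem hx (W.neg_mem hy))
  rw [cube_add, h x hx] at h1 h2
  rw [h y hy] at h1
  rw [h _ (W.neg_mem hy)] at h2
  simp only [map_neg, LinearMap.neg_apply] at h2
  linear_combination (1/6) * h1 - (1/6) * h2

theorem Iso.three {W : Submodule ℂ V} (h : c.Iso W) {x y z : V} (hx : x ∈ W) (hy : y ∈ W)
    (hz : z ∈ W) : c.T x y z = 0 := by
  have h1 := h.two (W.add_mem hx hy) hz
  have h2 := h.two hx hz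
  have h3 := h.two hy hz
  simp only [map_add, LinearMap.add_apply] at h1
  rw [c.s12 y x z] at h1
  linear_combination (1/2) * h1 - (1/2) * h2 - (1/2) * h3

variable (c)

theorem exists_sup_one [FiniteDimensional ℂ V] (U : Submodule ℂ V)
    (hU : finrank ℂ V ≤ finrank ℂ U + 1) : ∃ y, U ⊔ ℂ ∙ y = ⊤ := by
  by_cases h : U = ⊤
  · exact ⟨0, by rw [h]; simp⟩
  · obtain ⟨y, hy⟩ := SetLike.exists_not_mem_of_ne_top U h rfl
    refine ⟨y, ?_⟩
    apply Submodule.eq_top_of_finrank_eq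
    have h1 : finrank ℂ U < finrank ℂ (U ⊔ ℂ ∙ y : Submodule ℂ V) := by
      apply Submodule.finrank_lt_finrank_of_lt
      rw [lt_iff_le_and_ne]
      refine ⟨le_sup_left, fun he => hy ?_⟩
      rw [he]; exact Submodule.mem_sup_right (Submodule.mem_span_singleton_self y)
    have h2 := Submodule.finrank_le (U ⊔ ℂ ∙ y : Submodule ℂ V)
    omega

theorem exists_sup_two [FiniteDimensional ℂ V] (U : Submodule ℂ V)
    (hU : finrank ℂ V ≤ finrank ℂ U + 2) : ∃ y y', U ⊔ ℂ ∙ y ⊔ ℂ ∙ y' = ⊤ := by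
  by_cases h : U = ⊤
  · exact ⟨0, 0, by rw [h]; simp⟩
  · obtain ⟨y, hy⟩ := SetLike.exists_not_mem_of_ne_top U h rfl
    have h1 : finrank ℂ U < finrank ℂ (U ⊔ ℂ ∙ y : Submodule ℂ V) := by
      apply Submodule.finrank_lt_finrank_of_lt
      rw [lt_iff_le_and_ne]
      refine ⟨le_sup_left, fun he => hy ?_⟩
      rw [he]; exact Submodule.mem_sup_right (Submodule.mem_span_singleton_self y)
    obtain ⟨y', hy'⟩ := exists_sup_one (U ⊔ ℂ ∙ y) (by omega)
    exact ⟨y, y', hy'⟩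

theorem sing_of_sup {U : Submodule ℂ V} {x y y' : V} (hU : ∀ u ∈ U, c.T x x u = 0)
    (hy : c.T x x y = 0) (hy' : c.T x x y' = 0) (h : U ⊔ ℂ ∙ y ⊔ ℂ ∙ y' = ⊤) : x = 0 := by
  by_contra hx
  obtain ⟨v, hv⟩ := c.ns x hx
  apply hv
  have : U ⊔ ℂ ∙ y ⊔ ℂ ∙ y' ≤ LinearMap.ker (c.T x x) := by
    refine sup_le (sup_le ?_ ?_) ?_
    · intro u hu; exact LinearMap.mem_ker.mpr (hU u hu)
    · rw [Submodule.span_singleton_le_iff_mem]; exact LinearMap.mem_ker.mpr hy
    · rw [Submodule.span_singleton_le_iff_mem]; exact LinearMap.mem_ker.mpr hy'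
  rw [h] at this
  exact LinearMap.mem_ker.mp (this (Submodule.mem_top (x := v)))

/-- no two-dimensional space of vectors whose tangent form vanishes on a hyperplane -/
theorem ns1 [FiniteDimensional ℂ V] {W U : Submodule ℂ V}
    (hU : finrank ℂ V ≤ finrank ℂ U + 1) (hW : 2 ≤ finrank ℂ W)
    (h : ∀ x ∈ W, ∀ u ∈ U, c.T x x u = 0) : False := by
  obtain ⟨y, hy⟩ := exists_sup_one U hU
  obtain ⟨x, hxW, hx0, hx⟩ := Q1' (c.T y) W hW
  apply hx0
  have hxy : c.T x x y = 0 := by rw [← hx, c.rot, c.rot]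
  refine c.sing_of_sup (fun u hu => h x hxW u hu) hxy (y' := 0) (by simp) ?_
  rw [hy]; simp

/-- no three-dimensional space of vectors whose tangent form vanishes on a codimension two
subspace -/
theorem ns2 [FiniteDimensional ℂ V] {W U : Submodule ℂ V}
    (hU : finrank ℂ V ≤ finrank ℂ U + 2) (hW : 3 ≤ finrank ℂ W)
    (h : ∀ x ∈ W, ∀ u ∈ U, c.T x x u = 0) : False := by
  obtain ⟨y, y', hy⟩ := exists_sup_two U hU
  obtain ⟨x, hxW, hx0, hx, hx'⟩ := Q2 (c.T y) (c.T y') (fun a b => c.s23 _ _ _)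
    (fun a b => c.s23 _ _ _) W hW
  apply hx0
  have hxy : c.T x x y = 0 := by rw [← hx, c.rot, c.rot]
  have hxy' : c.T x x y' = 0 := by rw [← hx', c.rot, c.rot]
  exact c.sing_of_sup (fun u hu => h x hxW u hu) hxy hxy' hy

variable {c}

theorem Iso.finrank_le [FiniteDimensional ℂ V] (hV : finrank ℂ V = 6) {W : Submodule ℂ V}
    (h : c.Iso W) : finrank ℂ W ≤ 3 := by
  by_contra hlt
  push Not at hlt
  exact c.ns2 (W := W) (U := W) (by omega) (by omega) (fun x hx u hu => h.two hx hu)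

end Cub

end Pool.Agent.Helper16
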