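import Mathlib
import Pool.Agent.Helper16.CubicBasic
import Pool.Agent.Helper16.CubicGeom

set_option autoImplicit false

namespace Pool.Agent.Helper16

open MvPolynomial Module

theorem aeval_mul_hom {σ S : Type*} [CommRing S] [Algebra ℂ S] {φ : MvPolynomial σ ℂ} {n : ℕ}
    (h : φ.IsHomogeneous n) (c : S) (g : σ → S) :
    aeval (fun i => c * g i) φ = c ^ n * aeval g φ := by
  rw [aeval_def, eval₂_eq, aeval_def, eval₂_eq, Finset.mul_sum]
  refine Finset.sum_congr rfl fun d hd => ?_
  have hn := h.degree_eq_sum_deg_support hd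
  simp only [mul_pow]
  rw [Finset.prod_mul_distrib, Finset.prod_pow_eq_pow_sum, ← hn]
  ring

theorem eval_smul_hom {σ : Type*} {φ : MvPolynomial σ ℂ} {n : ℕ}
    (h : φ.IsHomogeneous n) (c : ℂ) (g : σ → ℂ) :
    eval (c • g) φ = c ^ n * eval g φ := by
  have := aeval_mul_hom h c g
  rw [aeval_eq_eval, aeval_eq_eval] at this
  exact this

/-- dehomogenisation at the first coordinate -/
noncomputable def dh : MvPolynomial (Fin 6) ℂ →ₐ[ℂ] MvPolynomial (Fin 5) ℂ :=
  aeval (Fin.cons 1 X)

theorem eval_dh (x : Fin 5 → ℂ) (G : MvPolynomial (Fin 6) ℂ) :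
    eval x (dh G) = eval (Fin.cons 1 x : Fin 6 → ℂ) G := by
  have : (aeval x : MvPolynomial (Fin 5) ℂ →ₐ[ℂ] ℂ).comp dh = aeval (Fin.cons 1 x : Fin 6 → ℂ) := by
    apply MvPolynomial.algHom_ext
    intro i
    refine Fin.cases ?_ (fun j => ?_) i
    · simp [dh]
    · simp [dh]
  have h := DFunLike.congr_fun this G
  simpa [aeval_eq_eval] using h

theorem dh_inj {G : MvPolynomial (Fin 6) ℂ} {n : ℕ} (hG : G.IsHomogeneous n) (h : dh G = 0) :
    G = 0 := by
  have h0 : X 0 * G = 0 := by
    apply MvPolynomial.funext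
    intro v
    rw [map_mul, eval_X, map_zero]
    by_cases hv : v 0 = 0
    · rw [hv, zero_mul]
    · have hv' : v = v 0 • (Fin.cons 1 (fun i => (v 0)⁻¹ * v i.succ) : Fin 6 → ℂ) := by
        funext i
        refine Fin.cases ?_ (fun j => ?_) i
        · simp
        · simp [hv]
      have : eval v G = 0 := by
        rw [hv', eval_smul_hom hG, ← eval_dh, h, map_zero, mul_zero]
      rw [this, mul_zero]
  rcases mul_eq_zero.mp h0 with h1 | h1
  · exact absurd h1 (X_ne_zero 0)
  · exact h1

/-- homogenisation to degree `n` -/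
noncomputable def hmg (n : ℕ) (p : MvPolynomial (Fin 5) ℂ) : MvPolynomial (Fin 6) ℂ :=
  ∑ i ∈ Finset.range (n + 1), X 0 ^ (n - i) * rename Fin.succ (homogeneousComponent i p)

theorem hmg_hom (n : ℕ) (p : MvPolynomial (Fin 5) ℂ) : (hmg n p).IsHomogeneous n := by
  apply IsHomogeneous.sum
  intro i hi
  have h1 : (X 0 ^ (n - i) : MvPolynomial (Fin 6) ℂ).IsHomogeneous (n - i) := isHomogeneous_X_pow _ _
  have h2 : (rename Fin.succ (homogeneousComponent i p) : MvPolynomial (Fin 6) ℂ).IsHomogeneous i :=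
    (homogeneousComponent_isHomogeneous i p).rename_isHomogeneous
  have h3 := h1.mul h2
  have : n - i + i = n := by
    have := Finset.mem_range.mp hi; omega
  rwa [this] at h3

theorem dh_hmg {n : ℕ} {p : MvPolynomial (Fin 5) ℂ} (hp : p.totalDegree ≤ n) : dh (hmg n p) = p := by
  have h1 : ∀ q : MvPolynomial (Fin 5) ℂ, dh (rename Fin.succ q) = q := by
    intro q
    rw [dh, aeval_rename]
    have : ((Fin.cons 1 X : Fin 6 → MvPolynomial (Fin 5) ℂ) ∘ Fin.succ) = X := by
      funext i; simp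
    rw [this]; simp
  have h2 : dh (X 0) = 1 := by simp [dh]
  unfold hmg
  rw [map_sum]
  simp only [map_mul, map_pow, h1, h2, one_pow, one_mul]
  have hs := sum_homogeneousComponent p
  have hsub : Finset.range (p.totalDegree + 1) ⊆ Finset.range (n + 1) :=
    Finset.range_mono (by omega)
  rw [← Finset.sum_subset hsub, hs]
  intro i _ hi
  apply homogeneousComponent_eq_zero
  simp only [Finset.mem_range, not_lt] at hi; omega

/-- smoothness of the hypersurface `F = 0` -/
def Smooth (F : MvPolynomial (Fin 6) ℂ) : Prop :=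
  ∀ x : Fin 6 → ℂ, x ≠ 0 → ∃ i, eval x (pderiv i F) ≠ 0

/-- the trilinear form of a smooth cubic -/
noncomputable def cubOf (F : MvPolynomial (Fin 6) ℂ) (hF : F.IsHomogeneous 3) (hs : Smooth F) :
    Cub (Fin 6 → ℂ) where
  T := tri (tcoef F)
  s12 := tri_symm12 (tcoef_swap12 F)
  s23 := tri_symm23 (tcoef_swap23 F)
  ns := by
    intro x hx
    obtain ⟨i, hi⟩ := hs x hx
    refine ⟨Pi.single i 1, fun h => hi ?_⟩
    rw [eval_pderiv_eq_tri hF, h, mul_zero]

theorem cubOf_apply (F : MvPolynomial (Fin 6) ℂ) (hF : F.IsHomogeneous 3) (hs : Smooth F)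
    (x : Fin 6 → ℂ) : (cubOf F hF hs).T x x x = eval x F := (eval_eq_tri hF x).symm

variable {F : MvPolynomial (Fin 6) ℂ}

/-- a smooth cubic has no linear factor -/
theorem not_factor (hF : F.IsHomogeneous 3) (hs : Smooth F) {G H : MvPolynomial (Fin 6) ℂ}
    (hG : G.IsHomogeneous 1) (h : F = G * H) : False := by
  -- `G` is a linear form
  set f : Dual ℂ (Fin 6 → ℂ) := ∑ i, (eval 0 (pderiv i G)) • LinearMap.proj i with hf
  have hfG : ∀ x, f x = eval x G := by
    intro x
    have h1 := euler_eval hG x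
    simp only [Nat.cast_one, one_mul] at h1
    rw [h1, hf, LinearMap.sum_apply]
    refine Finset.sum_congr rfl fun i _ => ?_
    rw [LinearMap.smul_apply, LinearMap.proj_apply, smul_eq_mul,
      eval_const_of_hom0 (hG.pderiv (i := i)) x, mul_comm]
  have hiso : (cubOf F hF hs).Iso (LinearMap.ker f) := by
    intro x hx
    rw [cubOf_apply, h, map_mul, ← hfG, LinearMap.mem_ker.mp hx, zero_mul]
  have h3 := hiso.finrank_le (by simp)
  have h4 := LinearMap.finrank_range_add_finrank_ker f
  have h5 : finrank ℂ (LinearMap.range f) ≤ 1 := by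
    have := Submodule.finrank_le (LinearMap.range f)
    simpa using this
  have h6 : finrank ℂ (Fin 6 → ℂ) = 6 := by simp
  omega

theorem totalDegree_dh (hF : F.IsHomogeneous 3) (hs : Smooth F) : 3 ≤ (dh F).totalDegree := by
  by_contra hlt
  push Not at hlt
  have h1 : F = X 0 * hmg 2 (dh F) := by
    have h2 : (F - X 0 * hmg 2 (dh F)).IsHomogeneous 3 := by
      apply hF.sub
      have := (isHomogeneous_X ℂ (0 : Fin 6)).mul (hmg_hom 2 (dh F))
      exact this
    have h3 : dh (F - X 0 * hmg 2 (dh F)) = 0 := by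
      rw [map_sub, map_mul, dh_hmg (by omega)]
      simp [dh]
    exact sub_eq_zero.mp (dh_inj h2 h3)
  exact not_factor hF hs (isHomogeneous_X ℂ (0 : Fin 6)) h1

theorem totalDegree_dh_le {G : MvPolynomial (Fin 6) ℂ} {n : ℕ} (hG : G.IsHomogeneous n) :
    (dh G).totalDegree ≤ n := by
  rw [dh, aeval_def, eval₂_eq]
  apply totalDegree_finsetSum_le
  intro d hd
  refine le_trans (totalDegree_mul _ _) ?_
  have h1 : (algebraMap ℂ (MvPolynomial (Fin 5) ℂ) (coeff d G)).totalDegree = 0 := by
    rw [MvPolynomial.algebraMap_eq]; exact totalDegree_C _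
  rw [h1, zero_add]
  refine le_trans (totalDegree_finsetProd _ _) ?_
  have hn := hG.degree_eq_sum_deg_support hd
  rw [hn]
  apply Finset.sum_le_sum
  intro i _
  refine le_trans (totalDegree_pow _ _) ?_
  have : ((Fin.cons 1 X : Fin 6 → MvPolynomial (Fin 5) ℂ) i).totalDegree ≤ 1 := by
    refine Fin.cases ?_ (fun j => ?_) i
    · simp
    · simp
  calc d i * _ ≤ d i * 1 := Nat.mul_le_mul_left _ this
    _ = d i := mul_one _

theorem irreducible_dh (hF : F.IsHomogeneous 3) (hs : Smooth F) : Irreducible (dh F) := by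
  have h3 := totalDegree_dh hF hs
  have h3' := totalDegree_dh_le hF
  have hne : dh F ≠ 0 := by
    intro h; rw [h] at h3; simp at h3
  have hunit : ∀ g : MvPolynomial (Fin 5) ℂ, g ≠ 0 → g.totalDegree = 0 → IsUnit g := by
    intro g hg hd
    rw [totalDegree_eq_zero_iff_eq_C] at hd
    rw [hd]
    apply IsUnit.map
    rw [isUnit_iff_ne_zero]
    intro h0; apply hg; rw [hd, h0, map_zero]
  have key : ∀ g h : MvPolynomial (Fin 5) ℂ, dh F = g * h → g.totalDegree ≤ 1 →
      h.totalDegree ≤ 2 → False := by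
    intro g h hgh hg hh
    have h1 : F = hmg 1 g * hmg 2 h := by
      have h2 : (F - hmg 1 g * hmg 2 h).IsHomogeneous 3 :=
        hF.sub ((hmg_hom 1 g).mul (hmg_hom 2 h))
      have h4 : dh (F - hmg 1 g * hmg 2 h) = 0 := by
        rw [map_sub, map_mul, dh_hmg hg, dh_hmg hh, hgh, sub_self]
      exact sub_eq_zero.mp (dh_inj h2 h4)
    exact not_factor hF hs (hmg_hom 1 g) h1
  constructor
  · intro hu
    have := MvPolynomial.isUnit_iff_totalDegree_of_isReduced.mp hu
    omega
  · intro g h hgh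
    have hg0 : g ≠ 0 := by rintro rfl; simp at hgh; exact hne hgh
    have hh0 : h ≠ 0 := by rintro rfl; simp at hgh; exact hne hgh
    have hdeg := totalDegree_mul_of_isDomain hg0 hh0
    rw [← hgh] at hdeg
    by_contra hcon
    push Not at hcon
    obtain ⟨hgu, hhu⟩ := hcon
    have hg1 : g.totalDegree ≠ 0 := fun h => hgu (hunit g hg0 h)
    have hh1 : h.totalDegree ≠ 0 := fun h' => hhu (hunit h hh0 h')
    by_cases hc : g.totalDegree ≤ 1
    · exact key g h hgh hc (by omega)
    · exact key h g (by rw [hgh, mul_comm]) (by omega) (by omega)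

/-- a polynomial of degree at most three divisible by the equation is a multiple of it -/
theorem eq_C_mul_of_dvd (hF : F.IsHomogeneous 3) (hs : Smooth F) {G : MvPolynomial (Fin 6) ℂ}
    (hG : G.IsHomogeneous 3) (h : dh F ∣ dh G) : ∃ k : ℂ, G = C k * F := by
  obtain ⟨q, hq⟩ := h
  have h3 := totalDegree_dh hF hs
  have hne : dh F ≠ 0 := by
    intro h; rw [h] at h3; simp at h3
  by_cases hq0 : q = 0
  · refine ⟨0, ?_⟩
    rw [hq0, mul_zero] at hq
    rw [dh_inj hG hq]; simp
  · have hdeg := totalDegree_mul_of_isDomain hne hq0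
    rw [← hq] at hdeg
    have h4 := totalDegree_dh_le hG
    have h5 : q.totalDegree = 0 := by omega
    rw [totalDegree_eq_zero_iff_eq_C] at h5
    refine ⟨coeff 0 q, ?_⟩
    have h6 : (G - C (coeff 0 q) * F).IsHomogeneous 3 := hG.sub (hF.C_mul _)
    have h7 : dh (G - C (coeff 0 q) * F) = 0 := by
      rw [map_sub, map_mul, hq]
      have : dh (C (coeff 0 q)) = C (coeff 0 q) := dh.commutes (coeff 0 q)
      rw [this, ← h5]; ring
    exact sub_eq_zero.mp (dh_inj h6 h7)

theorem not_dvd_linear (hF : F.IsHomogeneous 3) (hs : Smooth F) {G : MvPolynomial (Fin 6) ℂ}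
    (hG : G.IsHomogeneous 1) (hG0 : G ≠ 0) (h : dh F ∣ dh G) : False := by
  obtain ⟨q, hq⟩ := h
  have h3 := totalDegree_dh hF hs
  have hne : dh F ≠ 0 := by
    intro h; rw [h] at h3; simp at h3
  have hq0 : q ≠ 0 := by
    rintro rfl
    rw [mul_zero] at hq
    exact hG0 (dh_inj hG hq)
  have hdeg := totalDegree_mul_of_isDomain hne hq0
  rw [← hq] at hdeg
  have h4 := totalDegree_dh_le hG
  omega

end Pool.Agent.Helper16
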