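import Pool.Agent.Helper16.CubicTensor

set_option autoImplicit false
set_option linter.unusedVariables false
set_option linter.unusedSectionVars false

namespace Pool.Agent.Helper16

open MvPolynomial Module

section defs

variable (S : Type*) [CommRing S] [Algebra ℂ S]

/-- the component in the base plane -/
def vY : (Fin 4 → S) →ₗ[S] (I6 → S) :=
  (iY S).comp (LinearMap.pi fun a : Fin 3 => LinearMap.proj (Fin.castSucc a))

variable {S}

/-- the point `(y, u z)` -/
def pt (z : Fin 3 → S) : (Fin 4 → S) →ₗ[S] (I6 → S) :=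
  vY S + (LinearMap.proj (3 : Fin 4)).smulRight (iZ S z)

@[simp] theorem vY_inl (v : Fin 4 → S) (a : Fin 3) : vY S v (.inl a) = v a.castSucc := rfl
@[simp] theorem vY_inr (v : Fin 4 → S) (a : Fin 3) : vY S v (.inr a) = 0 := rfl

theorem pt_apply (z : Fin 3 → S) (v : Fin 4 → S) : pt z v = vY S v + v 3 • iZ S z := rfl

end defs

/-- the quaternary quadratic form over the point `z` -/
noncomputable def Cub.nf (c : Cub (I6 → ℂ)) {S : Type*} [CommRing S] [Algebra ℂ S]
    (z : Fin 3 → S) : (Fin 4 → S) →ₗ[S] (Fin 4 → S) →ₗ[S] S :=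
  LinearMap.mk₂ S (fun v v' => c.ext S (vY S v) (vY S v') (iZ S z) +
    algebraMap ℂ S (1/2) * (v 3 * c.ext S (vY S v') (iZ S z) (iZ S z) +
      v' 3 * c.ext S (vY S v) (iZ S z) (iZ S z)) +
    algebraMap ℂ S (1/3) * (v 3 * v' 3 * c.ext S (iZ S z) (iZ S z) (iZ S z)))
    (by
      intro a b d
      simp only [map_add, LinearMap.add_apply, Pi.add_apply]
      ring)
    (by
      intro r a b
      simp only [map_smul, LinearMap.smul_apply, Pi.smul_apply, smul_eq_mul]
      ring)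
    (by
      intro a b d
      simp only [map_add, LinearMap.add_apply, Pi.add_apply]
      ring)
    (by
      intro r a b
      simp only [map_smul, LinearMap.smul_apply, Pi.smul_apply, smul_eq_mul]
      ring)

namespace Cub

variable (c : Cub (I6 → ℂ)) {S S' : Type*} [CommRing S] [Algebra ℂ S] [CommRing S'] [Algebra ℂ S']

theorem nf_apply (z : Fin 3 → S) (v v' : Fin 4 → S) :
    c.nf z v v' = c.ext S (vY S v) (vY S v') (iZ S z) +
    algebraMap ℂ S (1/2) * (v 3 * c.ext S (vY S v') (iZ S z) (iZ S z) +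
      v' 3 * c.ext S (vY S v) (iZ S z) (iZ S z)) +
    algebraMap ℂ S (1/3) * (v 3 * v' 3 * c.ext S (iZ S z) (iZ S z) (iZ S z)) := rfl

theorem nf_symm (z : Fin 3 → S) (v v' : Fin 4 → S) : c.nf z v v' = c.nf z v' v := by
  rw [nf_apply, nf_apply, c.ext12 (vY S v)]; ring

theorem map_nf (φ : S →ₐ[ℂ] S') (z : Fin 3 → S) (v v' : Fin 4 → S) :
    φ (c.nf z v v') = c.nf (fun i => φ (z i)) (fun i => φ (v i)) (fun i => φ (v' i)) := by
  have e1 : ∀ v : Fin 4 → S, (fun i => φ (vY S v i)) = vY S' (fun i => φ (v i)) := by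
    intro v; funext i; rcases i with i | i <;> simp
  have e2 : ∀ z : Fin 3 → S, (fun i => φ (iZ S z i)) = iZ S' (fun i => φ (z i)) := by
    intro v; funext i; rcases i with i | i <;> simp
  rw [nf_apply, nf_apply]
  simp only [map_add, map_mul, map_ext, AlgHom.commutes, e1, e2]

theorem nf_complex (z : Fin 3 → ℂ) (v v' : Fin 4 → ℂ) :
    c.nf z v v' = c.T (vY ℂ v) (vY ℂ v') (iZ ℂ z) +
    (1/2) * (v 3 * c.T (vY ℂ v') (iZ ℂ z) (iZ ℂ z) + v' 3 * c.T (vY ℂ v) (iZ ℂ z) (iZ ℂ z)) +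
    (1/3) * (v 3 * v' 3 * c.T (iZ ℂ z) (iZ ℂ z) (iZ ℂ z)) := by
  rw [nf_apply]; simp only [ext_complex]; rfl

theorem vY_mem (v : Fin 4 → ℂ) : vY ℂ v ∈ P0 := by rw [mem_P0]; funext k; simp

variable {c}

/-- the cubic on the span of the base plane and `z` -/
theorem T_pt (hP : c.Iso P0) (z : Fin 3 → ℂ) (v : Fin 4 → ℂ) :
    c.T (pt z v) (pt z v) (pt z v) = 3 * v 3 * c.nf z v v := by
  rw [nf_complex, pt_apply, c.cube_add, hP _ (vY_mem v)]
  simp only [map_smul, LinearMap.smul_apply, smul_eq_mul]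
  ring

theorem T_pt_Y (hP : c.Iso P0) (z : Fin 3 → ℂ) (v v' : Fin 4 → ℂ) (h : v' 3 = 0) :
    c.T (pt z v) (pt z v) (vY ℂ v') = 2 * v 3 * c.nf z v v' := by
  rw [nf_complex, pt_apply, h]
  simp only [map_add, map_smul, LinearMap.add_apply, LinearMap.smul_apply, smul_eq_mul]
  rw [hP.two (vY_mem v) (vY_mem v'), c.s12 (iZ ℂ z) (vY ℂ v) (vY ℂ v'),
    c.s23 (vY ℂ v) (iZ ℂ z) (vY ℂ v'), c.s13 (iZ ℂ z) (iZ ℂ z) (vY ℂ v')]
  ring

theorem T_pt_Z (z : Fin 3 → ℂ) (v : Fin 4 → ℂ) :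
    c.T (pt z v) (pt z v) (iZ ℂ z) = c.nf z v v + 2 * v 3 * c.nf z v (Pi.single 3 1) := by
  have h0 : vY ℂ (Pi.single 3 1) = 0 := by
    funext i; rcases i with i | i
    · simp [Pi.single_apply]
      intro h
      have := congrArg Fin.val h
      simp at this; omega
    · simp
  rw [nf_complex, nf_complex, pt_apply, h0]
  simp only [map_add, map_smul, LinearMap.add_apply, LinearMap.smul_apply, smul_eq_mul, map_zero,
    LinearMap.zero_apply, Pi.single_eq_same]
  rw [c.s12 (iZ ℂ z) (vY ℂ v) (iZ ℂ z)]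
  ring

end Cub

/-- the vector in the base plane -/
def yv {S : Type*} [CommRing S] (y : Fin 3 → S) : Fin 4 → S := Fin.snoc y 0

@[simp] theorem yv_last {S : Type*} [CommRing S] (y : Fin 3 → S) : yv y 3 = 0 := by
  exact Fin.snoc_last (α := fun _ => S) _ _

@[simp] theorem vY_yv {S : Type*} [CommRing S] [Algebra ℂ S] (y : Fin 3 → S) :
    vY S (yv y) = iY S y := by
  funext i; rcases i with i | i
  · simp [yv]
  · simp

theorem pt_inj {z : Fin 3 → ℂ} (hz : z ≠ 0) {v : Fin 4 → ℂ} (h : pt z v = 0) : v = 0 := by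
  have h1 : pZ ℂ (pt z v) = 0 := by rw [h, map_zero]
  have h2 : v 3 = 0 := by
    obtain ⟨k, hk⟩ := Function.ne_iff.mp hz
    have := congrFun h1 k
    rw [pt_apply] at this
    simp at this
    rcases this with h | h
    · exact h
    · exact absurd h hk
  funext i
  refine Fin.lastCases ?_ (fun a => ?_) i
  · exact h2
  · have := congrFun h (.inl a)
    rw [pt_apply] at this
    simpa using this

namespace Cub

variable {c : Cub (I6 → ℂ)}

/-- radical vectors -/
def Rad (c : Cub (I6 → ℂ)) (z : Fin 3 → ℂ) (v : Fin 4 → ℂ) : Prop := ∀ v', c.nf z v v' = 0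

theorem Rad.T_Y (hP : c.Iso P0) {z : Fin 3 → ℂ} {v : Fin 4 → ℂ} (h : c.Rad z v)
    {x : I6 → ℂ} (hx : x ∈ P0) : c.T (pt z v) (pt z v) x = 0 := by
  rw [eq_iY_of_mem hx, ← vY_yv, T_pt_Y hP z v _ (yv_last _), h, mul_zero]

theorem Rad.T_Z {z : Fin 3 → ℂ} {v : Fin 4 → ℂ} (h : c.Rad z v) :
    c.T (pt z v) (pt z v) (iZ ℂ z) = 0 := by
  rw [T_pt_Z, h, h, mul_zero, add_zero]

/-- a radical vector for which the tangent form vanishes on the complement is zero -/
theorem Rad.eq_zero (hP : c.Iso P0) {z : Fin 3 → ℂ} (hz : z ≠ 0) {v : Fin 4 → ℂ}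
    (h : c.Rad z v) (h' : ∀ k, c.T (pt z v) (pt z v) (iZ ℂ (Pi.single k 1)) = 0) : v = 0 := by
  apply pt_inj hz
  by_contra hne
  obtain ⟨x, hx⟩ := c.ns _ hne
  apply hx
  rw [decomp x, map_add, h.T_Y hP (iY_mem _), zero_add]
  have : pZ ℂ x = ∑ k, (pZ ℂ x k) • (Pi.single k 1 : Fin 3 → ℂ) := by
    funext i
    simp only [Finset.sum_apply, Pi.smul_apply, smul_eq_mul, Pi.single_apply]
    simp
  rw [this, map_sum, map_sum]
  refine Finset.sum_eq_zero fun k _ => ?_
  rw [map_smul, map_smul, h' k, smul_zero]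

end Cub

end Pool.Agent.Helper16
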