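import Pool.Agent.Helper16.CubicBez2
import Pool.Agent.Helper16.CubicA19
import Pool.Agent.Helper16.CubicAssembly

set_option autoImplicit false
set_option linter.unusedVariables false
set_option linter.unusedSectionVars false

namespace Pool.Agent.Helper16

open MvPolynomial Module

namespace Cub

variable {c : Cub (I6 → ℂ)}

theorem disc_relprime (hP : c.Iso P0) (hirr : Irreducible c.disc) {Q : R3} {e : ℕ}
    (hQ : Q.IsHomogeneous e) (hQ0 : Q ≠ 0) (he : e < 6) : IsRelPrime c.disc Q := by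
  rw [hirr.isRelPrime_iff_not_dvd]
  rintro ⟨k, hk⟩
  obtain ⟨a, b, ha, hb, hab⟩ := hom_factor (by rw [← hk]; exact hQ) (by rw [← hk]; exact hQ0)
  have : a = 6 := ha.inj_right disc_hom (disc_ne_zero hP)
  omega

theorem C2.disc_zero {b : Fin 3 → ℂ} (h : c.C2 b) : eval b c.disc = 0 := by
  rw [disc_eq_sum, map_sum]
  refine Finset.sum_eq_zero fun j _ => ?_
  rw [map_mul, h.cof_zero, mul_zero]

theorem nine (hP : c.Iso P0) (hirr : Irreducible c.disc) {N : ℕ} (z : Fin N → (Fin 3 → ℂ))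
    (h0 : ∀ i, z i ≠ 0) (hz : ∀ i j, i ≠ j → z i ∉ (ℂ ∙ z j)) (hC : ∀ i, c.C2 (z i)) : N ≤ 9 := by
  have hA3 : c.cof 3 ≠ 0 := by rw [cof3]; exact dis3_ne_zero hP
  have := bezout2 disc_hom cof3_hom (disc_relprime hP hirr cof3_hom hA3 (by norm_num)) hA3 z h0 hz
    (fun i => (hC i).disc_zero) (fun i k => (hC i).dif_zero k) (fun i => (hC i).cof_zero 3)
  omega

theorem three_line (hP : c.Iso P0) (hirr : Irreducible c.disc) {N : ℕ}
    (z : Fin N → (Fin 3 → ℂ)) (h0 : ∀ i, z i ≠ 0) (hz : ∀ i j, i ≠ j → z i ∉ (ℂ ∙ z j))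
    (hC : ∀ i, c.C2 (z i)) {l : (Fin 3 → ℂ) →ₗ[ℂ] ℂ} (hl : l ≠ 0) (hlz : ∀ i, l (z i) = 0) :
    N ≤ 3 := by
  have hl0 := linp_ne_zero hl
  have := bezout2 disc_hom (linp_hom l) (disc_relprime hP hirr (linp_hom l) hl0 (by norm_num)) hl0
    z h0 hz
    (fun i => (hC i).disc_zero) (fun i k => (hC i).dif_zero k)
    (fun i => by rw [eval_linp]; exact hlz i)
  omega

/-- the points attached to the planes collinear with the base plane -/
theorem star_points (hP : c.Iso P0) (T : Finset (Submodule ℂ (I6 → ℂ)))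
    (hT : ∀ W ∈ T, c.Pl W ∧ W ≠ P0 ∧ finrank ℂ (W ⊓ P0 : Submodule ℂ (I6 → ℂ)) = 2) :
    ∃ (n : ℕ) (b : Fin n → (Fin 3 → ℂ)) (W : Fin n → Submodule ℂ (I6 → ℂ)), T.card ≤ 2 * n ∧
      (∀ i, b i ≠ 0) ∧ (∀ i j, i ≠ j → b i ∉ (ℂ ∙ b j)) ∧ (∀ i, c.C2 (b i)) ∧
      (∀ i, W i ∈ T) ∧ (∀ i, W i ⊔ P0 = P0 ⊔ ℂ ∙ iZ ℂ (b i)) := by
  classical
  have h1 : T.card ≤ 2 * (T.image fun W => W ⊔ P0).card := by
    apply Finset.card_le_mul_card_image
    intro U hU
    obtain ⟨W, hW, rfl⟩ := Finset.mem_image.mp hU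
    obtain ⟨hWpl, hWne, hW2⟩ := hT W hW
    obtain ⟨W3, hW3, -, -, -, -, -, hthree⟩ := Cub.third finrank_I6 hWpl (pl_P0 hP) hWne hW2
    have hsub : (T.filter fun x => x ⊔ P0 = W ⊔ P0) ⊆ {W, W3} := by
      intro S hS
      obtain ⟨hST, hSU⟩ := Finset.mem_filter.mp hS
      obtain ⟨hSpl, hSne, hS2⟩ := hT S hST
      have hle : S ≤ W ⊔ P0 := by rw [← hSU]; exact le_sup_left
      rw [Finset.mem_insert, Finset.mem_singleton]
      rcases hthree S hSpl.iso hle with h | h | h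
      · left; exact Submodule.eq_of_le_of_finrank_eq h (by rw [hSpl.rank, hWpl.rank])
      · exfalso; exact hSne (Submodule.eq_of_le_of_finrank_eq h (by rw [hSpl.rank, finrank_P0]))
      · right
        exact Submodule.eq_of_le_of_finrank_eq h (by rw [hSpl.rank, hW3.rank])
    exact (Finset.card_le_card hsub).trans Finset.card_le_two
  set S := T.image fun W => W ⊔ P0 with hS
  have hex : ∀ i : Fin S.card, ∃ W ∈ T, W ⊔ P0 = (S.equivFin.symm i : Submodule ℂ (I6 → ℂ)) := by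
    intro i
    obtain ⟨W, hW, hWe⟩ := Finset.mem_image.mp (S.equivFin.symm i).2
    exact ⟨W, hW, hWe⟩
  choose W hWT hWe using hex
  have hpt : ∀ i, ∃ b, b ≠ 0 ∧ W i ⊔ P0 = P0 ⊔ ℂ ∙ iZ ℂ b ∧ c.C2 b := fun i =>
    exists_point hP (hT _ (hWT i)).1 (hT _ (hWT i)).2.1 (hT _ (hWT i)).2.2
  choose b hb0 hbU hbC using hpt
  refine ⟨S.card, b, W, h1, hb0, ?_, hbC, hWT, hbU⟩
  intro i j hij hmem
  obtain ⟨a, ha⟩ := Submodule.mem_span_singleton.mp hmem
  have hle : P0 ⊔ ℂ ∙ iZ ℂ (b i) ≤ P0 ⊔ ℂ ∙ iZ ℂ (b j) := by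
    refine sup_le le_sup_left ?_
    rw [Submodule.span_singleton_le_iff_mem, ← ha, map_smul]
    exact Submodule.smul_mem _ _
      (Submodule.mem_sup_right (Submodule.mem_span_singleton_self _))
  have heq := Submodule.eq_of_le_of_finrank_eq hle
    (by rw [finrank_U (hb0 i), finrank_U (hb0 j)])
  rw [← hbU, ← hbU, hWe, hWe] at heq
  exact hij (S.equivFin.symm.injective (Subtype.ext heq))

/-- the points lie on the line of a plane which is not collinear with the base plane -/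
theorem tl_node (hP : c.Iso P0) (hmeet : ∀ A B, c.Pl A → c.Pl B → A ⊓ B ≠ ⊥)
    {W S : Submodule ℂ (I6 → ℂ)} (hW : c.Pl W) (hWne : W ≠ P0)
    (hW2 : finrank ℂ (W ⊓ P0 : Submodule ℂ (I6 → ℂ)) = 2) (hS : c.Pl S) (hSne : S ≠ P0)
    (hS1 : finrank ℂ (S ⊓ P0 : Submodule ℂ (I6 → ℂ)) ≠ 2) {x : Fin 3 → ℂ} (hx : iY ℂ x ∈ S)
    {b : Fin 3 → ℂ} (hU : W ⊔ P0 = P0 ⊔ ℂ ∙ iZ ℂ b) : c.tl x b = 0 := by
  obtain ⟨W3, hW3, h31, h32, hle, h13, h23, hthree⟩ :=
    Cub.third finrank_I6 hW (pl_P0 hP) hWne hW2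
  have hSW : S ≠ W := by rintro rfl; exact hS1 hW2
  have hSW3 : S ≠ W3 := by
    rintro rfl; apply hS1; rw [inf_comm]; exact h23
  have hex := (Cub.exactly_one finrank_I6 hW (pl_P0 hP) hW3 hS hW2 h13 h23 hle hthree hSW hSne hSW3
    (hmeet _ _ hS hW) (hmeet _ _ hS (pl_P0 hP)) (hmeet _ _ hS hW3)).1
  have hSU : ¬ S ≤ W ⊔ P0 := by
    intro h
    rcases hthree S hS.iso h with h | h | h
    · exact hSW (Submodule.eq_of_le_of_finrank_eq h (by rw [hS.rank, hW.rank]))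
    · exact hSne (Submodule.eq_of_le_of_finrank_eq h (by rw [hS.rank, finrank_P0]))
    · exact hSW3 (Submodule.eq_of_le_of_finrank_eq h (by rw [hS.rank, hW3.rank]))
  have key : ∀ A : Submodule ℂ (I6 → ℂ), c.Pl A → A ≠ P0 → A ≤ W ⊔ P0 →
      finrank ℂ (S ⊓ A : Submodule ℂ (I6 → ℂ)) = 2 → c.tl x b = 0 := by
    intro A hA hAne hAU hSA
    have hlt : finrank ℂ (S ⊓ (W ⊔ P0) : Submodule ℂ (I6 → ℂ)) < 3 := by
      rw [← hS.rank]
      apply Submodule.finrank_lt_finrank_of_lt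
      rw [lt_iff_le_and_ne]
      exact ⟨inf_le_left, fun h => hSU (inf_eq_left.mp h)⟩
    have heq : (S ⊓ A : Submodule ℂ (I6 → ℂ)) = S ⊓ (W ⊔ P0) := by
      apply Submodule.eq_of_le_of_finrank_le
      · exact inf_le_inf_left _ hAU
      · omega
    have hxA : iY ℂ x ∈ A := by
      have : iY ℂ x ∈ (S ⊓ (W ⊔ P0) : Submodule ℂ (I6 → ℂ)) :=
        ⟨hx, Submodule.mem_sup_right (iY_mem _)⟩
      rw [← heq] at this
      exact this.2
    obtain ⟨w, hw, hwP⟩ := hA.exists_mem_notMem (pl_P0 hP) hAne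
    have hwU := hAU hw
    rw [hU] at hwU
    obtain ⟨p, hp, q, hq, hpq⟩ := Submodule.mem_sup.mp hwU
    obtain ⟨a, rfl⟩ := Submodule.mem_span_singleton.mp hq
    have ha : a ≠ 0 := by
      rintro rfl
      apply hwP
      rw [← hpq, zero_smul, add_zero]; exact hp
    have h1 := hA.iso.two hxA hw
    rw [← hpq, map_add, hP.two (iY_mem _) hp, zero_add, map_smul, smul_eq_mul] at h1
    rw [tl_apply]
    exact (mul_eq_zero.mp h1).resolve_left ha
  rcases hex with h | h | h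
  · exact key W hW hWne le_sup_left h
  · exact absurd h hS1
  · exact key W3 hW3 h32 hle h

theorem star18 (hP : c.Iso P0) (hirr : Irreducible c.disc) (T : Finset (Submodule ℂ (I6 → ℂ)))
    (hT : ∀ W ∈ T, c.Pl W ∧ W ≠ P0 ∧ finrank ℂ (W ⊓ P0 : Submodule ℂ (I6 → ℂ)) = 2) :
    T.card ≤ 18 := by
  obtain ⟨n, b, W, hn, hb0, hb, hC, hWT, hWU⟩ := star_points hP T hT
  have := nine hP hirr b hb0 hb hC
  omega

theorem star6 (hP : c.Iso P0) (hmeet : ∀ A B, c.Pl A → c.Pl B → A ⊓ B ≠ ⊥)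
    (hirr : Irreducible c.disc) (T : Finset (Submodule ℂ (I6 → ℂ)))
    (hT : ∀ W ∈ T, c.Pl W ∧ W ≠ P0 ∧ finrank ℂ (W ⊓ P0 : Submodule ℂ (I6 → ℂ)) = 2)
    {S : Submodule ℂ (I6 → ℂ)} (hS : c.Pl S) (hSne : S ≠ P0)
    (hS1 : finrank ℂ (S ⊓ P0 : Submodule ℂ (I6 → ℂ)) ≠ 2) : T.card ≤ 6 := by
  obtain ⟨n, b, W, hn, hb0, hb, hC, hWT, hWU⟩ := star_points hP T hT
  obtain ⟨y, hy, hy0⟩ := Submodule.exists_mem_ne_zero_of_ne_bot (hmeet _ _ hS (pl_P0 hP))
  have hyY := eq_iY_of_mem hy.2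
  have hx0 : pY ℂ y ≠ 0 := by
    intro h
    apply hy0
    rw [hyY, h, map_zero]
  have := three_line hP hirr b hb0 hb hC (tl_ne_zero hP hx0) (fun i =>
    tl_node hP hmeet (hT _ (hWT i)).1 (hT _ (hWT i)).2.1 (hT _ (hWT i)).2.2 hS hSne hS1
      (by rw [← hyY]; exact hy.1) (hWU i))
  omega

end Cub

variable {V : Type*} [AddCommGroup V] [Module ℂ V] {c : Cub V} [FiniteDimensional ℂ V]

/-- every discriminant sextic of the cubic is irreducible -/
def Cub.AllIrr (c : Cub V) : Prop :=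
  ∀ e : (I6 → ℂ) ≃ₗ[ℂ] V, (c.comap e).Iso P0 → Irreducible (c.comap e).disc

theorem Cub.caseA19' (hV : finrank ℂ V = 6) (hno : ∀ A B, c.Pl A → c.Pl B → A ≠ B →
      finrank ℂ (A ⊓ B : Submodule ℂ V) ≠ 2)
    (hmeet : ∀ A B, c.Pl A → c.Pl B → A ⊓ B ≠ ⊥) (T : Finset (Submodule ℂ V))
    (hT : ∀ W ∈ T, c.Pl W) : T.card ≤ 20 := by
  classical
  rcases T.eq_empty_or_nonempty with rfl | ⟨A, hAT⟩
  · simp
  have hA := hT A hAT
  obtain ⟨e, he⟩ := Cub.exists_equiv hV hA.rank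
  have h1 : (T.erase A).card ≤ 19 := by
    set S := T.erase A with hS
    have hSm : ∀ i : Fin S.card, (S.equivFin.symm i : Submodule ℂ V) ∈ T ∧
        (S.equivFin.symm i : Submodule ℂ V) ≠ A := fun i =>
      ⟨Finset.mem_of_mem_erase (S.equivFin.symm i).2, Finset.ne_of_mem_erase (S.equivFin.symm i).2⟩
    refine Cub.caseA19 (c := c.comap e) ?_ ?_
      (fun i => (S.equivFin.symm i : Submodule ℂ V).comap (e : (I6 → ℂ) →ₗ[ℂ] V)) ?_ ?_ ?_ ?_ ?_
    · rw [← he, Cub.iso_comap]; exact hA.iso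
    · intro B D hB hD hBD
      have hB' : c.Pl (B.map (e : (I6 → ℂ) →ₗ[ℂ] V)) := by
        rw [← Cub.pl_comap c e, Submodule.comap_map_eq_of_injective e.injective]; exact hB
      have hD' : c.Pl (D.map (e : (I6 → ℂ) →ₗ[ℂ] V)) := by
        rw [← Cub.pl_comap c e, Submodule.comap_map_eq_of_injective e.injective]; exact hD
      have := hno _ _ hB' hD' (fun h => hBD (Submodule.map_injective_of_injective e.injective h))
      rwa [← Submodule.map_inf _ e.injective, LinearEquiv.finrank_map_eq e] at this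
    · intro i
      exact (Cub.pl_comap c e _).mpr (hT _ (hSm i).1)
    · intro i h
      rw [← he] at h
      exact (hSm i).2 (Cub.comap_inj e h)
    · intro i j hij
      exact S.equivFin.symm.injective (Subtype.ext (Cub.comap_inj e hij))
    · intro i h
      rw [← he, ← Submodule.comap_inf] at h
      apply hmeet _ _ (hT _ (hSm i).1) hA
      apply Cub.comap_inj e
      simp only [h]
      symm
      rw [Submodule.comap_bot]
      exact LinearMap.ker_eq_bot.mpr e.injective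
    · intro i j h
      rw [← Submodule.comap_inf] at h
      apply hmeet _ _ (hT _ (hSm i).1) (hT _ (hSm j).1)
      apply Cub.comap_inj e
      simp only [h]
      symm
      rw [Submodule.comap_bot]
      exact LinearMap.ker_eq_bot.mpr e.injective
  have h2 := Finset.card_erase_add_one hAT
  omega

theorem Cub.star18' (hV : finrank ℂ V = 6) (hirr : c.AllIrr) {A : Submodule ℂ V} (hA : c.Pl A)
    (T : Finset (Submodule ℂ V))
    (hT : ∀ W ∈ T, c.Pl W ∧ W ≠ A ∧ finrank ℂ (W ⊓ A : Submodule ℂ V) = 2) : T.card ≤ 18 := by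
  classical
  obtain ⟨e, he⟩ := Cub.exists_equiv hV hA.rank
  have hP : (c.comap e).Iso P0 := by rw [← he, Cub.iso_comap]; exact hA.iso
  have h1 := Cub.star18 (c := c.comap e) hP (hirr e hP)
    (T.image fun W => W.comap (e : (I6 → ℂ) →ₗ[ℂ] V)) (by
      intro W hW
      obtain ⟨W', hW', rfl⟩ := Finset.mem_image.mp hW
      obtain ⟨h1, h2, h3⟩ := hT W' hW'
      refine ⟨(Cub.pl_comap c e _).mpr h1, ?_, ?_⟩
      · intro h
        rw [← he] at h
        exact h2 (Cub.comap_inj e h)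
      · rw [← he, ← Submodule.comap_inf, Cub.finrank_comap, h3])
  rwa [Finset.card_image_of_injective _ (Cub.comap_inj e)] at h1

theorem Cub.star6' (hV : finrank ℂ V = 6) (hmeet : ∀ A B, c.Pl A → c.Pl B → A ⊓ B ≠ ⊥)
    (hirr : c.AllIrr) {A : Submodule ℂ V} (hA : c.Pl A)
    (T : Finset (Submodule ℂ V))
    (hT : ∀ W ∈ T, c.Pl W ∧ W ≠ A ∧ finrank ℂ (W ⊓ A : Submodule ℂ V) = 2)
    {S : Submodule ℂ V} (hS : c.Pl S) (hSne : S ≠ A)
    (hS1 : finrank ℂ (S ⊓ A : Submodule ℂ V) ≠ 2) : T.card ≤ 6 := by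
  classical
  obtain ⟨e, he⟩ := Cub.exists_equiv hV hA.rank
  have hP : (c.comap e).Iso P0 := by rw [← he, Cub.iso_comap]; exact hA.iso
  have h1 := Cub.star6 (c := c.comap e) hP (by
      intro B D hB hD hBD
      have hB' : c.Pl (B.map (e : (I6 → ℂ) →ₗ[ℂ] V)) := by
        rw [← Cub.pl_comap c e, Submodule.comap_map_eq_of_injective e.injective]; exact hB
      have hD' : c.Pl (D.map (e : (I6 → ℂ) →ₗ[ℂ] V)) := by
        rw [← Cub.pl_comap c e, Submodule.comap_map_eq_of_injective e.injective]; exact hD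
      apply hmeet _ _ hB' hD'
      rw [← Submodule.map_inf _ e.injective, hBD, Submodule.map_bot]) (hirr e hP)
    (T.image fun W => W.comap (e : (I6 → ℂ) →ₗ[ℂ] V)) (by
      intro W hW
      obtain ⟨W', hW', rfl⟩ := Finset.mem_image.mp hW
      obtain ⟨h1, h2, h3⟩ := hT W' hW'
      refine ⟨(Cub.pl_comap c e _).mpr h1, ?_, ?_⟩
      · intro h
        rw [← he] at h
        exact h2 (Cub.comap_inj e h)
      · rw [← he, ← Submodule.comap_inf, Cub.finrank_comap, h3])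
    (S := S.comap (e : (I6 → ℂ) →ₗ[ℂ] V)) ((Cub.pl_comap c e _).mpr hS)
    (fun h => hSne (Cub.comap_inj e (by simp only [h, he])))
    (by rw [← he, ← Submodule.comap_inf, Cub.finrank_comap]; exact hS1)
  rwa [Finset.card_image_of_injective _ (Cub.comap_inj e)] at h1

/-- a smooth cubic fourfold without a pair of disjoint planes and with irreducible discriminant
sextics has at most 20 planes -/
theorem Cub.planes_le20 (hV : finrank ℂ V = 6) (hmeet : ∀ A B, c.Pl A → c.Pl B → A ⊓ B ≠ ⊥)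
    (hirr : c.AllIrr) : {W : Submodule ℂ V | c.Pl W}.encard ≤ 20 := by
  classical
  by_contra hlt
  push Not at hlt
  have h21 : ((21 : ℕ) : ℕ∞) ≤ {W : Submodule ℂ V | c.Pl W}.encard := by
    have := Order.add_one_le_of_lt hlt
    refine le_trans ?_ this
    norm_num
  obtain ⟨T, hT, hT21⟩ := exists_finset_of_le h21
  by_cases hno : ∀ A B, c.Pl A → c.Pl B → A ≠ B → finrank ℂ (A ⊓ B : Submodule ℂ V) ≠ 2
  · have := Cub.caseA19' hV hno hmeet T hT
    omega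
  push Not at hno
  obtain ⟨A, B, hA, hB, hAB, h2⟩ := hno
  -- no plane is collinear with all the others
  have hfar : ∀ X, c.Pl X → ∃ Y, c.Pl Y ∧ Y ≠ X ∧ finrank ℂ (Y ⊓ X : Submodule ℂ V) ≠ 2 := by
    intro X hX
    by_contra hcon
    push Not at hcon
    have h1 := Cub.star18' hV hirr hX (T.erase X) (by
      intro W hW
      have hWT := hT W (Finset.mem_of_mem_erase hW)
      have hWx := Finset.ne_of_mem_erase hW
      exact ⟨hWT, hWx, hcon W hWT hWx⟩)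
    have h2 := Finset.pred_card_le_card_erase (s := T) (a := X)
    omega
  have hdeg : ∀ X Y Z, c.Pl X → c.Pl Y → c.Pl Z → Y ≠ X → Z ≠ X → Y ≠ Z →
      finrank ℂ (Y ⊓ X : Submodule ℂ V) = 2 → finrank ℂ (Z ⊓ X : Submodule ℂ V) = 2 →
      (T.filter fun W => W ≠ Y ∧ W ≠ Z ∧ W ≠ X ∧
        finrank ℂ (W ⊓ X : Submodule ℂ V) = 2).card ≤ 4 := by
    intro X Y Z hX hY hZ hYX hZX hYZ hY2 hZ2
    obtain ⟨S, hS, hSX, hS1⟩ := hfar X hX
    have h6 := Cub.star6' hV hmeet hirr hX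
      (insert Y (insert Z (T.filter fun W => W ≠ Y ∧ W ≠ Z ∧ W ≠ X ∧
        finrank ℂ (W ⊓ X : Submodule ℂ V) = 2))) (by
        intro W hW
        rcases Finset.mem_insert.mp hW with rfl | hW
        · exact ⟨hY, hYX, hY2⟩
        rcases Finset.mem_insert.mp hW with rfl | hW
        · exact ⟨hZ, hZX, hZ2⟩
        obtain ⟨hWT, _, _, h1, h2⟩ := Finset.mem_filter.mp hW
        exact ⟨hT W hWT, h1, h2⟩) hS hSX hS1
    rw [Finset.card_insert_of_notMem, Finset.card_insert_of_notMem] at h6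
    · omega
    · simp
    · simp [hYZ]
  obtain ⟨D, hD, hDA, hDB, hle, hAD, hBD, hthree⟩ := Cub.third hV hA hB hAB h2
  have hcov : T ⊆ {A, B, D} ∪
      ((T.filter fun W => W ≠ B ∧ W ≠ D ∧ W ≠ A ∧ finrank ℂ (W ⊓ A : Submodule ℂ V) = 2) ∪
      ((T.filter fun W => W ≠ A ∧ W ≠ D ∧ W ≠ B ∧ finrank ℂ (W ⊓ B : Submodule ℂ V) = 2) ∪
      (T.filter fun W => W ≠ A ∧ W ≠ B ∧ W ≠ D ∧ finrank ℂ (W ⊓ D : Submodule ℂ V) = 2))) := by
    intro W hW
    have hWpl := hT W hW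
    by_cases w1 : W = A
    · simp [w1]
    by_cases w2 : W = B
    · simp [w2]
    by_cases w3 : W = D
    · simp [w3]
    have hex := (Cub.exactly_one hV hA hB hD hWpl h2 hAD hBD hle hthree w1 w2 w3
      (hmeet _ _ hWpl hA) (hmeet _ _ hWpl hB) (hmeet _ _ hWpl hD)).1
    simp only [Finset.mem_union, Finset.mem_filter]
    rcases hex with h | h | h
    · exact Or.inr (Or.inl ⟨hW, w2, w3, w1, h⟩)
    · exact Or.inr (Or.inr (Or.inl ⟨hW, w1, w3, w2, h⟩))
    · exact Or.inr (Or.inr (Or.inr ⟨hW, w1, w2, w3, h⟩))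
  have hc := Finset.card_le_card hcov
  have h3 : ({A, B, D} : Finset (Submodule ℂ V)).card ≤ 3 := Finset.card_le_three
  have c1 := hdeg A B D hA hB hD hAB.symm hDA hDB.symm (by rw [inf_comm]; exact h2)
    (by rw [inf_comm]; exact hAD)
  have c2 := hdeg B A D hB hA hD hAB hDB hDA.symm h2 (by rw [inf_comm]; exact hBD)
  have c3 := hdeg D A B hD hA hB hDA.symm hDB.symm hAB hAD hBD
  have u1 := Finset.card_union_le ({A, B, D} : Finset (Submodule ℂ V))
      ((T.filter fun W => W ≠ B ∧ W ≠ D ∧ W ≠ A ∧ finrank ℂ (W ⊓ A : Submodule ℂ V) = 2) ∪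
      ((T.filter fun W => W ≠ A ∧ W ≠ D ∧ W ≠ B ∧ finrank ℂ (W ⊓ B : Submodule ℂ V) = 2) ∪
      (T.filter fun W => W ≠ A ∧ W ≠ B ∧ W ≠ D ∧ finrank ℂ (W ⊓ D : Submodule ℂ V) = 2)))
  have u2 := Finset.card_union_le
      (T.filter fun W => W ≠ B ∧ W ≠ D ∧ W ≠ A ∧ finrank ℂ (W ⊓ A : Submodule ℂ V) = 2)
      ((T.filter fun W => W ≠ A ∧ W ≠ D ∧ W ≠ B ∧ finrank ℂ (W ⊓ B : Submodule ℂ V) = 2) ∪
      (T.filter fun W => W ≠ A ∧ W ≠ B ∧ W ≠ D ∧ finrank ℂ (W ⊓ D : Submodule ℂ V) = 2))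
  have u3 := Finset.card_union_le
      (T.filter fun W => W ≠ A ∧ W ≠ D ∧ W ≠ B ∧ finrank ℂ (W ⊓ B : Submodule ℂ V) = 2)
      (T.filter fun W => W ≠ A ∧ W ≠ B ∧ W ≠ D ∧ finrank ℂ (W ⊓ D : Submodule ℂ V) = 2)
  omega

end Pool.Agent.Helper16
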