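import Mathlib
import Pool.Agent.Helper16.CubicGen

set_option autoImplicit false
set_option linter.unusedVariables false
set_option linter.unusedSectionVars false

/-!
A cubic fourfold containing a plane whose quadric surface bundle has a rational section.
-/

namespace Pool.Agent.Helper16

open MvPolynomial Module

attribute [local irreducible] Cub.nf

theorem aeval_smul_hom {σ : Type*} {p : MvPolynomial σ ℂ} {d : ℕ} (hp : p.IsHomogeneous d)
    {K : Type*} [CommRing K] [Algebra ℂ K] (a : K) (z : σ → K) :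
    aeval (a • z) p = a ^ d * aeval z p := by
  rw [aeval_def, eval₂_eq, aeval_def, eval₂_eq, Finset.mul_sum]
  refine Finset.sum_congr rfl fun m hm => ?_
  have hn := hp.degree_eq_sum_deg_support hm
  simp only [Pi.smul_apply, smul_eq_mul, mul_pow]
  rw [Finset.prod_mul_distrib, Finset.prod_pow_eq_pow_sum, ← hn]
  ring

theorem hom_of_eval {σ : Type*} {p : MvPolynomial σ ℂ} {d : ℕ}
    (h : ∀ (a : ℂ) (z : σ → ℂ), eval (a • z) p = a ^ d * eval z p) : p.IsHomogeneous d := by
  have hcomp : ∀ (i : ℕ) (a : ℂ) (z : σ → ℂ), eval (a • z) (homogeneousComponent i p) =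
      a ^ i * eval z (homogeneousComponent i p) := by
    intro i a z
    have := aeval_smul_hom (homogeneousComponent_isHomogeneous i p) a z
    rw [aeval_eq_eval, aeval_eq_eval] at this
    exact this
  have key : ∀ k, k ≠ d → homogeneousComponent k p = 0 := by
    intro k hk
    apply MvPolynomial.funext
    intro z
    let Q : Polynomial ℂ := ∑ i ∈ Finset.range (p.totalDegree + 1),
      Polynomial.C (eval z (homogeneousComponent i p)) * Polynomial.X ^ i -
      Polynomial.C (eval z p) * Polynomial.X ^ d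
    have hQ : Q = 0 := by
      apply Polynomial.funext
      intro a
      simp only [Q, Polynomial.eval_sub, Polynomial.eval_finsetSum, Polynomial.eval_mul,
        Polynomial.eval_C, Polynomial.eval_pow, Polynomial.eval_X, Polynomial.eval_zero]
      have h1 : eval (a • z) p = ∑ i ∈ Finset.range (p.totalDegree + 1),
          eval (a • z) (homogeneousComponent i p) := by
        rw [← map_sum, sum_homogeneousComponent]
      rw [h] at h1
      simp only [hcomp] at h1
      rw [mul_comm (eval z p), h1, sub_eq_zero]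
      refine Finset.sum_congr rfl fun i _ => ?_
      ring
    have h2 := congrArg (fun q => Polynomial.coeff q k) hQ
    simp only [Q, Polynomial.coeff_sub, Polynomial.finsetSum_coeff, Polynomial.coeff_C_mul,
      Polynomial.coeff_X_pow, Polynomial.coeff_zero, hk, if_false, mul_zero, sub_zero] at h2
    by_cases hk2 : k ∈ Finset.range (p.totalDegree + 1)
    · rw [Finset.sum_eq_single k] at h2
      · simpa using h2
      · intro i _ hi; simp [hi.symm]
      · intro h; exact absurd hk2 h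
    · rw [homogeneousComponent_eq_zero, map_zero]
      simp only [Finset.mem_range, not_lt] at hk2; omega
  rw [← sum_homogeneousComponent p]
  apply IsHomogeneous.sum
  intro i _
  by_cases hi : i = d
  · subst hi; exact homogeneousComponent_isHomogeneous _ _
  · rw [key i hi]; exact isHomogeneous_zero _ _ _

/-- two nonzero functionals have a common nonzero -/
theorem exists_both {V : Type*} [AddCommGroup V] [Module ℂ V] {f g : V →ₗ[ℂ] ℂ} (hf : f ≠ 0)
    (hg : g ≠ 0) : ∃ w, f w ≠ 0 ∧ g w ≠ 0 := by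
  obtain ⟨a, ha⟩ : ∃ a, f a ≠ 0 := by
    by_contra hcon
    push Not at hcon
    exact hf (LinearMap.ext hcon)
  obtain ⟨b, hb⟩ : ∃ b, g b ≠ 0 := by
    by_contra hcon
    push Not at hcon
    exact hg (LinearMap.ext hcon)
  by_cases hga : g a = 0
  · by_cases hfb : f b = 0
    · exact ⟨a + b, by rw [map_add, hfb, add_zero]; exact ha, by
        rw [map_add, hga, zero_add]; exact hb⟩
    · exact ⟨b, hfb, hb⟩
  · exact ⟨a, ha, hga⟩

theorem aeval_mem_of {σ : Type*} {K : Type*} [Field K] [Algebra ℂ K] (L : IntermediateField ℂ K)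
    (x : σ → K) (hx : ∀ i, x i ∈ L) (p : MvPolynomial σ ℂ) : aeval x p ∈ L := by
  induction p using MvPolynomial.induction_on with
  | C a => rw [algHom_C]; exact L.algebraMap_mem a
  | add p q hp hq => rw [map_add]; exact L.add_mem hp hq
  | mul_X p j hp => rw [map_mul, aeval_X]; exact L.mul_mem hp (hx j)

namespace Cub

variable {c : Cub (I6 → ℂ)}

theorem t_inl (hP : c.Iso P0) (i j k : Fin 3) : c.t (.inl i) (.inl j) (.inl k) = 0 := by
  have e : ∀ i : Fin 3, (Pi.single (.inl i) 1 : I6 → ℂ) ∈ P0 := by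
    intro i
    rw [mem_P0]
    funext k
    simp
  exact hP.three (e i) (e j) (e k)

theorem ext_vY (hP : c.Iso P0) {S : Type*} [CommRing S] [Algebra ℂ S] (u v w : Fin 4 → S) :
    c.ext S (vY S u) (vY S v) (vY S w) = 0 := by
  rw [ext_apply]
  simp only [Fintype.sum_sum_type, vY_inr, mul_zero, zero_mul, Finset.sum_const_zero, add_zero,
    t_inl hP, map_zero]

theorem T_ptS (hP : c.Iso P0) {S : Type*} [CommRing S] [Algebra ℂ S] (z : Fin 3 → S)
    (v : Fin 4 → S) : c.ext S (pt z v) (pt z v) (pt z v) = 3 * v 3 * c.nf z v v := by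
  have h12 : algebraMap ℂ S (1/2) * 2 = 1 := by
    have h : (2 : S) = algebraMap ℂ S 2 := (map_ofNat _ 2).symm
    rw [h, ← map_mul]; norm_num
  have h13 : algebraMap ℂ S (1/3) * 3 = 1 := by
    have h : (3 : S) = algebraMap ℂ S 3 := (map_ofNat _ 3).symm
    rw [h, ← map_mul]; norm_num
  rw [nf_apply, pt_apply]
  simp only [map_add, map_smul, LinearMap.add_apply, LinearMap.smul_apply, smul_eq_mul, ext_vY hP]
  rw [c.ext23 (vY S v) (iZ S z) (vY S v), c.ext13 (iZ S z) (vY S v) (vY S v),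
    c.ext12 (iZ S z) (vY S v) (iZ S z), c.ext13 (iZ S z) (iZ S z) (vY S v)]
  linear_combination (-3 * v 3 ^ 2 * c.ext S (vY S v) (iZ S z) (iZ S z)) * h12 -
    (v 3 ^ 3 * c.ext S (iZ S z) (iZ S z) (iZ S z)) * h13

theorem vY_mk4S {S : Type*} [CommRing S] [Algebra ℂ S] (y : Fin 3 → S) (u : S) :
    vY S (mk4 y u) = iY S y := by
  funext i; rcases i with i | i
  · fin_cases i <;> rfl
  · simp

theorem nf_scaleS {S : Type*} [CommRing S] [Algebra ℂ S] (a : S) (z : Fin 3 → S)
    (v v' : Fin 4 → S) :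
    c.nf (a • z) v v' = a * c.nf z (mk4 (fun i => v i.castSucc) (a * v 3))
      (mk4 (fun i => v' i.castSucc) (a * v' 3)) := by
  rw [nf_apply, nf_apply]
  have e1 : ∀ v : Fin 4 → S, vY S (mk4 (fun i => v i.castSucc) (a * v 3)) = vY S v := by
    intro v
    rw [vY_mk4S]; rfl
  rw [e1, e1]
  simp only [map_smul, LinearMap.smul_apply, smul_eq_mul, mk4_3]
  ring

/-- isotropic vectors in general position -/
theorem exists_good {s : Fin 4 → ℂ} {z : Fin 3 → ℂ} (hdet : (c.Nm z).det ≠ 0)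
    (hs : s ≠ 0) (hss : c.nf z s s = 0) :
    ∃ v : Fin 4 → ℂ, c.nf z v v = 0 ∧ v 3 = 1 ∧ c.nf z v s ≠ 0 := by
  have hnd : ∀ w : Fin 4 → ℂ, w ≠ 0 → (c.nf z).flip w ≠ 0 := by
    intro w hw h0
    apply hw
    have h1 : (c.Nm z).mulVec w = 0 := by
      rw [← rad_iff]
      intro v'
      rw [nf_symm]
      exact LinearMap.congr_fun h0 v'
    exact Matrix.eq_zero_of_mulVec_eq_zero hdet h1
  set f : (Fin 4 → ℂ) →ₗ[ℂ] ℂ := (c.nf z).flip s with hf
  have hfa : ∀ w, f w = c.nf z w s := fun w => rfl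
  have hf0 : f ≠ 0 := hnd s hs
  have hg0 : (LinearMap.proj 3 : (Fin 4 → ℂ) →ₗ[ℂ] ℂ) ≠ 0 := by
    intro h0
    have := LinearMap.congr_fun h0 (Pi.single 3 1)
    simp at this
  -- it suffices to find `w` with nonzero value
  suffices h : ∃ w, f w ≠ 0 ∧ 2 * f w * w 3 - c.nf z w w * s 3 ≠ 0 by
    obtain ⟨w, hw, hw2⟩ := h
    set μ := c.nf z w w / (2 * f w) with hμ
    have hμ2 : μ * (2 * f w) = c.nf z w w := by
      rw [hμ]; field_simp
    set v0 := w - μ • s with hv0
    have e3 : v0 3 ≠ 0 := by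
      intro h0
      apply hw2
      have : v0 3 = w 3 - μ * s 3 := rfl
      rw [this] at h0
      rw [← hμ2]
      linear_combination (2 * f w) * h0
    have e1 : c.nf z v0 v0 = 0 := by
      rw [hv0]
      simp only [map_sub, map_smul, LinearMap.sub_apply, LinearMap.smul_apply, smul_eq_mul]
      rw [hss, c.nf_symm z s w]
      rw [hfa] at hμ2
      linear_combination -hμ2
    have e2 : c.nf z v0 s ≠ 0 := by
      rw [hv0]
      simp only [map_sub, map_smul, LinearMap.sub_apply, LinearMap.smul_apply, smul_eq_mul]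
      rw [hss, mul_zero, sub_zero]; exact hw
    refine ⟨(v0 3)⁻¹ • v0, ?_, ?_, ?_⟩
    · simp only [map_smul, LinearMap.smul_apply, smul_eq_mul, e1, mul_zero]
    · simp [e3]
    · simp only [map_smul, LinearMap.smul_apply, smul_eq_mul]
      exact mul_ne_zero (inv_ne_zero e3) e2
  by_cases hs3 : s 3 = 0
  · obtain ⟨w, h1, h2⟩ := exists_both hf0 hg0
    refine ⟨w, h1, ?_⟩
    rw [hs3, mul_zero, sub_zero]
    exact mul_ne_zero (mul_ne_zero two_ne_zero h1) h2
  · -- a vector killed by both functionals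
    obtain ⟨w', hw'0, hw'f, hw'3⟩ : ∃ w' : Fin 4 → ℂ, w' ≠ 0 ∧ f w' = 0 ∧ w' 3 = 0 := by
      let φ : (Fin 4 → ℂ) →ₗ[ℂ] (ℂ × ℂ) := f.prod (LinearMap.proj 3)
      have h1 := LinearMap.finrank_range_add_finrank_ker φ
      have h2 : finrank ℂ (LinearMap.range φ) ≤ 2 := by
        refine (Submodule.finrank_le _).trans ?_
        simp
      have h3 : finrank ℂ (Fin 4 → ℂ) = 4 := by simp
      rw [h3] at h1
      have h4 : 0 < finrank ℂ (LinearMap.ker φ) := by omega
      obtain ⟨⟨w', hw'⟩, hne⟩ := finrank_pos_iff_exists_ne_zero.mp h4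
      have h5 := LinearMap.mem_ker.mp hw'
      refine ⟨w', fun h => hne (Subtype.ext h), ?_, ?_⟩
      · exact congrArg Prod.fst h5
      · exact congrArg Prod.snd h5
    obtain ⟨w, h1, h2⟩ := exists_both hf0 (hnd w' hw'0)
    have h2' : c.nf z w w' ≠ 0 := h2
    have key : ∀ t : ℂ, 2 * f (w + t • w') * (w + t • w') 3 -
        c.nf z (w + t • w') (w + t • w') * s 3 =
        2 * f w * w 3 - (c.nf z w w + 2 * t * c.nf z w w' + t ^ 2 * c.nf z w' w') * s 3 := by
      intro t
      have e1 : f (w + t • w') = f w := by rw [map_add, map_smul, hw'f]; simp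
      have e2 : (w + t • w') 3 = w 3 := by simp [hw'3]
      rw [e1, e2]
      simp only [map_add, map_smul, LinearMap.add_apply, LinearMap.smul_apply, smul_eq_mul]
      rw [c.nf_symm z w' w]
      ring
    have e1 : ∀ t : ℂ, f (w + t • w') ≠ 0 := by
      intro t
      rw [map_add, map_smul, hw'f]; simpa using h1
    by_cases ht1 : 2 * f (w + (1:ℂ) • w') * (w + (1:ℂ) • w') 3 -
        c.nf z (w + (1:ℂ) • w') (w + (1:ℂ) • w') * s 3 = 0
    · refine ⟨w + (-1 : ℂ) • w', e1 _, fun ht2 => ?_⟩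
      rw [key] at ht1 ht2
      have : c.nf z w w' * s 3 = 0 := by linear_combination (1/4) * ht2 - (1/4) * ht1
      exact (mul_ne_zero h2' hs3) this
    · exact ⟨_, e1 _, ht1⟩

theorem nf_mem {K : Type*} [Field K] [Algebra ℂ K] (L : IntermediateField ℂ K)
    {z : Fin 3 → K} {v v' : Fin 4 → K} (hz : ∀ k, z k ∈ L) (hv : ∀ i, v i ∈ L)
    (hv' : ∀ i, v' i ∈ L) : c.nf z v v' ∈ L := by
  have h := c.map_nf L.val (fun k => ⟨z k, hz k⟩) (fun i => ⟨v i, hv i⟩) (fun i => ⟨v' i, hv' i⟩)
  have h2 : c.nf z v v' = L.val (c.nf (fun k => (⟨z k, hz k⟩ : L)) (fun i => ⟨v i, hv i⟩)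
      (fun i => ⟨v' i, hv' i⟩)) := by
    rw [h]; rfl
  rw [h2]
  exact (c.nf (fun k => (⟨z k, hz k⟩ : L)) (fun i => ⟨v i, hv i⟩) (fun i => ⟨v' i, hv' i⟩)).2

theorem nf_section {s : Fin 4 → R3} (h0 : c.nf (X : Fin 3 → R3) s s = 0) {S : Type*} [CommRing S]
    [Algebra ℂ S] (z : Fin 3 → S) :
    c.nf z (fun i => aeval z (s i)) (fun i => aeval z (s i)) = 0 := by
  have h1 := c.map_nf (aeval z : R3 →ₐ[ℂ] S) (X : Fin 3 → R3) s s
  rw [h0, map_zero] at h1
  simp only [aeval_X] at h1
  exact h1.symm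

/-- the pairing with the section as a polynomial -/
noncomputable def secp (c : Cub (I6 → ℂ)) (s : Fin 4 → R3) : MvPolynomial I6 ℂ :=
  c.nf (fun k => (X (.inr k) : MvPolynomial I6 ℂ)) (mk4 (fun k => X (.inl k)) 1)
    (fun i => rename Sum.inr (s i))

theorem aeval_secp (s : Fin 4 → R3) {S : Type*} [CommRing S] [Algebra ℂ S] (q : I6 → S) :
    aeval q (c.secp s) = c.nf (pZ S q) (mk4 (pY S q) 1) (fun i => aeval (pZ S q) (s i)) := by
  have h1 := c.map_nf (aeval q : MvPolynomial I6 ℂ →ₐ[ℂ] S)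
    (fun k => (X (.inr k) : MvPolynomial I6 ℂ)) (mk4 (fun k => X (.inl k)) 1)
    (fun i => rename Sum.inr (s i))
  have h2 : (fun i => aeval q ((mk4 (fun k => (X (.inl k) : MvPolynomial I6 ℂ)) 1 :
      Fin 4 → MvPolynomial I6 ℂ) i)) = mk4 (pY S q) 1 := by
    funext i
    fin_cases i <;> simp [mk4]
  have h3 : (fun i => aeval q (rename Sum.inr (s i) : MvPolynomial I6 ℂ)) =
      fun i => aeval (pZ S q) (s i) := by
    funext i
    rw [aeval_rename]
    rfl
  have h4 : (fun k => aeval q (X (.inr k) : MvPolynomial I6 ℂ)) = pZ S q := by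
    funext k
    rw [aeval_X]; rfl
  rw [h2, h3, h4] at h1
  exact h1

/-- scaling of the pairing -/
theorem nf_secp_scale {D : ℕ} {s : Fin 4 → R3}
    (hs : ∀ i, (s i).IsHomogeneous (D + (![1, 1, 1, 0] : Fin 4 → ℕ) i))
    {S : Type*} [CommRing S] [Algebra ℂ S] (a : S) (z : Fin 3 → S) (v : Fin 4 → S) :
    c.nf (a • z) v (fun i => aeval (a • z) (s i)) =
      a ^ (D + 2) * c.nf z (mk4 (fun i => v i.castSucc) (a * v 3)) (fun i => aeval z (s i)) := by
  have e5 : ∀ i, aeval (a • z) (s i) =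
      a ^ (D + (![1, 1, 1, 0] : Fin 4 → ℕ) i) * aeval z (s i) :=
    fun i => aeval_smul_hom (hs i) a _
  have e4 : mk4 (fun i : Fin 3 => aeval (a • z) (s i.castSucc))
      (a * aeval (a • z) (s 3)) = a ^ (D + 1) • fun i => aeval z (s i) := by
    funext i
    fin_cases i
    · simp [mk4, e5]
    · simp [mk4, e5]
    · simp [mk4, e5]
    · simp [mk4, e5]; ring
  rw [nf_scaleS, e4]
  simp only [map_smul, LinearMap.smul_apply, smul_eq_mul]
  ring

theorem secp_hom {D : ℕ} {s : Fin 4 → R3}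
    (hs : ∀ i, (s i).IsHomogeneous (D + (![1, 1, 1, 0] : Fin 4 → ℕ) i)) :
    (c.secp s).IsHomogeneous (D + 3) := by
  apply hom_of_eval
  intro a q
  have e1 := aeval_secp (c := c) s (S := ℂ) (a • q)
  have e2 := aeval_secp (c := c) s (S := ℂ) q
  rw [aeval_eq_eval] at e1 e2
  rw [e1, e2, map_smul, map_smul, nf_secp_scale hs]
  have e3 : mk4 (fun i : Fin 3 => (mk4 (a • pY ℂ q) 1 : Fin 4 → ℂ) i.castSucc)
      (a * (mk4 (a • pY ℂ q) 1 : Fin 4 → ℂ) 3) = a • mk4 (pY ℂ q) 1 := by
    funext i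
    fin_cases i <;> simp [mk4]
  rw [e3]
  simp only [map_smul, LinearMap.smul_apply, smul_eq_mul]
  ring

/-- a point of the cubic in general position with respect to the section -/
theorem exists_good_point (hP : c.Iso P0) {s : Fin 4 → R3} (h0 : c.nf (X : Fin 3 → R3) s s = 0)
    {j1 : Fin 4} (hj1 : s j1 ≠ 0) : ∃ p : I6 → ℂ, c.T p p p = 0 ∧
      eval p (X (.inr 0) * rename Sum.inr (s j1) * c.secp s) ≠ 0 := by
  obtain ⟨b, hb⟩ : ∃ b : Fin 3 → ℂ, eval b (X 0 * s j1 * c.disc) ≠ 0 := by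
    by_contra hcon
    push Not at hcon
    have h1 : (X 0 * s j1 * c.disc : R3) = 0 := by
      apply MvPolynomial.funext
      intro b
      rw [hcon b, map_zero]
    rcases mul_eq_zero.mp h1 with h | h
    · rcases mul_eq_zero.mp h with h | h
      · exact X_ne_zero _ h
      · exact hj1 h
    · exact disc_ne_zero hP h
  rw [map_mul, map_mul, eval_X, eval_disc, ← aeval_eq_eval] at hb
  have hb0 : b 0 ≠ 0 := fun h => hb (by rw [h]; ring)
  have hbs : aeval b (s j1) ≠ 0 := fun h => hb (by rw [h]; ring)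
  have hbd : (c.Nm b).det ≠ 0 := fun h => hb (by rw [h]; ring)
  have hsb0 : (fun i => aeval b (s i)) ≠ 0 := by
    intro h
    exact hbs (congrFun h j1)
  obtain ⟨v, hv, hv3, hvs⟩ := exists_good (c := c) hbd hsb0 (nf_section h0 b)
  refine ⟨pt b v, by rw [T_pt hP, hv, mul_zero], ?_⟩
  have hpY : pY ℂ (pt b v) = fun i => v i.castSucc := by
    funext i
    rw [pt_apply]
    simp
  have hpZ : pZ ℂ (pt b v) = b := by
    funext i
    rw [pt_apply]
    simp [hv3]
  have e1 : aeval (pt b v) (c.secp s) = c.nf b v (fun i => aeval b (s i)) := by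
    rw [aeval_secp, hpZ, hpY]
    have e2 : mk4 (fun i : Fin 3 => v i.castSucc) 1 = v := by
      conv_rhs => rw [eq_mk4 v, hv3]
    rw [e2]
  have e4 : (pt b v) ∘ Sum.inr = b := hpZ
  have e2 : aeval (pt b v) (rename Sum.inr (s j1)) = aeval b (s j1) := by
    rw [aeval_rename, e4]
  have e3 : pt b v (.inr 0) = b 0 := congrFun hpZ 0
  rw [← aeval_eq_eval, map_mul, map_mul, aeval_X, e1, e2, e3]
  exact mul_ne_zero (mul_ne_zero hb0 hbs) hvs

/-- a cubic fourfold containing a plane whose quadric surface bundle has a rational section is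
rational -/
theorem rat4_of_section (hP : c.Iso P0) {D : ℕ} (s : Fin 4 → R3)
    (hs : ∀ i, (s i).IsHomogeneous (D + (![1, 1, 1, 0] : Fin 4 → ℕ) i))
    (h0 : c.nf (X : Fin 3 → R3) s s = 0) (hne : s ≠ 0) : c.Rat4 := by
  classical
  intro K _ _ x hx
  obtain ⟨j1, hj1⟩ := Function.ne_iff.mp hne
  have hj1 : s j1 ≠ 0 := hj1
  obtain ⟨p, hp0, hGp⟩ := exists_good_point hP h0 hj1
  have hGh : (X (Sum.inr 0) * rename Sum.inr (s j1) * c.secp s).IsHomogeneous
      (1 + (D + (![1, 1, 1, 0] : Fin 4 → ℕ) j1) + (D + 3)) :=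
    ((isHomogeneous_X _ _).mul ((hs j1).rename_isHomogeneous)).mul (secp_hom hs)
  have hGx : aeval x (X (Sum.inr 0) * rename Sum.inr (s j1) * c.secp s) ≠ 0 :=
    fun h => hGp (hx.gen _ _ hGh h p hp0)
  set z := pZ K x with hz
  set y := pY K x with hy
  have hGx' : z 0 * aeval z (s j1) * c.nf z (mk4 y 1) (fun i => aeval z (s i)) ≠ 0 := by
    rw [map_mul, map_mul, aeval_X, aeval_secp, aeval_rename] at hGx
    exact hGx
  have hz0 : z 0 ≠ 0 := fun h => hGx' (by rw [h]; ring)
  have hzs : aeval z (s j1) ≠ 0 := fun h => hGx' (by rw [h]; ring)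
  have hzg : c.nf z (mk4 y 1) (fun i => aeval z (s i)) ≠ 0 := fun h => hGx' (by rw [h]; ring)
  -- normalisation
  set zh : Fin 3 → K := (z 0)⁻¹ • z with hzh
  have hzz : z = z 0 • zh := by rw [hzh, smul_smul, mul_inv_cancel₀ hz0, one_smul]
  set w : Fin 4 → K := mk4 y (z 0) with hw
  set sh : Fin 4 → K := fun i => aeval zh (s i) with hsh
  have hsz : ∀ i, aeval z (s i) = z 0 ^ (D + (![1, 1, 1, 0] : Fin 4 → ℕ) i) * sh i := by
    intro i
    have h1 := aeval_smul_hom (hs i) (z 0) zh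
    rw [← hzz] at h1
    exact h1
  have hsh1 : sh j1 ≠ 0 := by
    intro h
    apply hzs
    rw [hsz, h, mul_zero]
  have hshs : c.nf zh sh sh = 0 := nf_section h0 zh
  have hws : c.nf zh w sh ≠ 0 := by
    intro h
    apply hzg
    have e1 := nf_secp_scale (c := c) hs (z 0) zh (mk4 y 1)
    rw [← hzz] at e1
    have e3 : mk4 (fun i : Fin 3 => (mk4 y 1 : Fin 4 → K) i.castSucc)
        (z 0 * (mk4 y 1 : Fin 4 → K) 3) = w := by
      rw [hw]
      funext i
      fin_cases i <;> simp [mk4]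
    rw [e1, e3]
    change z 0 ^ (D + 2) * c.nf zh w sh = 0
    rw [h, mul_zero]
  have h3K : (3 : K) ≠ 0 := by
    have h : (3 : K) = algebraMap ℂ K 3 := (map_ofNat _ 3).symm
    rw [h]
    exact (map_ne_zero _).mpr (by norm_num)
  have h2K : (2 : K) ≠ 0 := by
    have h : (2 : K) = algebraMap ℂ K 2 := (map_ofNat _ 2).symm
    rw [h]
    exact (map_ne_zero _).mpr (by norm_num)
  have hxpt : pt zh w = x := by
    apply vec_ext
    · rw [pt_apply, hw, vY_mk4S, map_add, pY_iY, map_smul, pY_iZ, smul_zero, add_zero]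
    · rw [pt_apply, hw, vY_mk4S, map_add, pZ_iY, map_smul, pZ_iZ, zero_add, mk4_3, ← hzz]
  have hww : c.nf zh w w = 0 := by
    have h1 := T_ptS hP zh w
    rw [hxpt, hx.zero, hw, mk4_3] at h1
    rcases mul_eq_zero.mp h1.symm with h | h
    · rcases mul_eq_zero.mp h with h | h
      · exact absurd h h3K
      · exact absurd h hz0
    · exact h
  -- the direction
  set lam := w j1 / sh j1 with hlam
  set d : Fin 4 → K := w - lam • sh with hd
  have hd1 : d j1 = 0 := by
    change w j1 - lam * sh j1 = 0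
    rw [hlam, div_mul_cancel₀ _ hsh1, sub_self]
  have hds : c.nf zh d sh = c.nf zh w sh := by
    rw [hd]
    simp only [map_sub, map_smul, LinearMap.sub_apply, LinearMap.smul_apply, smul_eq_mul]
    rw [hshs, mul_zero, sub_zero]
  have hdd : c.nf zh d d = - (2 * lam * c.nf zh d sh) := by
    rw [hds, hd]
    simp only [map_sub, map_smul, LinearMap.sub_apply, LinearMap.smul_apply, smul_eq_mul]
    rw [hshs, hww, c.nf_symm zh sh w]
    ring
  obtain ⟨j0, hj0⟩ : ∃ j0, d j0 ≠ 0 := by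
    by_contra hcon
    push Not at hcon
    have : d = 0 := funext hcon
    rw [this] at hds
    apply hws
    rw [← hds]; simp
  have hab : ∀ i j : Fin 4, i ≠ j → ∃ a b : Fin 4, ∀ k, k = i ∨ k = j ∨ k = a ∨ k = b := by
    decide
  obtain ⟨a, b', hab⟩ := hab j0 j1 (fun h => hj0 (by rw [h]; exact hd1))
  let r : Fin 4 → K := ![zh 1, zh 2, d a / d j0, d b' / d j0]
  let L := IntermediateField.adjoin ℂ (Set.range r)
  have hr : ∀ i, r i ∈ L := fun i => IntermediateField.subset_adjoin _ _ ⟨i, rfl⟩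
  have hzhL : ∀ k, zh k ∈ L := by
    intro k
    fin_cases k
    · have : zh 0 = 1 := by
        change (z 0)⁻¹ * z 0 = 1
        exact inv_mul_cancel₀ hz0
      change zh 0 ∈ L
      rw [this]; exact L.one_mem
    · exact hr 0
    · exact hr 1
  have hshL : ∀ i, sh i ∈ L := fun i => aeval_mem_of L zh hzhL (s i)
  set τ := (d j0)⁻¹ with hτ
  have hτ0 : τ ≠ 0 := inv_ne_zero hj0
  have hdL : ∀ k, (τ • d) k ∈ L := by
    intro k
    change τ * d k ∈ L
    rcases hab k with h | h | h | h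
    · rw [h, hτ, inv_mul_cancel₀ hj0]; exact L.one_mem
    · rw [h, hd1, mul_zero]; exact L.zero_mem
    · rw [h, hτ, mul_comm, ← div_eq_mul_inv]; exact hr 2
    · rw [h, hτ, mul_comm, ← div_eq_mul_inv]; exact hr 3
  have hds0 : c.nf zh d sh ≠ 0 := by rw [hds]; exact hws
  have hlamL : τ * lam ∈ L := by
    have e1 : τ * lam = - (c.nf zh (τ • d) (τ • d) / (2 * c.nf zh (τ • d) sh)) := by
      simp only [map_smul, LinearMap.smul_apply, smul_eq_mul]
      rw [hdd]
      field_simp
    rw [e1]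
    refine L.neg_mem (L.div_mem (nf_mem L hzhL hdL hdL) (L.mul_mem ?_ (nf_mem L hzhL hdL hshL)))
    have h : (2 : K) = algebraMap ℂ K 2 := (map_ofNat _ 2).symm
    rw [h]; exact L.algebraMap_mem _
  have hwL : ∀ k, τ * w k ∈ L := by
    intro k
    have e1 : τ * w k = (τ • d) k + (τ * lam) * sh k := by
      change τ * w k = τ * (w k - lam * sh k) + (τ * lam) * sh k
      ring
    rw [e1]
    exact L.add_mem (hdL k) (L.mul_mem hlamL (hshL k))
  refine ⟨r, τ, hτ0, ?_⟩
  intro m
  rcases m with k | k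
  · have e1 : x (.inl k) = w k.castSucc := by
      change y k = _
      rw [hw]
      fin_cases k <;> rfl
    rw [e1]; exact hwL _
  · have e1 : x (.inr k) = w 3 * zh k := by
      change z k = _
      rw [hw, mk4_3]
      conv_lhs => rw [hzz]
      rfl
    rw [e1, ← mul_assoc]
    exact L.mul_mem (hwL 3) (hzhL k)

end Cub

end Pool.Agent.Helper16
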