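import Mathlib

set_option autoImplicit false

namespace Pool.Agent.Helper16

open Module Submodule

/-- over the complex numbers a quadratic polynomial with a nonzero leading coefficient has a root -/
theorem quad_root (a b c : ℂ) (ha : a ≠ 0) : ∃ t : ℂ, a * (t * t) + b * t + c = 0 := by
  obtain ⟨s, hs⟩ : ∃ s : ℂ, discrim a b c = s * s := by
    obtain ⟨s, hs⟩ := IsAlgClosed.exists_pow_nat_eq (discrim a b c) (n := 2) (by norm_num)
    exact ⟨s, by rw [← hs]; ring⟩
  exact exists_quadratic_eq_zero ha ⟨s, hs⟩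

variable {W : Type*} [AddCommGroup W] [Module ℂ W]

/-- Q1: a bilinear form on a space of dimension at least two has a nonzero isotropic vector -/
theorem Q1 (B : W →ₗ[ℂ] W →ₗ[ℂ] ℂ) (x y : W) (hxy : LinearIndependent ℂ ![x, y]) :
    ∃ a b : ℂ, a • x + b • y ≠ 0 ∧ B (a • x + b • y) (a • x + b • y) = 0 := by
  rw [LinearIndependent.pair_iff] at hxy
  by_cases hy : B y y = 0
  · refine ⟨0, 1, ?_, ?_⟩
    · intro h; have := hxy 0 1 h; simp at this
    · simp [hy]
  · obtain ⟨t, ht⟩ := quad_root (B y y) (B x y + B y x) (B x x) hy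
    refine ⟨1, t, ?_, ?_⟩
    · intro h; have := hxy 1 t h; simp at this
    · simp only [one_smul, map_add, map_smul, LinearMap.add_apply, LinearMap.smul_apply,
        smul_eq_mul]
      linear_combination ht

theorem Q1' (B : W →ₗ[ℂ] W →ₗ[ℂ] ℂ) (S : Submodule ℂ W) (hS : 2 ≤ finrank ℂ S) :
    ∃ x ∈ S, x ≠ 0 ∧ B x x = 0 := by
  have hfin : FiniteDimensional ℂ S := FiniteDimensional.of_finrank_pos (by omega)
  obtain ⟨f, hf⟩ := exists_linearIndependent_of_le_finrank (R := ℂ) (M := S) (n := 2) hS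
  have hf2 : LinearIndependent ℂ ![(f 0 : W), (f 1 : W)] := by
    have h1 : LinearIndependent ℂ (fun i => (f i : W)) :=
      hf.map' S.subtype (Submodule.ker_subtype S)
    convert h1 using 1
    ext i; fin_cases i <;> rfl
  obtain ⟨a, b, h1, h2⟩ := Q1 B _ _ hf2
  exact ⟨_, S.add_mem (S.smul_mem _ (f 0).2) (S.smul_mem _ (f 1).2), h1, h2⟩

/-- Q2: two symmetric bilinear forms on a space of dimension at least three have a common
nonzero isotropic vector -/
theorem Q2 (B₁ B₂ : W →ₗ[ℂ] W →ₗ[ℂ] ℂ) (h₁ : ∀ x y, B₁ x y = B₁ y x)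
    (h₂ : ∀ x y, B₂ x y = B₂ y x) (S : Submodule ℂ W) (hS : 3 ≤ finrank ℂ S) :
    ∃ x ∈ S, x ≠ 0 ∧ B₁ x x = 0 ∧ B₂ x x = 0 := by
  have hfin : FiniteDimensional ℂ S := FiniteDimensional.of_finrank_pos (by omega)
  have hnt : Nontrivial S := by
    apply Module.nontrivial_of_finrank_pos (R := ℂ); omega
  -- a nonzero combination with a radical vector
  obtain ⟨s, t, hst, v, hvS, hv0, hrad⟩ : ∃ s t : ℂ, (s ≠ 0 ∨ t ≠ 0) ∧ ∃ v ∈ S, v ≠ 0 ∧
      ∀ w ∈ S, s * B₁ v w + t * B₂ v w = 0 := by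
    let b₁ : S →ₗ[ℂ] Dual ℂ S := (B₁.domRestrict₁₂ S S)
    let b₂ : S →ₗ[ℂ] Dual ℂ S := (B₂.domRestrict₁₂ S S)
    by_cases hinj : Function.Injective b₂
    · have hfr : finrank ℂ S = finrank ℂ (Dual ℂ S) := (Subspace.dual_finrank_eq).symm
      let e : S ≃ₗ[ℂ] Dual ℂ S := LinearEquiv.ofInjectiveOfFinrankEq b₂ hinj hfr
      obtain ⟨μ, hμ⟩ := Module.End.exists_eigenvalue ((e.symm.toLinearMap ∘ₗ b₁ : S →ₗ[ℂ] S))
      obtain ⟨v, hv⟩ := hμ.exists_hasEigenvector
      refine ⟨1, -μ, Or.inl one_ne_zero, v, v.2, ?_, ?_⟩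
      · intro h; exact hv.2 (Subtype.ext h)
      · intro w hw
        have h1 := hv.apply_eq_smul
        have h2 : b₁ v = μ • b₂ v := by
          have h3 := congrArg e h1
          simp only [LinearMap.comp_apply, LinearEquiv.coe_coe, LinearEquiv.apply_symm_apply,
            map_smul] at h3
          rw [h3]; rfl
        have h4 := congrArg (fun g => g ⟨w, hw⟩) h2
        have h5 : B₁ v w = μ * B₂ v w := h4
        rw [h5]; ring
    · rw [← LinearMap.ker_eq_bot, Submodule.eq_bot_iff] at hinj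
      push Not at hinj
      obtain ⟨v, hv, hv0⟩ := hinj
      refine ⟨0, 1, Or.inr one_ne_zero, v, v.2, fun h => hv0 (Subtype.ext h), ?_⟩
      intro w hw
      have h4 := congrArg (fun g => g ⟨w, hw⟩) (LinearMap.mem_ker.mp hv)
      have h5 : B₂ v w = 0 := h4
      rw [h5]; ring
  set B : W →ₗ[ℂ] W →ₗ[ℂ] ℂ := s • B₁ + t • B₂ with hB
  have hBapp : ∀ x y, B x y = s * B₁ x y + t * B₂ x y := by
    intro x y; simp [hB]
  have hBs : ∀ x y, B x y = B y x := by
    intro x y; rw [hBapp, hBapp, h₁, h₂]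
  -- choose two more vectors
  have hspan : finrank ℂ (ℂ ∙ v) = 1 := finrank_span_singleton hv0
  obtain ⟨C, hC⟩ := Submodule.exists_isCompl (Submodule.comap S.subtype (ℂ ∙ v))
  have hcomap : finrank ℂ (Submodule.comap S.subtype (ℂ ∙ v)) = 1 := by
    have : Submodule.comap S.subtype (ℂ ∙ v) = ℂ ∙ (⟨v, hvS⟩ : S) := by
      ext x
      simp only [Submodule.mem_comap, Submodule.mem_span_singleton, Submodule.subtype_apply]
      constructor
      · rintro ⟨a, ha⟩; exact ⟨a, Subtype.ext ha⟩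
      · rintro ⟨a, ha⟩; exact ⟨a, by rw [← ha]; rfl⟩
    rw [this]
    exact finrank_span_singleton (fun h => hv0 (congrArg Subtype.val h))
  have hCfin : 2 ≤ finrank ℂ C := by
    have := Submodule.finrank_add_eq_of_isCompl hC
    omega
  have hCmap : 2 ≤ finrank ℂ (C.map S.subtype) := by
    rw [Submodule.finrank_map_subtype_eq]; exact hCfin
  obtain ⟨w, hwC, hw0, hww⟩ := Q1' B (C.map S.subtype) hCmap
  have hwS : w ∈ S := by
    obtain ⟨w', _, rfl⟩ := Submodule.mem_map.mp hwC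
    exact w'.2
  have hvC : v ∉ C.map S.subtype := by
    intro h
    obtain ⟨v', hv'C, hv'⟩ := Submodule.mem_map.mp h
    have h1 : v' ∈ Submodule.comap S.subtype (ℂ ∙ v) ⊓ C := by
      refine ⟨?_, hv'C⟩
      change S.subtype v' ∈ ℂ ∙ v
      rw [hv']; exact Submodule.mem_span_singleton_self v
    rw [hC.inf_eq_bot, Submodule.mem_bot] at h1
    rw [h1] at hv'; exact hv0 hv'.symm
  have hli : LinearIndependent ℂ ![v, w] := by
    rw [LinearIndependent.pair_iff]
    intro a b hab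
    have ha : a = 0 := by
      by_contra ha
      apply hvC
      have : v = (-(a⁻¹ * b)) • w := by
        have h2 : a • v = -(b • w) := by rw [eq_neg_iff_add_eq_zero]; exact hab
        calc v = a⁻¹ • (a • v) := by rw [smul_smul, inv_mul_cancel₀ ha, one_smul]
          _ = _ := by rw [h2, smul_neg, smul_smul, neg_smul]
      rw [this]; exact Submodule.smul_mem _ _ hwC
    subst ha
    refine ⟨rfl, ?_⟩
    rw [zero_smul, zero_add] at hab
    exact (smul_eq_zero.mp hab).resolve_right hw0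
  have hvv : B v v = 0 := by rw [hBapp]; exact hrad v hvS
  have hvw : B v w = 0 := by rw [hBapp]; exact hrad w hwS
  have hiso : ∀ a b : ℂ, B (a • v + b • w) (a • v + b • w) = 0 := by
    intro a b
    simp only [map_add, map_smul, LinearMap.add_apply, LinearMap.smul_apply, smul_eq_mul]
    rw [hBs w v, hvv, hvw, hww]; ring
  rcases hst with hs | ht
  · obtain ⟨a, b, h1, h2⟩ := Q1 B₂ v w hli
    refine ⟨_, S.add_mem (S.smul_mem a hvS) (S.smul_mem b hwS), h1, ?_, h2⟩
    have h3 := hiso a b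
    rw [hBapp, h2, mul_zero, add_zero] at h3
    exact (mul_eq_zero.mp h3).resolve_left hs
  · obtain ⟨a, b, h1, h2⟩ := Q1 B₁ v w hli
    refine ⟨_, S.add_mem (S.smul_mem a hvS) (S.smul_mem b hwS), h1, h2, ?_⟩
    have h3 := hiso a b
    rw [hBapp, h2, mul_zero, zero_add] at h3
    exact (mul_eq_zero.mp h3).resolve_left ht

end Pool.Agent.Helper16
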