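import Pool.Agent.Helper16.CubicHom

set_option autoImplicit false

namespace Pool.Agent.Helper16

open MvPolynomial Module

section generic

variable (T : (Fin 6 → ℂ) →ₗ[ℂ] (Fin 6 → ℂ) →ₗ[ℂ] (Fin 6 → ℂ) →ₗ[ℂ] ℂ)
variable (w : Basis (Fin 3 ⊕ Fin 3) ℂ (Fin 6 → ℂ))
variable {S S' : Type*} [CommRing S] [Algebra ℂ S] [CommRing S'] [Algebra ℂ S']

/-- the part of bidegree `(2,1)` -/
noncomputable def n1 (p p' : Fin 3 → S) : S :=
  ∑ i, ∑ j, ∑ k, algebraMap ℂ S (3 * T (w (.inl i)) (w (.inl j)) (w (.inr k))) * p i * p j * p' k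

/-- the part of bidegree `(1,2)` -/
noncomputable def n2 (p p' : Fin 3 → S) : S :=
  ∑ i, ∑ j, ∑ k, algebraMap ℂ S (3 * T (w (.inl i)) (w (.inr j)) (w (.inr k))) * p i * p' j * p' k

/-- the vector with coordinates `p, p'` -/
noncomputable def comb (p p' : Fin 3 → S) (m : Fin 6) : S :=
  ∑ i, algebraMap ℂ S (w (.inl i) m) * p i + ∑ i, algebraMap ℂ S (w (.inr i) m) * p' i

/-- coordinates -/
noncomputable def crd (v : Fin 6 → S) (j : Fin 3 ⊕ Fin 3) : S :=
  ∑ m, algebraMap ℂ S (w.coord j (Pi.single m 1)) * v m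

theorem map_n1 (φ : S →ₐ[ℂ] S') (p p' : Fin 3 → S) :
    φ (n1 T w p p') = n1 T w (fun i => φ (p i)) (fun i => φ (p' i)) := by
  simp only [n1, map_sum, map_mul, AlgHom.commutes]

theorem map_n2 (φ : S →ₐ[ℂ] S') (p p' : Fin 3 → S) :
    φ (n2 T w p p') = n2 T w (fun i => φ (p i)) (fun i => φ (p' i)) := by
  simp only [n2, map_sum, map_mul, AlgHom.commutes]

theorem map_comb (φ : S →ₐ[ℂ] S') (p p' : Fin 3 → S) (m : Fin 6) :
    φ (comb w p p' m) = comb w (fun i => φ (p i)) (fun i => φ (p' i)) m := by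
  simp only [comb, map_sum, map_mul, map_add, AlgHom.commutes]

theorem map_crd (φ : S →ₐ[ℂ] S') (v : Fin 6 → S) (j : Fin 3 ⊕ Fin 3) :
    φ (crd w v j) = crd w (fun i => φ (v i)) j := by
  simp only [crd, map_sum, map_mul, AlgHom.commutes]

theorem n1_smul (a b : S) (p p' : Fin 3 → S) :
    n1 T w (fun i => a * p i) (fun i => b * p' i) = a ^ 2 * b * n1 T w p p' := by
  simp only [n1, Finset.mul_sum]
  refine Finset.sum_congr rfl fun i _ => Finset.sum_congr rfl fun j _ =>
    Finset.sum_congr rfl fun k _ => ?_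
  ring

theorem n2_smul (a b : S) (p p' : Fin 3 → S) :
    n2 T w (fun i => a * p i) (fun i => b * p' i) = a * b ^ 2 * n2 T w p p' := by
  simp only [n2, Finset.mul_sum]
  refine Finset.sum_congr rfl fun i _ => Finset.sum_congr rfl fun j _ =>
    Finset.sum_congr rfl fun k _ => ?_
  ring

theorem comb_smul (a : S) (p p' : Fin 3 → S) (m : Fin 6) :
    comb w (fun i => a * p i) (fun i => a * p' i) m = a * comb w p p' m := by
  simp only [comb, Finset.mul_sum, mul_add]
  congr 1
  · refine Finset.sum_congr rfl fun i _ => ?_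
    ring
  · refine Finset.sum_congr rfl fun i _ => ?_
    ring

theorem crd_smul (a : S) (v : Fin 6 → S) (j : Fin 3 ⊕ Fin 3) :
    crd w (fun i => a * v i) j = a * crd w v j := by
  simp only [crd, Finset.mul_sum]
  refine Finset.sum_congr rfl fun i _ => ?_
  ring

theorem pi_eq_sum (v : Fin 6 → ℂ) : v = ∑ m, v m • (Pi.single m 1 : Fin 6 → ℂ) := by
  funext i
  simp [Finset.sum_apply, Pi.single_apply]

theorem mat1 (j j' : Fin 3 ⊕ Fin 3) :
    ∑ m, w.coord j (Pi.single m 1) * (w j') m = if j' = j then 1 else 0 := by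
  have h : w.coord j (w j') = ∑ m, w.coord j (Pi.single m 1) * (w j') m := by
    conv_lhs => rw [pi_eq_sum (w j')]
    rw [map_sum]
    refine Finset.sum_congr rfl fun m _ => ?_
    rw [map_smul, smul_eq_mul, mul_comm]
  rw [← h, Basis.coord_apply, Basis.repr_self, Finsupp.single_apply]

theorem mat2 (m m' : Fin 6) :
    ∑ j, (w j) m' * w.coord j (Pi.single m 1) = if m' = m then 1 else 0 := by
  have h := congrFun (w.sum_repr (Pi.single m 1)) m'
  rw [Finset.sum_apply] at h
  simp only [Pi.smul_apply, smul_eq_mul, Pi.single_apply] at h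
  rw [← h]
  refine Finset.sum_congr rfl fun j _ => ?_
  rw [Basis.coord_apply, mul_comm]

theorem comb_crd (v : Fin 6 → S) (m : Fin 6) :
    comb w (fun i => crd w v (.inl i)) (fun i => crd w v (.inr i)) m = v m := by
  have h1 : comb w (fun i => crd w v (.inl i)) (fun i => crd w v (.inr i)) m =
      ∑ j : Fin 3 ⊕ Fin 3, algebraMap ℂ S (w j m) * crd w v j := by
    rw [Fintype.sum_sum_type]; rfl
  rw [h1]
  simp only [crd, Finset.mul_sum]
  rw [Finset.sum_comm]
  have h2 : ∀ m', ∑ j, algebraMap ℂ S (w j m) * (algebraMap ℂ S (w.coord j (Pi.single m' 1)) *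
      v m') = if m = m' then v m' else 0 := by
    intro m'
    have h3 := congrArg (algebraMap ℂ S) (mat2 w m' m)
    rw [map_sum] at h3
    simp only [map_mul] at h3
    calc _ = (∑ j, algebraMap ℂ S (w j m) * algebraMap ℂ S (w.coord j (Pi.single m' 1))) *
          v m' := by
          rw [Finset.sum_mul]
          refine Finset.sum_congr rfl fun j _ => ?_
          ring
      _ = _ := by
          rw [h3]
          split_ifs <;> simp
  simp only [h2]
  simp

theorem crd_comb_aux (y : Fin 3 ⊕ Fin 3 → S) (j : Fin 3 ⊕ Fin 3) :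
    crd w (fun m => ∑ j', algebraMap ℂ S (w j' m) * y j') j = y j := by
  simp only [crd, Finset.mul_sum]
  rw [Finset.sum_comm]
  have h2 : ∀ j', ∑ m, algebraMap ℂ S (w.coord j (Pi.single m 1)) * (algebraMap ℂ S (w j' m) *
      y j') = if j' = j then y j' else 0 := by
    intro j'
    have h3 := congrArg (algebraMap ℂ S) (mat1 w j j')
    rw [map_sum] at h3
    simp only [map_mul] at h3
    calc _ = (∑ m, algebraMap ℂ S (w.coord j (Pi.single m 1)) * algebraMap ℂ S (w j' m)) *
          y j' := by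
          rw [Finset.sum_mul]
          refine Finset.sum_congr rfl fun j _ => ?_
          ring
      _ = _ := by
          rw [h3]
          split_ifs <;> simp
  simp only [h2]
  simp

theorem crd_comb (p p' : Fin 3 → S) (j : Fin 3 ⊕ Fin 3) :
    crd w (comb w p p') j = Sum.elim p p' j := by
  rw [← crd_comb_aux w (Sum.elim p p') j]
  congr 1
  funext m
  rw [Fintype.sum_sum_type]; rfl

theorem comb_complex (p p' : Fin 3 → ℂ) :
    comb w p p' = ∑ i, p i • w (.inl i) + ∑ i, p' i • w (.inr i) := by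
  funext m
  simp only [comb, Pi.add_apply, Finset.sum_apply, Pi.smul_apply, smul_eq_mul,
    Algebra.algebraMap_self, RingHom.id_apply]
  congr 1
  · refine Finset.sum_congr rfl fun i _ => ?_
    ring
  · refine Finset.sum_congr rfl fun i _ => ?_
    ring

theorem tri_expand (a b c : Fin 3 → ℂ) (u v z : Fin 3 → Fin 6 → ℂ) :
    T (∑ i, a i • u i) (∑ j, b j • v j) (∑ k, c k • z k) =
      ∑ i, ∑ j, ∑ k, T (u i) (v j) (z k) * a i * b j * c k := by
  rw [map_sum T, LinearMap.sum_apply, LinearMap.sum_apply]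
  refine Finset.sum_congr rfl fun i _ => ?_
  rw [map_smul T, LinearMap.smul_apply, LinearMap.smul_apply, map_sum (T (u i)),
    LinearMap.sum_apply, Finset.smul_sum]
  refine Finset.sum_congr rfl fun j _ => ?_
  rw [map_smul (T (u i)), LinearMap.smul_apply, map_sum (T (u i) (v j)), Finset.smul_sum,
    Finset.smul_sum]
  refine Finset.sum_congr rfl fun k _ => ?_
  rw [map_smul (T (u i) (v j))]
  simp only [smul_eq_mul]; ring

theorem n1_complex (p p' : Fin 3 → ℂ) :
    n1 T w p p' = 3 * T (∑ i, p i • w (.inl i)) (∑ i, p i • w (.inl i))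
      (∑ i, p' i • w (.inr i)) := by
  rw [tri_expand]
  simp only [n1, Algebra.algebraMap_self, RingHom.id_apply, Finset.mul_sum]
  refine Finset.sum_congr rfl fun i _ => Finset.sum_congr rfl fun j _ =>
    Finset.sum_congr rfl fun k _ => ?_
  ring

theorem n2_complex (p p' : Fin 3 → ℂ) :
    n2 T w p p' = 3 * T (∑ i, p i • w (.inl i)) (∑ i, p' i • w (.inr i))
      (∑ i, p' i • w (.inr i)) := by
  rw [tri_expand]
  simp only [n2, Algebra.algebraMap_self, RingHom.id_apply, Finset.mul_sum]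
  refine Finset.sum_congr rfl fun i _ => Finset.sum_congr rfl fun j _ =>
    Finset.sum_congr rfl fun k _ => ?_
  ring

end generic

section main

variable {F : MvPolynomial (Fin 6) ℂ}
variable {S : Type*} [CommRing S] [Algebra ℂ S]

theorem aeval_aeval {σ τ R : Type*} [CommRing R] [Algebra ℂ R] (f : σ → MvPolynomial τ ℂ)
    (g : τ → R) (p : MvPolynomial σ ℂ) :
    aeval g (aeval f p) = aeval (fun i => aeval g (f i)) p := by
  rw [← AlgHom.comp_apply]
  congr 1
  apply MvPolynomial.algHom_ext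
  intro i
  simp

/-- universal decomposition of the cubic in adapted coordinates -/
theorem keyid (hF : F.IsHomogeneous 3) (hs : Smooth F)
    (w : Basis (Fin 3 ⊕ Fin 3) ℂ (Fin 6 → ℂ))
    (h1 : ∀ y : Fin 3 → ℂ, eval (∑ i, y i • w (.inl i)) F = 0)
    (h2 : ∀ y : Fin 3 → ℂ, eval (∑ i, y i • w (.inr i)) F = 0) (p p' : Fin 3 → S) :
    aeval (comb w p p') F = n1 (cubOf F hF hs).T w p p' + n2 (cubOf F hF hs).T w p p' := by
  set c := cubOf F hF hs with hc
  have huniv : aeval (comb w (fun i => (X (.inl i) : MvPolynomial (Fin 3 ⊕ Fin 3) ℂ))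
      (fun i => X (.inr i))) F =
      n1 c.T w (fun i => (X (.inl i) : MvPolynomial (Fin 3 ⊕ Fin 3) ℂ)) (fun i => X (.inr i)) +
      n2 c.T w (fun i => (X (.inl i) : MvPolynomial (Fin 3 ⊕ Fin 3) ℂ)) (fun i => X (.inr i)) := by
    apply MvPolynomial.funext
    intro y
    rw [← aeval_eq_eval, map_add, map_n1, map_n2, aeval_aeval]
    simp only [map_comb, aeval_X]
    have e1 : (fun i => comb w (fun i => y (.inl i)) (fun i => y (.inr i)) i) =
      ∑ i, y (.inl i) • w (.inl i) + ∑ i, y (.inr i) • w (.inr i) := comb_complex w _ _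
    rw [e1, n1_complex, n2_complex]
    set u := ∑ i, y (.inl i) • w (.inl i) with hu
    set u' := ∑ i, y (.inr i) • w (.inr i) with hu'
    have e2 : aeval (u + u') F = eval (u + u') F := by rw [aeval_eq_eval]
    rw [e2, ← cubOf_apply F hF hs, ← hc, c.cube_add]
    have e3 : c.T u u u = 0 := by rw [hc, cubOf_apply]; exact h1 _
    have e4 : c.T u' u' u' = 0 := by rw [hc, cubOf_apply]; exact h2 _
    rw [e3, e4]; ring
  have h := congrArg (aeval (Sum.elim p p')) huniv
  rw [map_add, map_n1, map_n2, aeval_aeval] at h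
  simp only [map_comb, aeval_X, Sum.elim_inl, Sum.elim_inr] at h
  exact h

end main

end Pool.Agent.Helper16
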