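import Pool.Agent.Helper16.CubicDec
import Pool.Agent.Helper16.CubicBasic

set_option autoImplicit false
set_option linter.unusedVariables false
set_option linter.unusedSectionVars false

namespace Pool.Agent.Helper16

open MvPolynomial Module

theorem exists_dual_of_hom1 {n : ℕ} {G : MvPolynomial (Fin n) ℂ} (hG : G.IsHomogeneous 1) :
    ∃ f : (Fin n → ℂ) →ₗ[ℂ] ℂ, ∀ x, f x = eval x G := by
  refine ⟨∑ i, (eval 0 (pderiv i G)) • LinearMap.proj i, fun x => ?_⟩
  have h1 := euler_eval hG x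
  simp only [Nat.cast_one, one_mul] at h1
  rw [h1, LinearMap.sum_apply]
  refine Finset.sum_congr rfl fun i _ => ?_
  rw [LinearMap.smul_apply, LinearMap.proj_apply, smul_eq_mul,
    eval_const_of_hom0 (hG.pderiv (i := i)) x, mul_comm]

namespace Cub

variable {c : Cub (I6 → ℂ)}

/-- factorisation of a reducible discriminant -/
theorem exists_factor (hP : c.Iso P0) (hred : ¬ Irreducible c.disc) :
    ∃ (G H : R3) (m e : ℕ), G.IsHomogeneous m ∧ H.IsHomogeneous e ∧ m + e = 6 ∧ m ≠ 0 ∧ e ≠ 0 ∧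
      c.disc = G * H ∧ IsRelPrime G H := by
  have hd0 := disc_ne_zero hP
  have hnu : ¬ IsUnit c.disc := by
    intro hu
    have h1 := MvPolynomial.isUnit_iff_totalDegree_of_isReduced.mp hu
    have h2 := disc_hom.totalDegree hd0
    omega
  obtain ⟨G, H, hGH, hG, hH⟩ : ∃ G H : R3, c.disc = G * H ∧ ¬ IsUnit G ∧ ¬ IsUnit H := by
    by_contra hcon
    push Not at hcon
    apply hred
    refine ⟨hnu, ?_⟩
    intro a b hab
    by_cases ha : IsUnit a
    · exact Or.inl ha
    · exact Or.inr (hcon a b hab ha)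
  obtain ⟨m, e, hGm, hHe, hme⟩ := hom_factor (by rw [← hGH]; exact disc_hom)
    (by rw [← hGH]; exact hd0)
  have hG0 : G ≠ 0 := by rintro rfl; apply hd0; rw [hGH, zero_mul]
  have hH0 : H ≠ 0 := by rintro rfl; apply hd0; rw [hGH, mul_zero]
  have hdeg : ∀ {F : R3} {k : ℕ}, F.IsHomogeneous k → F ≠ 0 → ¬ IsUnit F → k ≠ 0 := by
    intro F k hF hF0 hu hk
    apply hu
    subst hk
    rw [← totalDegree_zero_iff_isHomogeneous, totalDegree_eq_zero_iff_eq_C] at hF
    rw [hF]
    apply IsUnit.map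
    rw [isUnit_iff_ne_zero]
    intro h0; apply hF0; rw [hF, h0, map_zero]
  refine ⟨G, H, m, e, hGm, hHe, hme, hdeg hGm hG0 hG, hdeg hHe hH0 hH, hGH, ?_⟩
  refine isRelPrime_of_irr hG0 fun π hπ hπG hπH => ?_
  obtain ⟨q, hq⟩ := hπG
  obtain ⟨r, hr⟩ := hπH
  obtain ⟨k, _, hk, _, _⟩ := hom_factor (by rw [← hq]; exact hGm) (by rw [← hq]; exact hG0)
  refine no_curve hP hπ hk fun z hz0 hπz => ?_
  refine sing hP hz0 ?_ fun k => ?_
  · rw [hGH, hq, hr, map_mul, map_mul, hπz, zero_mul, zero_mul]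
  · rw [hGH, hq, hr]
    simp only [Derivation.leibniz, smul_eq_mul, map_add, map_mul, hπz]
    ring

/-- the idempotent with vanishing last entry -/
theorem idem' (hP : c.Iso P0) (hred : ¬ Irreducible c.disc) :
    ∃ E : Matrix (Fin 4) (Fin 4) R3, (∀ i j, HZ (E i j) (wt j - wt i)) ∧ E * E = E ∧
      E * c.Nm (X : Fin 3 → R3) = c.Nm (X : Fin 3 → R3) * E.transpose ∧ E ≠ 0 ∧ E 3 3 = 0 := by
  obtain ⟨G, H, m, e, hG, hH, hme, hm, he, hD, hrel⟩ := exists_factor hP hred
  obtain ⟨E, hEh, hEE, hEN, hE0, hE1⟩ := idem hP hG hH hme hm he hD hrel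
  have hcol : ∀ k : Fin 3, E k.castSucc 3 = 0 := by
    intro k
    apply (hEh _ _).eq_zero
    fin_cases k <;> simp [wt]
  have hsq : E 3 3 * E 3 3 = E 3 3 := by
    have h1 := congrFun (congrFun hEE 3) 3
    rw [Matrix.mul_apply, Fin.sum_univ_castSucc] at h1
    have h2 : ∑ k : Fin 3, E 3 k.castSucc * E k.castSucc 3 = 0 :=
      Finset.sum_eq_zero fun k _ => by rw [hcol, mul_zero]
    rw [h2, zero_add] at h1
    exact h1
  rcases mul_eq_zero.mp (show E 3 3 * (E 3 3 - 1) = 0 by rw [mul_sub, hsq]; ring) with h | h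
  · exact ⟨E, hEh, hEE, hEN, hE0, h⟩
  · refine ⟨1 - E, ?_, ?_, ?_, ?_, ?_⟩
    · intro i j
      rw [Matrix.sub_apply]
      refine HZ.sub ?_ (hEh i j)
      by_cases hij : i = j
      · subst hij
        rw [Matrix.one_apply_eq, sub_self]
        exact HZ.of_hom (isHomogeneous_one _ _)
      · rw [Matrix.one_apply_ne hij]; exact HZ.zero _
    · rw [sub_mul, mul_sub, mul_sub, hEE]; simp
    · rw [Matrix.transpose_sub, sub_mul, mul_sub, hEN]; simp
    · intro h0
      exact hE1 (sub_eq_zero.mp h0).symm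
    · rw [Matrix.sub_apply, Matrix.one_apply_eq]
      rw [sub_eq_zero.mp h]; ring

/-- the decomposition of a cubic attached to an idempotent -/
theorem split_of_idem (hP : c.Iso P0) {E : Matrix (Fin 4) (Fin 4) R3}
    (hEh : ∀ i j, HZ (E i j) (wt j - wt i)) (hEE : E * E = E)
    (hEN : E * c.Nm (X : Fin 3 → R3) = c.Nm (X : Fin 3 → R3) * E.transpose) (hE0 : E ≠ 0)
    (hE3 : E 3 3 = 0) :
    ∃ K V' : Submodule ℂ (I6 → ℂ), IsCompl K V' ∧ K ≤ P0 ∧ K ≠ ⊥ ∧
      (∀ u ∈ K, ∀ v ∈ V', ∀ w ∈ V', c.T u v w = 0) ∧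
      ∀ (z : Fin 3 → ℂ) (v : Fin 4 → ℂ), ∃ y, iY ℂ y ∈ K ∧
        (E.map (eval z)).transpose.mulVec v = mk4 y 0 := by
  have hcol : ∀ k : Fin 3, E k.castSucc 3 = 0 := by
    intro k
    apply (hEh _ _).eq_zero
    fin_cases k <;> simp [wt]
  have hconst : ∀ (i j : Fin 3) (z : Fin 3 → ℂ), eval z (E i.castSucc j.castSucc) =
      eval 0 (E i.castSucc j.castSucc) := by
    intro i j z
    have h1 : HZ (E i.castSucc j.castSucc) 0 := (hEh _ _).congr (by
      fin_cases i <;> fin_cases j <;> simp [wt])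
    rcases h1 with h1 | ⟨_, h1⟩
    · rw [h1, map_zero, map_zero]
    · exact eval_const_of_hom0 h1 z
  have hlin : ∀ k : Fin 3, ∃ f : (Fin 3 → ℂ) →ₗ[ℂ] ℂ, ∀ x, f x = eval x (E 3 k.castSucc) := by
    intro k
    have h1 : HZ (E 3 k.castSucc) 1 := (hEh _ _).congr (by
      fin_cases k <;> simp [wt])
    rcases h1 with h1 | ⟨_, h1⟩
    · exact ⟨0, fun x => by rw [h1, map_zero]; rfl⟩
    · exact exists_dual_of_hom1 h1
  choose rl hrl using hlin
  -- the projection
  let e : Matrix (Fin 3) (Fin 3) ℂ := Matrix.of fun i j => eval 0 (E i.castSucc j.castSucc)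
  let Pj : (I6 → ℂ) →ₗ[ℂ] (Fin 3 → ℂ) :=
    (Matrix.mulVecLin e.transpose).comp (pY ℂ) + (LinearMap.pi rl).comp (pZ ℂ)
  have hPj : ∀ x k, Pj x k = ∑ i, e i k * pY ℂ x i + rl k (pZ ℂ x) := by
    intro x k
    simp only [Pj, LinearMap.add_apply, LinearMap.comp_apply, Matrix.mulVecLin_apply,
      Pi.add_apply, LinearMap.pi_apply, Matrix.mulVec, dotProduct, Matrix.transpose_apply]
  let Ez : (Fin 3 → ℂ) → Matrix (Fin 4) (Fin 4) ℂ := fun z => E.map (eval z)
  have hEz : ∀ (z y : Fin 3 → ℂ) (u : ℂ), (Ez z).transpose.mulVec (mk4 y u) =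
      mk4 (Pj (iY ℂ y + u • iZ ℂ z)) 0 := by
    intro z y u
    have hval : ∀ k : Fin 3, (Ez z).transpose.mulVec (mk4 y u) k.castSucc =
        Pj (iY ℂ y + u • iZ ℂ z) k := by
      intro k
      rw [hPj]
      simp only [Matrix.mulVec, dotProduct, Matrix.transpose_apply, Ez, Matrix.map_apply]
      rw [Fin.sum_univ_castSucc]
      have e1 : pY ℂ (iY ℂ y + u • iZ ℂ z) = y := by
        rw [map_add, map_smul]; simp
      have e2 : pZ ℂ (iY ℂ y + u • iZ ℂ z) = u • z := by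
        rw [map_add, map_smul]; simp
      rw [e1, e2, map_smul, hrl, smul_eq_mul]
      have e3 : mk4 y u (Fin.last 3) = u := rfl
      rw [e3]
      have e4 : (Fin.last 3 : Fin 4) = 3 := rfl
      rw [e4, mul_comm u]
      congr 1
      refine Finset.sum_congr rfl fun i _ => ?_
      have e5 : mk4 y u i.castSucc = y i := by fin_cases i <;> rfl
      rw [e5, hconst]; rfl
    have h3 : (Ez z).transpose.mulVec (mk4 y u) 3 = 0 := by
      simp only [Matrix.mulVec, dotProduct, Matrix.transpose_apply, Ez, Matrix.map_apply]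
      rw [Fin.sum_univ_castSucc]
      have e4 : (Fin.last 3 : Fin 4) = 3 := rfl
      rw [e4, hE3]
      simp only [hcol, map_zero, zero_mul, Finset.sum_const_zero, add_zero]
    rw [eq_mk4 ((Ez z).transpose.mulVec (mk4 y u)), h3]
    congr 1
    funext k
    exact hval k
  have hEzE : ∀ z, Ez z * Ez z = Ez z := by
    intro z
    have := congrArg (fun M : Matrix (Fin 4) (Fin 4) R3 => M.map (eval z)) hEE
    simp only [Matrix.map_mul] at this
    exact this
  have hEzN : ∀ z, Ez z * c.Nm z = c.Nm z * (Ez z).transpose := by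
    intro z
    have := congrArg (fun M : Matrix (Fin 4) (Fin 4) R3 => M.map (eval z)) hEN
    simp only [Matrix.map_mul, c.Nm_eval, Matrix.transpose_map] at this
    exact this
  let Q : (I6 → ℂ) →ₗ[ℂ] (I6 → ℂ) := (iY ℂ).comp Pj
  have hQ : ∀ x, Q x = iY ℂ (Pj x) := fun x => rfl
  have hPjj : ∀ x, Pj (iY ℂ (Pj x)) = Pj x := by
    intro x
    have h1 := hEz (pZ ℂ x) (pY ℂ x) 1
    rw [one_smul, ← decomp x] at h1
    have h2 := hEz (pZ ℂ x) (Pj x) 0
    rw [zero_smul, add_zero] at h2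
    have h3 : (Ez (pZ ℂ x)).transpose.mulVec ((Ez (pZ ℂ x)).transpose.mulVec
        (mk4 (pY ℂ x) 1)) = (Ez (pZ ℂ x)).transpose.mulVec (mk4 (pY ℂ x) 1) := by
      rw [Matrix.mulVec_mulVec, ← Matrix.transpose_mul, hEzE]
    rw [h1, h2] at h3
    funext k
    have h4 := congrFun h3 k.castSucc
    fin_cases k
    · exact h4
    · exact h4
    · exact h4
  have hQQ : Q ∘ₗ Q = Q := by
    apply LinearMap.ext
    intro x
    change iY ℂ (Pj (iY ℂ (Pj x))) = iY ℂ (Pj x)
    rw [hPjj]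
  have hker : ∀ x, x ∈ LinearMap.ker Q → Pj x = 0 := by
    intro x hx
    have h1 : iY ℂ (Pj x) = 0 := LinearMap.mem_ker.mp hx
    exact iY_inj h1
  refine ⟨LinearMap.range Q, LinearMap.ker Q, ?_, ?_, ?_, ?_, ?_⟩
  · exact LinearMap.IsIdempotentElem.isCompl hQQ
  · rintro _ ⟨x, rfl⟩
    exact iY_mem _
  · intro hbot
    apply hE0
    have hQ0 : Q = 0 := LinearMap.range_eq_bot.mp hbot
    have hPj0 : ∀ x, Pj x = 0 := by
      intro x
      apply hker
      rw [hQ0]; simp
    have hz : ∀ z, Ez z = 0 := by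
      intro z
      have h1 : ∀ v, (Ez z).transpose.mulVec v = 0 := by
        intro v
        rw [eq_mk4 v, hEz, hPj0]
        funext i
        fin_cases i <;> rfl
      have h2 : (Ez z).transpose = 0 := by
        apply Matrix.ext_of_mulVec_single
        intro i
        rw [h1, Matrix.zero_mulVec]
      rw [← Matrix.transpose_transpose (Ez z), h2, Matrix.transpose_zero]
    ext1 i j
    apply MvPolynomial.funext
    intro z
    have := congrFun (congrFun (hz z) i) j
    rw [Matrix.zero_apply, map_zero]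
    exact this
  · -- orthogonality
    have hxx : ∀ u ∈ LinearMap.range Q, ∀ x ∈ LinearMap.ker Q, c.T x x u = 0 := by
      rintro _ ⟨u', rfl⟩ x hx
      set z := pZ ℂ x with hz
      set y0 := Pj u' with hy0
      have h1 : (Ez z).transpose.mulVec (mk4 (pY ℂ x) 1) = 0 := by
        have h2 := hEz z (pY ℂ x) 1
        rw [one_smul, hz, ← decomp x, hker x hx] at h2
        rw [hz, h2]
        funext i
        fin_cases i <;> rfl
      have h2 : (Ez z).transpose.mulVec (mk4 y0 0) = mk4 y0 0 := by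
        rw [hEz, zero_smul, add_zero, hy0, hPjj]
      have h3 : c.nf z (mk4 (pY ℂ x) 1) (mk4 y0 0) = 0 := by
        rw [← h2, nf_eq_dot]
        have h4 : (c.Nm z).mulVec ((Ez z).transpose.mulVec (mk4 y0 0)) =
            (Ez z).mulVec ((c.Nm z).mulVec (mk4 y0 0)) := by
          rw [Matrix.mulVec_mulVec, Matrix.mulVec_mulVec, hEzN]
        rw [h4, Matrix.dotProduct_mulVec, ← Matrix.mulVec_transpose, h1]
        simp
      have h5 := T_pt_Y hP z (mk4 (pY ℂ x) 1) (mk4 y0 0) rfl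
      rw [h3, mul_zero, pt_mk4, one_smul, hz, ← decomp x, vY_mk4] at h5
      exact h5
    intro u hu v hv w hw
    have h1 := hxx u hu (v + w) (Submodule.add_mem _ hv hw)
    have h2 := hxx u hu v hv
    have h3 := hxx u hu w hw
    simp only [map_add, LinearMap.add_apply] at h1
    rw [h2, h3, c.s12 w v u] at h1
    have h4 : c.T v w u = 0 := by linear_combination (1/2) * h1
    rw [c.rot u v w]; exact h4
  · intro z v
    refine ⟨Pj (iY ℂ (fun a => v a.castSucc) + v 3 • iZ ℂ z), ⟨_, rfl⟩, ?_⟩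
    have h1 := hEz z (fun a => v a.castSucc) (v 3)
    rw [← eq_mk4 v] at h1
    exact h1

/-- the decomposition of a cubic with reducible discriminant -/
theorem split (hP : c.Iso P0) (hred : ¬ Irreducible c.disc) :
    ∃ K V' : Submodule ℂ (I6 → ℂ), IsCompl K V' ∧ K ≤ P0 ∧ K ≠ ⊥ ∧
      ∀ u ∈ K, ∀ v ∈ V', ∀ w ∈ V', c.T u v w = 0 := by
  obtain ⟨E, hEh, hEE, hEN, hE0, hE3⟩ := idem' hP hred
  obtain ⟨K, V', h1, h2, h3, h4, _⟩ := split_of_idem hP hEh hEE hEN hE0 hE3
  exact ⟨K, V', h1, h2, h3, h4⟩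

end Cub

end Pool.Agent.Helper16
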