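import Pool.Agent.Helper16.CubicSplit

set_option autoImplicit false
set_option linter.unusedVariables false
set_option linter.unusedSectionVars false

/-!
The dimension of the splitting summand.
-/

namespace Pool.Agent.Helper16

open MvPolynomial Module

theorem deg_ne_zero_of_not_unit {F : R3} {k : ℕ} (hF : F.IsHomogeneous k) (hF0 : F ≠ 0)
    (hu : ¬ IsUnit F) : k ≠ 0 := by
  intro hk
  apply hu
  subst hk
  rw [← totalDegree_zero_iff_isHomogeneous, totalDegree_eq_zero_iff_eq_C] at hF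
  rw [hF]
  apply IsUnit.map
  rw [isUnit_iff_ne_zero]
  intro h0; apply hF0; rw [hF, h0, map_zero]

theorem not_unit_of_deg {F : R3} {k : ℕ} (hF : F.IsHomogeneous k) (hF0 : F ≠ 0) (hk : k ≠ 0) :
    ¬ IsUnit F := by
  intro hu
  have h1 := MvPolynomial.isUnit_iff_totalDegree_of_isReduced.mp hu
  have h2 := hF.totalDegree hF0
  omega

theorem exists_factor_of_red {F : R3} {n : ℕ} (hF : F.IsHomogeneous n) (hF0 : F ≠ 0) (hn : n ≠ 0)
    (hred : ¬ Irreducible F) : ∃ (a b : R3) (i j : ℕ), a.IsHomogeneous i ∧ b.IsHomogeneous j ∧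
      i + j = n ∧ i ≠ 0 ∧ j ≠ 0 ∧ F = a * b := by
  have hnu := not_unit_of_deg hF hF0 hn
  obtain ⟨G, H, hGH, hG, hH⟩ : ∃ G H : R3, F = G * H ∧ ¬ IsUnit G ∧ ¬ IsUnit H := by
    by_contra hcon
    push Not at hcon
    apply hred
    refine ⟨hnu, ?_⟩
    intro a b hab
    by_cases ha : IsUnit a
    · exact Or.inl ha
    · exact Or.inr (hcon a b hab ha)
  obtain ⟨m, e, hGm, hHe, hme⟩ := hom_factor (by rw [← hGH]; exact hF) (by rw [← hGH]; exact hF0)
  have hG0 : G ≠ 0 := by rintro rfl; apply hF0; rw [hGH, zero_mul]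
  have hH0 : H ≠ 0 := by rintro rfl; apply hF0; rw [hGH, mul_zero]
  exact ⟨G, H, m, e, hGm, hHe, hme, deg_ne_zero_of_not_unit hGm hG0 hG,
    deg_ne_zero_of_not_unit hHe hH0 hH, hGH⟩

namespace Cub

variable {c : Cub (I6 → ℂ)}

/-- the factors of the discriminant are coprime -/
theorem relprime_of_factor (hP : c.Iso P0) {G H : R3} {m : ℕ} (hGm : G.IsHomogeneous m)
    (hGH : c.disc = G * H) : IsRelPrime G H := by
  have hd0 := disc_ne_zero hP
  have hG0 : G ≠ 0 := by rintro rfl; apply hd0; rw [hGH, zero_mul]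
  refine isRelPrime_of_irr hG0 fun π hπ hπG hπH => ?_
  obtain ⟨q, hq⟩ := hπG
  obtain ⟨r, hr⟩ := hπH
  obtain ⟨k, _, hk, _, _⟩ := hom_factor (by rw [← hq]; exact hGm) (by rw [← hq]; exact hG0)
  refine no_curve hP hπ hk fun z hz0 hπz => ?_
  refine sing hP hz0 ?_ fun k => ?_
  · rw [hGH, hq, hr, map_mul, map_mul, hπz, zero_mul, zero_mul]
  · rw [hGH, hq, hr]
    simp only [Derivation.leibniz, smul_eq_mul, map_add, map_mul, hπz]
    ring

/-- the possible degrees -/
theorem factor_deg (hP : c.Iso P0) (hred : ¬ Irreducible c.disc) :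
    (∃ l q : R3, l.IsHomogeneous 1 ∧ q.IsHomogeneous 5 ∧ Irreducible q ∧ c.disc = l * q) ∨
    ∃ (G H : R3) (m e : ℕ), G.IsHomogeneous m ∧ H.IsHomogeneous e ∧ m + e = 6 ∧ 2 ≤ m ∧ 2 ≤ e ∧
      c.disc = G * H := by
  have hd0 := disc_ne_zero hP
  -- the case of a linear factor
  have hlin : ∀ l q : R3, l.IsHomogeneous 1 → q.IsHomogeneous 5 → c.disc = l * q →
      (∃ l q : R3, l.IsHomogeneous 1 ∧ q.IsHomogeneous 5 ∧ Irreducible q ∧ c.disc = l * q) ∨
      ∃ (G H : R3) (m e : ℕ), G.IsHomogeneous m ∧ H.IsHomogeneous e ∧ m + e = 6 ∧ 2 ≤ m ∧ 2 ≤ e ∧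
        c.disc = G * H := by
    intro l q hl hq hd
    by_cases hqi : Irreducible q
    · exact Or.inl ⟨l, q, hl, hq, hqi, hd⟩
    right
    have hq0 : q ≠ 0 := by rintro rfl; apply hd0; rw [hd, mul_zero]
    obtain ⟨a, b, i, j, ha, hb, hij, hi, hj, hab⟩ := exists_factor_of_red hq hq0 (by norm_num) hqi
    by_cases hi2 : 2 ≤ i
    · exact ⟨a, l * b, i, 1 + j, ha, hl.mul hb, by omega, hi2, by omega, by rw [hd, hab]; ring⟩
    · exact ⟨l * a, b, 1 + i, j, hl.mul ha, hb, by omega, by omega, by omega, by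
        rw [hd, hab]; ring⟩
  obtain ⟨G, H, m, e, hG, hH, hme, hm, he, hD⟩ := exists_factor_of_red disc_hom hd0
    (by norm_num) hred
  by_cases hm2 : 2 ≤ m
  · by_cases he2 : 2 ≤ e
    · exact Or.inr ⟨G, H, m, e, hG, hH, hme, hm2, he2, hD⟩
    · have h1 : e = 1 := by omega
      have h5 : m = 5 := by omega
      subst h1 h5
      exact hlin H G hH hG (by rw [hD, mul_comm])
  · have h1 : m = 1 := by omega
    have h5 : e = 5 := by omega
    subst h1 h5
    exact hlin G H hG hH hD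

/-- a summand of dimension one belongs to a linear factor -/
theorem no_rank_one (hP : c.Iso P0) {G H : R3} {m e : ℕ} (hG : G.IsHomogeneous m)
    (hH : H.IsHomogeneous e) (he : 2 ≤ e) (hD : c.disc = G * H)
    {E V : Matrix (Fin 4) (Fin 4) R3}
    (hVN : V * c.Nm (X : Fin 3 → R3) = G • (1 - E).transpose) {K : Submodule ℂ (I6 → ℂ)}
    (hKE : ∀ (z : Fin 3 → ℂ) (v : Fin 4 → ℂ), ∃ y, iY ℂ y ∈ K ∧
        (E.map (eval z)).transpose.mulVec v = mk4 y 0)
    (hKP : K ≤ P0) : finrank ℂ K ≠ 1 := by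
  intro hK1
  have hd0 := disc_ne_zero hP
  have hH0 : H ≠ 0 := by rintro rfl; apply hd0; rw [hD, mul_zero]
  have hG0 : G ≠ 0 := by rintro rfl; apply hd0; rw [hD, zero_mul]
  obtain ⟨⟨u, hu⟩, hu0, hus⟩ := finrank_eq_one_iff'.mp hK1
  set p := pY ℂ u with hp
  have hup : u = iY ℂ p := eq_iY_of_mem (hKP hu)
  have hp0 : p ≠ 0 := by
    intro h0
    apply hu0
    apply Subtype.ext
    change u = 0
    rw [hup, h0, map_zero]
  set lam := c.tl p with hlam
  have hlam0 : lam ≠ 0 := tl_ne_zero hP hp0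
  have hrel : IsRelPrime G H := relprime_of_factor hP hG hD
  have key : ∀ z, eval z H = 0 → eval z G ≠ 0 → lam z = 0 := by
    intro z hHz hGz
    have hdet : (c.Nm z).det = 0 := by
      rw [← eval_disc, hD, map_mul, hHz, mul_zero]
    obtain ⟨v, hv0, hv⟩ := Matrix.exists_mulVec_eq_zero_iff.mpr hdet
    have h1 : (V.map (eval z)) * c.Nm z = eval z G • (1 - E.map (eval z)).transpose := by
      have h2 := congrArg (fun M : Matrix (Fin 4) (Fin 4) R3 => M.map (eval z)) hVN
      simp only [Matrix.map_mul, c.Nm_eval] at h2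
      rw [h2]
      ext i j
      simp only [Matrix.map_apply, Matrix.smul_apply, Matrix.transpose_apply, Matrix.sub_apply,
        smul_eq_mul, map_mul, map_sub]
      congr 2
      by_cases hij : j = i
      · subst hij; simp
      · rw [Matrix.one_apply_ne hij, Matrix.one_apply_ne hij, map_zero]
    have h2 : eval z G • ((1 - E.map (eval z)).transpose.mulVec v) = 0 := by
      rw [← Matrix.smul_mulVec, ← h1, ← Matrix.mulVec_mulVec, hv, Matrix.mulVec_zero]
    have h3 : (1 - E.map (eval z)).transpose.mulVec v = 0 := (smul_eq_zero.mp h2).resolve_left hGz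
    have h4 : v = (E.map (eval z)).transpose.mulVec v := by
      rw [Matrix.transpose_sub, Matrix.sub_mulVec, Matrix.transpose_one, Matrix.one_mulVec] at h3
      exact sub_eq_zero.mp h3
    obtain ⟨y, hyK, hy⟩ := hKE z v
    obtain ⟨a, ha⟩ := hus ⟨iY ℂ y, hyK⟩
    have ha' : a • u = iY ℂ y := congrArg Subtype.val ha
    have hy2 : y = a • p := by
      have := congrArg (pY ℂ) ha'
      rw [map_smul, pY_iY] at this
      exact this.symm
    have ha0 : a ≠ 0 := by
      rintro rfl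
      apply hv0
      rw [h4, hy, hy2, zero_smul]
      funext i
      fin_cases i <;> rfl
    have h5 : c.nf z v v = 0 := (c.rad_iff z v).mpr hv v
    have h6 : v = mk4 (a • p) 0 := by rw [h4, hy, hy2]
    rw [h6, nf_complex, vY_mk4, map_smul, mk4_3] at h5
    simp only [map_smul, LinearMap.smul_apply, smul_eq_mul] at h5
    have h7 : a * a * lam z = 0 := by
      rw [hlam, tl_apply]
      linear_combination h5
    exact (mul_eq_zero.mp h7).resolve_left (mul_ne_zero ha0 ha0)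
  have hL := linp_irreducible hlam0
  have hπ : ∀ π : R3, Irreducible π → π ∣ H → linp lam ∣ π := by
    intro π hπ hdvd
    have h1 : π ∣ linp lam * G := by
      apply null_lite hπ
      intro z hz
      obtain ⟨q, hq⟩ := hdvd
      have hHz : eval z H = 0 := by rw [hq, map_mul, hz, zero_mul]
      rw [map_mul, eval_linp]
      by_cases hGz : eval z G = 0
      · rw [hGz, mul_zero]
      · rw [key z hHz hGz, zero_mul]
    rcases hπ.prime.dvd_or_dvd h1 with h2 | h2
    · exact ((hπ.dvd_irreducible_iff_associated hL).mp h2).symm.dvd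
    · exact absurd (hrel h2 hdvd) hπ.not_isUnit
  obtain ⟨π, hπi, hπH⟩ := WfDvdMonoid.exists_irreducible_factor
    (not_unit_of_deg hH hH0 (by omega)) hH0
  obtain ⟨H', hH'⟩ := (hπ π hπi hπH).trans hπH
  obtain ⟨i, j, hi, hj, hij⟩ := hom_factor (by rw [← hH']; exact hH) (by rw [← hH']; exact hH0)
  have hi1 : i = 1 := hi.inj_right (linp_hom lam) (linp_ne_zero hlam0)
  have hH'0 : H' ≠ 0 := by rintro rfl; apply hH0; rw [hH', mul_zero]
  obtain ⟨π', hπ'i, hπ'H⟩ := WfDvdMonoid.exists_irreducible_factor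
    (not_unit_of_deg hj hH'0 (by omega)) hH'0
  obtain ⟨H'', hH''⟩ := (hπ π' hπ'i (hπ'H.trans ⟨linp lam, by rw [hH', mul_comm]⟩)).trans hπ'H
  have h1 : c.disc = linp lam * (linp lam * (G * H'')) := by
    rw [hD, hH', hH'']; ring
  have h2 := relprime_of_factor hP (linp_hom lam) h1
  exact hL.not_isUnit (h2 dvd_rfl ⟨_, rfl⟩)

/-- a factorisation of the discriminant without linear factor gives a summand of dimension at
least two -/
theorem split2 (hP : c.Iso P0) {G H : R3} {m e : ℕ} (hG : G.IsHomogeneous m)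
    (hH : H.IsHomogeneous e) (hme : m + e = 6) (hm : 2 ≤ m) (he : 2 ≤ e)
    (hD : c.disc = G * H) :
    ∃ K V' : Submodule ℂ (I6 → ℂ), IsCompl K V' ∧ K ≤ P0 ∧ 2 ≤ finrank ℂ K ∧
      ∀ u ∈ K, ∀ v ∈ V', ∀ w ∈ V', c.T u v w = 0 := by
  have hrel := relprime_of_factor hP hG hD
  obtain ⟨E, U, V, hEh, hEE, hEN, hE0, hE1, hUN, hVN⟩ :=
    idem2 hP hG hH hme (by omega) (by omega) hD hrel
  have hfin : ∀ {K : Submodule ℂ (I6 → ℂ)}, K ≠ ⊥ → finrank ℂ K ≠ 1 → 2 ≤ finrank ℂ K := by
    intro K hK hK1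
    have : finrank ℂ K ≠ 0 := fun h0 => hK (Submodule.finrank_eq_zero.mp h0)
    omega
  have hcol : ∀ k : Fin 3, E k.castSucc 3 = 0 := by
    intro k
    apply (hEh _ _).eq_zero
    fin_cases k <;> simp [wt]
  have hsq : E 3 3 * E 3 3 = E 3 3 := by
    have h1 := congrFun (congrFun hEE 3) 3
    rw [Matrix.mul_apply, Fin.sum_univ_castSucc] at h1
    have h2 : ∑ k : Fin 3, E 3 k.castSucc * E k.castSucc 3 = 0 :=
      Finset.sum_eq_zero fun k _ => by rw [hcol, mul_zero]
    rw [h2, zero_add] at h1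
    exact h1
  rcases mul_eq_zero.mp (show E 3 3 * (E 3 3 - 1) = 0 by rw [mul_sub, hsq]; ring) with h | h
  · obtain ⟨K, V', h1, h2, h3, h4, h5⟩ := split_of_idem hP hEh hEE hEN hE0 h
    exact ⟨K, V', h1, h2, hfin h3 (no_rank_one hP hG hH he hD hVN h5 h2), h4⟩
  · obtain ⟨K, V', h1, h2, h3, h4, h5⟩ := split_of_idem hP (E := 1 - E) (by
      intro i j
      rw [Matrix.sub_apply]
      refine HZ.sub ?_ (hEh i j)
      by_cases hij : i = j
      · subst hij
        rw [Matrix.one_apply_eq, sub_self]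
        exact HZ.of_hom (isHomogeneous_one _ _)
      · rw [Matrix.one_apply_ne hij]; exact HZ.zero _) (by
      rw [sub_mul, mul_sub, mul_sub, hEE]; simp) (by
      rw [Matrix.transpose_sub, sub_mul, mul_sub, hEN]; simp) (by
      intro h0
      exact hE1 (sub_eq_zero.mp h0).symm) (by
      rw [Matrix.sub_apply, Matrix.one_apply_eq]
      rw [sub_eq_zero.mp h]; ring)
    refine ⟨K, V', h1, h2, hfin h3 (no_rank_one hP hH hG hm (by rw [hD, mul_comm]) (V := U)
      (E := 1 - E) ?_ h5 h2), h4⟩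
    rw [hUN]
    congr 2
    abel

end Cub

end Pool.Agent.Helper16
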