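import Mathlib
import Pool.Agent.Helper16.CubicGeom

set_option autoImplicit false
set_option linter.unusedVariables false

namespace Pool.Agent.Helper16

open MvPolynomial Module

/-- index type of an adapted basis: the first summand spans the base plane -/
abbrev I6 := Fin 3 ⊕ Fin 3

namespace Cub

variable (c : Cub (I6 → ℂ))

/-- the coefficient tensor -/
noncomputable def t (i j k : I6) : ℂ := c.T (Pi.single i 1) (Pi.single j 1) (Pi.single k 1)

/-- extension of scalars of the trilinear form -/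
noncomputable def ext (S : Type*) [CommRing S] [Algebra ℂ S] :
    (I6 → S) →ₗ[S] (I6 → S) →ₗ[S] (I6 → S) →ₗ[S] S :=
  ∑ i, ∑ j, ∑ k, (algebraMap ℂ S (c.t i j k)) •
    ((LinearMap.proj i).smulRight ((LinearMap.proj j).smulRight (LinearMap.proj k)))

variable {S S' : Type*} [CommRing S] [Algebra ℂ S] [CommRing S'] [Algebra ℂ S']

theorem ext_apply (x y z : I6 → S) :
    c.ext S x y z = ∑ i, ∑ j, ∑ k, algebraMap ℂ S (c.t i j k) * x i * y j * z k := by
  simp only [ext, LinearMap.sum_apply, LinearMap.smul_apply, LinearMap.smulRight_apply,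
    LinearMap.proj_apply, smul_eq_mul]
  refine Finset.sum_congr rfl fun i _ => Finset.sum_congr rfl fun j _ =>
    Finset.sum_congr rfl fun k _ => ?_
  ring

theorem map_ext (φ : S →ₐ[ℂ] S') (x y z : I6 → S) :
    φ (c.ext S x y z) = c.ext S' (fun i => φ (x i)) (fun i => φ (y i)) (fun i => φ (z i)) := by
  rw [ext_apply, ext_apply]
  simp only [map_sum, map_mul, AlgHom.commutes]

theorem pi_sum (x : I6 → ℂ) : x = ∑ m, x m • (Pi.single m 1 : I6 → ℂ) := by
  funext i
  simp only [Finset.sum_apply, Pi.smul_apply, smul_eq_mul, Pi.single_apply]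
  simp

theorem ext_complex (x y z : I6 → ℂ) : c.ext ℂ x y z = c.T x y z := by
  rw [ext_apply]
  conv_rhs => rw [pi_sum x, pi_sum y, pi_sum z]
  rw [map_sum c.T, LinearMap.sum_apply, LinearMap.sum_apply]
  refine Finset.sum_congr rfl fun i _ => ?_
  rw [map_smul c.T, LinearMap.smul_apply, LinearMap.smul_apply, map_sum (c.T (Pi.single i 1)),
    LinearMap.sum_apply, Finset.smul_sum]
  refine Finset.sum_congr rfl fun j _ => ?_
  rw [map_smul (c.T (Pi.single i 1)), LinearMap.smul_apply,
    map_sum (c.T (Pi.single i 1) (Pi.single j 1)), Finset.smul_sum, Finset.smul_sum]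
  refine Finset.sum_congr rfl fun k _ => ?_
  rw [map_smul (c.T (Pi.single i 1) (Pi.single j 1))]
  simp only [smul_eq_mul, t, Algebra.algebraMap_self, RingHom.id_apply]; ring

theorem t12 (i j k : I6) : c.t i j k = c.t j i k := c.s12 _ _ _
theorem t23 (i j k : I6) : c.t i j k = c.t i k j := c.s23 _ _ _

theorem ext12 (x y z : I6 → S) : c.ext S x y z = c.ext S y x z := by
  rw [ext_apply, ext_apply, Finset.sum_comm]
  refine Finset.sum_congr rfl fun i _ => Finset.sum_congr rfl fun j _ =>
    Finset.sum_congr rfl fun k _ => ?_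
  rw [c.t12 j i k]; ring

theorem ext23 (x y z : I6 → S) : c.ext S x y z = c.ext S x z y := by
  rw [ext_apply, ext_apply]
  refine Finset.sum_congr rfl fun i _ => ?_
  rw [Finset.sum_comm]
  refine Finset.sum_congr rfl fun j _ =>
    Finset.sum_congr rfl fun k _ => ?_
  rw [c.t23 i k j]; ring

theorem ext13 (x y z : I6 → S) : c.ext S x y z = c.ext S z y x := by
  rw [c.ext23, c.ext12, c.ext23]

end Cub

section vec

variable (S : Type*) [CommRing S]

/-- inclusion of the base plane -/
def iY : (Fin 3 → S) →ₗ[S] (I6 → S) where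
  toFun y := Sum.elim y 0
  map_add' x y := by
    funext i; rcases i with i | i <;> simp
  map_smul' a x := by
    funext i; rcases i with i | i <;> simp

/-- inclusion of the complement -/
def iZ : (Fin 3 → S) →ₗ[S] (I6 → S) where
  toFun y := Sum.elim 0 y
  map_add' x y := by
    funext i; rcases i with i | i <;> simp
  map_smul' a x := by
    funext i; rcases i with i | i <;> simp

/-- projection to the complement -/
def pZ : (I6 → S) →ₗ[S] (Fin 3 → S) where
  toFun x := fun k => x (.inr k)
  map_add' x y := rfl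
  map_smul' a x := rfl

/-- projection to the base plane -/
def pY : (I6 → S) →ₗ[S] (Fin 3 → S) where
  toFun x := fun k => x (.inl k)
  map_add' x y := rfl
  map_smul' a x := rfl

variable {S}

@[simp] theorem iY_inl (y : Fin 3 → S) (a : Fin 3) : iY S y (.inl a) = y a := rfl
@[simp] theorem iY_inr (y : Fin 3 → S) (a : Fin 3) : iY S y (.inr a) = 0 := rfl
@[simp] theorem iZ_inl (y : Fin 3 → S) (a : Fin 3) : iZ S y (.inl a) = 0 := rfl
@[simp] theorem iZ_inr (y : Fin 3 → S) (a : Fin 3) : iZ S y (.inr a) = y a := rfl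
@[simp] theorem pY_apply (x : I6 → S) (a : Fin 3) : pY S x a = x (.inl a) := rfl
@[simp] theorem pZ_apply (x : I6 → S) (a : Fin 3) : pZ S x a = x (.inr a) := rfl
@[simp] theorem pY_iY (y : Fin 3 → S) : pY S (iY S y) = y := rfl
@[simp] theorem pZ_iY (y : Fin 3 → S) : pZ S (iY S y) = 0 := rfl
@[simp] theorem pY_iZ (y : Fin 3 → S) : pY S (iZ S y) = 0 := rfl
@[simp] theorem pZ_iZ (y : Fin 3 → S) : pZ S (iZ S y) = y := rfl

theorem decomp (x : I6 → S) : x = iY S (pY S x) + iZ S (pZ S x) := by
  funext i; rcases i with i | i <;> simp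

theorem vec_ext {x y : I6 → S} (h1 : pY S x = pY S y) (h2 : pZ S x = pZ S y) : x = y := by
  rw [decomp x, decomp y, h1, h2]

end vec

/-- the base plane -/
def P0 : Submodule ℂ (I6 → ℂ) := LinearMap.ker (pZ ℂ)

theorem mem_P0 {x : I6 → ℂ} : x ∈ P0 ↔ pZ ℂ x = 0 := LinearMap.mem_ker

theorem iY_mem (y : Fin 3 → ℂ) : iY ℂ y ∈ P0 := by rw [mem_P0]; simp

theorem eq_iY_of_mem {x : I6 → ℂ} (hx : x ∈ P0) : x = iY ℂ (pY ℂ x) := by
  have := decomp x
  rw [mem_P0.mp hx, map_zero, add_zero] at this
  exact this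

theorem finrank_I6 : finrank ℂ (I6 → ℂ) = 6 := by simp

theorem finrank_P0 : finrank ℂ P0 = 3 := by
  have h : P0 = LinearMap.range (iY ℂ) := by
    ext x
    constructor
    · intro hx
      exact ⟨pY ℂ x, (eq_iY_of_mem hx).symm⟩
    · rintro ⟨y, rfl⟩
      exact iY_mem y
  rw [h, LinearMap.finrank_range_of_inj]
  · simp
  · intro a b hab
    have := congrArg (pY ℂ) hab
    simpa using this

end Pool.Agent.Helper16
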