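import Mathlib
import Pool.Agent.Helper16.CubicSplit2
import Pool.Agent.Helper16.CubicK12
import Pool.Agent.Helper76.TwoEck
import Pool.Agent.Helper79.HR.EP7
import Pool.Agent.Helper29.TR.Dim2b
import Pool.Agent.Helper29.TR.Dim3

set_option autoImplicit false
set_option linter.unusedVariables false
set_option linter.unusedSectionVars false

/-!
The strong form of the theorem on reducible discriminants.
-/

namespace Pool.Agent.Helper16

open MvPolynomial Module

namespace Cub

variable {c : Cub (I6 → ℂ)}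

/-- a splitting summand of dimension at least two makes the cubic rational -/
theorem rational_of_big (hP : c.Iso P0) {K V' : Submodule ℂ (I6 → ℂ)} (hKV : IsCompl K V')
    (hK : K ≤ P0) (h2 : 2 ≤ finrank ℂ K) (h : ∀ u ∈ K, ∀ v ∈ V', ∀ w ∈ V', c.T u v w = 0) :
    (∃ A B : Submodule ℂ (I6 → ℂ), c.Pl A ∧ c.Pl B ∧ A ⊓ B = ⊥) ∨
    ∃ e : (I6 → ℂ) ≃ₗ[ℂ] (I6 → ℂ), (c.comap e).Rat4 := by
  have h1 : finrank ℂ K ≤ 3 := by
    have := Submodule.finrank_mono hK
    rwa [finrank_P0] at this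
  have hcases : finrank ℂ K = 2 ∨ finrank ℂ K = 3 := by omega
  rcases hcases with hd | hd
  · rcases CN_of_dim2 hP hKV hK h hd with ⟨u, hu, u', hu', hli, huu⟩ | ⟨e, he⟩
    · exact Or.inl (Pool.Agent.Helper76.TwoEck.disjoint_of_two_eck hP hKV hK hd h hu hu' hli huu)
    · right
      obtain ⟨e', h3⟩ := Pool.Agent.Helper29.TR.rat4_of_CN he
      exact ⟨e'.trans e, h3⟩
  · exact Pool.Agent.Helper29.TR.rat_of_dim3 hP hKV hK hd h

/-- If the discriminant sextic of the projection from the base plane is reducible then the cubic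
contains two disjoint planes, or is rational by a change of coordinates, or the discriminant is
the union of a line and an irreducible quintic, there is an Eckardt point on the base plane, and
the cubic contains exactly 27 planes, all through this point. -/
theorem reducible_strong (hP : c.Iso P0) (hred : ¬ Irreducible c.disc) :
    ((∃ A B : Submodule ℂ (I6 → ℂ), c.Pl A ∧ c.Pl B ∧ A ⊓ B = ⊥) ∨
      ∃ e : (I6 → ℂ) ≃ₗ[ℂ] (I6 → ℂ), (c.comap e).Rat4) ∨
    ((∃ l q : R3, l.IsHomogeneous 1 ∧ q.IsHomogeneous 5 ∧ Irreducible q ∧ c.disc = l * q) ∧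
      ∃ p ∈ P0, p ≠ 0 ∧ (∀ v, c.T p p v = 0 → c.T p v v = 0) ∧ (∀ W, c.Pl W → p ∈ W) ∧
        {W : Submodule ℂ (I6 → ℂ) | c.Pl W}.encard = 27) := by
  rcases factor_deg hP hred with hlq | ⟨G, H, m, e, hG, hH, hme, hm, he, hD⟩
  · obtain ⟨K, V', hKV, hK, hK0, h⟩ := split hP hred
    by_cases h2 : 2 ≤ finrank ℂ K
    · exact Or.inl (rational_of_big hP hKV hK h2 h)
    · have h0 : finrank ℂ K ≠ 0 := fun h2 => hK0 (Submodule.finrank_eq_zero.mp h2)
      have h1 : finrank ℂ K = 1 := by omega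
      obtain ⟨p, hp, hp0, hpE⟩ := eck_of_dim1 hP hKV hK h h1
      have hPl : c.Pl P0 := ⟨finrank_P0, hP⟩
      rcases Pool.Agent.Helper79.HR.eck_summary finrank_I6 hp0 hpE hPl hp with h3 | ⟨h3, h4, -⟩
      · exact Or.inl (Or.inl h3)
      · exact Or.inr ⟨hlq, p, hp, hp0, hpE, h3, h4⟩
  · obtain ⟨K, V', hKV, hK, h2, h⟩ := split2 hP hG hH hme hm he hD
    exact Or.inl (rational_of_big hP hKV hK h2 h)

end Cub

end Pool.Agent.Helper16
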